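import Pool.Agent.Helper20.FS.Defs
import Pool.Agent.Helper20.OP.DefKind

/-!
# Block FS-T14: the classes are definable

As `Pool/Agent/Helper20/OP/DefKind.lean` (`def_emb` is available there): closure lemmas of `Def`.
-/

set_option autoImplicit false

namespace Pool.Agent.Helper20.FS

open FirstOrder FirstOrder.Language Pool.Agent.Helper20.Spectra Pool.Agent.Helper20.OP

private theorem def_equivalence_27 {b : ℕ} (s : Fin b) :
    Def b 0 (fun _ R _ => Equivalence (R s)) := by
  have h : Def b 0 (fun V R _ => (∀ x : V, R s x x) ∧ (∀ x y : V, R s x y → R s y x) ∧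
      ∀ x y z : V, R s x y → R s y z → R s x z) :=
    Def.and (Def.all (Def.rel s _ _)) (Def.and
      (Def.all (Def.all (Def.imp (Def.rel s _ _) (Def.rel s _ _))))
      (Def.all (Def.all (Def.all (Def.imp (Def.rel s _ _) (Def.imp (Def.rel s _ _)
        (Def.rel s _ _)))))))
  refine h.congr fun V R _ => ?_
  constructor
  · rintro ⟨h1, h2, h3⟩
    exact ⟨h1, fun x y => h2, fun x y z => h3⟩
  · rintro ⟨h1, h2, h3⟩
    exact ⟨h1, fun {x y} => h2 x y, fun {x y z} => h3 x y z⟩

private theorem def_is_27 (κ : Kind) : Def0 κ.rels (fun _ R => κ.Is R) := by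
  cases κ with
  | graph =>
    exact Def.and (Def.all (Def.rel (0 : Fin 1) _ _).not)
      (Def.all (Def.all (Def.imp (Def.rel (0 : Fin 1) _ _) (Def.rel (0 : Fin 1) _ _))))
  | equiv =>
    exact Def.and (def_equivalence_27 (0 : Fin 2)) (def_equivalence_27 (1 : Fin 2))

private theorem def_sub_27 {s : ℕ} (P : Str 1 (Fin s)) :
    Def0 1 (fun V R => ∃ f : Fin s → V, Function.Injective f ∧
      ∀ x y, P (0 : Fin 1) x y → R (0 : Fin 1) (f x) (f y)) := by
  unfold Def0
  refine Def.exTuple s (P := fun _ R _ f => Function.Injective f ∧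
    ∀ x y, P (0 : Fin 1) x y → R (0 : Fin 1) (f x) (f y)) ?_
  refine Def.and ?_ (Def.all_fin (fun x => Def.all_fin (fun y =>
    Def.imp (Def.const _) (Def.rel _ _ _))))
  refine (Def.all_fin (γ := Fin s) (P := fun i V R v => ∀ j : Fin s,
    v (Fin.natAdd 0 i) = v (Fin.natAdd 0 j) → i = j) (fun i => Def.all_fin (fun j =>
    (Def.eq _ _).imp (Def.const _)))).congr (fun V R v => ?_)
  exact Iff.rfl

private theorem def_contains_27 (κ : Kind) {s : ℕ} (P : Str κ.rels (Fin s)) :
    Def0 κ.rels (fun _ R => Contains κ P R) := by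
  cases κ with
  | graph => exact def_sub_27 P
  | equiv => exact def_emb (b := 2) P

theorem def_omit (κ : Kind) {m : ℕ} {s : Fin m → ℕ} (P : ∀ i, Str κ.rels (Fin (s i))) :
    Def0 κ.rels (Omit κ P) :=
  Def.and (def_is_27 κ) (Def.all_fin (fun i => (def_contains_27 κ (P i)).not))

end Pool.Agent.Helper20.FS
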