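import Pool.Agent.Helper20.OP.Def

/-!
# Block FS-R1: relativisation of definable conditions

Proof.  Let `φ` be the formula of `hP`.  Show by induction on formulas `φ` of `binLang b` with `m` variables: the condition
`∀ h : ∀ i, Z V R (v i), φ` holds in the structure `({x // Z V R x}, fun r x y => ρ r V R x.1 y.1)` at the tuple
`fun i => ⟨v i, h i⟩`, is `Def b' m`.  `falsum`: `(∀ i, Z V R (v i)) → False` (`Def.all_fin`, `Def.imp`).  `equal`: the terms are variables
(no function symbols, no free variables of type `Empty`; compare `Def.interp_formula` in `OP/Interp.lean`), `Def.eq`.  `rel`: a relation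
symbol of arity `l` is `⟨s, h⟩` with `h : 2 = l`, `subst`; use `hρ s` (`Def2.app`).  `imp`: `(∀ h, A h → B h)` is equivalent to
`(∀ i, Z V R (v i)) → (∀ h, A h) → ∀ h, B h`.  `all`: `∀ x : {x // Z V R x}, ...` is equivalent to `∀ x : V`, the condition of the induction
hypothesis at `Fin.snoc v x` (as `Fin.snoc (fun i => ⟨v i, h i⟩) ⟨x, hx⟩` is the tuple of the pairs of `Fin.snoc v x`, `Fin.lastCases`); use `Def.all`.
At the end `m = 0`.
-/

set_option autoImplicit false

namespace Pool.Agent.Helper20.FS

open FirstOrder FirstOrder.Language Pool.Agent.Helper20.Spectra Pool.Agent.Helper20.OP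

private lemma term_var26 {b m : ℕ} (t : (binLang b).Term (Empty ⊕ Fin m)) :
    ∃ i : Fin m, t = Term.var (Sum.inr i) := by
  cases t with
  | var x =>
    rcases x with x | i
    · exact x.elim
    · exact ⟨i, rfl⟩
  | func f _ => exact Empty.elim f

private theorem relat_formula26 {b b' : ℕ}
    {Z : ∀ V : Type, Str b' V → V → Prop} (hZ : Def1 b' Z)
    {ρ : Fin b → ∀ V : Type, Str b' V → V → V → Prop} (hρ : ∀ r, Def2 b' (ρ r)) {m : ℕ}
    (φ : (binLang b).BoundedFormula Empty m) :
    Def b' m (fun V R v => ∀ h : ∀ i, Z V R (v i),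
      @BoundedFormula.Realize _ {x // Z V R x} (toStr (fun r x y => ρ r V R x.1 y.1)) _ _ φ
        default (fun i => ⟨v i, h i⟩)) := by
  have hdom : ∀ k : ℕ, Def b' k (fun V R v => ∀ i : Fin k, Z V R (v i)) := fun k =>
    Def.all_fin (fun i => hZ.app i)
  induction φ with
  | @falsum m => exact ((hdom m).imp (Def.const False)).congr fun V R v => Iff.rfl
  | @equal m t₁ t₂ =>
    obtain ⟨i, rfl⟩ := term_var26 t₁
    obtain ⟨j, rfl⟩ := term_var26 t₂
    refine ((hdom m).imp (Def.eq i j)).congr fun V R v => ?_
    refine forall_congr' fun h => ?_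
    exact Subtype.ext_iff
  | @rel m l r ts =>
    obtain ⟨s, hs⟩ := r
    subst hs
    obtain ⟨i, hi⟩ := term_var26 (ts 0)
    obtain ⟨j, hj⟩ := term_var26 (ts 1)
    refine ((hdom m).imp ((hρ s).app i j)).congr fun V R v => ?_
    refine forall_congr' fun h => ?_
    let _ := toStr (fun r (x y : {x // Z V R x}) => ρ r V R x.1 y.1)
    show ρ s V R ((ts 0).realize (Sum.elim default fun i => (⟨v i, h i⟩ : {x // Z V R x}))).1
      ((ts 1).realize (Sum.elim default fun i => (⟨v i, h i⟩ : {x // Z V R x}))).1 ↔ _
    rw [hi, hj]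
    exact Iff.rfl
  | @imp m φ ψ ih₁ ih₂ =>
    refine ((hdom m).imp (ih₁.imp ih₂)).congr fun V R v => ?_
    constructor
    · intro H h H1 h'
      exact H h (H1 h)
    · intro H h H1
      exact H h (fun _ => H1) h
  | @all m φ ih =>
    have h1 : Def b' m (fun V R v => ∀ x : V, ∀ h : ∀ i, Z V R ((Fin.snoc v x : Fin (m + 1) → V) i),
        @BoundedFormula.Realize _ {x // Z V R x} (toStr (fun r x y => ρ r V R x.1 y.1)) _ _ φ
          default (fun i => ⟨(Fin.snoc v x : Fin (m + 1) → V) i, h i⟩)) := by
      apply Def.all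
      refine ih.congr fun V R v => ?_
      have h2 : (Fin.snoc (fun i : Fin m => v i.castSucc) (v (Fin.last m)) : Fin (m + 1) → V) = v :=
        Fin.snoc_init_self v
      rw [h2]
    refine h1.congr fun V R v => ?_
    have key : ∀ (h : ∀ i, Z V R (v i)) (x : V) (hx : Z V R x)
        (h' : ∀ i, Z V R ((Fin.snoc v x : Fin (m + 1) → V) i)),
        (Fin.snoc (fun i => (⟨v i, h i⟩ : {x // Z V R x})) ⟨x, hx⟩ : Fin (m + 1) → {x // Z V R x}) =
          fun i => ⟨(Fin.snoc v x : Fin (m + 1) → V) i, h' i⟩ := by
      intro h x hx h'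
      funext i
      apply Subtype.ext
      refine Fin.lastCases ?_ (fun j => ?_) i
      · simp only [Fin.snoc_last]
      · simp only [Fin.snoc_castSucc]
    constructor
    · intro H x h'
      have h : ∀ i, Z V R (v i) := fun i => by
        have := h' i.castSucc
        rwa [Fin.snoc_castSucc] at this
      have hx : Z V R x := by
        have := h' (Fin.last m)
        rwa [Fin.snoc_last] at this
      have := H h ⟨x, hx⟩
      rw [key h x hx h'] at this
      exact this
    · intro H h x
      obtain ⟨x, hx⟩ := x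
      have h' : ∀ i, Z V R ((Fin.snoc v x : Fin (m + 1) → V) i) := by
        intro i
        refine Fin.lastCases ?_ (fun j => ?_) i
        · rw [Fin.snoc_last]; exact hx
        · rw [Fin.snoc_castSucc]; exact h j
      rw [key h x hx h']
      exact H x h'

theorem def_relat {b b' : ℕ} {P : ∀ V : Type, Str b V → Prop} (hP : Def0 b P)
    {Z : ∀ V : Type, Str b' V → V → Prop} (hZ : Def1 b' Z)
    {ρ : Fin b → ∀ V : Type, Str b' V → V → V → Prop} (hρ : ∀ r, Def2 b' (ρ r)) :
    Def0 b' (fun V R => P {x // Z V R x} (fun r x y => ρ r V R x.1 y.1)) := by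
  obtain ⟨φ, hφ⟩ := hP
  refine (relat_formula26 hZ hρ φ).congr fun V R v => ?_
  refine (hφ {x // Z V R x} (fun r x y => ρ r V R x.1 y.1) default).symm.trans ?_
  constructor
  · intro H h
    have : (fun i => (⟨v i, h i⟩ : {x // Z V R x})) = default := Subsingleton.elim _ _
    rw [this]
    exact H
  · intro H
    have h : ∀ i : Fin 0, Z V R (v i) := fun i => i.elim0
    have H1 := H h
    have : (fun i => (⟨v i, h i⟩ : {x // Z V R x})) = default := Subsingleton.elim _ _
    rw [this] at H1
    exact H1

end Pool.Agent.Helper20.FS
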