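import Pool.Agent.Helper20.FS.ModE

/-!
# Block FS-E0: the skeleton of a pair of equivalence relations is definable

Closure lemmas of `Def`.
-/

set_option autoImplicit false

namespace Pool.Agent.Helper20.FS

open Pool.Agent.Helper20.OP

private theorem def_stE97 : Def1 2 (fun _ R => stE R) :=
  Def.ex (Def.ex (Def.and (Def.eq _ _).not (Def.and (Def.eq _ _).not (Def.and (Def.eq _ _).not
    (Def.and (Def.rel (0 : Fin 2) _ _) (Def.rel (0 : Fin 2) _ _))))))

theorem defSk_E : DefSk skE where
  A := Def.and (Def.eq _ _).not (Def.or (Def.rel (1 : Fin 2) _ _)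
    (Def.and (Def.rel (0 : Fin 2) _ _) (Def1.app def_stE97 0).not))
  st := def_stE97
  tr := Def.and (Def1.app def_stE97 0) (Def.rel (0 : Fin 2) _ _)
  jt := Def.const False

end Pool.Agent.Helper20.FS
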