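import Pool.Agent.Helper20.FS.ModG

/-!
# Block FS-G0: the skeleton of a graph is definable

Closure lemmas of `Def`.
-/

set_option autoImplicit false

namespace Pool.Agent.Helper20.FS

open Pool.Agent.Helper20.OP

private lemma g0_j : Def1 1 (fun V R x => jG R x) := by
  have h4 : Def 1 4 (fun _ R v => v 1 ≠ v 2 ∧ v 1 ≠ v 3 ∧ v 2 ≠ v 3 ∧ R 0 (v 0) (v 1) ∧ R 0 (v 0) (v 2) ∧ R 0 (v 0) (v 3)) :=
    (Def.eq 1 2).not.and ((Def.eq 1 3).not.and ((Def.eq 2 3).not.and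
      ((Def.rel 0 0 1).and ((Def.rel 0 0 2).and (Def.rel 0 0 3)))))
  have h3 : Def 1 3 (fun V R v => ∃ w : V, v 1 ≠ v 2 ∧ v 1 ≠ w ∧ v 2 ≠ w ∧ R 0 (v 0) (v 1) ∧ R 0 (v 0) (v 2) ∧ R 0 (v 0) w) :=
    Def.ex (P := fun V R v w => v 1 ≠ v 2 ∧ v 1 ≠ w ∧ v 2 ≠ w ∧ R 0 (v 0) (v 1) ∧ R 0 (v 0) (v 2) ∧ R 0 (v 0) w) h4
  have h2 : Def 1 2 (fun V R v => ∃ z w : V, v 1 ≠ z ∧ v 1 ≠ w ∧ z ≠ w ∧ R 0 (v 0) (v 1) ∧ R 0 (v 0) z ∧ R 0 (v 0) w) :=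
    Def.ex (P := fun V R v z => ∃ w : V, v 1 ≠ z ∧ v 1 ≠ w ∧ z ≠ w ∧ R 0 (v 0) (v 1) ∧ R 0 (v 0) z ∧ R 0 (v 0) w) h3
  exact Def.ex (P := fun V R v y => ∃ z w : V, y ≠ z ∧ y ≠ w ∧ z ≠ w ∧ R 0 (v 0) y ∧ R 0 (v 0) z ∧ R 0 (v 0) w) h2

theorem defSk_G : DefSk skG := by
  have hst2 : Def 1 2 (fun _ R v => jG R (v 1) ∧ R 0 (v 1) (v 0)) := (g0_j.app 1).and (Def.rel 0 1 0)
  have htr3 : Def 1 3 (fun _ R v => jG R (v 2) ∧ R 0 (v 2) (v 0) ∧ R 0 (v 2) (v 1)) :=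
    (g0_j.app 2).and ((Def.rel 0 2 0).and (Def.rel 0 2 1))
  have hA : Def2 1 (fun V R => (skG V R).A) :=
    (Def.rel 0 0 1).and ((g0_j.app 0).not.and (g0_j.app 1).not)
  have hst : Def1 1 (fun V R => (skG V R).st) := Def.ex (P := fun V R v j => jG R j ∧ R 0 j (v 0)) hst2
  have htr : Def2 1 (fun V R => (skG V R).tr) :=
    Def.ex (P := fun V R v j => jG R j ∧ R 0 j (v 0) ∧ R 0 j (v 1)) htr3
  have hjt : Def2 1 (fun V R => (skG V R).jt) := (g0_j.app 0).and (Def.rel 0 0 1)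
  exact ⟨hA, hst, htr, hjt⟩

end Pool.Agent.Helper20.FS
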