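import Pool.Agent.Helper20.FS.ModE

/-!
# Block FS-E2: gaps and segments

Given at most `k` elements of the legs, each leg (with more than `k` elements) has a gap: a number `γ b ≤ k` which is not used.  The used elements
with smaller numbers stay in the tripod; those with larger numbers are in segments; a matched pair of legs gives one segment,
whose elements are numbered from the end of one of the two legs (the one with the smaller code).

`exists_gap`: for each `b` the `k + 1` numbers `0, ..., k < n b` cannot all be used (injectivity, `Finset.card`/`Fintype.card_le_of_injective`).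
`exists_seg`: take injective codes `o : B → ℕ` (`B = T × Fin 3` is finite); `seg (b, i) := (b', n b + n b' - 1 - i)` if `M b b'` and `o b' < o b`
for some `b'` (unique by `func`), otherwise `(b, i)`.  The stated properties: see the proof of `seg` facts below (all numbers `i < n b`).
(1) injectivity.  (2) if `i ≥ 1` and `i < n b` then the second component is `≥ 1`: for the first case `n b + n b' - 1 - i ≥ n b' ≥ 2`.
(3) two elements in the same segment (equal first components) are either in the same leg and `seg` is the same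
transformation for both, or in two matched legs.  Write down which pairs of numbers are adjacent: this is (3a), (3b).
-/

set_option autoImplicit false

namespace Pool.Agent.Helper20.FS

open Pool.Agent.Helper20.OP

theorem exists_gap {T : Type} (n : T × Fin 3 → ℕ) {k s : ℕ} (hk : ∀ b, k < n b) (hs : s ≤ k)
    {V : Type} (u : Fin s → V) (el : T × Fin 3 → ℕ → V)
    (hel : ∀ b i b' i', i < n b → i' < n b' → el b i = el b' i' → b = b' ∧ i = i') :
    ∃ γ : T × Fin 3 → ℕ, ∀ b, γ b ≤ k ∧ ∀ a, u a ≠ el b (γ b) := by
  have key : ∀ b, ∃ i, i ≤ k ∧ ∀ a, u a ≠ el b i := by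
    intro b
    by_contra hcon
    push Not at hcon
    have h1 : ∀ i : Fin (k + 1), ∃ a, u a = el b i := fun i => hcon i (Nat.lt_succ_iff.mp i.2)
    choose f hf using h1
    have hinj : Function.Injective f := by
      intro i i' hii
      have h2 : el b i = el b i' := by rw [← hf, ← hf, hii]
      have hb := hk b
      have h3 := (hel b i b i' (by omega) (by omega) h2).2
      exact Fin.ext h3
    have h4 := Fintype.card_le_of_injective f hinj
    rw [Fintype.card_fin, Fintype.card_fin] at h4
    omega
  choose γ hγ using key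
  exact ⟨γ, hγ⟩

/-- The segments.  `sg b i = (b*, p)`.  For the same leg: the two numbers are transformed by `i ↦ i` or by `i ↦ N - 1 - i` with `N` even.  For two
different legs with the same segment: they are matched, and one of them (`b*`) is not transformed. -/
theorem exists_seg {T : Type} [Finite T] (n : T × Fin 3 → ℕ) (M : T × Fin 3 → T × Fin 3 → Prop)
    (hM : Mat M) (hn : ∀ b, 2 ≤ n b) (he : ∀ b, n b % 2 = 0) :
    ∃ sg : T × Fin 3 → ℕ → (T × Fin 3) × ℕ,
      (∀ b i, 1 ≤ i → i < n b → 1 ≤ (sg b i).2) ∧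
      (∀ b, (∀ i, i < n b → sg b i = (b, i)) ∨
        ∃ b', M b b' ∧ (∀ i, i < n b → sg b i = (b', n b + n b' - 1 - i)) ∧
          ∀ i, i < n b' → sg b' i = (b', i)) ∧
      (∀ b b' i i', b ≠ b' → i < n b → i' < n b' → (sg b i).1 = (sg b' i').1 →
        M b b' ∧ ((sg b i = (b, i) ∧ sg b' i' = (b, n b + n b' - 1 - i')) ∨
          (sg b' i' = (b', i') ∧ sg b i = (b', n b + n b' - 1 - i)))) ∧
      (∀ b b' i i', M b b' → i < n b → i' < n b' → (sg b i).1 = (sg b' i').1) := by
  classical
  obtain ⟨N, ⟨e⟩⟩ := Finite.exists_equiv_fin (T × Fin 3)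
  obtain ⟨o, ho⟩ : ∃ o : T × Fin 3 → ℕ, ∀ b b', o b = o b' → b = b' :=
    ⟨fun b => (e b : ℕ), fun b b' h => e.injective (Fin.ext h)⟩
  obtain ⟨sg, hsg⟩ : ∃ sg : T × Fin 3 → ℕ → (T × Fin 3) × ℕ, sg = fun b i =>
      if h : ∃ b', M b b' ∧ o b' < o b then (h.choose, n b + n h.choose - 1 - i) else (b, i) := ⟨_, rfl⟩
  have h1 : ∀ b b' i, M b b' → o b' < o b → sg b i = (b', n b + n b' - 1 - i) := by
    intro b b' i hb hlt
    have hex : ∃ b', M b b' ∧ o b' < o b := ⟨b', hb, hlt⟩
    have hc : hex.choose = b' := hM.func b _ _ hex.choose_spec.1 hb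
    rw [hsg]
    change (if h : ∃ b', M b b' ∧ o b' < o b then (h.choose, n b + n h.choose - 1 - i) else (b, i)) = _
    rw [dif_pos hex, hc]
  have h2 : ∀ b i, (¬ ∃ b', M b b' ∧ o b' < o b) → sg b i = (b, i) := by
    intro b i hex
    rw [hsg]
    change (if h : ∃ b', M b b' ∧ o b' < o b then (h.choose, n b + n h.choose - 1 - i) else (b, i)) = _
    rw [dif_neg hex]
  have h3 : ∀ b b' i, M b b' → o b' < o b → sg b' i = (b', i) := by
    intro b b' i hb hlt
    apply h2
    rintro ⟨c, hc, hlt'⟩
    have h4 := hM.func b' c b hc (hM.symm b b' hb)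
    rw [h4] at hlt'
    omega
  refine ⟨sg, ?_, ?_, ?_, ?_⟩
  · intro b i hi hin
    by_cases hex : ∃ b', M b b' ∧ o b' < o b
    · obtain ⟨b', hb, hlt⟩ := hex
      rw [h1 b b' i hb hlt]
      have := hn b'
      change 1 ≤ n b + n b' - 1 - i
      omega
    · rw [h2 b i hex]
      exact hi
  · intro b
    by_cases hex : ∃ b', M b b' ∧ o b' < o b
    · obtain ⟨b', hb, hlt⟩ := hex
      exact Or.inr ⟨b', hb, fun i _ => h1 b b' i hb hlt, fun i _ => h3 b b' i hb hlt⟩
    · exact Or.inl fun i _ => h2 b i hex
  · intro b b' i i' hne hi hi' heq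
    by_cases hex : ∃ c, M b c ∧ o c < o b
    · obtain ⟨c, hc, hlt⟩ := hex
      rw [h1 b c i hc hlt] at heq
      by_cases hex' : ∃ c', M b' c' ∧ o c' < o b'
      · obtain ⟨c', hc', hlt'⟩ := hex'
        rw [h1 b' c' i' hc' hlt'] at heq
        have h4 : c = c' := heq
        subst h4
        exact absurd (hM.func c b b' (hM.symm b c hc) (hM.symm b' c hc')) hne
      · rw [h2 b' i' hex'] at heq
        have h4 : c = b' := heq
        subst h4
        exact ⟨hc, Or.inr ⟨h2 c i' hex', h1 b c i hc hlt⟩⟩
    · rw [h2 b i hex] at heq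
      by_cases hex' : ∃ c', M b' c' ∧ o c' < o b'
      · obtain ⟨c', hc', hlt'⟩ := hex'
        rw [h1 b' c' i' hc' hlt'] at heq
        have h4 : b = c' := heq
        subst h4
        refine ⟨hM.symm b' b hc', Or.inl ⟨h2 b i hex, ?_⟩⟩
        rw [h1 b' b i' hc' hlt', add_comm (n b')]
      · rw [h2 b' i' hex'] at heq
        exact absurd heq hne
  · intro b b' i i' hb hi hi'
    rcases lt_trichotomy (o b') (o b) with hlt | heq | hlt
    · rw [h1 b b' i hb hlt, h3 b b' i' hb hlt]
    · have h4 := ho b' b heq
      subst h4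
      exact absurd hb (hM.irr _)
    · rw [h3 b' b i (hM.symm b b' hb) hlt, h1 b' b i' (hM.symm b b' hb) hlt]

end Pool.Agent.Helper20.FS
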