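import Pool.Agent.Helper20.FS.ModGLeg
import Pool.Agent.Helper20.FS.Gap

/-!
# Block FS-G2: small subgraphs of the graph model are subgraphs of `claws`

Given `u : Fin s → T ⊕ VE n` injective, `s ≤ k < n b`: take the gaps `γ` (`exists_gap` with `el b i := inr (elE n hn b i)`) and the segments `sg`
(`exists_seg`), and an injective code `o : T ⊕ (T × Fin 3) → ℕ`.  Map `inl t` to `(o (inl t), none)`, `inr (b, i)` to
`(o (inl b.1), some (b.2, i))` if `i < γ b`, and to `(o (inr b*), some (0, p))` with `sg b i = (b*, p)` if `γ b < i` (`i = γ b` does not occur).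
Adjacent vertices go to adjacent vertices: `inl t` and `inr (b, 0)`: `0 < γ b` (as `0 = γ b` does not occur), `clawStep none (some (b.2, 0))`;
`(b, i)` and `(b, i + 1)`: both before or both after the gap, in the second case the numbers `p` differ by one (`sg` is `i ↦ i` or `i ↦ N - 1 - i` on
the leg); the last elements of matched legs: after the gaps (`γ b ≤ k < n b`; `n b - 1 = γ b` does not occur), same segment, numbers
`n b - 1` and `n b + n b' - 1 - (n b' - 1) = n b`.  Injectivity: compare the components.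
-/

set_option autoImplicit false

namespace Pool.Agent.Helper20.FS

open Pool.Agent.Helper20.OP

private theorem elE6 {T : Type} (n : T × Fin 3 → ℕ) (hn : ∀ b, 2 ≤ n b) (b : T × Fin 3) (i : ℕ)
    (h : i < n b) : elE n hn b i = ⟨(b, i), h⟩ := by
  unfold elE
  rw [dif_pos h]

/-- the map to `claws` -/
private def g6 {T : Type} {n : T × Fin 3 → ℕ} (o : T ⊕ (T × Fin 3) → ℕ) (γ : T × Fin 3 → ℕ)
    (sg : T × Fin 3 → ℕ → (T × Fin 3) × ℕ) : T ⊕ VE n → ℕ × Option (Fin 3 × ℕ)
  | Sum.inl t => (o (Sum.inl t), none)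
  | Sum.inr x => if x.1.2 < γ x.1.1 then (o (Sum.inl x.1.1.1), some (x.1.1.2, x.1.2))
      else (o (Sum.inr (sg x.1.1 x.1.2).1), some (0, (sg x.1.1 x.1.2).2))

private theorem g6_lt {T : Type} {n : T × Fin 3 → ℕ} (o : T ⊕ (T × Fin 3) → ℕ)
    (γ : T × Fin 3 → ℕ) (sg : T × Fin 3 → ℕ → (T × Fin 3) × ℕ) {x : VE n}
    (h : x.1.2 < γ x.1.1) : g6 o γ sg (Sum.inr x) = (o (Sum.inl x.1.1.1), some (x.1.1.2, x.1.2)) :=
  if_pos h

private theorem g6_ge {T : Type} {n : T × Fin 3 → ℕ} (o : T ⊕ (T × Fin 3) → ℕ)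
    (γ : T × Fin 3 → ℕ) (sg : T × Fin 3 → ℕ → (T × Fin 3) × ℕ) {x : VE n}
    (h : ¬ x.1.2 < γ x.1.1) :
    g6 o γ sg (Sum.inr x) = (o (Sum.inr (sg x.1.1 x.1.2).1), some (0, (sg x.1.1 x.1.2).2)) :=
  if_neg h

private theorem claws_symm6 {x y : ℕ × Option (Fin 3 × ℕ)} (h : claws 0 x y) : claws 0 y x :=
  ⟨h.1.symm, h.2.symm⟩

theorem loc_G {T : Type} [Finite T] (n : T × Fin 3 → ℕ) (M : T × Fin 3 → T × Fin 3 → Prop)
    (hM : Mat M) (hn : ∀ b, 2 ≤ n b) (he : ∀ b, n b % 2 = 0) {k : ℕ} (hk : ∀ b, k < n b) :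
    LocG k (T ⊕ VE n) (strG n M) := by
  refine ⟨strG_graph n M hM, ?_⟩
  intro s u hs hu
  obtain ⟨γ, hγ⟩ := exists_gap n hk hs u (fun b i => Sum.inr (elE n hn b i)) (by
    intro b i b' i' hi hi' h
    have h1 := Sum.inr_injective h
    rw [elE6 n hn b i hi, elE6 n hn b' i' hi'] at h1
    have h2 := congrArg Subtype.val h1
    exact ⟨congrArg Prod.fst h2, congrArg Prod.snd h2⟩)
  obtain ⟨sg, -, hsame, hdiff, hmat⟩ := exists_seg n M hM hn he
  obtain ⟨o, ho⟩ := Countable.exists_injective_nat (T ⊕ (T × Fin 3))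
  -- the used elements are not the gaps
  have hgood : ∀ (a : Fin s) (x : VE n), u a = Sum.inr x → x.1.2 ≠ γ x.1.1 := by
    intro a x hax hx
    apply (hγ x.1.1).2 a
    have h1 : γ x.1.1 < n x.1.1 := by
      rw [← hx]
      exact x.2
    rw [hax, elE6 n hn x.1.1 _ h1]
    refine congrArg Sum.inr (Subtype.ext (Prod.ext rfl ?_))
    exact hx
  have hinj : ∀ v w : T ⊕ VE n, (∀ x, v = Sum.inr x → x.1.2 ≠ γ x.1.1) →
      (∀ x, w = Sum.inr x → x.1.2 ≠ γ x.1.1) → g6 o γ sg v = g6 o γ sg w → v = w := by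
    intro v w hv hw h
    rcases v with t | x
    · rcases w with t' | y
      · have h1 : o (Sum.inl t) = o (Sum.inl t') := congrArg Prod.fst h
        exact congrArg Sum.inl (Sum.inl_injective (ho h1))
      · exfalso
        have h1 := congrArg Prod.snd h
        by_cases hy : y.1.2 < γ y.1.1
        · rw [g6_lt o γ sg hy] at h1
          exact absurd h1.symm (Option.some_ne_none _)
        · rw [g6_ge o γ sg hy] at h1
          exact absurd h1.symm (Option.some_ne_none _)
    · rcases w with t' | y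
      · exfalso
        have h1 := congrArg Prod.snd h
        by_cases hx : x.1.2 < γ x.1.1
        · rw [g6_lt o γ sg hx] at h1
          exact absurd h1 (Option.some_ne_none _)
        · rw [g6_ge o γ sg hx] at h1
          exact absurd h1 (Option.some_ne_none _)
      · obtain ⟨⟨b, i⟩, hi⟩ := x
        obtain ⟨⟨b', i'⟩, hi'⟩ := y
        change i < n b at hi
        change i' < n b' at hi'
        by_cases hx : i < γ b
        · by_cases hy : i' < γ b'
          · rw [g6_lt o γ sg (x := ⟨(b, i), hi⟩) hx, g6_lt o γ sg (x := ⟨(b', i'), hi'⟩) hy] at h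
            have h1 : o (Sum.inl b.1) = o (Sum.inl b'.1) := congrArg Prod.fst h
            have h2 : b.1 = b'.1 := Sum.inl_injective (ho h1)
            have h3 : (b.2, i) = (b'.2, i') := Option.some_injective _ (congrArg Prod.snd h)
            have h4 : b.2 = b'.2 := congrArg Prod.fst h3
            have h5 : i = i' := congrArg Prod.snd h3
            have h6 : b = b' := Prod.ext h2 h4
            subst h6 h5
            rfl
          · rw [g6_lt o γ sg (x := ⟨(b, i), hi⟩) hx, g6_ge o γ sg (x := ⟨(b', i'), hi'⟩) hy] at h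
            have h1 : o (Sum.inl b.1) = o (Sum.inr (sg b' i').1) := congrArg Prod.fst h
            exact absurd (ho h1) (by simp)
        · by_cases hy : i' < γ b'
          · rw [g6_ge o γ sg (x := ⟨(b, i), hi⟩) hx, g6_lt o γ sg (x := ⟨(b', i'), hi'⟩) hy] at h
            have h1 : o (Sum.inr (sg b i).1) = o (Sum.inl b'.1) := congrArg Prod.fst h
            exact absurd (ho h1) (by simp)
          · rw [g6_ge o γ sg (x := ⟨(b, i), hi⟩) hx, g6_ge o γ sg (x := ⟨(b', i'), hi'⟩) hy] at h
            have h1 : o (Sum.inr (sg b i).1) = o (Sum.inr (sg b' i').1) := congrArg Prod.fst h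
            have h2 : (sg b i).1 = (sg b' i').1 := Sum.inr_injective (ho h1)
            have h3 : ((0 : Fin 3), (sg b i).2) = ((0 : Fin 3), (sg b' i').2) :=
              Option.some_injective _ (congrArg Prod.snd h)
            have h4 : (sg b i).2 = (sg b' i').2 := (Prod.mk.inj h3).2
            by_cases hbb : b = b'
            · subst hbb
              have h5 : i = i' := by
                rcases hsame b with h6 | ⟨c, -, h6, -⟩
                · rw [h6 i hi, h6 i' hi'] at h4
                  exact h4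
                · rw [h6 i hi, h6 i' hi'] at h4
                  change n b + n c - 1 - i = n b + n c - 1 - i' at h4
                  omega
              subst h5
              rfl
            · exfalso
              obtain ⟨-, ⟨h5, h6⟩ | ⟨h5, h6⟩⟩ := hdiff b b' i i' hbb hi hi' h2
              · rw [h5, h6] at h4
                change i = n b + n b' - 1 - i' at h4
                omega
              · rw [h5, h6] at h4
                change n b + n b' - 1 - i = i' at h4
                omega
  -- adjacency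
  have hstep : ∀ (b : T × Fin 3) (i : ℕ) (hi : i < n b) (hi' : i + 1 < n b), i ≠ γ b →
      i + 1 ≠ γ b → claws 0 (g6 (n := n) o γ sg (Sum.inr ⟨(b, i), hi⟩))
        (g6 (n := n) o γ sg (Sum.inr ⟨(b, i + 1), hi'⟩)) := by
    intro b i hi hi' h1 h2
    by_cases hx : i < γ b
    · rw [g6_lt o γ sg (x := ⟨(b, i), hi⟩) hx,
        g6_lt o γ sg (x := ⟨(b, i + 1), hi'⟩) (by change i + 1 < γ b; omega)]
      exact ⟨rfl, Or.inl ⟨rfl, rfl⟩⟩
    · rw [g6_ge o γ sg (x := ⟨(b, i), hi⟩) hx,
        g6_ge o γ sg (x := ⟨(b, i + 1), hi'⟩) (by change ¬ (i + 1 < γ b); omega)]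
      rcases hsame b with h6 | ⟨c, -, h6, -⟩
      · refine ⟨?_, Or.inl ⟨rfl, ?_⟩⟩
        · change o (Sum.inr (sg b i).1) = o (Sum.inr (sg b (i + 1)).1)
          rw [h6 i hi, h6 (i + 1) hi']
        · change (sg b (i + 1)).2 = (sg b i).2 + 1
          rw [h6 i hi, h6 (i + 1) hi']
      · refine ⟨?_, Or.inr ⟨rfl, ?_⟩⟩
        · change o (Sum.inr (sg b i).1) = o (Sum.inr (sg b (i + 1)).1)
          rw [h6 i hi, h6 (i + 1) hi']
        · change (sg b i).2 = (sg b (i + 1)).2 + 1
          rw [h6 i hi, h6 (i + 1) hi']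
          change n b + n c - 1 - i = n b + n c - 1 - (i + 1) + 1
          omega
  have hcen : ∀ (t : T) (y : VE n), y.1.2 ≠ γ y.1.1 → y.1.2 = 0 → y.1.1.1 = t →
      claws 0 (g6 (n := n) o γ sg (Sum.inl t)) (g6 (n := n) o γ sg (Sum.inr y)) := by
    intro t y h1 h2 h3
    rw [g6_lt o γ sg (x := y) (by omega)]
    refine ⟨?_, Or.inl ?_⟩
    · change o (Sum.inl t) = o (Sum.inl y.1.1.1)
      rw [h3]
    · exact h2
  have hadj : ∀ v w : T ⊕ VE n, (∀ x, v = Sum.inr x → x.1.2 ≠ γ x.1.1) →
      (∀ x, w = Sum.inr x → x.1.2 ≠ γ x.1.1) → strG n M 0 v w →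
      claws 0 (g6 o γ sg v) (g6 o γ sg w) := by
    intro v w hv hw h
    rcases v with t | x
    · rcases w with t' | y
      · exact False.elim h
      · exact hcen t y (hw y rfl) h.1 h.2
    · rcases w with t' | y
      · exact claws_symm6 (hcen t' x (hv x rfl) h.1 h.2)
      · obtain ⟨⟨b, i⟩, hi⟩ := x
        obtain ⟨⟨b', i'⟩, hi'⟩ := y
        have h1 : i ≠ γ b := hv _ rfl
        have h2 : i' ≠ γ b' := hw _ rfl
        change i < n b at hi
        change i' < n b' at hi'
        change Adj n M b i b' i' at h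
        rcases h with ⟨rfl, rfl | rfl⟩ | ⟨hbb, h3, h4⟩
        · exact hstep b i hi hi' h1 h2
        · exact claws_symm6 (hstep b i' hi' hi h2 h1)
        · have hne : b ≠ b' := by
            rintro rfl
            exact hM.irr b hbb
          have h5 := (hγ b).1
          have h6 := (hγ b').1
          have h7 := hk b
          have h8 := hk b'
          rw [g6_ge o γ sg (x := ⟨(b, i), hi⟩) (by change ¬ (i < γ b); omega),
            g6_ge o γ sg (x := ⟨(b', i'), hi'⟩) (by change ¬ (i' < γ b'); omega)]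
          have h9 := hmat b b' i i' hbb hi hi'
          refine ⟨?_, ?_⟩
          · change o (Sum.inr (sg b i).1) = o (Sum.inr (sg b' i').1)
            rw [h9]
          · obtain ⟨-, ⟨h10, h11⟩ | ⟨h10, h11⟩⟩ := hdiff b b' i i' hne hi hi' h9
            · refine Or.inl ⟨rfl, ?_⟩
              change (sg b' i').2 = (sg b i).2 + 1
              rw [h10, h11]
              change n b + n b' - 1 - i' = i + 1
              omega
            · refine Or.inr ⟨rfl, ?_⟩
              change (sg b i).2 = (sg b' i').2 + 1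
              rw [h10, h11]
              change n b + n b' - 1 - i = i' + 1
              omega
  refine ⟨fun a => g6 o γ sg (u a), fun a a' h => ?_, fun a a' h => ?_⟩
  · exact hu (hinj _ _ (hgood a) (hgood a') h)
  · exact hadj _ _ (hgood a) (hgood a') h

end Pool.Agent.Helper20.FS
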