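import Pool.Agent.Helper20.FS.Role

/-!
# Block FS-K5: injections and ownership in the model

`F_iff`: `role_iff` for the tripods `2 j` and `2 j + 1` and `L_iff` (the connection of the leg `((z, 2 j), 1)` with `mu k j` elements leads to a
leg `((z', 2 j + 1), 1)` with `f j z z'`).
`own_iff`: the `κ` with `κ < q` and `s.D (le k κ) (el ((z, 0), 0) 0)` is `c z` (`col_iff`); for `p < skN k q c b = n b` the element number `p` of
`b` is `el b p` (`pos_iff` and `At`); `jt_iff`.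
`own_cell`: if `s.own k q v x` then `s.cell k q x` (this holds in general).
`own_unique`, `own_exists`: every element is `el ((z, i), σ) p` with `p < n ...` or `jn (z, i)` (`cover`), and `z` is determined by `inj`, `jn_inj`,
`jn_el`.
-/

set_option autoImplicit false

namespace Pool.Agent.Helper20.FS

variable {V Z : Type} {s : SkRel V} {g : Prop} {k q : ℕ} {c : Z → Fin q}
  {f : Fin 6 → Z → Z → Prop} {el : (Z × Fin 12) × Fin 3 → ℕ → V} {jn : Z × Fin 12 → V}

private theorem skN_two63 (hk : 1 ≤ k) (b : (Z × Fin 12) × Fin 3) : 2 ≤ skN k q c b := by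
  have h := skN_le k q c b
  omega

private theorem skN_mid63 (z : Z) (i : Fin 12) : skN k q c ((z, i), 1) = dm k i.1 := by
  unfold skN len
  rw [if_neg (show ¬((1 : Fin 3) = 0) by decide), if_pos (show (1 : Fin 3) = 1 from rfl)]

theorem F_iff (h : LegModel s g (skN k q c) (skM f) el jn) (hf : ∀ j, PInj (f j)) (hk : 1 ≤ k)
    (j : Fin 6) (z z' : Z) :
    s.F k q j.1 (el ((z, 0), 0) 0) (el ((z', 0), 0) 0) ↔ f j z z' := by
  have hj := j.2
  have hM := mat_skM hf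
  have hn : ∀ b, 2 ≤ skN k q c b := skN_two63 hk
  have r0 := fun y => role_iff h hf hk z ⟨2 * j.1, by omega⟩ 1 y
  have r1 := fun y => role_iff h hf hk z' ⟨2 * j.1 + 1, by omega⟩ 1 y
  have hmu : 2 ≤ mu k j.1 := by unfold mu; omega
  have e1 : s.F k q j.1 (el ((z, 0), 0) 0) (el ((z', 0), 0) 0) ↔
      s.L (mu k j.1) (el ((z, ⟨2 * j.1, by omega⟩), 1) 0) (el ((z', ⟨2 * j.1 + 1, by omega⟩), 1) 0) := by
    constructor
    · rintro ⟨y, y', h1, h2, h3⟩
      rw [(r0 y).1 h1, (r1 y').1 h3] at h2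
      exact h2
    · intro h2
      exact ⟨_, _, (r0 _).2 rfl, h2, (r1 _).2 rfl⟩
  rw [e1, h.L_iff hM hn hmu]
  constructor
  · rintro ⟨b', h1, -, h3⟩
    have h4 := (h.inj _ _ _ _ (by have := hn ((z', ⟨2 * j.1 + 1, by omega⟩), 1); omega)
      (by have := hn b'; omega) h3).1
    rw [← h4] at h1
    rcases h1 with h1 | h1 | h1
    · exact absurd h1.2.1 (show ¬((1 : Fin 3) = 2) by decide)
    · exact absurd h1.2.1 (show ¬((1 : Fin 3) = 0) by decide)
    · obtain ⟨-, -, j', h5 | h5⟩ := h1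
      · have h6 : j' = j := by
          apply Fin.ext
          have := h5.1
          simp only at this
          omega
        rw [← h6]
        exact h5.2.2
      · have := h5.1
        simp only at this
        omega
  · intro hff
    refine ⟨((z', ⟨2 * j.1 + 1, by omega⟩), 1), Or.inr (Or.inr ⟨rfl, rfl, j, Or.inl ⟨rfl, rfl, hff⟩⟩), ?_, rfl⟩
    rw [skN_mid63, skN_mid63]
    unfold mu dm
    simp only
    rw [if_pos (by omega), if_neg (by omega)]
    omega

theorem own_cell {x v : V} (h : s.own k q v x) : s.cell k q x := by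
  obtain ⟨κ, h1, h2, -⟩ := h
  exact ⟨κ, h1, h2⟩

theorem own_iff (h : LegModel s g (skN k q c) (skM f) el jn) (hf : ∀ j, PInj (f j)) (hk : 1 ≤ k)
    (z : Z) (v : V) : s.own k q v (el ((z, 0), 0) 0) ↔
      ((∃ (i : Fin 12) (σ : Fin 3) (p : ℕ), p < skN k q c ((z, i), σ) ∧ v = el ((z, i), σ) p) ∨
        (g ∧ ∃ i, v = jn (z, i))) := by
  have hM := mat_skM hf
  have hn : ∀ b, 2 ≤ skN k q c b := skN_two63 hk
  constructor
  · rintro ⟨κ, hκ, hD, i, hi, σ, y, hr, h1⟩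
    have e1 : (c z).1 = κ := (col_iff h hf hk z κ hκ).1 hD
    have e2 : y = el ((z, ⟨i, hi⟩), σ) 0 := (role_iff h hf hk z ⟨i, hi⟩ σ y).1 hr
    subst e2
    rcases h1 with ⟨p, hp, h2⟩ | h2
    · left
      have hp' : p < skN k q c ((z, ⟨i, hi⟩), σ) := by
        unfold skN
        simp only
        rw [e1]
        exact hp
      refine ⟨⟨i, hi⟩, σ, p, hp', ?_⟩
      rcases (h.pos_iff hM hn _ p v).1 h2 with h3 | h3
      · exact h3.2
      · obtain ⟨b', -, h4, -⟩ := h3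
        omega
    · right
      have h3 := (h.jt_iff _ v).1 h2
      exact ⟨h3.1, ⟨i, hi⟩, h3.2⟩
  · intro h1
    have hD := (col_iff h hf hk z (c z).1 (c z).2).2 rfl
    rcases h1 with ⟨i, σ, p, hp, hv⟩ | ⟨hg, i, hv⟩
    · refine ⟨(c z).1, (c z).2, hD, i.1, i.2, σ, el ((z, i), σ) 0,
        (role_iff h hf hk z i σ _).2 rfl, Or.inl ⟨p, hp, ?_⟩⟩
      exact (h.pos_iff hM hn _ p v).2 (Or.inl ⟨hp, hv⟩)
    · refine ⟨(c z).1, (c z).2, hD, i.1, i.2, 0, el ((z, i), 0) 0,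
        (role_iff h hf hk z i 0 _).2 rfl, Or.inr ?_⟩
      exact (h.jt_iff _ v).2 ⟨hg, hv⟩

theorem own_existsUnique (h : LegModel s g (skN k q c) (skM f) el jn) (hf : ∀ j, PInj (f j))
    (hk : 1 ≤ k) (v : V) : ∃ x, s.own k q v x ∧ ∀ x', s.own k q v x' → x' = x := by
  rcases h.cover v with ⟨⟨⟨z, i⟩, σ⟩, p, hp, hv⟩ | ⟨hg, ⟨z, i⟩, hv⟩
  · refine ⟨el ((z, 0), 0) 0, (own_iff h hf hk z v).2 (Or.inl ⟨i, σ, p, hp, hv⟩), fun x' hx' => ?_⟩
    obtain ⟨z', rfl⟩ := (cell_iff h hf hk x').1 (own_cell hx')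
    rcases (own_iff h hf hk z' v).1 hx' with ⟨i', σ', p', hp', hv'⟩ | ⟨hg, i', hv'⟩
    · have h1 := (h.inj _ _ _ _ hp hp' (hv.symm.trans hv')).1
      have h2 : z = z' := congrArg (fun b => b.1.1) h1
      rw [h2]
    · exact absurd (hv'.symm.trans hv) (h.jn_el hg (z', i') _ _ hp)
  · refine ⟨el ((z, 0), 0) 0, (own_iff h hf hk z v).2 (Or.inr ⟨hg, i, hv⟩), fun x' hx' => ?_⟩
    obtain ⟨z', rfl⟩ := (cell_iff h hf hk x').1 (own_cell hx')
    rcases (own_iff h hf hk z' v).1 hx' with ⟨i', σ', p', hp', hv'⟩ | ⟨hg', i', hv'⟩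
    · exact absurd (hv.symm.trans hv') (h.jn_el hg (z, i) _ _ hp')
    · have h1 := h.jn_inj hg _ _ (hv.symm.trans hv')
      have h2 : z = z' := congrArg (fun b => b.1) h1
      rw [h2]

end Pool.Agent.Helper20.FS
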