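import Pool.Agent.Helper20.FS.SkCode
import Pool.Agent.Helper20.FS.FOwn

/-!
# Block FS-K7b: the number of elements of a skeleton code

`V` is the disjoint union of the sets of the elements owned by the cells (`own_cell`): `V ≃ Σ x : {x // cell x}, {v // own v x}`, and each of these
sets has `m` elements (`exactly_iff`).
-/

set_option autoImplicit false

namespace Pool.Agent.Helper20.FS

open Pool.Agent.Helper20.OP

theorem SkCode.card {b : ℕ} {sk : ∀ V : Type, Str b V → SkRel V} {k q m : ℕ}
    {P : ∀ V : Type, Str (6 + q) V → Prop} {V : Type} [Finite V] {R : Str b V}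
    (h : SkCode sk k q m P V R) : Nat.card V = m * Nat.card {x // (sk V R).cell k q x} := by
  obtain ⟨-, h2, h3⟩ := h
  choose o ho ho' using h2
  have hcell : ∀ v, (sk V R).cell k q (o v) := fun v => own_cell (ho v)
  let e : V ≃ Σ x : {x // (sk V R).cell k q x}, {v // (sk V R).own k q v x.1} :=
    { toFun := fun v => ⟨⟨o v, hcell v⟩, ⟨v, ho v⟩⟩
      invFun := fun y => y.2.1
      left_inv := fun v => rfl
      right_inv := by
        rintro ⟨⟨x, hx⟩, ⟨v, hv⟩⟩
        have hv' : (sk V R).own k q v x := hv
        obtain rfl : x = o v := ho' v x hv'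
        rfl }
  have hcnt : ∀ x : {x // (sk V R).cell k q x}, Nat.card {v // (sk V R).own k q v x.1} = m :=
    fun x => (exactly_iff m _).1 (h3 x.1 x.2)
  have : Fintype {x // (sk V R).cell k q x} := Fintype.ofFinite _
  rw [Nat.card_congr e, Nat.card_sigma, Finset.sum_congr rfl fun x _ => hcnt x, Finset.sum_const,
    Finset.card_univ, ← Nat.card_eq_fintype_card, smul_eq_mul, mul_comm]

end Pool.Agent.Helper20.FS
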