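import Pool.Agent.Helper20.FS.FOwn

/-!
# Block FS-K6: each cell owns the same number of elements

By `own_iff` the elements owned by the cell of `z` are in bijection with
`(Σ (b : Fin 12 × Fin 3), Fin (skN k q c ((z, b.1), b.2))) ⊕ {i : Fin 12 // g}` (`inj`, `jn_inj`, `jn_el`); by `len_sum` with
`κ = c z` the first summand has `mk0 k q` elements.
-/

set_option autoImplicit false

namespace Pool.Agent.Helper20.FS

open Classical in
theorem own_card {V Z : Type} [Finite V] {s : SkRel V} {g : Prop} {k q : ℕ} {c : Z → Fin q}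
    {f : Fin 6 → Z → Z → Prop} {el : (Z × Fin 12) × Fin 3 → ℕ → V} {jn : Z × Fin 12 → V}
    (h : LegModel s g (skN k q c) (skM f) el jn) (hf : ∀ j, PInj (f j)) (hk : 1 ≤ k) (z : Z) :
    Nat.card {v // s.own k q v (el ((z, 0), 0) 0)} = mk0 k q + (if g then 12 else 0) := by
  have hlt : ∀ (b : Fin 12 × Fin 3), skN k q c ((z, b.1), b.2) = len k q (c z) b.1 b.2 :=
    fun b => rfl
  let φ : (Σ b : Fin 12 × Fin 3, Fin (len k q (c z) b.1 b.2)) ⊕ {_i : Fin 12 // g} →
      {v // s.own k q v (el ((z, 0), 0) 0)} := fun a =>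
    match a with
    | Sum.inl ⟨b, p⟩ => ⟨el ((z, b.1), b.2) p.1,
        (own_iff h hf hk z _).2 (Or.inl ⟨b.1, b.2, p.1, p.2, rfl⟩)⟩
    | Sum.inr i => ⟨jn (z, i.1), (own_iff h hf hk z _).2 (Or.inr ⟨i.2, i.1, rfl⟩)⟩
  have hφ : Function.Bijective φ := by
    constructor
    · rintro (⟨⟨i, σ⟩, p⟩ | ⟨i, hg⟩) (⟨⟨i', σ'⟩, p'⟩ | ⟨i', hg'⟩) he
      · have he' : el ((z, i), σ) p.1 = el ((z, i'), σ') p'.1 := congrArg Subtype.val he
        obtain ⟨h1, h2⟩ := h.inj _ _ _ _ p.2 p'.2 he'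
        have h3 : i = i' := congrArg (fun t : (Z × Fin 12) × Fin 3 => t.1.2) h1
        have h4 : σ = σ' := congrArg (fun t : (Z × Fin 12) × Fin 3 => t.2) h1
        subst h3
        subst h4
        have h5 : p = p' := Fin.ext h2
        rw [h5]
      · have he' : el ((z, i), σ) p.1 = jn (z, i') := congrArg Subtype.val he
        exact (h.jn_el hg' _ _ _ p.2 he'.symm).elim
      · have he' : jn (z, i) = el ((z, i'), σ') p'.1 := congrArg Subtype.val he
        exact (h.jn_el hg _ _ _ p'.2 he').elim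
      · have he' : jn (z, i) = jn (z, i') := congrArg Subtype.val he
        have h3 : i = i' := congrArg Prod.snd (h.jn_inj hg _ _ he')
        subst h3
        rfl
    · rintro ⟨v, hv⟩
      rcases (own_iff h hf hk z v).1 hv with ⟨i, σ, p, hp, rfl⟩ | ⟨hg, i, rfl⟩
      · exact ⟨Sum.inl ⟨(i, σ), ⟨p, hp⟩⟩, rfl⟩
      · exact ⟨Sum.inr ⟨i, hg⟩, rfl⟩
  rw [← Nat.card_congr (Equiv.ofBijective φ hφ), Nat.card_sum]
  congr 1
  · rw [Nat.card_eq_fintype_card, Fintype.card_sigma, Fintype.sum_prod_type]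
    simp only [Fintype.card_fin]
    exact len_sum k q (c z) (c z).2
  · by_cases hg : g
    · rw [if_pos hg, Nat.card_congr (Equiv.subtypeUnivEquiv fun _ => hg)]
      simp
    · rw [if_neg hg]
      have : IsEmpty {_i : Fin 12 // g} := ⟨fun i => hg i.2⟩
      exact Nat.card_of_isEmpty

end Pool.Agent.Helper20.FS
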