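import Pool.Agent.Helper20.FS.SkCode
import Pool.Agent.Helper20.FS.SkCount
import Pool.Agent.Helper20.OP.Interp

/-!
# Block FS-K7c: the model is a skeleton code

The cells are the elements `el ((z, 0), 0) 0` (`cell_iff`): an equivalence `e : Z ≃ {x // cell x}` (injective by `inj`, the lengths are positive).
Under `e` the relations `relOf` correspond to those of `R₀`: `F_iff` for the first six, `col_iff` for the colours.  So the first
part follows from `P Z R₀` by `Def0.iso` (and `funext`, `propext`).  Second part: `own_existsUnique`.  Third part: `cell_iff`, `own_card`, `exactly_iff`.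
-/

set_option autoImplicit false

namespace Pool.Agent.Helper20.FS

open Pool.Agent.Helper20.OP

open Classical in
theorem skCode_model {b : ℕ} {sk : ∀ V : Type, Str b V → SkRel V} {k q : ℕ} (hk : 1 ≤ k)
    {P : ∀ V : Type, Str (6 + q) V → Prop} (hP : Def0 (6 + q) P) {V Z : Type} [Finite V]
    {R : Str b V} {g : Prop} (R₀ : Str (6 + q) Z) (c : Z → Fin q)
    (hf : ∀ j : Fin 6, PInj (R₀ (Fin.castAdd q j)))
    (hc : ∀ (i : Fin q) (x y : Z), R₀ (Fin.natAdd 6 i) x y ↔ (x = y ∧ c x = i)) (hR₀ : P Z R₀)
    {el : (Z × Fin 12) × Fin 3 → ℕ → V} {jn : Z × Fin 12 → V}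
    (h : LegModel (sk V R) g (skN k q c) (skM (fun j => R₀ (Fin.castAdd q j))) el jn) :
    SkCode sk k q (mk0 k q + (if g then 12 else 0)) P V R ∧
      Nat.card {x // (sk V R).cell k q x} = Nat.card Z := by
  have hn : ∀ z : Z, 0 < skN k q c ((z, 0), 0) := fun z => by
    have := skN_le k q c ((z, 0), 0)
    omega
  have hinj : ∀ z z' : Z, el ((z, 0), 0) 0 = el ((z', 0), 0) 0 → z = z' := fun z z' he =>
    congrArg (fun b => b.1.1) (h.inj _ _ _ _ (hn z) (hn z') he).1
  let φ : Z → {x // (sk V R).cell k q x} := fun z =>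
    ⟨el ((z, 0), 0) 0, (cell_iff h hf hk _).2 ⟨z, rfl⟩⟩
  have hφ : Function.Bijective φ := by
    constructor
    · intro z z' he
      exact hinj z z' (congrArg Subtype.val he)
    · rintro ⟨x, hx⟩
      obtain ⟨z, rfl⟩ := (cell_iff h hf hk x).1 hx
      exact ⟨z, rfl⟩
  let e : Z ≃ {x // (sk V R).cell k q x} := Equiv.ofBijective φ hφ
  have he : ∀ z, (e z).1 = el ((z, 0), 0) 0 := fun z => rfl
  refine ⟨⟨?_, own_existsUnique h hf hk, ?_⟩, (Nat.card_congr e).symm⟩
  · have h1 := (hP.iso e R₀).1 hR₀
    have h2 : (fun r x y => R₀ r (e.symm x) (e.symm y)) =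
        fun (r : Fin (6 + q)) (x y : {x // (sk V R).cell k q x}) =>
          relOf (sk V R) k q r x.1 y.1 := by
      funext r x y
      apply propext
      obtain ⟨z, rfl⟩ := e.surjective x
      obtain ⟨z', rfl⟩ := e.surjective y
      rw [e.symm_apply_apply, e.symm_apply_apply, he, he]
      unfold relOf
      refine Fin.addCases (fun j => ?_) (fun i => ?_) r
      · rw [Fin.addCases_left]
        exact (F_iff h hf hk j z z').symm
      · rw [Fin.addCases_right, hc, col_iff h hf hk z i.1 i.2]
        constructor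
        · rintro ⟨h3, h4⟩
          exact ⟨by rw [h3], by rw [h4]⟩
        · rintro ⟨h3, h4⟩
          exact ⟨hinj z z' h3, Fin.ext h4⟩
    rw [h2] at h1
    exact h1
  · intro x hx
    obtain ⟨z, rfl⟩ := (cell_iff h hf hk x).1 hx
    rw [exactly_iff]
    exact own_card h hf hk z

end Pool.Agent.Helper20.FS
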