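import Pool.Agent.Helper20.FS.SkCodeDef
import Pool.Agent.Helper20.FS.SkCodeDec
import Pool.Agent.Helper20.FS.SkCodeEnc
import Pool.Agent.Helper20.OP.Coding

/-!
# Codings from skeletons
-/

set_option autoImplicit false

namespace Pool.Agent.Helper20.FS

open Pool.Agent.Helper20.OP Pool.Agent.Helper29.Prefix

/-- the class `C` contains structures with the given skeletons -/
def HasModels {b : ℕ} (C : ∀ V : Type, Str b V → Prop) (sk : ∀ V : Type, Str b V → SkRel V)
    (g : Prop) (k : ℕ) : Prop :=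
  ∀ (T : Type) (_ : Finite T) (n : T × Fin 3 → ℕ) (M : T × Fin 3 → T × Fin 3 → Prop), Mat M →
    (∀ b, 2 * k ≤ n b) → (∀ b, n b % 2 = 0) →
    ∃ (V : Type) (_ : Finite V) (R : Str b V) (el : T × Fin 3 → ℕ → V) (jn : T → V),
      C V R ∧ LegModel (sk V R) g n M el jn

open Classical in
theorem coding_of_sk {b : ℕ} {C : ∀ V : Type, Str b V → Prop}
    {sk : ∀ V : Type, Str b V → SkRel V} (hsk : DefSk sk) {g : Prop} {k : ℕ} (hk : 1 ≤ k)
    (hmod : HasModels C sk g k) : Coding b C := by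
  intro Γ _ W
  obtain ⟨q, P, hP, hdec, henc⟩ := fcoding W
  let m := mk0 k q + (if g then 12 else 0)
  have hm : 1 ≤ m := by
    have : 1 ≤ mk0 k q := by unfold mk0; omega
    exact le_trans this (Nat.le_add_right _ _)
  refine ⟨SkCode sk k q m P, Polynomial.C (m * 2) * Polynomial.X ^ 2, def_skCode hsk k q m hP,
    ?_, ?_, ?_⟩
  · intro x y hxy
    simp only [Polynomial.eval_mul, Polynomial.eval_C, Polynomial.eval_pow, Polynomial.eval_X]
    exact Nat.mul_lt_mul_of_pos_left (Nat.pow_lt_pow_left hxy (by decide)) (by omega)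
  · intro V _ R h
    obtain ⟨N, hN, hc, ht⟩ := hdec _ inferInstance _ h.1
    refine ⟨N, hN, ?_, ht⟩
    rw [h.card, hc]
    simp only [Polynomial.eval_mul, Polynomial.eval_C, Polynomial.eval_pow, Polynomial.eval_X]
    ring
  · intro N hN ht
    obtain ⟨Z, _, R₀, c, hc, hPZ, hf, hcol⟩ := henc N hN ht
    obtain ⟨V, hV, R, el, jn, hC, h⟩ := hmod (Z × Fin 12) inferInstance (skN k q c)
      (skM (fun j => R₀ (Fin.castAdd q j))) (mat_skM hf) (skN_le k q c) (skN_even k q c)
    obtain ⟨h1, h2⟩ := skCode_model hk hP R₀ c hf hcol hPZ h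
    refine ⟨V, hV, R, ?_, hC, h1⟩
    rw [h1.card, h2, hc]
    simp only [Polynomial.eval_mul, Polynomial.eval_C, Polynomial.eval_pow, Polynomial.eval_X]
    ring

end Pool.Agent.Helper20.FS
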