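import Pool.Agent.Helper20.FS.ModELoc
import Pool.Agent.Helper20.FS.ModEDef
import Pool.Agent.Helper20.FS.ModGLoc
import Pool.Agent.Helper20.FS.ModGDef
import Pool.Agent.Helper20.FS.SkCod
import Pool.Agent.Helper20.FS.DefOmit
import Pool.Agent.Helper20.OP.WildOf

/-!
# The wild case
-/

set_option autoImplicit false

namespace Pool.Agent.Helper20.FS

open FirstOrder FirstOrder.Language Pool.Agent.Helper20.Spectra Pool.Agent.Helper20.OP

lemma finite_VE {T : Type} [Finite T] (n : T × Fin 3 → ℕ) : Finite (VE n) := by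
  refine Finite.of_injective (β := Σ b : T × Fin 3, Fin (n b))
    (fun x => ⟨x.1.1, ⟨x.1.2, x.2⟩⟩) ?_
  rintro ⟨⟨b, i⟩, hi⟩ ⟨⟨b', i'⟩, hi'⟩ h
  simp only [Sigma.mk.injEq] at h
  obtain ⟨rfl, h2⟩ := h
  have h3 := eq_of_heq h2
  simp only [Fin.mk.injEq] at h3
  subst h3
  rfl

theorem coding_E (k : ℕ) (hk : 1 ≤ k) : Coding 2 (LocE k) := by
  refine coding_of_sk (g := False) defSk_E hk (fun T _ n M hM h2 he => ?_)
  have hn : ∀ b, 2 ≤ n b := fun b => by have := h2 b; omega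
  have hk' : ∀ b, k < n b := fun b => by have := h2 b; omega
  exact ⟨VE n, finite_VE n, strE n M, elE n hn, fun t => elE n hn (t, 0) 0,
    loc_E n M hM hn he hk', legModel_E n M hM hn he⟩

theorem coding_G (k : ℕ) (hk : 1 ≤ k) : Coding 1 (LocG k) := by
  refine coding_of_sk (g := True) defSk_G hk (fun T _ n M hM h2 he => ?_)
  have hn : ∀ b, 2 ≤ n b := fun b => by have := h2 b; omega
  have hk' : ∀ b, k < n b := fun b => by have := h2 b; omega
  have := finite_VE n
  exact ⟨T ⊕ VE n, inferInstance, strG n M, _, _, loc_G n M hM hn he hk', legModel_G n M hM hn⟩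

/-- exchange of the two relations -/
def swapS {V : Type} (R : Str 2 V) : Str 2 V := fun r => R (1 - r)

lemma swapS_swapS {V : Type} (R : Str 2 V) : swapS (swapS R) = R := by
  funext r
  show R (1 - (1 - r)) = R r
  rw [sub_sub_cancel]

lemma zig_swap (r : Fin 2) : zig 1 r = zig 0 (1 - r) := by
  fin_cases r <;> rfl

theorem wild_main (κ : Kind) {m : ℕ} {s : Fin m → ℕ} (P : ∀ i, Str κ.rels (Fin (s i)))
    (hP : ¬ Meets κ P) : Wild (Omit κ P) := by
  have hs : ∀ i, s i ≤ (∑ i, s i) + 1 := fun i =>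
    (Finset.single_le_sum (f := s) (fun _ _ => Nat.zero_le _) (Finset.mem_univ i)).trans
      (Nat.le_succ _)
  cases κ with
  | graph =>
    refine wild_of_coding (coding_G ((∑ i, s i) + 1) (by omega)) (def_omit Kind.graph P)
      (fun V R => R) (fun r => Def.rel r 0 1) (fun V _ R hR => ⟨R, ⟨hR.1, fun i hi => ?_⟩, rfl⟩)
    obtain ⟨u, hu, h1⟩ := hi
    obtain ⟨v, hv, h2⟩ := hR.2 (s i) u (hs i) hu
    exact hP ⟨i, v, hv, fun x y hxy => h2 x y (h1 x y hxy)⟩
  | equiv =>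
    obtain ⟨e, he⟩ : ∃ e : Fin 2, ∀ i, ¬ Contains Kind.equiv (P i) (zig e) := by
      by_contra hcon
      refine hP (fun e => ?_)
      by_contra h
      exact hcon ⟨e, fun i hi => h ⟨i, hi⟩⟩
    have he2 : ∀ e : Fin 2, e = 0 ∨ e = 1 := by decide
    rcases he2 e with rfl | rfl
    · refine wild_of_coding (coding_E ((∑ i, s i) + 1) (by omega)) (def_omit Kind.equiv P)
        (fun V R => R) (fun r => Def.rel r 0 1) (fun V _ R hR => ⟨R, ⟨hR.1, fun i hi => ?_⟩, rfl⟩)
      obtain ⟨u, hu, h1⟩ := hi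
      obtain ⟨v, hv, h2⟩ := hR.2 (s i) u (hs i) hu
      exact he i ⟨v, hv, fun r x y => (h1 r x y).trans (h2 r x y)⟩
    · refine wild_of_coding (coding_E ((∑ i, s i) + 1) (by omega)) (def_omit Kind.equiv P)
        (fun V R => swapS R) (fun r => Def.rel (1 - r) 0 1)
        (fun V _ R hR => ⟨swapS R, ⟨⟨hR.1.2, hR.1.1⟩, fun i hi => ?_⟩, swapS_swapS R⟩)
      obtain ⟨u, hu, h1⟩ := hi
      obtain ⟨v, hv, h2⟩ := hR.2 (s i) u (hs i) hu
      refine he i ⟨v, hv, fun r x y => (h1 r x y).trans ?_⟩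
      rw [zig_swap]
      exact h2 (1 - r) x y

end Pool.Agent.Helper20.FS
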