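import Pool.Agent.Helper20.FS.Tame
import Pool.Agent.Helper20.FS.Wild

/-!
# Finitely many forbidden patterns: assembly
-/

set_option autoImplicit false

namespace Pool.Agent.Helper20.FS

open FirstOrder FirstOrder.Language Pool.Agent.Helper20.Spectra Pool.Agent.Helper20.OP

lemma spectrumOmitting_iff (κ : Kind) {m : ℕ} {s : Fin m → ℕ} (P : ∀ i, Str κ.rels (Fin (s i)))
    (A : Set ℕ) : SpectrumOmitting κ P A ↔ SpecOver (Omit κ P) A := by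
  constructor
  · rintro ⟨φ, h⟩
    refine ⟨φ, ?_⟩
    ext n
    rw [h]
    exact ⟨fun ⟨h1, R, h2, h3, h4⟩ => ⟨h1, R, ⟨h2, h3⟩, h4⟩,
      fun ⟨h1, R, ⟨h2, h3⟩, h4⟩ => ⟨h1, R, h2, h3, h4⟩⟩
  · rintro ⟨φ, rfl⟩
    exact ⟨φ, fun n => ⟨fun ⟨h1, R, ⟨h2, h3⟩, h4⟩ => ⟨h1, R, h2, h3, h4⟩,
      fun ⟨h1, R, h2, h3, h4⟩ => ⟨h1, R, ⟨h2, h3⟩, h4⟩⟩⟩

/-- the classification -/
theorem sets_final (κ : Kind) (m : ℕ) (s : Fin m → ℕ) (P : ∀ i, Str κ.rels (Fin (s i))) :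
    (Meets κ P → ∀ A, SpectrumOmitting κ P A → UltPeriodic A) ∧
    (¬ Meets κ P →
      (∃ U : Set ℕ, SpectrumOmitting κ P U ∧ ∀ A : Set ℕ, IsSpectrum A ↔
        ∃ h : Polynomial ℕ, A = {n : ℕ | 1 ≤ n ∧ h.eval n ∈ U}) ∧
      ((∀ A : Set ℕ, SpectrumOmitting κ P A → IsRudimentary A) ↔
        ∀ A : Set ℕ, IsSpectrum A ↔ (IsRudimentary A ∧ 0 ∉ A))) := by
  simp only [spectrumOmitting_iff]
  exact ⟨fun hP A hA => tame_main κ P hP A hA, fun hP => wild_main κ P hP⟩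

end Pool.Agent.Helper20.FS
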