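import Pool.Agent.Helper20.FS.CritE

/-!
# Block FS-T13c: disjoint tripods contain the patterns (equivalence relations, both sides)

Let `M₀`, `M₁` be the numbers of `crit_equiv` for `e = 0, 1`, and `M := M₀ + M₁`.  In a family of `M` disjoint tripods with legs of length `M` there
are `M₀` with centre on the side `inl` or `M₁` with centre on the side `inr` (injections of `Fin M₀` or `Fin M₁` into the set of the indices with
`side (c a) = e`); their legs may be restricted to length `M₀` resp. `M₁` (as in `DTri.mono`).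
-/

set_option autoImplicit false

namespace Pool.Agent.Helper20.FS

open Pool.Agent.Helper20.OP

private lemma pick53 {V X Y : Type} (α : V → X) (β : V → Y) {M N : ℕ} (hNM : N ≤ M) (e : Fin 2)
    (c : Fin M → X ⊕ Y) (f : Fin M → Fin 3 → ℕ → X ⊕ Y)
    (hT : ∀ a, IsTri (bip α β) M (c a) (f a))
    (hD : ∀ a b s t i j, a ≠ b → i ≤ M → j ≤ M → f a s i ≠ f b t j)
    (hN : N ≤ (Finset.univ.filter fun a => side (c a) = e).card) :
    ∃ (c : Fin N → X ⊕ Y) (f : Fin N → Fin 3 → ℕ → X ⊕ Y),
        (∀ a, IsTri (bip α β) N (c a) (f a)) ∧ (∀ a, side (c a) = e) ∧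
        ∀ a b s t i j, a ≠ b → i ≤ N → j ≤ N → f a s i ≠ f b t j := by
  obtain ⟨g, hg, hge⟩ : ∃ g : Fin N → Fin M, Function.Injective g ∧ ∀ a, side (c (g a)) = e := by
    refine ⟨fun a => (Finset.univ.filter fun a => side (c a) = e).orderEmbOfFin rfl
      (Fin.castLE hN a), ?_, fun a => ?_⟩
    · intro a b hab
      exact Fin.castLE_injective hN (((Finset.univ.filter fun a => side (c a) = e).orderEmbOfFin
        rfl).injective hab)
    · exact (Finset.mem_filter.1 (Finset.orderEmbOfFin_mem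
        (Finset.univ.filter fun a => side (c a) = e) rfl (Fin.castLE hN a))).2
  refine ⟨fun a => c (g a), fun a => f (g a), fun a => ?_, hge, ?_⟩
  · obtain ⟨h1, h2, h3⟩ := hT (g a)
    exact ⟨h1, fun s i hi => h2 s i (by omega), fun s i t j hi hj h => h3 s i t j (by omega) (by omega) h⟩
  · intro a b s t i j hab hi hj
    exact hD (g a) (g b) s t i j (fun h => hab (hg h)) (by omega) (by omega)

theorem crit_equiv_both {m : ℕ} {s : Fin m → ℕ} (P : ∀ i, Str Kind.equiv.rels (Fin (s i)))
    (hP : ∀ e : Fin 2, ∃ i, Contains Kind.equiv (P i) (zig e)) :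
    ∃ M, 1 ≤ M ∧ ∀ (V X Y : Type) (R : Str Kind.equiv.rels V) (α : V → X) (β : V → Y),
      (∀ x y, R (0 : Fin 2) x y ↔ α x = α y) → (∀ x y, R (1 : Fin 2) x y ↔ β x = β y) →
      DTri (bip α β) M M → ∃ i, Contains Kind.equiv (P i) R := by
  obtain ⟨i₀, h₀⟩ := hP 0
  obtain ⟨i₁, h₁⟩ := hP 1
  obtain ⟨M₀, hM₀, k₀⟩ := crit_equiv (P i₀) 0 h₀
  obtain ⟨M₁, hM₁, k₁⟩ := crit_equiv (P i₁) 1 h₁
  refine ⟨M₀ + M₁, by omega, ?_⟩
  rintro V X Y R α β hα hβ ⟨c, f, hT, hD⟩
  have hcard : (Finset.univ.filter fun a => side (c a) = 0).card +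
      (Finset.univ.filter fun a => side (c a) = 1).card = M₀ + M₁ := by
    have h2 : (Finset.univ.filter fun a => side (c a) = 1) =
        (Finset.univ.filter fun a => ¬ side (c a) = 0) := by
      refine Finset.filter_congr fun a _ => ?_
      have : ∀ x : Fin 2, x = 1 ↔ ¬ x = 0 := by decide
      exact this _
    rw [h2, Finset.card_filter_add_card_filter_not, Finset.card_univ, Fintype.card_fin]
  by_cases h : M₀ ≤ (Finset.univ.filter fun a => side (c a) = 0).card
  · exact ⟨i₀, k₀ V X Y R α β hα hβ (pick53 α β (by omega) 0 c f hT hD h)⟩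
  · exact ⟨i₁, k₁ V X Y R α β hα hβ (pick53 α β (by omega) 1 c f hT hD (by omega))⟩

end Pool.Agent.Helper20.FS
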