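import Pool.Agent.Helper20.OP.EF

/-!
# Structures built element by element

`preS m R`: the structure with the relations given by Boolean combinations `m` of the relations of `R`.
`addS c d e R`: one new element `none`; the relations between an old element `x` and `none` depend only on the truth
values of the relations at `(x, x)`.  `LGen b`: the structures built from the empty structure by these operations.
-/

set_option autoImplicit false

namespace Pool.Agent.Helper20.FS

open FirstOrder FirstOrder.Language Pool.Agent.Helper20.Spectra Pool.Agent.Helper20.OP

/-- apply `m` to the relations -/
def preS {b : ℕ} {V : Type} (m : Fin b → (Fin b → Prop) → Prop) (R : Str b V) : Str b V :=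
  fun r x y => m r (fun r' => R r' x y)

/-- add one element -/
def addS {b : ℕ} {V : Type} (c d : Fin b → (Fin b → Prop) → Prop) (e : Fin b → Prop)
    (R : Str b V) : Str b (Option V) := fun r x y => match x, y with
  | some x, some y => R r x y
  | some x, none => c r (fun r' => R r' x x)
  | none, some y => d r (fun r' => R r' y y)
  | none, none => e r

/-- structures built element by element -/
inductive LGen (b : ℕ) : (V : Type) → Str b V → Prop
  | nil (V : Type) (R : Str b V) : IsEmpty V → LGen b V R
  | pre (V : Type) (R : Str b V) (m : Fin b → (Fin b → Prop) → Prop) : LGen b V R →
      LGen b V (preS m R)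
  | add (V : Type) (R : Str b V) (c d : Fin b → (Fin b → Prop) → Prop) (e : Fin b → Prop) :
      LGen b V R → LGen b (Option V) (addS c d e R)
  | iso (V W : Type) (e : V ≃ W) (R : Str b V) : LGen b V R →
      LGen b W (fun r x y => R r (e.symm x) (e.symm y))

end Pool.Agent.Helper20.FS
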