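import Pool.Agent.Helper20.FS.SwBasic
import Pool.Agent.Helper20.FS.Lin

/-!
# Block FS-T11: sweeps of graphs give structures built element by element

Relation `0` of the structure is the graph, relation `i + 1` (`i : Fin K`; only its truth values at the pairs `(x, x)` matter) is
the label `i`.

Proof.  Claim, by induction on `Sw G K D A`: there are `R : Str (K + 1) D` (universe the subtype of `D`) and `λ : V → Fin K` (for `K = 0` the
set `D` is empty, use `Option`/arbitrary values) such that `LGen (K + 1) D R`, `R 0 x y ↔ G x y`, `λ` is injective on `A`, and for all `a ∈ A` and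
`x : D`: `R (λ a).succ x x ↔ x = a`.
* `nil`: `LGen.nil`.
* `drop`: the same `R`, `λ`.
* `add D A v`: choose a label `j` not in `λ '' A` (`A.card < K`), apply `LGen.pre` with `m r t := if r = j.succ then False else t r`, then
  `LGen.add` with `c 0 t := ∃ a ∈ A, G a v ∧ t (λ a).succ`, `d 0 t := ∃ a ∈ A, G v a ∧ t (λ a).succ`, `e 0 := False`; for `r = i.succ`: `c r := False`,
  `d r := False`, `e r := (i = j)`; then `LGen.iso` along an equivalence `Option D ≃ ↥(insert v D)` (`none ↦ v`).  New `λ' := Function.update λ v j`.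
  For `x ∈ D`: `c 0 (loops of x)` says that `x ∈ A` and `G x v`; and `G x v` implies `x ∈ A`, by `Sw.front` (otherwise `v ∈ D`).
At the end `D = univ`: transport along `↥univ ≃ V`.
-/

set_option autoImplicit false

namespace Pool.Agent.Helper20.FS

open Pool.Agent.Helper20.OP

/-- the old elements and the new element -/
private def optEquiv {V : Type} [DecidableEq V] (D : Finset V) (v : V) (hv : v ∉ D) :
    Option {x // x ∈ D} ≃ {x // x ∈ insert v D} where
  toFun o := match o with
    | none => ⟨v, Finset.mem_insert_self v D⟩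
    | some x => ⟨x, Finset.mem_insert_of_mem x.2⟩
  invFun x := if h : (x : V) = v then none else
    some ⟨x, (Finset.mem_insert.mp x.2).resolve_left h⟩
  left_inv o := by
    cases o with
    | none => exact dif_pos rfl
    | some x =>
      have hx : (x : V) ≠ v := fun h => hv (h ▸ x.2)
      change (if h : (x : V) = v then none else some _) = some x
      rw [dif_neg hx]
  right_inv x := by
    by_cases h : (x : V) = v
    · simp only [dif_pos h]
      exact Subtype.ext h.symm
    · simp only [dif_neg h]

private theorem lgen_graph_aux {V : Type} [DecidableEq V] {G : V → V → Prop}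
    (hi : ∀ x, ¬ G x x) (hG : ∀ x y, G x y → G y x) {K : ℕ} {D A : Finset V} (h : Sw G K D A) :
    ∃ (R : Str (K + 1) {x // x ∈ D}) (lam : V → Fin (K + 1)),
      LGen (K + 1) {x // x ∈ D} R ∧ (∀ x y : {x // x ∈ D}, R 0 x y ↔ G x y) ∧
      (∀ a ∈ A, lam a ≠ 0) ∧ (∀ a ∈ A, ∀ b ∈ A, lam a = lam b → a = b) ∧
      ∀ a ∈ A, ∀ x : {x // x ∈ D}, R (lam a) x x ↔ (x : V) = a := by
  induction h with
  | nil =>
    refine ⟨fun _ _ _ => False, fun _ => 0, LGen.nil _ _ ⟨fun x => ?_⟩, fun x => ?_, ?_, ?_, ?_⟩
    · exact (Finset.notMem_empty _ x.2).elim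
    · exact (Finset.notMem_empty _ x.2).elim
    · intro a ha
      exact (Finset.notMem_empty _ ha).elim
    · intro a ha
      exact (Finset.notMem_empty _ ha).elim
    · intro a ha
      exact (Finset.notMem_empty _ ha).elim
  | drop D A v hv h ih =>
    obtain ⟨R, lam, h1, h2, h3, h4, h5⟩ := ih
    exact ⟨R, lam, h1, h2, fun a ha => h3 a (Finset.mem_of_mem_erase ha),
      fun a ha b hb => h4 a (Finset.mem_of_mem_erase ha) b (Finset.mem_of_mem_erase hb),
      fun a ha => h5 a (Finset.mem_of_mem_erase ha)⟩
  | add D A v hv hK h ih =>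
    obtain ⟨R, lam, h1, h2, h3, h4, h5⟩ := ih
    obtain ⟨j, hj⟩ : ∃ j : Fin (K + 1), j ∉ insert 0 (A.image lam) := by
      by_contra hcon
      push Not at hcon
      have e1 : insert 0 (A.image lam) = Finset.univ := Finset.eq_univ_iff_forall.mpr hcon
      have e2 := Finset.card_insert_le (0 : Fin (K + 1)) (A.image lam)
      have e3 := Finset.card_image_le (s := A) (f := lam)
      rw [e1, Finset.card_univ, Fintype.card_fin] at e2
      omega
    have hj0 : j ≠ 0 := fun h => hj (Finset.mem_insert.mpr (Or.inl h))
    have hjA : ∀ a ∈ A, lam a ≠ j := fun a ha h =>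
      hj (Finset.mem_insert.mpr (Or.inr (Finset.mem_image.mpr ⟨a, ha, h⟩)))
    have hvA : v ∉ A := fun h' => hv (h.sub h')
    -- the structure
    let m : Fin (K + 1) → (Fin (K + 1) → Prop) → Prop := fun r t => r ≠ j ∧ t r
    let c : Fin (K + 1) → (Fin (K + 1) → Prop) → Prop := fun r t => r = 0 ∧ ∃ a ∈ A, G a v ∧ t (lam a)
    let d : Fin (K + 1) → (Fin (K + 1) → Prop) → Prop := fun r t => r = 0 ∧ ∃ a ∈ A, G v a ∧ t (lam a)
    let e : Fin (K + 1) → Prop := fun r => r = j
    let R1 : Str (K + 1) {x // x ∈ D} := preS m R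
    let R2 : Str (K + 1) (Option {x // x ∈ D}) := addS c d e R1
    let ε := optEquiv D v hv
    have hεv : ∀ x : {x // x ∈ insert v D}, (x : V) = v → ε.symm x = none := fun x hx => dif_pos hx
    have hεn : ∀ x : {x // x ∈ insert v D}, (x : V) ≠ v → ∃ y : {x // x ∈ D}, ε.symm x = some y ∧
        (y : V) = x := fun x hx =>
      ⟨⟨x, (Finset.mem_insert.mp x.2).resolve_left hx⟩, dif_neg hx, rfl⟩
    -- the truth values of the labels
    have hlab : ∀ (a : V), a ∈ A → ∀ y : {x // x ∈ D}, R1 (lam a) y y ↔ (y : V) = a := by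
      intro a ha y
      change (lam a ≠ j ∧ R (lam a) y y) ↔ _
      rw [h5 a ha y]
      exact and_iff_right (hjA a ha)
    have hR10 : ∀ x y : {x // x ∈ D}, R1 0 x y ↔ G x y := by
      intro x y
      change ((0 : Fin (K + 1)) ≠ j ∧ R 0 x y) ↔ _
      rw [h2 x y]
      exact and_iff_right hj0.symm
    have hfr : ∀ y : {x // x ∈ D}, G y v → (y : V) ∈ A := by
      intro y hy
      by_contra hn
      exact hv (h.front y.2 hn hy)
    refine ⟨fun r x y => R2 r (ε.symm x) (ε.symm y), Function.update lam v j,
      LGen.iso _ _ ε R2 (LGen.add _ _ c d e (LGen.pre _ _ m h1)), ?_, ?_, ?_, ?_⟩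
    · intro x y
      change R2 0 (ε.symm x) (ε.symm y) ↔ _
      by_cases hx : (x : V) = v
      · by_cases hy : (y : V) = v
        · rw [hεv x hx, hεv y hy, hx, hy]
          change (0 : Fin (K + 1)) = j ↔ G v v
          exact iff_of_false hj0.symm (hi v)
        · obtain ⟨y', hy1, hy2⟩ := hεn y hy
          rw [hεv x hx, hy1, hx, ← hy2]
          change ((0 : Fin (K + 1)) = 0 ∧ ∃ a ∈ A, G v a ∧ R1 (lam a) y' y') ↔ G v y'
          constructor
          · rintro ⟨-, a, ha, h6, h7⟩
            rw [(hlab a ha y').mp h7]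
            exact h6
          · intro h6
            have h7 := hfr y' (hG _ _ h6)
            exact ⟨rfl, y', h7, h6, (hlab _ h7 y').mpr rfl⟩
      · obtain ⟨x', hx1, hx2⟩ := hεn x hx
        by_cases hy : (y : V) = v
        · rw [hεv y hy, hx1, hy, ← hx2]
          change ((0 : Fin (K + 1)) = 0 ∧ ∃ a ∈ A, G a v ∧ R1 (lam a) x' x') ↔ G x' v
          constructor
          · rintro ⟨-, a, ha, h6, h7⟩
            rw [(hlab a ha x').mp h7]
            exact h6
          · intro h6
            have h7 := hfr x' h6
            exact ⟨rfl, x', h7, h6, (hlab _ h7 x').mpr rfl⟩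
        · obtain ⟨y', hy1, hy2⟩ := hεn y hy
          rw [hx1, hy1, ← hx2, ← hy2]
          exact hR10 x' y'
    · intro a ha
      by_cases hav : a = v
      · rw [hav, Function.update_self]
        exact hj0
      · rw [Function.update_of_ne hav]
        exact h3 a ((Finset.mem_insert.mp ha).resolve_left hav)
    · intro a ha b hb hab
      by_cases hav : a = v
      · by_cases hbv : b = v
        · rw [hav, hbv]
        · rw [hav, Function.update_self, Function.update_of_ne hbv] at hab
          exact absurd hab.symm (hjA b ((Finset.mem_insert.mp hb).resolve_left hbv))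
      · by_cases hbv : b = v
        · rw [hbv, Function.update_self, Function.update_of_ne hav] at hab
          exact absurd hab (hjA a ((Finset.mem_insert.mp ha).resolve_left hav))
        · rw [Function.update_of_ne hav, Function.update_of_ne hbv] at hab
          exact h4 a ((Finset.mem_insert.mp ha).resolve_left hav) b
            ((Finset.mem_insert.mp hb).resolve_left hbv) hab
    · intro a ha x
      change R2 (Function.update lam v j a) (ε.symm x) (ε.symm x) ↔ _
      by_cases hav : a = v
      · rw [hav, Function.update_self]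
        by_cases hx : (x : V) = v
        · rw [hεv x hx, hx]
          change j = j ↔ v = v
          exact iff_of_true rfl rfl
        · obtain ⟨x', hx1, hx2⟩ := hεn x hx
          rw [hx1]
          change (j ≠ j ∧ R j x' x') ↔ _
          exact iff_of_false (fun h => h.1 rfl) hx
      · have ha' := (Finset.mem_insert.mp ha).resolve_left hav
        rw [Function.update_of_ne hav]
        by_cases hx : (x : V) = v
        · rw [hεv x hx, hx]
          change lam a = j ↔ v = a
          exact iff_of_false (hjA a ha') (fun h => hav h.symm)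
        · obtain ⟨x', hx1, hx2⟩ := hεn x hx
          rw [hx1, ← hx2]
          exact hlab a ha' x'

theorem lgen_graph {V : Type} [Fintype V] [DecidableEq V] {G : V → V → Prop}
    (hi : ∀ x, ¬ G x x) (hG : ∀ x y, G x y → G y x) {K : ℕ} {A : Finset V}
    (h : Sw G K Finset.univ A) : ∃ R : Str (K + 1) V, LGen (K + 1) V R ∧ R 0 = G := by
  obtain ⟨R, lam, h1, h2, -⟩ := lgen_graph_aux hi hG h
  refine ⟨_, LGen.iso _ V (Equiv.subtypeUnivEquiv Finset.mem_univ) R h1, ?_⟩
  funext x y
  exact propext (h2 _ _)

end Pool.Agent.Helper20.FS
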