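import Pool.Agent.Helper20.FS.EFAdd
import Pool.Agent.Helper20.OP.Types
import Pool.Agent.Helper20.OP.Gen

/-!
# Block FS-T2: spectra over the structures built element by element are ultimately periodic

Proof (compare `gen_ultPeriodic` in `Pool/Agent/Helper20/OP/Gen.lean`, whose `EFq.iso` is available).  Let `q` be the number of
`EFq.realize φ`, and `T`, `tp` from `exists_types b q 0`.  Define on `T`: `Eps t t'`: there are `V`, `R`, `m` with types `t` of `R` and
`t'` of `preS m R`; `Step t t'`: the same with `addS c d e R`; `t₀`: the type of the empty structure (all structures with empty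
universe are `EFq` equivalent).  Let `X n := {tp V R | LGen b V R, Nat.card V = n}`.
Claim: `X (n + 1) = Φ (X n)` where `Φ S := {t' | ∃ t ∈ S, ∃ t₁, Step t t₁ ∧ Relation.ReflTransGen Eps t₁ t'}`, and
`X 0 = {t' | ReflTransGen Eps t₀ t'}`.  For this define inductively `Rc : ℕ → T → Prop` by `nil : Rc 0 t₀`,
`eps : Rc n t → Eps t t' → Rc n t'`, `step : Rc n t → Step t t' → Rc (n + 1) t'`, and prove `t ∈ X n ↔ Rc n t` (left to right by
induction on `LGen`, right to left by induction on `Rc`, using `EFq_preS`, `EFq_addS0`: if `R`, `R'` have the same type then so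
have `addS c d e R`, `addS c d e R'`), and `Rc (n + 1) t' ↔ ∃ t t₁, Rc n t ∧ Step t t₁ ∧ ReflTransGen Eps t₁ t'`.
As `Set T` is finite, there are `i < j` with `X i = X j` (`Finite.exists_ne_map_eq_of_infinite`), so `X (n + (j - i)) = X n` for all
`n ≥ i` (induction).  Finally, for `n ≥ 1`: `n ∈ sizes (LGen b) φ` if and only if some `t ∈ X n` is the type of a structure
satisfying `φ`.  So the set is ultimately periodic with `p = j - i`, `N = i + 1`.
-/

set_option autoImplicit false

namespace Pool.Agent.Helper20.FS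

open FirstOrder FirstOrder.Language Pool.Agent.Helper20.Spectra Pool.Agent.Helper20.OP

/-- the types reached after adding `n` elements -/
private inductive Rc {T : Type} (E S : T → T → Prop) (t₀ : T) : ℕ → T → Prop
  | nil : Rc E S t₀ 0 t₀
  | eps (n : ℕ) (t t' : T) : Rc E S t₀ n t → E t t' → Rc E S t₀ n t'
  | step (n : ℕ) (t t' : T) : Rc E S t₀ n t → S t t' → Rc E S t₀ (n + 1) t'

private lemma rc_succ {T : Type} (E S : T → T → Prop) (t₀ : T) (n : ℕ) (t' : T) :
    Rc E S t₀ (n + 1) t' ↔ ∃ t t₁, Rc E S t₀ n t ∧ S t t₁ ∧ Relation.ReflTransGen E t₁ t' := by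
  constructor
  · have key : ∀ m t', Rc E S t₀ m t' → ∀ n, m = n + 1 →
        ∃ t t₁, Rc E S t₀ n t ∧ S t t₁ ∧ Relation.ReflTransGen E t₁ t' := by
      intro m t' h
      induction h with
      | nil => intro n hn; omega
      | eps m t t' _ he ih =>
        intro n hn
        obtain ⟨u, u₁, h1, h2, h3⟩ := ih n hn
        exact ⟨u, u₁, h1, h2, h3.tail he⟩
      | step m t t' h hs _ =>
        intro n hn
        have : m = n := by omega
        subst this
        exact ⟨t, t', h, hs, Relation.ReflTransGen.refl⟩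
    intro h
    exact key _ _ h n rfl
  · rintro ⟨t, t₁, h1, h2, h3⟩
    induction h3 with
    | refl => exact Rc.step _ _ _ h1 h2
    | tail _ he ih => exact Rc.eps _ _ _ ih he

private lemma rc_shift {T : Type} (E S : T → T → Prop) (t₀ : T) {i p : ℕ}
    (h : ∀ t, Rc E S t₀ (i + p) t ↔ Rc E S t₀ i t) :
    ∀ n, i ≤ n → ∀ t, Rc E S t₀ (n + p) t ↔ Rc E S t₀ n t := by
  intro n hn
  induction n, hn using Nat.le_induction with
  | base => exact h
  | succ n _ ih =>
    intro t
    have e : n + 1 + p = n + p + 1 := by omega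
    rw [e, rc_succ, rc_succ]
    constructor
    · rintro ⟨u, u₁, h1, h2⟩
      exact ⟨u, u₁, (ih u).1 h1, h2⟩
    · rintro ⟨u, u₁, h1, h2⟩
      exact ⟨u, u₁, (ih u).2 h1, h2⟩

/-- structures with empty universe are equivalent -/
private lemma efq_empty {b : ℕ} (q : ℕ) {V W : Type} [IsEmpty V] [IsEmpty W] (R : Str b V)
    (S : Str b W) : EFq q R S (Fin.elim0 : Fin 0 → V) (Fin.elim0 : Fin 0 → W) := by
  have h0 : AtEq R S (Fin.elim0 : Fin 0 → V) (Fin.elim0 : Fin 0 → W) :=
    ⟨fun i => i.elim0, fun _ i => i.elim0⟩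
  cases q with
  | zero => exact h0
  | succ q => exact ⟨h0, fun x => isEmptyElim x, fun y => isEmptyElim y⟩

private lemma lgen_finite {b : ℕ} {V : Type} {R : Str b V} (h : LGen b V R) : Finite V := by
  induction h with
  | nil V R h => exact Finite.of_subsingleton
  | pre V R m _ ih => exact ih
  | add V R c d e _ ih => exact inferInstance
  | iso V W e R _ ih => exact Finite.of_equiv V e

theorem lgen_ultPeriodic (b : ℕ) (φ : (binLang b).Sentence) :
    UltPeriodic (sizes (fun V R => LGen b V R) φ) := by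
  obtain ⟨q, hq⟩ := EFq.realize (φ : (binLang b).BoundedFormula Empty 0)
  obtain ⟨T, hT, tp, htp⟩ := exists_types b q 0
  let E : T → T → Prop := fun t t' => ∃ (V : Type) (R : Str b V)
    (m : Fin b → (Fin b → Prop) → Prop), tp V R Fin.elim0 = t ∧ tp V (preS m R) Fin.elim0 = t'
  let St : T → T → Prop := fun t t' => ∃ (V : Type) (R : Str b V)
    (c d : Fin b → (Fin b → Prop) → Prop) (e : Fin b → Prop), tp V R Fin.elim0 = t ∧
      tp (Option V) (addS c d e R) Fin.elim0 = t'
  let t₀ : T := tp Empty (fun _ _ _ => False) Fin.elim0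
  have hiso : ∀ (V W : Type) (e : V ≃ W) (R : Str b V),
      EFq q R (fun r (x y : W) => R r (e.symm x) (e.symm y)) Fin.elim0 Fin.elim0 := by
    intro V W e R
    have h1 := EFq.iso q e R (Fin.elim0 : Fin 0 → V)
    have h2 : (fun i => e ((Fin.elim0 : Fin 0 → V) i)) = Fin.elim0 := funext (fun i => i.elim0)
    rw [h2] at h1
    exact h1
  have hA : ∀ (V : Type) (R : Str b V), LGen b V R →
      Rc E St t₀ (Nat.card V) (tp V R Fin.elim0) := by
    intro V R h
    induction h with
    | nil V R h =>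
      have e1 : Nat.card V = 0 := by
        have := h
        exact Nat.card_of_isEmpty
      have e2 : tp V R Fin.elim0 = t₀ := by
        have := h
        exact (htp _ _ _ _ _ _).2 (efq_empty q R _)
      rw [e1, e2]
      exact Rc.nil
    | pre V R m _ ih => exact Rc.eps _ _ _ ih ⟨V, R, m, rfl, rfl⟩
    | add V R c d e h ih =>
      have := lgen_finite h
      rw [Finite.card_option]
      exact Rc.step _ _ _ ih ⟨V, R, c, d, e, rfl, rfl⟩
    | iso V W e R _ ih =>
      rw [← Nat.card_congr e, ← (htp _ _ _ _ _ _).2 (hiso V W e R)]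
      exact ih
  have hB : ∀ n t, Rc E St t₀ n t → ∃ (V : Type) (R : Str b V), LGen b V R ∧ Nat.card V = n ∧
      tp V R Fin.elim0 = t := by
    intro n t h
    induction h with
    | nil => exact ⟨Empty, fun _ _ _ => False, LGen.nil _ _ inferInstance, Nat.card_of_isEmpty, rfl⟩
    | eps n t t' _ he ih =>
      obtain ⟨V₀, R₀, m, e1, e2⟩ := he
      obtain ⟨V, R, g, c, r⟩ := ih
      refine ⟨V, preS m R, LGen.pre V R m g, c, ?_⟩
      rw [← e2, htp]
      exact EFq_preS m q ((htp _ _ _ _ _ _).1 (r.trans e1.symm))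
    | step n t t' _ hs ih =>
      obtain ⟨V₀, R₀, c', d', e', e1, e2⟩ := hs
      obtain ⟨V, R, g, c, r⟩ := ih
      have := lgen_finite g
      refine ⟨Option V, addS c' d' e' R, LGen.add V R c' d' e' g, ?_, ?_⟩
      · rw [Finite.card_option, c]
      · rw [← e2, htp]
        exact EFq_addS0 c' d' e' q ((htp _ _ _ _ _ _).1 (r.trans e1.symm))
  have hmod : ∀ (V W : Type) (R : Str b V) (S : Str b W), EFq q R S Fin.elim0 Fin.elim0 →
      (Models R φ ↔ Models S φ) := by
    intro V W R S h
    have h1 := hq V W R S _ _ h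
    have e1 : (Fin.elim0 : Fin 0 → V) = default := Subsingleton.elim _ _
    have e2 : (Fin.elim0 : Fin 0 → W) = default := Subsingleton.elim _ _
    rw [e1, e2] at h1
    exact h1
  let F : Set T := {t | ∃ (V : Type) (R : Str b V), tp V R Fin.elim0 = t ∧ Models R φ}
  have hmem : ∀ n, n ∈ sizes (fun V R => LGen b V R) φ ↔ 1 ≤ n ∧ ∃ t ∈ F, Rc E St t₀ n t := by
    intro n
    constructor
    · rintro ⟨hn, R, h1, h2⟩
      refine ⟨hn, _, ⟨Fin n, R, rfl, h2⟩, ?_⟩
      have h3 := hA _ R h1
      rw [Nat.card_fin] at h3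
      exact h3
    · rintro ⟨hn, t, ⟨V₀, R₀, h1, h2⟩, h3⟩
      obtain ⟨V, R, h4, h5, h6⟩ := hB n t h3
      have := lgen_finite h4
      let e : V ≃ Fin n := (Finite.equivFin V).trans (finCongr h5)
      refine ⟨hn, _, LGen.iso V (Fin n) e R h4, ?_⟩
      rw [← hmod _ _ _ _ (hiso V (Fin n) e R)]
      exact (hmod _ _ _ _ ((htp _ _ _ _ _ _).1 (h1.trans h6.symm))).1 h2
  -- two equal sets of types
  obtain ⟨i, j, hij, hX⟩ : ∃ i j : ℕ, i < j ∧ ∀ t, Rc E St t₀ j t ↔ Rc E St t₀ i t := by
    obtain ⟨i, j, hne, h⟩ := Finite.exists_ne_map_eq_of_infinite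
      (fun n : ℕ => ({t | Rc E St t₀ n t} : Set T))
    have h' : ∀ t, Rc E St t₀ i t ↔ Rc E St t₀ j t := fun t => by
      have := congrArg (fun X : Set T => t ∈ X) h
      exact this.to_iff
    rcases lt_or_gt_of_ne hne with hlt | hlt
    · exact ⟨i, j, hlt, fun t => (h' t).symm⟩
    · exact ⟨j, i, hlt, h'⟩
  have hsh := rc_shift E St t₀ (i := i) (p := j - i) (by
    rw [Nat.add_sub_cancel' hij.le]
    exact hX)
  refine ⟨j - i, i + 1, by omega, fun n hn => ?_⟩
  rw [hmem, hmem]
  constructor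
  · rintro ⟨h1, t, ht, h2⟩
    exact ⟨by omega, t, ht, (hsh n (by omega) t).2 h2⟩
  · rintro ⟨h1, t, ht, h2⟩
    exact ⟨by omega, t, ht, (hsh n (by omega) t).1 h2⟩

end Pool.Agent.Helper20.FS
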