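import Pool.Agent.Helper20.FS.CritG
import Pool.Agent.Helper20.FS.CritBoth
import Pool.Agent.Helper20.FS.GenGraph
import Pool.Agent.Helper20.FS.LinPer
import Pool.Agent.Helper20.FS.DefOmit
import Pool.Agent.Helper20.OP.Interp

/-!
# The tame case
-/

set_option autoImplicit false

namespace Pool.Agent.Helper20.FS

open FirstOrder FirstOrder.Language Pool.Agent.Helper20.Spectra Pool.Agent.Helper20.OP

/-- transfer of periodicity along a reduct -/
theorem ultPeriodic_of_reduct {b b' : ℕ} {C : ∀ V : Type, Str b V → Prop} (hC : Def0 b C)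
    (τ : Fin b → Fin b')
    (h : ∀ (V : Type) (_ : Finite V) (R : Str b V), C V R →
      ∃ R' : Str b' V, LGen b' V R' ∧ (fun r => R' (τ r)) = R) {A : Set ℕ} (hA : SpecOver C A) :
    UltPeriodic A := by
  obtain ⟨φ, rfl⟩ := hA
  have hD : Def0 b (fun V R => C V R ∧ Models R φ) := hC.and (Def0.models φ)
  obtain ⟨ψ, hψ⟩ := (Def0.interp (b := b) (b' := b') (fun V R' r => R' (τ r))
    (fun r => Def.rel (τ r) 0 1) hD).exists_sentence
  have e : sizes C φ = sizes (fun V R => LGen b' V R) ψ := by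
    ext n
    constructor
    · rintro ⟨hn, R, h1, h2⟩
      obtain ⟨R', h3, h4⟩ := h (Fin n) inferInstance R h1
      refine ⟨hn, R', h3, (hψ _ R').2 ?_⟩
      rw [h4]
      exact ⟨h1, h2⟩
    · rintro ⟨hn, R', _, h2⟩
      have h3 := (hψ _ R').1 h2
      exact ⟨hn, _, h3.1, h3.2⟩
  rw [e]
  exact lgen_ultPeriodic b' ψ

theorem tame_main (κ : Kind) {m : ℕ} {s : Fin m → ℕ} (P : ∀ i, Str κ.rels (Fin (s i)))
    (hP : Meets κ P) (A : Set ℕ) (hA : SpecOver (Omit κ P) A) : UltPeriodic A := by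
  classical
  cases κ with
  | graph =>
    obtain ⟨i, hi⟩ := hP
    obtain ⟨M, hM, hM'⟩ := crit_graph (P i) hi
    refine ultPeriodic_of_reduct (b := 1) (b' := (M * (3 * (M + 1)) + (4 * M + 1)) + 1)
      (def_omit Kind.graph P) (fun _ => 0) (fun V _ R hR => ?_) hA
    have hf : Fintype V := Fintype.ofFinite V
    have h1 : ¬ DTri (R (0 : Fin 1)) M M := fun h => hR.2 i (hM' V R hR.1 h)
    obtain ⟨B, hB⟩ := core hR.1.2 hM h1
    obtain ⟨R', h2, h3⟩ := lgen_graph hR.1.1 hR.1.2 hB
    refine ⟨R', h2, funext fun r => ?_⟩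
    have hr : r = (0 : Fin 1) := Subsingleton.elim (α := Fin 1) r 0
    subst hr
    exact h3
  | equiv =>
    obtain ⟨M, hM, hM'⟩ := crit_equiv_both P hP
    refine ultPeriodic_of_reduct (b := 2) (b' := (M * (3 * (M + 1)) + (4 * M + 1)) + 2)
      (def_omit Kind.equiv P) ![0, 1] (fun V _ R hR => ?_) hA
    obtain ⟨⟨hE, hF⟩, hR⟩ := hR
    let sE : Setoid V := ⟨R (0 : Fin 2), hE⟩
    let sF : Setoid V := ⟨R (1 : Fin 2), hF⟩
    let α : V → Quotient sE := Quotient.mk sE
    let β : V → Quotient sF := Quotient.mk sF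
    have hα : ∀ x y, R (0 : Fin 2) x y ↔ α x = α y := fun x y =>
      ⟨fun h => Quotient.sound (s := sE) h, fun h => Quotient.exact (s := sE) h⟩
    have hβ : ∀ x y, R (1 : Fin 2) x y ↔ β x = β y := fun x y =>
      ⟨fun h => Quotient.sound (s := sF) h, fun h => Quotient.exact (s := sF) h⟩
    have : Fintype (Quotient sE) := Fintype.ofFinite _
    have : Fintype (Quotient sF) := Fintype.ofFinite _
    have h1 : ¬ DTri (bip α β) M M := fun h => by
      obtain ⟨i, hi⟩ := hM' V _ _ R α β hα hβ h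
      exact hR i hi
    have hsym : ∀ x y, bip α β x y → bip α β y x := by
      rintro (x | x) (y | y) h
      · exact h
      · exact h
      · exact h
      · exact h
    obtain ⟨B, hB⟩ := core hsym hM h1
    obtain ⟨R', h2, h3, h4⟩ := lgen_equiv α β hB
    refine ⟨R', h2, funext fun r => ?_⟩
    fin_cases r
    · funext x y
      exact propext ((h3 x y).trans (hα x y).symm)
    · funext x y
      exact propext ((h4 x y).trans (hβ x y).symm)

end Pool.Agent.Helper20.FS
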