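import Pool.Agent.Helper20.FS.LemB

/-!
# Block FS-T10: graphs without many disjoint tripods have bounded sweeps

Proof of `core`.  `DTri G M 0` holds trivially and `DTri G M M` fails, so there is `m < M` with `DTri G M m` and not `DTri G M (m + 1)`
(`Nat.find` or induction).  Let `T` be the set of the vertices `f a s i`, `a : Fin m`, `s : Fin 3`, `i ≤ M`, of the `m` disjoint tripods:
`T.card ≤ m * (3 * (M + 1)) ≤ M * (3 * (M + 1))`.  There is no tripod in `univ \ T`: otherwise together with the `m` given ones we had `m + 1`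
disjoint tripods (`Fin.snoc`/`Fin.cons`).  Start with `Sw.nil`, add the set `T` (`Sw.addSet`), and sweep the rest by `sw_comp` with `C := univ \ T`:
for a component `X` use `lemmaB` (`Tri` in `X ⊆ univ \ T` is excluded; the neighbours of `x ∈ X` are in `T ⊆ D` or in `X`).
`T ∪ (univ \ T) = univ`.

`DTri.mono`: fewer and shorter tripods.
-/

set_option autoImplicit false

namespace Pool.Agent.Helper20.FS

variable {V : Type} [DecidableEq V] {G : V → V → Prop}

private theorem isTri_mono_aux {V : Type} {G : V → V → Prop} {M M' : ℕ} {c : V}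
    {f : Fin 3 → ℕ → V} (h : IsTri G M' c f) (hM : M ≤ M') : IsTri G M c f :=
  ⟨h.1, fun s i hi => h.2.1 s i (hi.trans_le hM),
    fun s i t j hi hj => h.2.2 s i t j (hi.trans hM) (hj.trans hM)⟩

theorem DTri.mono {M M' m m' : ℕ} (h : DTri G M' m') (hM : M ≤ M') (hm : m ≤ m') :
    DTri G M m := by
  obtain ⟨c, f, h1, h2⟩ := h
  refine ⟨fun a => c (Fin.castLE hm a), fun a => f (Fin.castLE hm a),
    fun a => isTri_mono_aux (h1 _) hM, fun a b s t i j hab hi hj => ?_⟩
  exact h2 _ _ s t i j (fun e => hab (Fin.castLE_injective hm e)) (hi.trans hM) (hj.trans hM)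

theorem core [Fintype V] (hG : ∀ x y, G x y → G y x) {M : ℕ} (hM : 1 ≤ M)
    (h : ¬ DTri G M M) : ∃ A, Sw G (M * (3 * (M + 1)) + (4 * M + 1)) Finset.univ A := by
  classical
  -- the threshold
  obtain ⟨m, hmM, hm, hm'⟩ : ∃ m, m < M ∧ DTri G M m ∧ ¬ DTri G M (m + 1) := by
    have key : ∀ k, ¬ DTri G M k → ∃ m, m < k ∧ DTri G M m ∧ ¬ DTri G M (m + 1) := by
      intro k
      induction k with
      | zero =>
        intro h0
        exact absurd ⟨fun a => a.elim0, fun a => a.elim0, fun a => a.elim0,
          fun a => a.elim0⟩ h0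
      | succ k ih =>
        intro hk
        by_cases h' : DTri G M k
        · exact ⟨k, Nat.lt_succ_self k, h', hk⟩
        · obtain ⟨m, h1, h2, h3⟩ := ih h'
          exact ⟨m, h1.trans (Nat.lt_succ_self k), h2, h3⟩
    exact key M h
  obtain ⟨c, f, h1, h2⟩ := hm
  -- the vertices of the tripods
  let T : Finset V := (Finset.univ : Finset (Fin m × (Fin 3 × Fin (M + 1)))).image
    (fun p => f p.1 p.2.1 p.2.2)
  have hT : ∀ a s i, i ≤ M → f a s i ∈ T := by
    intro a s i hi
    exact Finset.mem_image.2 ⟨(a, s, ⟨i, Nat.lt_succ_of_le hi⟩), Finset.mem_univ _, rfl⟩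
  have hcard : T.card ≤ M * (3 * (M + 1)) := by
    refine Finset.card_image_le.trans ?_
    rw [Finset.card_univ, Fintype.card_prod, Fintype.card_prod, Fintype.card_fin, Fintype.card_fin,
      Fintype.card_fin]
    exact Nat.mul_le_mul_right _ hmM.le
  -- no tripod outside
  have hno : ∀ X : Finset V, X ⊆ Finset.univ \ T → ¬ Tri G X M := by
    rintro X hX ⟨c', f', hf', hin⟩
    apply hm'
    refine ⟨Fin.cons c' c, Fin.cons f' f, ?_, ?_⟩
    · intro a
      refine Fin.cases ?_ (fun a => ?_) a
      · exact hf'
      · exact h1 a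
    · have hout : ∀ s i, i ≤ M → f' s i ∉ T := fun s i hi =>
        (Finset.mem_sdiff.1 (hX (hin s i hi))).2
      intro a b
      refine Fin.cases ?_ (fun a => ?_) a
      · refine Fin.cases ?_ (fun b => ?_) b
        · intro s t i j hab
          exact absurd rfl hab
        · intro s t i j _ hi hj he
          refine hout s i hi ?_
          have : f' s i = f b t j := he
          rw [this]
          exact hT b t j hj
      · refine Fin.cases ?_ (fun b => ?_) b
        · intro s t i j _ hi hj he
          refine hout t j hj ?_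
          have : f a s i = f' t j := he
          rw [← this]
          exact hT a s i hi
        · intro s t i j hab hi hj he
          exact h2 a b s t i j (fun e => hab (by rw [e])) hi hj he
  -- the sweep
  have hs0 : Sw G (M * (3 * (M + 1)) + (4 * M + 1)) (∅ ∪ T) (∅ ∪ T) :=
    Sw.addSet Sw.nil (Finset.disjoint_empty_right T) (by
      rw [Finset.card_empty]
      omega)
  rw [Finset.empty_union] at hs0
  have hs1 := sw_comp (K := M * (3 * (M + 1)) + (4 * M + 1)) hG (A := T)
    (C := Finset.univ \ T) (D₀ := T) Finset.sdiff_disjoint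
    (fun D X r hD hr hX hXD hreach hcl hSw => by
      refine lemmaB hG hM hr hXD ?_ hreach (hno X hX) (by omega) hSw
      intro x hx y hxy
      by_cases hy : y ∈ T
      · exact Finset.mem_union_left _ (hD hy)
      · exact Finset.mem_union_right _ (hcl x hx y
          (Finset.mem_sdiff.2 ⟨Finset.mem_univ y, hy⟩) hxy)) hs0
  rw [Finset.union_sdiff_of_subset (Finset.subset_univ T)] at hs1
  exact ⟨T, hs1⟩

end Pool.Agent.Helper20.FS
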