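import Pool.Agent.Helper20.FS.SwBasic
import Pool.Agent.Helper20.FS.Lin

/-!
# Block FS-T12: sweeps of the graph of the classes of two equivalence relations

`α x`, `β x`: the classes of `x`; `bip α β`: the bipartite graph of the classes; each `x` is an edge from `α x` to `β x`.

Proof.  For a set `D` of classes let `V_D` be the set of the elements `x` with both `inl (α x) ∈ D` and `inr (β x) ∈ D`.  Claim, by induction on
`Sw (bip α β) K D A`: there are `R : Str (K + 2) V_D` and `λ : X ⊕ Y → Fin K`, injective on `A`, with `LGen (K + 2) V_D R`,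
`R 0 x y ↔ α x = α y`, `R 1 x y ↔ β x = β y`, and for `a ∈ A`, `x ∈ V_D`: `R (λ a + 2) x x ↔ x` is in the class `a` (that is, `a = inl (α x)` or
`a = inr (β x)`).  (For `K = 0` the set `D` is empty.)
* `nil`, `drop`: as in `lgen_graph`.
* `add D A v`: choose a label `j` not in `λ '' A`, clear it by `LGen.pre`; now the claim holds for `insert v A` and `λ' := update λ v j`, with the
  old set `V_D` (no element of `V_D` is in the class `v ∉ D`).  Then add the elements `x` of `V_(insert v D) \ V_D` one by one (induction on finite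
  sets): such an `x` is in the class `v` and its other class `w` is in `insert v D`, `w ≠ v` (it is on the other side), so `w ∈ D`, and `w ∈ A` by
  `Sw.front` (as `v ∉ D` is a neighbour of `w`).  So both classes of `x` are in `insert v A`: use `LGen.add` with
  `c 0 t := t (label of inl (α x))`, `c 1 t := t (label of inr (β x))`, the same `d`, `e 0 = e 1 := True`; `c`, `d` of the labels `False`; `e` of the
  label `i`: `i = λ' (inl (α x)) ∨ i = λ' (inr (β x))`; and `LGen.iso`.
At the end all elements are in `V_univ`.
It is useful to prove first a general step lemma: for a finite set `W` of elements and a finite set `A` of classes with labels as above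
(`LGen (K + 2) W R`, ...), one more element both of whose classes are in `A` can be added.
-/

set_option autoImplicit false

namespace Pool.Agent.Helper20.FS

open Pool.Agent.Helper20.OP

/-- the bipartite graph of the classes -/
def bip {V X Y : Type} (α : V → X) (β : V → Y) : X ⊕ Y → X ⊕ Y → Prop
  | Sum.inl a, Sum.inr b => ∃ x, α x = a ∧ β x = b
  | Sum.inr b, Sum.inl a => ∃ x, α x = a ∧ β x = b
  | _, _ => False

/-- structures on the set `W` of elements, with the labels `lab` of the classes in `A` -/
private def Good36 {V X Y : Type} (α : V → X) (β : V → Y) (K : ℕ) (W : Set V)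
    (A : Finset (X ⊕ Y)) (lab : X ⊕ Y → ℕ) : Prop :=
  ∃ (U : Type) (f : U → V) (R : Str (K + 2) U), Function.Injective f ∧ Set.range f = W ∧
    LGen (K + 2) U R ∧ (∀ x y, R 0 x y ↔ α (f x) = α (f y)) ∧
    (∀ x y, R 1 x y ↔ β (f x) = β (f y)) ∧
    ∀ a ∈ A, ∀ i : Fin (K + 2), (i : ℕ) = lab a + 2 →
      ∀ x, R i x x ↔ (a = Sum.inl (α (f x)) ∨ a = Sum.inr (β (f x)))

/-- one more element -/
private theorem good_insert36 {V X Y : Type} {α : V → X} {β : V → Y} {K : ℕ} {W : Set V}
    {A : Finset (X ⊕ Y)} {lab : X ⊕ Y → ℕ} (hinj : Set.InjOn lab (A : Set (X ⊕ Y)))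
    (hlt : ∀ a ∈ A, lab a < K) (h : Good36 α β K W A lab) {v : V} (hv : v ∉ W)
    (ha : Sum.inl (α v) ∈ A) (hb : Sum.inr (β v) ∈ A) : Good36 α β K (insert v W) A lab := by
  classical
  obtain ⟨U, f, R, hf, hr, hR, h0, h1, h2⟩ := h
  have la : lab (Sum.inl (α v)) + 2 < K + 2 := by
    have := hlt _ ha
    omega
  have lb : lab (Sum.inr (β v)) + 2 < K + 2 := by
    have := hlt _ hb
    omega
  have h01 : (1 : Fin (K + 2)) ≠ 0 := by
    intro h
    have := congrArg Fin.val h
    simp at this
  have la' : ∀ x, R ⟨_, la⟩ x x ↔ α (f x) = α v := by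
    intro x
    rw [h2 _ ha ⟨_, la⟩ rfl x]
    constructor
    · rintro (h | h)
      · exact (Sum.inl_injective h).symm
      · cases h
    · intro h
      exact Or.inl (by rw [h])
  have lb' : ∀ x, R ⟨_, lb⟩ x x ↔ β (f x) = β v := by
    intro x
    rw [h2 _ hb ⟨_, lb⟩ rfl x]
    constructor
    · rintro (h | h)
      · cases h
      · exact (Sum.inr_injective h).symm
    · intro h
      exact Or.inr (by rw [h])
  let c : Fin (K + 2) → (Fin (K + 2) → Prop) → Prop := fun r t =>
    if r = 0 then t ⟨_, la⟩ else if r = 1 then t ⟨_, lb⟩ else False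
  let e : Fin (K + 2) → Prop := fun r => r = 0 ∨ r = 1 ∨ (r : ℕ) = lab (Sum.inl (α v)) + 2 ∨
    (r : ℕ) = lab (Sum.inr (β v)) + 2
  refine ⟨Option U, fun o => o.elim v f, addS c c e R, ?_, ?_, LGen.add U R c c e hR, ?_, ?_, ?_⟩
  · intro x y hxy
    cases x with
    | none =>
      cases y with
      | none => rfl
      | some y =>
        exact absurd (hr ▸ Set.mem_range_self y : f y ∈ W) (fun h => hv (by
          have h' : v = f y := hxy
          rw [h']
          exact h))
    | some x =>
      cases y with
      | none =>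
        exact absurd (hr ▸ Set.mem_range_self x : f x ∈ W) (fun h => hv (by
          have h' : f x = v := hxy
          rw [← h']
          exact h))
      | some y => exact congrArg some (hf hxy)
  · ext y
    rw [Set.mem_range, Set.mem_insert_iff, ← hr, Set.mem_range]
    constructor
    · rintro ⟨o, rfl⟩
      cases o with
      | none => exact Or.inl rfl
      | some x => exact Or.inr ⟨x, rfl⟩
    · rintro (rfl | ⟨x, rfl⟩)
      · exact ⟨none, rfl⟩
      · exact ⟨some x, rfl⟩
  · intro x y
    cases x with
    | none =>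
      cases y with
      | none => exact ⟨fun _ => rfl, fun _ => Or.inl rfl⟩
      | some y =>
        show (if (0 : Fin (K + 2)) = 0 then R ⟨_, la⟩ y y else
          if (0 : Fin (K + 2)) = 1 then R ⟨_, lb⟩ y y else False) ↔ α v = α (f y)
        rw [if_pos rfl, la' y]
        exact eq_comm
    | some x =>
      cases y with
      | none =>
        show (if (0 : Fin (K + 2)) = 0 then R ⟨_, la⟩ x x else
          if (0 : Fin (K + 2)) = 1 then R ⟨_, lb⟩ x x else False) ↔ α (f x) = α v
        rw [if_pos rfl, la' x]
      | some y => exact h0 x y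
  · intro x y
    cases x with
    | none =>
      cases y with
      | none => exact ⟨fun _ => rfl, fun _ => Or.inr (Or.inl rfl)⟩
      | some y =>
        show (if (1 : Fin (K + 2)) = 0 then R ⟨_, la⟩ y y else
          if (1 : Fin (K + 2)) = 1 then R ⟨_, lb⟩ y y else False) ↔ β v = β (f y)
        rw [if_neg h01, if_pos rfl, lb' y]
        exact eq_comm
    | some x =>
      cases y with
      | none =>
        show (if (1 : Fin (K + 2)) = 0 then R ⟨_, la⟩ x x else
          if (1 : Fin (K + 2)) = 1 then R ⟨_, lb⟩ x x else False) ↔ β (f x) = β v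
        rw [if_neg h01, if_pos rfl, lb' x]
      | some y => exact h1 x y
  · intro a haA i hi x
    cases x with
    | none =>
      show (i = 0 ∨ i = 1 ∨ (i : ℕ) = lab (Sum.inl (α v)) + 2 ∨
        (i : ℕ) = lab (Sum.inr (β v)) + 2) ↔ (a = Sum.inl (α v) ∨ a = Sum.inr (β v))
      constructor
      · rintro (h | h | h | h)
        · rw [h] at hi
          simp at hi
        · rw [h] at hi
          simp at hi
        · exact Or.inl (hinj haA ha (by omega))
        · exact Or.inr (hinj haA hb (by omega))
      · rintro (h | h)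
        · exact Or.inr (Or.inr (Or.inl (by rw [hi, h])))
        · exact Or.inr (Or.inr (Or.inr (by rw [hi, h])))
    | some x => exact h2 a haA i hi x

/-- the elements both of whose classes are in `D` -/
private def VD36 {V X Y : Type} (α : V → X) (β : V → Y) (D : Finset (X ⊕ Y)) : Set V :=
  {x | Sum.inl (α x) ∈ D ∧ Sum.inr (β x) ∈ D}

/-- several more elements -/
private theorem good_union36 {V X Y : Type} {α : V → X} {β : V → Y} {K : ℕ} {W : Set V}
    {A : Finset (X ⊕ Y)} {lab : X ⊕ Y → ℕ} (hinj : Set.InjOn lab (A : Set (X ⊕ Y)))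
    (hlt : ∀ a ∈ A, lab a < K) (h : Good36 α β K W A lab) (T : Set V) (hT : T.Finite)
    (hA : ∀ v ∈ T, v ∉ W → Sum.inl (α v) ∈ A ∧ Sum.inr (β v) ∈ A) :
    Good36 α β K (W ∪ T) A lab := by
  classical
  induction T, hT using Set.Finite.induction_on with
  | empty => rwa [Set.union_empty]
  | @insert v T hv hT ih =>
    have ih' := ih fun w hw => hA w (Set.mem_insert_of_mem _ hw)
    rw [Set.union_insert]
    by_cases hvW : v ∈ W ∪ T
    · rwa [Set.insert_eq_of_mem hvW]
    · have hvW' : v ∉ W := fun h => hvW (Or.inl h)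
      obtain ⟨h1, h2⟩ := hA v (Set.mem_insert _ _) hvW'
      exact good_insert36 hinj hlt ih' hvW h1 h2

/-- the claim -/
private theorem claim36 {V X Y : Type} [Finite V] [DecidableEq (X ⊕ Y)]
    (α : V → X) (β : V → Y) {K : ℕ} {D A : Finset (X ⊕ Y)} (h : Sw (bip α β) K D A) :
    ∃ lab : X ⊕ Y → ℕ, Set.InjOn lab (A : Set (X ⊕ Y)) ∧ (∀ a ∈ A, lab a < K) ∧
      Good36 α β K (VD36 α β D) A lab := by
  classical
  induction h with
  | nil =>
    refine ⟨fun _ => 0, fun x hx => by simp at hx, fun a ha => by simp at ha,
      Empty, Empty.elim, fun _ _ _ => False, fun x => x.elim, ?_, LGen.nil _ _ inferInstance,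
      fun x => x.elim, fun x => x.elim, fun a ha => by simp at ha⟩
    ext x
    constructor
    · rintro ⟨y, -⟩
      exact y.elim
    · rintro ⟨hx, -⟩
      simp at hx
  | drop D A v hv hS ih =>
    obtain ⟨lab, hinj, hlt, U, f, R, hf, hr, hR, h0, h1, h2⟩ := ih
    have hs : ∀ a ∈ A.erase v, a ∈ A := fun a ha => Finset.mem_of_mem_erase ha
    exact ⟨lab, fun x hx y hy => hinj (hs x hx) (hs y hy), fun a ha => hlt a (hs a ha),
      U, f, R, hf, hr, hR, h0, h1, fun a ha => h2 a (hs a ha)⟩
  | add D A v hvD hcard hS ih =>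
    obtain ⟨lab, hinj, hlt, U, f, R, hf, hr, hR, h0, h1, h2⟩ := ih
    have hAD : A ⊆ D := Sw.sub hS
    have hvA : v ∉ A := fun h => hvD (hAD h)
    -- a new label
    obtain ⟨j, hjK, hjA⟩ : ∃ j < K, j ∉ A.image lab := by
      by_contra hcon
      push Not at hcon
      have : Finset.range K ⊆ A.image lab := fun j hj => hcon j (Finset.mem_range.mp hj)
      have h3 := Finset.card_le_card this
      have h4 : (A.image lab).card ≤ A.card := Finset.card_image_le
      rw [Finset.card_range] at h3
      omega
    have hjA' : ∀ a ∈ A, lab a ≠ j := fun a ha h => hjA (Finset.mem_image.mpr ⟨a, ha, h⟩)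
    let lab' : X ⊕ Y → ℕ := Function.update lab v j
    have hlv : lab' v = j := Function.update_self _ _ _
    have hla : ∀ a ∈ A, lab' a = lab a := fun a ha =>
      Function.update_of_ne (fun h => hvA (by rw [← h]; exact ha)) _ _
    have hinj' : Set.InjOn lab' (insert v A : Finset (X ⊕ Y)) := by
      intro a ha b hb hab
      rw [Finset.mem_coe, Finset.mem_insert] at ha hb
      rcases ha with rfl | ha <;> rcases hb with rfl | hb
      · rfl
      · rw [hlv, hla b hb] at hab
        exact absurd hab.symm (hjA' b hb)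
      · rw [hlv, hla a ha] at hab
        exact absurd hab (hjA' a ha)
      · rw [hla a ha, hla b hb] at hab
        exact hinj ha hb hab
    have hlt' : ∀ a ∈ insert v A, lab' a < K := by
      intro a ha
      rw [Finset.mem_insert] at ha
      rcases ha with rfl | ha
      · rw [hlv]
        exact hjK
      · rw [hla a ha]
        exact hlt a ha
    -- the old structure with the label `j` cleared
    let m : Fin (K + 2) → (Fin (K + 2) → Prop) → Prop := fun r t => (r : ℕ) ≠ j + 2 ∧ t r
    have hW : Good36 α β K (VD36 α β D) (insert v A) lab' := by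
      refine ⟨U, f, preS m R, hf, hr, LGen.pre U R m hR, ?_, ?_, ?_⟩
      · intro x y
        rw [← h0 x y]
        show (((0 : Fin (K + 2)) : ℕ) ≠ j + 2 ∧ R 0 x y) ↔ R 0 x y
        refine and_iff_right ?_
        simp
      · intro x y
        rw [← h1 x y]
        show (((1 : Fin (K + 2)) : ℕ) ≠ j + 2 ∧ R 1 x y) ↔ R 1 x y
        refine and_iff_right ?_
        simp
      · intro a ha i hi x
        show ((i : ℕ) ≠ j + 2 ∧ R i x x) ↔ _
        have hx : f x ∈ VD36 α β D := hr ▸ Set.mem_range_self x
        rw [Finset.mem_insert] at ha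
        rcases ha with rfl | ha
        · rw [hlv] at hi
          constructor
          · rintro ⟨h, -⟩
            exact absurd hi h
          · rintro (h | h)
            · exact absurd (h ▸ hx.1) hvD
            · exact absurd (h ▸ hx.2) hvD
        · rw [hla a ha] at hi
          rw [← h2 a ha i hi x]
          refine and_iff_right ?_
          have := hjA' a ha
          omega
    refine ⟨lab', hinj', hlt', ?_⟩
    have key := good_union36 hinj' hlt' hW (VD36 α β (insert v D)) (Set.toFinite _) (by
      intro x hx hxD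
      obtain ⟨hx1, hx2⟩ := hx
      rw [Finset.mem_insert] at hx1 hx2
      rcases hx1 with hx1 | hx1
      · rcases hx2 with hx2 | hx2
        · exact absurd (hx1.trans hx2.symm) (by simp)
        · refine ⟨by rw [hx1]; exact Finset.mem_insert_self _ _, Finset.mem_insert_of_mem ?_⟩
          by_contra hn
          refine hvD (Sw.front hS hx2 hn (w := v) ?_)
          rw [← hx1]
          exact ⟨x, rfl, rfl⟩
      · rcases hx2 with hx2 | hx2
        · refine ⟨Finset.mem_insert_of_mem ?_, by rw [hx2]; exact Finset.mem_insert_self _ _⟩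
          by_contra hn
          refine hvD (Sw.front hS hx1 hn (w := v) ?_)
          rw [← hx2]
          exact ⟨x, rfl, rfl⟩
        · exact absurd ⟨hx1, hx2⟩ hxD)
    have hun : VD36 α β D ∪ VD36 α β (insert v D) = VD36 α β (insert v D) := by
      refine Set.union_eq_right.mpr ?_
      intro x hx
      exact ⟨Finset.mem_insert_of_mem hx.1, Finset.mem_insert_of_mem hx.2⟩
    rwa [hun] at key

theorem lgen_equiv {V X Y : Type} [Finite V] [Fintype X] [Fintype Y] [DecidableEq (X ⊕ Y)]
    (α : V → X) (β : V → Y) {K : ℕ} {A : Finset (X ⊕ Y)}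
    (h : Sw (bip α β) K Finset.univ A) : ∃ R : Str (K + 2) V, LGen (K + 2) V R ∧
      (∀ x y, R 0 x y ↔ α x = α y) ∧ ∀ x y, R 1 x y ↔ β x = β y := by
  obtain ⟨lab, -, -, U, f, R, hf, hr, hR, h0, h1, -⟩ := claim36 α β h
  have hs : Function.Surjective f := by
    intro x
    have : x ∈ Set.range f := by
      rw [hr]
      exact ⟨Finset.mem_univ _, Finset.mem_univ _⟩
    exact this
  let e : U ≃ V := Equiv.ofBijective f ⟨hf, hs⟩
  have he : ∀ x, f (e.symm x) = x := fun x => e.apply_symm_apply x
  refine ⟨fun r x y => R r (e.symm x) (e.symm y), LGen.iso U V e R hR, ?_, ?_⟩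
  · intro x y
    show R 0 (e.symm x) (e.symm y) ↔ α x = α y
    rw [h0, he, he]
  · intro x y
    show R 1 (e.symm x) (e.symm y) ↔ β x = β y
    rw [h1, he, he]

end Pool.Agent.Helper20.FS
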