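import Pool.Agent.Helper20.FS.Defs
import Pool.Agent.Helper20.FS.Core
import Pool.Agent.Helper20.FS.GenEquiv

/-!
# Block FS-T13b: disjoint tripods contain the patterns (equivalence relations)

Let `g : Fin s → ℕ × Fin 3 × ℕ` be the embedding of `P` into `zig e`, and `M ≥ 1` larger than all the numbers `(g x).1` and
`(g x).2.2 + 1`.  For each edge of a tripod, from `f a j t` to `f a j (t + 1)` (`t < M`), there is an element `el a j t : V` whose two
classes are these two vertices of `bip`.  Map `x` with `g x = (a, j, t)` to `el a j t`.  The vertex `f a j t` is on the side of the centre if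
and only if `t` is even (induction on `t`).  So the class in relation `e` of `el a j t` is the one of its two vertices with even index: the
vertex `f a j (2 * ((t + 1) / 2))`, and the class in the other relation is the vertex `f a j (2 * (t / 2) + 1)`.  As all vertices are different
except for the `f a j 0 = c a`, two elements `el a j t`, `el a' j' t'` are in the same class of relation `e` if and only if `a = a'` and
(`t = t' = 0` or `j = j'` and `(t + 1) / 2 = (t' + 1) / 2`), and similarly for the other relation: this is `zig e`.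
-/

set_option autoImplicit false

namespace Pool.Agent.Helper20.FS

open Pool.Agent.Helper20.OP

/-- on which side of `bip` is a class: `0` for `inl`, `1` for `inr` -/
def side {X Y : Type} : X ⊕ Y → Fin 2
  | Sum.inl _ => 0
  | Sum.inr _ => 1

/-- the class of `x` in the relation `r`, as a vertex -/
private def nd53 {V X Y : Type} (α : V → X) (β : V → Y) (r : Fin 2) (x : V) : X ⊕ Y :=
  if r = 0 then Sum.inl (α x) else Sum.inr (β x)

private lemma bip53 {V X Y : Type} {α : V → X} {β : V → Y} {v w : X ⊕ Y} (h : bip α β v w) :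
    side w ≠ side v ∧ ∃ x, nd53 α β (side v) x = v ∧ nd53 α β (side w) x = w := by
  rcases v with v | v <;> rcases w with w | w
  · exact h.elim
  · obtain ⟨x, h1, h2⟩ := h
    refine ⟨(by decide : (1 : Fin 2) ≠ 0), x, ?_, ?_⟩
    · change nd53 α β 0 x = _
      rw [nd53, if_pos rfl, h1]
    · change nd53 α β 1 x = _
      rw [nd53, if_neg (by decide), h2]
  · obtain ⟨x, h1, h2⟩ := h
    refine ⟨(by decide : (0 : Fin 2) ≠ 1), x, ?_, ?_⟩
    · change nd53 α β 1 x = _
      rw [nd53, if_neg (by decide), h2]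
    · change nd53 α β 0 x = _
      rw [nd53, if_pos rfl, h1]
  · exact h.elim

private lemma fin53 {a b e : Fin 2} (h : a ≠ b) : a = e ↔ ¬ b = e := by
  revert a b e
  decide

theorem crit_equiv {s : ℕ} (P : Str Kind.equiv.rels (Fin s)) (e : Fin 2)
    (hP : Contains Kind.equiv P (zig e)) :
    ∃ M, 1 ≤ M ∧ ∀ (V X Y : Type) (R : Str Kind.equiv.rels V) (α : V → X) (β : V → Y),
      (∀ x y, R (0 : Fin 2) x y ↔ α x = α y) → (∀ x y, R (1 : Fin 2) x y ↔ β x = β y) →
      (∃ (c : Fin M → X ⊕ Y) (f : Fin M → Fin 3 → ℕ → X ⊕ Y),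
        (∀ a, IsTri (bip α β) M (c a) (f a)) ∧ (∀ a, side (c a) = e) ∧
        ∀ a b s t i j, a ≠ b → i ≤ M → j ≤ M → f a s i ≠ f b t j) → Contains Kind.equiv P R := by
  obtain ⟨g, hg, hgP⟩ := hP
  obtain ⟨M, hM1, hM⟩ : ∃ M, 1 ≤ M ∧ ∀ x, (g x).1 < M ∧ (g x).2.2 < M := by
    refine ⟨∑ x, ((g x).1 + (g x).2.2) + 1, by omega, fun x => ?_⟩
    have h1 := Finset.single_le_sum (f := fun x => (g x).1 + (g x).2.2) (fun _ _ => Nat.zero_le _)
      (Finset.mem_univ x)
    omega
  refine ⟨M, hM1, ?_⟩
  rintro V X Y R α β hα hβ ⟨c, f, hT, hS, hD⟩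
  have hR : ∀ (r : Fin 2) x y, R r x y ↔ nd53 α β r x = nd53 α β r y := by
    intro r x y
    have h2 : r = 0 ∨ r = 1 := by
      revert r
      decide
    rcases h2 with rfl | rfl
    · rw [nd53, nd53, if_pos rfl, if_pos rfl, Sum.inl.injEq]
      exact hα x y
    · rw [nd53, nd53, if_neg (by decide), if_neg (by decide), Sum.inr.injEq]
      exact hβ x y
  have hside : ∀ a j t, t ≤ M → (side (f a j t) = e ↔ t % 2 = 0) := by
    intro a j t
    induction t with
    | zero =>
      intro _
      rw [(hT a).1 j]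
      simp [hS a]
    | succ t ih =>
      intro ht
      have h1 := (bip53 ((hT a).2.1 j t (by omega))).1
      rw [fin53 h1, ih (by omega)]
      omega
  have hel : ∀ (a : Fin M) (j : Fin 3) (t : ℕ), t < M → ∃ x : V,
      nd53 α β e x = f a j (2 * ((t + 1) / 2)) ∧ ∀ r, r ≠ e → nd53 α β r x = f a j (2 * (t / 2) + 1) := by
    intro a j t ht
    obtain ⟨h1, x, h2, h3⟩ := bip53 ((hT a).2.1 j t ht)
    refine ⟨x, ?_⟩
    have h4 := hside a j t (by omega)
    have h5 := hside a j (t + 1) (by omega)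
    by_cases hev : t % 2 = 0
    · have e1 : 2 * ((t + 1) / 2) = t := by omega
      have e2 : 2 * (t / 2) + 1 = t + 1 := by omega
      rw [e1, e2]
      have h6 := h4.2 hev
      refine ⟨by rw [h6] at h2; exact h2, fun r hr => ?_⟩
      have h7 : side (f a j (t + 1)) = r := by
        rw [fin53 h1, h6]
        exact fun h => hr h.symm
      rw [h7] at h3
      exact h3
    · have e1 : 2 * ((t + 1) / 2) = t + 1 := by omega
      have e2 : 2 * (t / 2) + 1 = t := by omega
      rw [e1, e2]
      have h6 := h5.2 (by omega)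
      refine ⟨by rw [h6] at h3; exact h3, fun r hr => ?_⟩
      have h7 : side (f a j t) = r := by
        rw [fin53 h1.symm, h6]
        exact fun h => hr h.symm
      rw [h7] at h2
      exact h2
  have hff : ∀ (a a' : Fin M) (j j' : Fin 3) (i i' : ℕ), i ≤ M → i' ≤ M →
      (f a j i = f a' j' i' ↔ a = a' ∧ i = i' ∧ (j = j' ∨ i = 0)) := by
    intro a a' j j' i i' hi hi'
    constructor
    · intro h
      by_cases haa : a = a'
      · subst haa
        exact ⟨rfl, (hT a).2.2 j i j' i' hi hi' h⟩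
      · exact absurd h (hD a a' j j' i i' haa hi hi')
    · rintro ⟨rfl, rfl, rfl | rfl⟩
      · rfl
      · rw [(hT a).1, (hT a).1]
  choose el hel1 hel2 using fun x : Fin s => hel ⟨(g x).1, (hM x).1⟩ (g x).2.1 (g x).2.2 (hM x).2
  have hmain : ∀ (r : Fin 2) (x y : Fin s), zig e r (g x) (g y) ↔ R r (el x) (el y) := by
    intro r x y
    obtain ⟨hx1, hx2⟩ := hM x
    obtain ⟨hy1, hy2⟩ := hM y
    rw [hR, zig]
    have hfin : ∀ (h : (g x).1 < M) (h' : (g y).1 < M),
        (⟨(g x).1, h⟩ : Fin M) = ⟨(g y).1, h'⟩ ↔ (g x).1 = (g y).1 := fun h h' => Fin.ext_iff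
    by_cases hr : r = e
    · rw [if_pos hr, hr, hel1 x, hel1 y, hff _ _ _ _ _ _ (by omega) (by omega), hfin]
      refine and_congr_right fun _ => ?_
      constructor
      · rintro (⟨h1, h2⟩ | ⟨h1, h2⟩)
        · exact ⟨by omega, Or.inr (by omega)⟩
        · exact ⟨by omega, Or.inl h1⟩
      · rintro ⟨h1, h2 | h2⟩
        · exact Or.inr ⟨h2, by omega⟩
        · exact Or.inl ⟨by omega, by omega⟩
    · rw [if_neg hr, hel2 x r hr, hel2 y r hr, hff _ _ _ _ _ _ (by omega) (by omega), hfin]
      refine and_congr_right fun _ => ?_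
      constructor
      · rintro ⟨h1, h2⟩
        exact ⟨by omega, Or.inl h1⟩
      · rintro ⟨h1, h2 | h2⟩
        · exact ⟨h2, by omega⟩
        · omega
  refine ⟨el, fun x y hxy => ?_, fun r x y => ?_⟩
  · have h1 : ∀ r, zig e r (g x) (g y) := by
      intro r
      rw [hmain, hR, hxy]
    obtain ⟨r, hr⟩ : ∃ r : Fin 2, r ≠ e := (by decide : ∀ e : Fin 2, ∃ r : Fin 2, r ≠ e) e
    have h2 := h1 e
    have h3 := h1 r
    rw [zig, if_pos rfl] at h2
    rw [zig, if_neg hr] at h3
    obtain ⟨h4, h5⟩ := h2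
    obtain ⟨_, h6, h7⟩ := h3
    apply hg
    have h8 : (g x).2.2 = (g y).2.2 := by
      rcases h5 with ⟨h, h'⟩ | ⟨_, h⟩ <;> omega
    exact Prod.ext h4 (Prod.ext h6 h8)
  · exact (hgP r x y).trans (hmain r x y)

end Pool.Agent.Helper20.FS
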