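import Pool.Agent.Helper20.FS.Defs
import Pool.Agent.Helper20.FS.Core

/-!
# Block FS-T13: disjoint tripods contain the patterns (graphs)

Let `g : Fin s → ℕ × Option (Fin 3 × ℕ)` be the injection of `P` into `claws`.  Let `M ≥ 1` be larger than all the numbers
`(g x).1` and (if `(g x).2 = some (j, t)`) `t + 1`.  Given `DTri (R 0) M M` with `c`, `f`, map `x` to `c a` if `g x = (a, none)` (`a < M`) and to
`f a j (t + 1)` if `g x = (a, some (j, t))`.  This is injective, and adjacent elements of `claws` go to adjacent vertices (use the symmetry of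
`R 0`).
-/

set_option autoImplicit false

namespace Pool.Agent.Helper20.FS

open Pool.Agent.Helper20.OP

private def lev61 : Option (Fin 3 × ℕ) → ℕ
  | none => 0
  | some (_, t) => t + 1

private def leg61 : Option (Fin 3 × ℕ) → Fin 3
  | none => 0
  | some (j, _) => j

private theorem ext61 {o o' : Option (Fin 3 × ℕ)} (h : lev61 o = lev61 o')
    (h' : leg61 o = leg61 o' ∨ lev61 o = 0) : o = o' := by
  rcases o with _ | ⟨j, t⟩ <;> rcases o' with _ | ⟨j', t'⟩
  · rfl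
  · exact absurd h (Nat.succ_ne_zero t').symm
  · exact absurd h (Nat.succ_ne_zero t)
  · have h1 : t + 1 = t' + 1 := h
    have h2 : j = j' := h'.resolve_right (Nat.succ_ne_zero t)
    rw [Nat.succ_injective h1, h2]

private theorem step61 {V : Type} {G : V → V → Prop} {M : ℕ} {c : V} {f : Fin 3 → ℕ → V}
    (hf : IsTri G M c f) {o o' : Option (Fin 3 × ℕ)} (h : clawStep o o') (hM : lev61 o' ≤ M) :
    G (f (leg61 o) (lev61 o)) (f (leg61 o') (lev61 o')) := by
  rcases o with _ | ⟨j, t⟩ <;> rcases o' with _ | ⟨j', t'⟩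
  · exact absurd h id
  · have h1 : t' = 0 := h
    subst h1
    have h2 := hf.2.1 j' 0 hM
    rw [hf.1 j', ← hf.1 0] at h2
    exact h2
  · exact absurd h id
  · obtain ⟨h1, h2⟩ : j = j' ∧ t' = t + 1 := h
    subst h1 h2
    exact hf.2.1 j (t + 1) hM

theorem crit_graph {s : ℕ} (P : Str Kind.graph.rels (Fin s)) (hP : Contains Kind.graph P claws) :
    ∃ M, 1 ≤ M ∧ ∀ (V : Type) (R : Str Kind.graph.rels V), Kind.graph.Is R →
      DTri (R (0 : Fin 1)) M M → Contains Kind.graph P R := by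
  obtain ⟨g, hg, hg'⟩ := hP
  obtain ⟨M, hM1, hM⟩ : ∃ M, 1 ≤ M ∧ ∀ x, (g x).1 < M ∧ lev61 (g x).2 ≤ M := by
    refine ⟨1 + ∑ x, ((g x).1 + lev61 (g x).2), by omega, fun x => ?_⟩
    have h := Finset.single_le_sum (f := fun x => (g x).1 + lev61 (g x).2) (fun _ _ => Nat.zero_le _)
      (Finset.mem_univ x)
    have h' : (g x).1 + lev61 (g x).2 ≤ ∑ x, ((g x).1 + lev61 (g x).2) := h
    omega
  refine ⟨M, hM1, fun V R hR ⟨c, f, hf, hd⟩ => ?_⟩
  refine ⟨fun x => f ⟨(g x).1, (hM x).1⟩ (leg61 (g x).2) (lev61 (g x).2), fun x y hxy => ?_,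
    fun x y hxy => ?_⟩
  · have hxy' : f ⟨(g x).1, (hM x).1⟩ (leg61 (g x).2) (lev61 (g x).2) =
      f ⟨(g y).1, (hM y).1⟩ (leg61 (g y).2) (lev61 (g y).2) := hxy
    have h1 : (⟨(g x).1, (hM x).1⟩ : Fin M) = ⟨(g y).1, (hM y).1⟩ := by
      by_contra hne
      exact hd _ _ _ _ _ _ hne (hM x).2 (hM y).2 hxy'
    rw [← h1] at hxy'
    obtain ⟨h2, h3⟩ := (hf _).2.2 _ _ _ _ (hM x).2 (hM y).2 hxy'
    exact hg (Prod.ext (congrArg Fin.val h1) (ext61 h2 h3))
  · obtain ⟨h1, h2⟩ := hg' x y hxy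
    have h3 : (⟨(g y).1, (hM y).1⟩ : Fin M) = ⟨(g x).1, (hM x).1⟩ := Fin.ext h1.symm
    change R (0 : Fin 1) (f ⟨(g x).1, (hM x).1⟩ (leg61 (g x).2) (lev61 (g x).2))
      (f ⟨(g y).1, (hM y).1⟩ (leg61 (g y).2) (lev61 (g y).2))
    rw [h3]
    rcases h2 with h2 | h2
    · exact step61 (hf _) h2 (hM y).2
    · exact hR.2 _ _ (step61 (hf _) h2 (hM x).2)

end Pool.Agent.Helper20.FS
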