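import Pool.Agent.Helper20.OP.Coding

/-!
# Finitely many forbidden patterns: definitions

Graphs which contain none of finitely many given graphs as a subgraph; pairs of equivalence relations
which contain none of finitely many given pairs of equivalence relations as an induced substructure; the
spectra of first-order sentences over these classes.
-/

set_option autoImplicit false

namespace Pool.Agent.Helper20.FS

open FirstOrder FirstOrder.Language Pool.Agent.Helper20.Spectra Pool.Agent.Helper20.OP

/-- the two kinds of structures -/
inductive Kind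
  /-- graphs: one irreflexive symmetric relation -/
  | graph
  /-- pairs of equivalence relations -/
  | equiv

/-- the number of relations -/
def Kind.rels : Kind → ℕ
  | .graph => 1
  | .equiv => 2

/-- the structures of each kind -/
def Kind.Is : (κ : Kind) → {V : Type} → Str κ.rels V → Prop
  | .graph, _, R => (∀ x, ¬ R (0 : Fin 1) x x) ∧ ∀ x y, R (0 : Fin 1) x y → R (0 : Fin 1) y x
  | .equiv, _, R => Equivalence (R (0 : Fin 2)) ∧ Equivalence (R (1 : Fin 2))

/-- `(W, R)` contains `(V, P)`: as a subgraph (not necessarily induced) for graphs, as an induced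
substructure for pairs of equivalence relations -/
def Contains : (κ : Kind) → {V W : Type} → Str κ.rels V → Str κ.rels W → Prop
  | .graph, V, W, P, R => ∃ f : V → W, Function.Injective f ∧
      ∀ x y, P (0 : Fin 1) x y → R (0 : Fin 1) (f x) (f y)
  | .equiv, V, W, P, R => ∃ f : V → W, Function.Injective f ∧
      ∀ (r : Fin 2) (x y : V), P r x y ↔ R r (f x) (f y)

/-- the steps of the infinite claw: a centre `none` and three rays `some (j, 0)`, `some (j, 1)`, ... starting
at the neighbours of the centre -/
def clawStep : Option (Fin 3 × ℕ) → Option (Fin 3 × ℕ) → Prop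
  | none, some (_, t) => t = 0
  | some (j, t), some (j', t') => j = j' ∧ t' = t + 1
  | _, none => False

/-- the graph consisting of infinitely many disjoint copies of the infinite claw -/
def claws : Str 1 (ℕ × Option (Fin 3 × ℕ)) := fun _ x y =>
  x.1 = y.1 ∧ (clawStep x.2 y.2 ∨ clawStep y.2 x.2)

/-- Two equivalence relations: infinitely many disjoint copies of the structure on the set of the edges
`(j, t)` (the `t`-th edge of the ray `j`) of the infinite claw; relation `e` says that two edges share a vertex at
even distance from the centre, the other relation that they share a vertex at odd distance. -/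
def zig (e : Fin 2) : Str 2 (ℕ × Fin 3 × ℕ) := fun r x y =>
  x.1 = y.1 ∧ if r = e then
    (x.2.2 = 0 ∧ y.2.2 = 0) ∨ (x.2.1 = y.2.1 ∧ (x.2.2 + 1) / 2 = (y.2.2 + 1) / 2)
  else x.2.1 = y.2.1 ∧ x.2.2 / 2 = y.2.2 / 2

/-- every critical structure (`claws` for graphs; `zig 0`, `zig 1` for pairs of equivalence relations)
contains one of the patterns -/
def Meets : (κ : Kind) → {m : ℕ} → {s : Fin m → ℕ} → (∀ i, Str κ.rels (Fin (s i))) → Prop
  | .graph, _, _, P => ∃ i, Contains Kind.graph (P i) claws
  | .equiv, _, _, P => ∀ e : Fin 2, ∃ i, Contains Kind.equiv (P i) (zig e)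

/-- `A` is a spectrum over the structures of kind `κ` which contain none of the patterns `P i`: for some
first-order sentence `φ`, `A` is the set of the numbers `n ≥ 1` such that some structure with `n` elements of kind
`κ` which contains none of the `P i` satisfies `φ`. -/
def SpectrumOmitting (κ : Kind) {m : ℕ} {s : Fin m → ℕ} (P : ∀ i, Str κ.rels (Fin (s i)))
    (A : Set ℕ) : Prop :=
  ∃ φ : (binLang κ.rels).Sentence, ∀ n : ℕ, n ∈ A ↔
    (1 ≤ n ∧ ∃ R : Str κ.rels (Fin n), κ.Is R ∧ (∀ i, ¬ Contains κ (P i) R) ∧ Models R φ)

/-- the class of the structures of kind `κ` which contain none of the patterns -/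
def Omit (κ : Kind) {m : ℕ} {s : Fin m → ℕ} (P : ∀ i, Str κ.rels (Fin (s i))) :
    ∀ V : Type, Str κ.rels V → Prop :=
  fun _ R => κ.Is R ∧ ∀ i, ¬ Contains κ (P i) R

end Pool.Agent.Helper20.FS
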