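import Pool.Agent.Helper20.FS.Lin

/-!
# Block FS-T1: the operations preserve the back-and-forth equivalence

`EFq.preS`: induction on `q` for all `m`, `a`, `c`.  `AtEq` of the new structures: the tuples of truth values
`fun r' => R r' (a i) (a j)` and `fun r' => S r' (c i) (c j)` are equal (`funext`, `propext`).

`EFq.addS`: as `EFq.usum` in `Pool/Agent/Helper20/OP/Sum.lean`, but with only one new element `none`: `g` says which entries of
the tuple are the new element.  Induction on `q` for all `m₁`, `m`, `g`, `a`, `a'`.  `AtEq` of the sums: case distinction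
on `g i`, `g j`.  Step: an element of `Option V` is `none` (answer `none`, new `g := Fin.snoc g none`, same `a`, and
`EFq.mono`) or `some x₀` (take `y₀` from the hypothesis, answer `some y₀`; new tuple `Fin.snoc a x₀`, new
`g := Fin.snoc (fun i => (g i).map Fin.castSucc) (some (Fin.last m₁))`; the tuples agree by `Fin.lastCases`).
-/

set_option autoImplicit false

namespace Pool.Agent.Helper20.FS

open FirstOrder FirstOrder.Language Pool.Agent.Helper20.Spectra Pool.Agent.Helper20.OP

private lemma atEq_of_44 {b q : ℕ} {V W : Type} {R : Str b V} {S : Str b W} {m : ℕ} {a : Fin m → V}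
    {c : Fin m → W} (h : EFq q R S a c) : AtEq R S a c := by
  cases q with
  | zero => exact h
  | succ q => exact h.1

private lemma atEq_preS_44 {b : ℕ} (μ : Fin b → (Fin b → Prop) → Prop) {V W : Type} {R : Str b V}
    {S : Str b W} {m : ℕ} {a : Fin m → V} {c : Fin m → W} (h : AtEq R S a c) :
    AtEq (preS μ R) (preS μ S) a c := by
  refine ⟨h.1, fun r i j => ?_⟩
  have e : (fun r' => R r' (a i) (a j)) = fun r' => S r' (c i) (c j) := by
    funext r'
    exact propext (h.2 r' i j)
  show μ r (fun r' => R r' (a i) (a j)) ↔ μ r (fun r' => S r' (c i) (c j))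
  rw [e]

theorem EFq_preS {b : ℕ} (μ : Fin b → (Fin b → Prop) → Prop) (q : ℕ) :
    ∀ {V W : Type} {R : Str b V} {S : Str b W} {m : ℕ} {a : Fin m → V} {c : Fin m → W},
      EFq q R S a c → EFq q (preS μ R) (preS μ S) a c := by
  induction q with
  | zero =>
    intro V W R S m a c h
    exact atEq_preS_44 μ h
  | succ q ih =>
    intro V W R S m a c h
    refine ⟨atEq_preS_44 μ h.1, fun x => ?_, fun y => ?_⟩
    · obtain ⟨y, hy⟩ := h.2.1 x
      exact ⟨y, ih hy⟩
    · obtain ⟨x, hx⟩ := h.2.2 y
      exact ⟨x, ih hx⟩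

private lemma snoc_some_44 {V : Type} {m₁ m : ℕ} (a : Fin m₁ → V) (g : Fin m → Option (Fin m₁))
    (x : V) :
    (fun i => ((Fin.snoc (fun i => (g i).map Fin.castSucc) (some (Fin.last m₁)) :
        Fin (m + 1) → Option (Fin (m₁ + 1))) i).map (Fin.snoc a x : Fin (m₁ + 1) → V)) =
    (Fin.snoc (fun i => (g i).map a) (some x) : Fin (m + 1) → Option V) := by
  funext i
  refine Fin.lastCases ?_ (fun j => ?_) i
  · rw [Fin.snoc_last, Fin.snoc_last]
    simp only [Option.map_some, Fin.snoc_last]
  · rw [Fin.snoc_castSucc, Fin.snoc_castSucc]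
    rcases g j with _ | i₁
    · rfl
    · simp only [Option.map_some, Fin.snoc_castSucc]

private lemma snoc_none_44 {V : Type} {m₁ m : ℕ} (a : Fin m₁ → V) (g : Fin m → Option (Fin m₁)) :
    (fun i => ((Fin.snoc g none : Fin (m + 1) → Option (Fin m₁)) i).map a) =
    (Fin.snoc (fun i => (g i).map a) none : Fin (m + 1) → Option V) := by
  funext i
  refine Fin.lastCases ?_ (fun j => ?_) i
  · rw [Fin.snoc_last, Fin.snoc_last]
    rfl
  · rw [Fin.snoc_castSucc, Fin.snoc_castSucc]

private lemma atEq_addS_44 {b : ℕ} (c d : Fin b → (Fin b → Prop) → Prop) (e : Fin b → Prop)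
    {V V' : Type} {R : Str b V} {R' : Str b V'} {m₁ m : ℕ} {a : Fin m₁ → V} {a' : Fin m₁ → V'}
    (g : Fin m → Option (Fin m₁)) (h : AtEq R R' a a') :
    AtEq (addS c d e R) (addS c d e R') (fun i => (g i).map a) (fun i => (g i).map a') := by
  have hf : ∀ i j, (fun r' => R r' (a i) (a j)) = fun r' => R' r' (a' i) (a' j) := by
    intro i j
    funext r'
    exact propext (h.2 r' i j)
  refine ⟨fun i j => ?_, fun r i j => ?_⟩
  · show (g i).map a = (g j).map a ↔ (g i).map a' = (g j).map a'
    rcases g i with _ | i₁ <;> rcases g j with _ | j₁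
    · simp only [Option.map_none]
    · simp only [Option.map_none, Option.map_some, reduceCtorEq]
    · simp only [Option.map_none, Option.map_some, reduceCtorEq]
    · simp only [Option.map_some, Option.some.injEq]
      exact h.1 i₁ j₁
  · show addS c d e R r ((g i).map a) ((g j).map a) ↔ addS c d e R' r ((g i).map a') ((g j).map a')
    rcases g i with _ | i₁ <;> rcases g j with _ | j₁
    · exact Iff.rfl
    · show d r (fun r' => R r' (a j₁) (a j₁)) ↔ d r (fun r' => R' r' (a' j₁) (a' j₁))
      rw [hf]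
    · show c r (fun r' => R r' (a i₁) (a i₁)) ↔ c r (fun r' => R' r' (a' i₁) (a' i₁))
      rw [hf]
    · exact h.2 r i₁ j₁

theorem EFq_addS {b : ℕ} (c d : Fin b → (Fin b → Prop) → Prop) (e : Fin b → Prop) (q : ℕ) :
    ∀ {V V' : Type} {R : Str b V} {R' : Str b V'} {m₁ m : ℕ} {a : Fin m₁ → V} {a' : Fin m₁ → V'}
      (g : Fin m → Option (Fin m₁)), EFq q R R' a a' →
      EFq q (addS c d e R) (addS c d e R') (fun i => (g i).map a) (fun i => (g i).map a') := by
  induction q with
  | zero =>
    intro V V' R R' m₁ m a a' g h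
    exact atEq_addS_44 c d e g h
  | succ q ih =>
    intro V V' R R' m₁ m a a' g h
    have hm := EFq.mono (Nat.le_succ q) h
    have hnone := ih (Fin.snoc g none : Fin (m + 1) → Option (Fin m₁)) hm
    rw [snoc_none_44 a g, snoc_none_44 a' g] at hnone
    refine ⟨atEq_addS_44 c d e g (atEq_of_44 h), fun x => ?_, fun y => ?_⟩
    · rcases x with _ | x
      · exact ⟨none, hnone⟩
      · obtain ⟨y, hy⟩ := h.2.1 x
        refine ⟨some y, ?_⟩
        have h1 := ih (Fin.snoc (fun i => (g i).map Fin.castSucc) (some (Fin.last m₁)) :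
          Fin (m + 1) → Option (Fin (m₁ + 1))) hy
        rw [snoc_some_44 a g x, snoc_some_44 a' g y] at h1
        exact h1
    · rcases y with _ | y
      · exact ⟨none, hnone⟩
      · obtain ⟨x, hx⟩ := h.2.2 y
        refine ⟨some x, ?_⟩
        have h1 := ih (Fin.snoc (fun i => (g i).map Fin.castSucc) (some (Fin.last m₁)) :
          Fin (m + 1) → Option (Fin (m₁ + 1))) hx
        rw [snoc_some_44 a g x, snoc_some_44 a' g y] at h1
        exact h1

/-- the version without tuples -/
theorem EFq_addS0 {b : ℕ} (c d : Fin b → (Fin b → Prop) → Prop) (e : Fin b → Prop) (q : ℕ)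
    {V V' : Type} {R : Str b V} {R' : Str b V'} (h : EFq q R R' Fin.elim0 Fin.elim0) :
    EFq q (addS c d e R) (addS c d e R') Fin.elim0 Fin.elim0 := by
  have h1 := EFq_addS c d e q (m := 0) Fin.elim0 h
  have e1 : (fun i : Fin 0 => ((Fin.elim0 : Fin 0 → Option (Fin 0)) i).map (Fin.elim0 : Fin 0 → V)) =
      Fin.elim0 := funext (fun i => i.elim0)
  have e2 : (fun i : Fin 0 => ((Fin.elim0 : Fin 0 → Option (Fin 0)) i).map (Fin.elim0 : Fin 0 → V')) =
      Fin.elim0 := funext (fun i => i.elim0)
  rw [e1, e2] at h1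
  exact h1

end Pool.Agent.Helper20.FS
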