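import Pool.Agent.Helper20.FS.Sw

/-!
# Block FS-T7b: a simple path from a reachability

Take a walk from `x` to `y` in `C` with the least number of vertices (a function `f : ℕ → V` and `m ≥ 1` with `f 0 = x`, `f (m - 1) = y`,
consecutive vertices adjacent, all in `C`; existence by induction on the reachability, then `Nat.find`); if `f i = f j` with
`i < j < m` then `g a := if a ≤ i then f a else f (a + (j - i))` with `m - (j - i)` vertices is a shorter walk.
-/

set_option autoImplicit false

namespace Pool.Agent.Helper20.FS

variable {V : Type} [DecidableEq V] {G : V → V → Prop}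

private theorem exists_walk_27 {C : Finset V} {x y : V} (hx : x ∈ C) (h : Reach G C x y) :
    ∃ m, ∃ f : ℕ → V, 1 ≤ m ∧ (∀ i, i < m → f i ∈ C) ∧ (∀ i, i + 1 < m → G (f i) (f (i + 1))) ∧
      f 0 = x ∧ f (m - 1) = y := by
  unfold Reach at h
  induction h with
  | refl => exact ⟨1, fun _ => x, le_rfl, fun _ _ => hx, fun i hi => absurd hi (by omega), rfl, rfl⟩
  | @tail b c _ hbc ih =>
    obtain ⟨m, f, hm, h1, h2, h3, h4⟩ := ih
    refine ⟨m + 1, fun i => if i < m then f i else c, by omega, ?_, ?_, ?_, ?_⟩
    · intro i _
      by_cases hi : i < m
      · simp only [hi, if_true]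
        exact h1 i hi
      · simp only [hi, if_false]
        exact hbc.2.2
    · intro i hi
      by_cases hi' : i + 1 < m
      · have hi2 : i < m := by omega
        simp only [hi', hi2, if_true]
        exact h2 i hi'
      · have hi2 : i < m := by omega
        simp only [hi', hi2, if_true, if_false]
        have e : i = m - 1 := by omega
        rw [e, h4]
        exact hbc.1
    · have h0 : 0 < m := by omega
      simp only [h0, if_true]
      exact h3
    · have h0 : ¬ m + 1 - 1 < m := by omega
      simp only [h0, if_false]

theorem exists_path {C : Finset V} {x y : V} (hx : x ∈ C) (h : Reach G C x y) :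
    ∃ m f, 1 ≤ m ∧ IsPath G C m f ∧ f 0 = x ∧ f (m - 1) = y := by
  classical
  have hex := exists_walk_27 hx h
  obtain ⟨f, hm, h1, h2, h3, h4⟩ := Nat.find_spec hex
  have hmin := fun k => Nat.find_min hex (m := k)
  generalize Nat.find hex = m at hm h1 h2 h3 h4 hmin
  have key : ∀ i j, i < j → j < m → f i ≠ f j := by
    intro i j hij hj heq
    apply hmin (m - (j - i)) (by omega)
    refine ⟨fun a => if a ≤ i then f a else f (a + (j - i)), by omega, ?_, ?_, ?_, ?_⟩
    · intro a ha
      by_cases hai : a ≤ i
      · simp only [hai, if_true]
        exact h1 a (by omega)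
      · simp only [hai, if_false]
        exact h1 _ (by omega)
    · intro a ha
      by_cases hai : a + 1 ≤ i
      · have hai' : a ≤ i := by omega
        simp only [hai, hai', if_true]
        exact h2 a (by omega)
      · by_cases hai' : a ≤ i
        · have e : a = i := by omega
          subst e
          simp only [hai, le_refl, if_true, if_false]
          rw [heq]
          have e2 : a + 1 + (j - a) = j + 1 := by omega
          rw [e2]
          exact h2 j (by omega)
        · simp only [hai, hai', if_false]
          have e2 : a + 1 + (j - i) = a + (j - i) + 1 := by omega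
          rw [e2]
          exact h2 _ (by omega)
    · simp only [Nat.zero_le, if_true]
      exact h3
    · by_cases hai : m - (j - i) - 1 ≤ i
      · have e1 : m - (j - i) - 1 = i := by omega
        have e2 : m - 1 = j := by omega
        simp only [e1, le_refl, if_true]
        rw [heq, ← e2]
        exact h4
      · simp only [hai, if_false]
        have e2 : m - (j - i) - 1 + (j - i) = m - 1 := by omega
        rw [e2]
        exact h4
  refine ⟨m, f, hm, ⟨h1, h2, ?_⟩, h3, h4⟩
  intro i j hi hj heq
  rcases lt_trichotomy i j with h | h | h
  · exact absurd heq (key i j h hj)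
  · exact h
  · exact absurd heq.symm (key j i h hi)

end Pool.Agent.Helper20.FS
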