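import Pool.Agent.Helper20.FS.TriTail
import Pool.Agent.Helper20.FS.PathEx

/-!
# Block FS-T8c: chords and ears of a path without tripods are short

`chord_le`: if `i + M < j`, use `tri_of_tail` with `t a := p (j + a)` (`IsPath.final`, `IsPath.init`).

`ear_le`: take a path `s` from `x` to `y` in `C \ P` (`exists_path`) with `m` vertices; if `i + M < j`, use `tri_of_tail` with
`t a := if a < m then s a else p (j + (a - m))` (a path with `m + (n - j) ≥ M` vertices by `IsPath.join`, `IsPath.init`).
-/

set_option autoImplicit false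

namespace Pool.Agent.Helper20.FS

variable {V : Type} [DecidableEq V] {G : V → V → Prop}

theorem chord_le (hG : ∀ x y, G x y → G y x) {C : Finset V} {n M i j : ℕ} {p : ℕ → V}
    (hp : IsPath G C n p) (hT : ¬ Tri G C M) (hi : M ≤ i) (hj : j + M ≤ n)
    (hij : G (p i) (p j)) : j ≤ i + M := by
  by_contra hcon
  push Not at hcon
  apply hT
  have ht : IsPath G C M (fun a => p (j + a)) := (hp.final (i := j)).init (by omega)
  refine tri_of_tail hG hp hi (by omega) ht (fun _ => hij) ?_
  intro a b ha _ hb h
  have := hp.2.2 _ _ (by omega) (by omega) h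
  omega

theorem ear_le (hG : ∀ x y, G x y → G y x) {C : Finset V} {n M i j : ℕ} {p : ℕ → V}
    (hp : IsPath G C n p) (hT : ¬ Tri G C M) (hi : M ≤ i) (hj : j + M ≤ n) {x y : V}
    (hx : x ∈ C \ (Finset.range n).image p) (hxy : Reach G (C \ (Finset.range n).image p) x y)
    (hix : G (p i) x) (hyj : G y (p j)) : j ≤ i + M := by
  by_contra hcon
  push Not at hcon
  apply hT
  obtain ⟨m, f, hm, hf, hf0, hfm⟩ := exists_path hx hxy
  have hfP : ∀ a b, a < m → b < n → f a ≠ p b := by
    intro a b ha hb h
    have h1 := (Finset.mem_sdiff.1 (hf.1 a ha)).2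
    exact h1 (Finset.mem_image.2 ⟨b, Finset.mem_range.2 hb, h.symm⟩)
  have hjoin := (hf.mono Finset.sdiff_subset).join (hp.final (i := j))
    (fun a b ha hb => hfP a (j + b) ha (by omega)) (fun _ _ => by
      rw [hfm]
      exact hyj)
  have ht := hjoin.init (m := M) (by omega)
  refine tri_of_tail hG hp hi (by omega) ht (fun _ => ?_) ?_
  · show G (p i) (if 0 < m then f 0 else p (j + (0 - m)))
    rw [if_pos (by omega), hf0]
    exact hix
  · intro a b ha _ hb h
    by_cases ham : a < m
    · simp only [if_pos ham] at h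
      exact hfP a b ham (by omega) h
    · simp only [if_neg ham] at h
      have := hp.2.2 _ _ (by omega) (by omega) h
      omega

end Pool.Agent.Helper20.FS
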