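import Pool.Agent.Helper20.FS.Tree
import Pool.Agent.Helper20.OP.Def

/-!
# Block FS-F5: tree codes are definable

If all the relations are definable then so is the condition `TreeCode`.  Mechanical: write `TreeBase` and `GridLoc` as conjunctions of their
fields (lemmas `TreeBase ... ↔ ... ∧ ...`), and use the closure lemmas of `Def` (compare `Pool/Agent/Helper20/OP/GridDef.lean`): `∀ x`, `∃ x` are
`Def.all`, `Def.ex`; quantifiers over the finite types `Γ`, `Bool`, `Fin 3`, `Col Γ` are `Def.all_fin`, `Def.ex_fin`; `W.R γ δ`, `i = 2 → t = true`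
etc. are `Def.const`; `Def1.app`, `Def2.app` for the relations.  (`Finite (Col Γ)`: it is equivalent to
`(Γ × Bool × Bool) ⊕ Bool ⊕ Bool`; the instance `colFinite` is proved in this file.)
-/

set_option autoImplicit false

namespace Pool.Agent.Helper20.FS

open Pool.Agent.Helper29.Prefix Pool.Agent.Helper20.OP

instance colFinite {Γ : Type} [Finite Γ] : Finite (Col Γ) := by
  refine Finite.of_injective (β := (Γ × Bool × Bool) ⊕ Bool ⊕ Bool) (fun
    | Col.leaf γ d l => Sum.inl (γ, d, l)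
    | Col.node t => Sum.inr (Sum.inl t)
    | Col.dum => Sum.inr (Sum.inr false)
    | Col.top => Sum.inr (Sum.inr true)) ?_
  intro a b h
  cases a <;> cases b <;> simp_all

private theorem treeBase_iff {X Γ : Type} (c : X → Col Γ → Prop) (S U Q : X → X → Prop)
    (P : Fin 3 → X → X → Prop) : TreeBase c S U Q P ↔
    (∀ x, ∃ κ, c x κ) ∧
    (∀ x, ∀ κ κ', c x κ → c x κ' → κ = κ') ∧
    (∃ x, c x Col.top ∧ ∀ y, c y Col.top → y = x) ∧
    (∀ i, ∀ p x, P i p x → ∃ t, c p (Col.node t) ∧ (i = 2 → t = true)) ∧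
    (∀ i, ∀ p x, P i p x → Leaf c x ∨ Node c x) ∧
    (∀ i, ∀ p x x', P i p x → P i p x' → x = x') ∧
    (∀ i, ∀ p, ∀ i', ∀ p' x, P i p x → P i' p' x → i = i' ∧ p = p') ∧
    (∀ p, ∀ t, c p (Col.node t) → (∃ x, P 0 p x) ∧ (∃ x, P 1 p x) ∧
      (t = true → ∃ x, P 2 p x)) ∧
    (∃ ρ, Node c ρ ∧ (∀ i, ∀ p, ¬ P i p ρ) ∧
      ∀ x, Leaf c x ∨ Node c x → x = ρ ∨ ∃ i, ∃ p, P i p x) ∧
    (∀ x y, Q x y → c x (Col.node true) ∧ c y Col.dum) ∧
    (∀ x y y', Q x y → Q x y' → y = y') ∧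
    (∀ x x' y, Q x y → Q x' y → x = x') ∧
    (∀ x, c x (Col.node true) → ∃ y, Q x y) ∧
    (∀ y, c y Col.dum → ∃ x, Q x y) ∧
    (∀ x y, S x y → (∃ p, ∃ i j, P i p x ∧ P j p y ∧ i.1 + 1 = j.1) ∨
      ∃ p p', ∃ i : Fin 3, 1 ≤ i.1 ∧ P i p x ∧ S p p' ∧ P 0 p' y) ∧
    (∀ x y y', S x y → S x y' → y = y') ∧
    (∀ x x' y, S x y → S x' y → x = x') ∧
    (∀ x y, S x y → (Leaf c x ↔ Leaf c y)) ∧
    (∃ o, Leaf c o ∧ (∀ y, ¬ S y o) ∧ ∀ x, Leaf c x → x = o ∨ ∃ y, S y x) ∧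
    (∀ x y, U x y → Leaf c x ∧ Leaf c y) ∧
    (∀ x, ¬ U x x) ∧
    (∀ x y y', U x y → U x y' → y = y') ∧
    (∀ x x' y, U x y → U x' y → x = x') ∧
    (∀ x y x', U x y → S x' x → ∃ y', S y' y ∧ U x' y') :=
  ⟨fun h => ⟨h.tot, h.dis, h.top, h.p_src, h.p_tgt, h.p_fun, h.p_inj, h.p_ex, h.root, h.q_src,
    h.q_fun, h.q_inj, h.q_ex, h.q_ex', h.s_par, h.s_fun, h.s_inj, h.s_leaf, h.first, h.u_leaf,
    h.u_irr, h.u_fun, h.u_inj, h.u_back⟩,
  fun ⟨h1, h2, h3, h4, h5, h6, h7, h8, h9, h10, h11, h12, h13, h14, h15, h16, h17, h18, h19, h20,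
    h21, h22, h23, h24⟩ =>
    ⟨h1, h2, h3, h4, h5, h6, h7, h8, h9, h10, h11, h12, h13, h14, h15, h16, h17, h18, h19, h20,
    h21, h22, h23, h24⟩⟩

private theorem gridLoc_iff {V Γ : Type} (W : Wang Γ) (Z : V → Prop) (RR UU : V → V → Prop)
    (D : V → Prop) (t : V → Γ → Prop) : GridLoc W Z RR UU D t ↔
    (∀ x y x', RR x y → UU x x' → ∃ y', RR x' y' ∧ UU y y') ∧
    (∀ x x' y', UU x x' → RR x' y' → ∃ y, RR x y ∧ UU y y') ∧
    (∀ x y y', RR x y → UU y y' → ∃ x', UU x x' ∧ RR x' y') ∧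
    (∀ x' y y', RR x' y' → UU y y' → ∃ x, RR x y ∧ UU x x') ∧
    (∃ o, Z o ∧ D o ∧ (∀ x, ¬ RR x o) ∧ (∀ x, ¬ UU x o) ∧ (∃ y, RR o y) ∧
      (∀ γ, t o γ → W.c γ) ∧ ∀ x, Z x → x = o ∨ (∃ y, RR y x) ∨ ∃ y, UU y x) ∧
    (∀ x y y', D x → RR x y → UU y y' → D y') ∧
    (∀ x, Z x → D x → ((∃ y, RR x y) ↔ ∃ y, UU x y)) ∧
    (∀ x y, ∀ γ δ, RR x y → t x γ → t y δ → W.R γ δ) ∧
    (∀ x y, ∀ γ δ, UU x y → t x γ → t y δ → W.U γ δ) ∧
    (∀ x, ∀ γ, Z x → t x γ → (∀ y, ¬ RR y x) → W.l γ) ∧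
    (∀ x, ∀ γ, Z x → t x γ → (∀ y, ¬ RR x y) → W.r γ) ∧
    (∀ x, ∀ γ, Z x → t x γ → (∀ y, ¬ UU y x) → W.b γ) ∧
    (∀ x, ∀ γ, Z x → t x γ → (∀ y, ¬ UU x y) → W.t γ) :=
  ⟨fun h => ⟨h.c1, h.c2, h.c3, h.c4, h.corner, h.diag, h.sq, h.hR, h.hU, h.hl, h.hr, h.hb, h.ht⟩,
  fun ⟨h1, h2, h3, h4, h5, h6, h7, h8, h9, h10, h11, h12, h13⟩ =>
    ⟨h1, h2, h3, h4, h5, h6, h7, h8, h9, h10, h11, h12, h13⟩⟩

theorem def_treeCode {b : ℕ} {Γ : Type} [Finite Γ] (W : Wang Γ)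
    {c : ∀ V : Type, Str b V → V → Col Γ → Prop} {S U Q : ∀ V : Type, Str b V → V → V → Prop}
    {P : Fin 3 → ∀ V : Type, Str b V → V → V → Prop}
    (hc : ∀ κ, Def1 b (fun V R x => c V R x κ)) (hS : Def2 b S) (hU : Def2 b U) (hQ : Def2 b Q)
    (hP : ∀ i, Def2 b (P i)) :
    Def0 b (fun V R => TreeCode W (c V R) (S V R) (U V R) (Q V R) (fun i => P i V R)) := by
  have ac := fun (r' : ℕ) (κ : Col Γ) (i : Fin r') => (hc κ).app i
  have aS := fun (r' : ℕ) (i j : Fin r') => hS.app i j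
  have aU := fun (r' : ℕ) (i j : Fin r') => hU.app i j
  have aQ := fun (r' : ℕ) (i j : Fin r') => hQ.app i j
  have aP := fun (r' : ℕ) (k : Fin 3) (i j : Fin r') => (hP k).app i j
  have aL : ∀ (r' : ℕ) (i : Fin r'), Def b r' (fun V R v => Leaf (c V R) (v i)) :=
    fun r' i => Def.ex_fin (fun γ => Def.ex_fin (fun d => Def.ex_fin (fun l => ac _ _ _)))
  have aN : ∀ (r' : ℕ) (i : Fin r'), Def b r' (fun V R v => Node (c V R) (v i)) :=
    fun r' i => Def.ex_fin (fun t => ac _ _ _)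
  have aR : ∀ (r' : ℕ) (i j : Fin r'), Def b r' (fun V R v => RRt (c V R) (S V R) (v i) (v j)) :=
    fun r' i j => Def.and (aS _ _ _) (Def.ex_fin (fun γ => Def.ex_fin (fun d => ac _ _ _)))
  have aD : ∀ (r' : ℕ) (i : Fin r'), Def b r' (fun V R v => Dg (c V R) (v i)) :=
    fun r' i => Def.ex_fin (fun γ => Def.ex_fin (fun l => ac _ _ _))
  have aT : ∀ (r' : ℕ) (γ : Γ) (i : Fin r'), Def b r' (fun V R v => Tl (c V R) (v i) γ) :=
    fun r' γ i => Def.ex_fin (fun d => Def.ex_fin (fun l => ac _ _ _))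
  have h1 : Def b 0 (fun V R _ => TreeBase (c V R) (S V R) (U V R) (Q V R)
      (fun i => P i V R)) := by
    refine Def.congr ?_ (fun V R v => treeBase_iff (c V R) (S V R) (U V R) (Q V R)
      (fun i => P i V R))
    repeat' first
      | exact Def.const _
      | exact Def.eq _ _
      | exact ac _ _ _
      | exact aS _ _ _
      | exact aU _ _ _
      | exact aQ _ _ _
      | exact aP _ _ _ _
      | exact aL _ _
      | exact aN _ _
      | refine Def.not ?_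
      | refine Def.and ?_ ?_
      | refine Def.or ?_ ?_
      | refine Def.iff ?_ ?_
      | refine Def.imp ?_ ?_
      | refine Def.all ?_
      | refine Def.ex ?_
      | refine Def.all_fin (fun _ => ?_)
      | refine Def.ex_fin (fun _ => ?_)
  have h2 : Def b 0 (fun V R _ => GridLoc W (Leaf (c V R)) (RRt (c V R) (S V R)) (U V R)
      (Dg (c V R)) (Tl (c V R))) := by
    refine Def.congr ?_ (fun V R v => gridLoc_iff W (Leaf (c V R)) (RRt (c V R) (S V R)) (U V R)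
      (Dg (c V R)) (Tl (c V R)))
    repeat' first
      | exact Def.const _
      | exact Def.eq _ _
      | exact aU _ _ _
      | exact aR _ _ _
      | exact aL _ _
      | exact aD _ _
      | exact aT _ _ _
      | refine Def.not ?_
      | refine Def.and ?_ ?_
      | refine Def.or ?_ ?_
      | refine Def.iff ?_ ?_
      | refine Def.imp ?_ ?_
      | refine Def.all ?_
      | refine Def.ex ?_
      | refine Def.all_fin (fun _ => ?_)
      | refine Def.ex_fin (fun _ => ?_)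
  exact h1.and h2

end Pool.Agent.Helper20.FS
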