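import Pool.Agent.Helper20.FS.TreeModel

/-!
# Block FS-F6: the model satisfies the general conditions

Proof, with `a i := lv N i`, `a 0 = N ^ 2`, `a (i + 1) = a i / 2` (`lv_succ`).
* `tot`, `dis`: case distinction on the third coordinate and whether the level is `0`.
* `root`: the level `h` with `a h = 1` (it exists: `a 0 ≥ 4`, `a i = 0` for large `i`; take the last `i` with `a i ≥ 1`; `h ≥ 1`), the node `(h, 0, 0)`.  A
  node or leaf `(i, j, 0)`: if `a i ≥ 2` it has a parent: `(i + 1, j / 2, 0)` with rank `j % 2` if `j / 2 < a (i + 1)`, otherwise `j = 2 * a (i + 1)`,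
  `a i = 2 * a (i + 1) + 1`, the parent is `(i + 1, a (i + 1) - 1, 0)`, with rank `2`.  If `a i = 1` then `i = h` (as `a` decreases strictly while
  positive) and `j = 0`.  `p_src`: the node `p` has level `≥ 1` and its colour `node t` with the `t` given by `cM`.
* `p_inj`: `2 j + i = 2 j' + i'` with `i, i' < 3`: if `i = 2` then `j + 1 = a (p level)`, so `j' ≤ j`, so `i' = 2`... (`omega`).
* `p_ex`: `2 * j + 1 < a i` for `j < a (i + 1) = a i / 2`; with the condition for `t = true` also `2 * j + 2 < a i`.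
* `q_ex'`: for the dummy `(i, 0, 1)` the node `(i + 1, a (i + 1) - 1, 0)` (`a i ≥ 2`).
* `s_par`: `x = (i, j, 0)`, `y = (i, j + 1, 0)`, `j + 1 < a i`.  If `j = 2 m`: the parent of both is `(i + 1, m, 0)`, ranks `0`, `1`.  If `j = 2 m + 1` and
  `m + 1 < a (i + 1)`: the parents are `(i + 1, m, 0)`, `(i + 1, m + 1, 0)`, ranks `1`, `0`.  If `j = 2 m + 1` and `m + 1 = a (i + 1)`: `a i = 2 m + 3`, both have
  the parent `(i + 1, m, 0)`, ranks `1`, `2`.
* `first`: `(0, 0, 0)`.  `u_back`: `x' = (0, j - 1, 0)`, `y' = (0, j - 1 + N, 0)`.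
-/

set_option autoImplicit false

namespace Pool.Agent.Helper20.FS

open Pool.Agent.Helper29.Prefix

private lemma mem0 {N : ℕ} (x : XM N) (h : x.1.2.2 = 0) : x.1.2.1 < lv N x.1.1 := by
  rcases x.2 with h1 | h1 | h1
  · exact h1.2
  · rw [h] at h1
    exact absurd h1.1 (by decide)
  · rw [h] at h1
    exact absurd h1.1 (by decide)

private lemma mem1 {N : ℕ} (x : XM N) (h : x.1.2.2 = 1) :
    x.1.2.1 = 0 ∧ lv N x.1.1 % 2 = 1 ∧ 2 ≤ lv N x.1.1 := by
  rcases x.2 with h1 | h1 | h1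
  · rw [h] at h1
    exact absurd h1.1 (by decide)
  · exact h1.2
  · rw [h] at h1
    exact absurd h1.1 (by decide)

private lemma mem2 {N : ℕ} (x : XM N) (h : x.1.2.2 = 2) : x.1.2.1 = 0 ∧ x.1.1 = 0 := by
  rcases x.2 with h1 | h1 | h1
  · rw [h] at h1
    exact absurd h1.1 (by decide)
  · rw [h] at h1
    exact absurd h1.1 (by decide)
  · exact h1.2

private lemma ext3 {N : ℕ} {x y : XM N} (h1 : x.1.1 = y.1.1) (h2 : x.1.2.1 = y.1.2.1)
    (h3 : x.1.2.2 = y.1.2.2) : x = y :=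
  Subtype.ext (Prod.ext h1 (Prod.ext h2 h3))

private lemma kinds {N : ℕ} (x : XM N) : x.1.2.2 = 0 ∨ x.1.2.2 = 1 ∨ x.1.2.2 = 2 := by
  rcases x.2 with h1 | h1 | h1
  · exact Or.inl h1.1
  · exact Or.inr (Or.inl h1.1)
  · exact Or.inr (Or.inr h1.1)

/-- nodes and leaves -/
private def mk0 {N : ℕ} (i j : ℕ) (h : j < lv N i) : XM N := ⟨(i, j, 0), Or.inl ⟨rfl, h⟩⟩

private lemma col_leaf {Γ : Type} {N : ℕ} (f : ℕ → ℕ → Γ) (x : XM N) (h : x.1.2.2 = 0)
    (h0 : x.1.1 = 0) : cM N f x (Col.leaf (f (x.1.2.1 % N) (x.1.2.1 / N))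
      (decide (x.1.2.1 / N = x.1.2.1 % N)) (decide (x.1.2.1 % N + 1 = N))) :=
  ⟨h, h0, rfl, decide_eq_true_iff, decide_eq_true_iff⟩

private lemma col_node {Γ : Type} {N : ℕ} (f : ℕ → ℕ → Γ) (x : XM N) (h : x.1.2.2 = 0)
    (h0 : 1 ≤ x.1.1) : cM N f x (Col.node
      (decide (x.1.2.1 + 1 = lv N x.1.1 ∧ lv N (x.1.1 - 1) % 2 = 1))) :=
  ⟨h, h0, decide_eq_true_iff⟩

private lemma leaf_iff {Γ : Type} {N : ℕ} (f : ℕ → ℕ → Γ) (x : XM N) :
    Leaf (cM N f) x ↔ x.1.2.2 = 0 ∧ x.1.1 = 0 := by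
  constructor
  · rintro ⟨γ, d, l, h1, h2, -⟩
    exact ⟨h1, h2⟩
  · rintro ⟨h1, h2⟩
    exact ⟨_, _, _, col_leaf f x h1 h2⟩

private lemma node_iff {Γ : Type} {N : ℕ} (f : ℕ → ℕ → Γ) (x : XM N) :
    Node (cM N f) x ↔ x.1.2.2 = 0 ∧ 1 ≤ x.1.1 := by
  constructor
  · rintro ⟨t, h1, h2, -⟩
    exact ⟨h1, h2⟩
  · rintro ⟨h1, h2⟩
    exact ⟨_, col_node f x h1 h2⟩

private lemma lv_anti (N : ℕ) {i j : ℕ} (h : i ≤ j) : lv N j ≤ lv N i :=
  Nat.div_le_div_left (Nat.pow_le_pow_right (by norm_num) h) (by positivity)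

private lemma exists_top (N : ℕ) (hN : 2 ≤ N) : ∃ h, 1 ≤ h ∧ lv N h = 1 := by
  have hex : ∃ i, lv N i = 0 := by
    refine ⟨N ^ 2, ?_⟩
    unfold lv
    exact Nat.div_eq_of_lt Nat.lt_two_pow_self
  have h4 : 4 ≤ lv N 0 := by
    rw [lv_zero]
    nlinarith
  have h1 := Nat.find_spec hex
  set i0 := Nat.find hex with hi0
  have h2 : i0 ≠ 0 := by
    intro h
    rw [h] at h1
    omega
  obtain ⟨h, hh⟩ := Nat.exists_eq_succ_of_ne_zero h2
  have h3 : lv N h ≠ 0 := Nat.find_min hex (by omega)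
  have h5 := lv_succ N h
  rw [hh, Nat.succ_eq_add_one, h5] at h1
  refine ⟨h, ?_, by omega⟩
  by_contra h6
  have h7 : h = 0 := by omega
  rw [h7] at h1
  omega

private lemma lv_one_unique {N i h : ℕ} (h1 : lv N i = 1) (h2 : lv N h = 1) : i = h := by
  rcases lt_trichotomy i h with h3 | h3 | h3
  · have h4 := lv_anti N (show i + 1 ≤ h from h3)
    rw [lv_succ] at h4
    omega
  · exact h3
  · have h4 := lv_anti N (show h + 1 ≤ i from h3)
    rw [lv_succ] at h4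
    omega

private lemma parent {N : ℕ} (x : XM N) (h : x.1.2.2 = 0) (h2 : 2 ≤ lv N x.1.1) :
    ∃ i p, PM N i p x := by
  have hx := mem0 x h
  have hl := lv_succ N x.1.1
  by_cases h3 : x.1.2.1 / 2 < lv N (x.1.1 + 1)
  · refine ⟨⟨x.1.2.1 % 2, by omega⟩, mk0 (x.1.1 + 1) (x.1.2.1 / 2) h3, rfl, h, rfl, ?_, ?_⟩
    · change x.1.2.1 = 2 * (x.1.2.1 / 2) + x.1.2.1 % 2
      omega
    · intro h4
      have h5 := congrArg Fin.val h4
      change x.1.2.1 % 2 = 2 at h5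
      omega
  · refine ⟨2, mk0 (x.1.1 + 1) (lv N (x.1.1 + 1) - 1) (by omega), rfl, h, rfl, ?_, ?_⟩
    · change x.1.2.1 = 2 * (lv N (x.1.1 + 1) - 1) + 2
      omega
    · intro _
      change lv N (x.1.1 + 1) - 1 + 1 = lv N (x.1.1 + 1) ∧ lv N x.1.1 % 2 = 1
      omega

theorem treeBase_model {Γ : Type} (N : ℕ) (hN : 2 ≤ N) (f : ℕ → ℕ → Γ) :
    TreeBase (cM N f) (SM N) (UM N) (QM N) (PM N) where
  tot x := by
    rcases kinds x with h | h | h
    · rcases Nat.eq_zero_or_pos x.1.1 with h0 | h0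
      · exact ⟨_, col_leaf f x h h0⟩
      · exact ⟨_, col_node f x h h0⟩
    · exact ⟨Col.dum, h⟩
    · exact ⟨Col.top, h⟩
  dis x κ κ' h h' := by
    have h01 : (0 : Fin 3) ≠ 1 := by decide
    have h02 : (0 : Fin 3) ≠ 2 := by decide
    have h12 : (1 : Fin 3) ≠ 2 := by decide
    rcases κ with ⟨γ, d, l⟩ | t | _ | _ <;> rcases κ' with ⟨γ', d', l'⟩ | t' | _ | _
    · obtain ⟨h1, h2, h3, h4, h5⟩ := h
      obtain ⟨h1', h2', h3', h4', h5'⟩ := h'
      have hd : d = d' := Bool.eq_iff_iff.2 (h4.trans h4'.symm)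
      have hl : l = l' := Bool.eq_iff_iff.2 (h5.trans h5'.symm)
      rw [h3, h3', hd, hl]
    · exact absurd h'.2.1 (by rw [h.2.1]; norm_num)
    · exact absurd (h.1.symm.trans h') h01
    · exact absurd (h.1.symm.trans h') h02
    · exact absurd h.2.1 (by rw [h'.2.1]; norm_num)
    · have ht : t = t' := Bool.eq_iff_iff.2 (h.2.2.trans h'.2.2.symm)
      rw [ht]
    · exact absurd (h.1.symm.trans h') h01
    · exact absurd (h.1.symm.trans h') h02
    · exact absurd (h'.1.symm.trans h) h01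
    · exact absurd (h'.1.symm.trans h) h01
    · rfl
    · exact absurd ((show x.1.2.2 = 1 from h).symm.trans h') h12
    · exact absurd (h'.1.symm.trans h) h02
    · exact absurd (h'.1.symm.trans h) h02
    · exact absurd ((show x.1.2.2 = 1 from h').symm.trans h) h12
    · rfl
  top := by
    refine ⟨⟨(0, 0, 2), Or.inr (Or.inr ⟨rfl, rfl, rfl⟩)⟩, rfl, fun y hy => ?_⟩
    have h1 := mem2 y hy
    exact ext3 h1.2 h1.1 hy
  p_src i p x h := by
    obtain ⟨h1, h2, h3, h4, h5⟩ := h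
    refine ⟨_, col_node f p h1 (by omega), fun hi => ?_⟩
    obtain ⟨h6, h7⟩ := h5 hi
    rw [decide_eq_true_iff]
    refine ⟨h6, ?_⟩
    rw [show p.1.1 - 1 = x.1.1 by omega]
    exact h7
  p_tgt i p x h := by
    rw [leaf_iff, node_iff]
    have h2 := h.2.1
    rcases Nat.eq_zero_or_pos x.1.1 with h0 | h0
    · exact Or.inl ⟨h2, h0⟩
    · exact Or.inr ⟨h2, h0⟩
  p_fun i p x x' h h' := by
    obtain ⟨h1, h2, h3, h4, h5⟩ := h
    obtain ⟨h1', h2', h3', h4', h5'⟩ := h'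
    exact ext3 (by omega) (by omega) (h2.trans h2'.symm)
  p_inj i p i' p' x h h' := by
    obtain ⟨h1, h2, h3, h4, h5⟩ := h
    obtain ⟨h1', h2', h3', h4', h5'⟩ := h'
    have hl : p.1.1 = p'.1.1 := by omega
    have hp := mem0 p h1
    have hp' := mem0 p' h1'
    rw [← hl] at hp' h5'
    have hi := i.2
    have hi' := i'.2
    have key : i.1 = i'.1 ∧ p.1.2.1 = p'.1.2.1 := by
      by_cases hi2 : i.1 = 2
      · have h6 := (h5 (Fin.ext hi2)).1
        omega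
      · by_cases hi2' : i'.1 = 2
        · have h6 := (h5' (Fin.ext hi2')).1
          omega
        · omega
    exact ⟨Fin.ext key.1, ext3 hl key.2 (h1.trans h1'.symm)⟩
  p_ex p t h := by
    obtain ⟨h1, h2, h3⟩ := h
    have hp := mem0 p h1
    obtain ⟨q, hq⟩ := Nat.exists_eq_succ_of_ne_zero (show p.1.1 ≠ 0 by omega)
    have hl := lv_succ N q
    rw [hq, Nat.succ_eq_add_one] at hp h3
    rw [show q + 1 - 1 = q from rfl] at h3
    refine ⟨⟨mk0 q (2 * p.1.2.1) (by omega), h1, rfl, hq, ?_, ?_⟩,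
      ⟨mk0 q (2 * p.1.2.1 + 1) (by omega), h1, rfl, hq, ?_, ?_⟩, fun ht => ?_⟩
    · rfl
    · intro h
      exact absurd h (by decide)
    · rfl
    · intro h
      exact absurd h (by decide)
    · obtain ⟨h4, h5⟩ := h3.1 ht
      refine ⟨mk0 q (2 * p.1.2.1 + 2) (by omega), h1, rfl, hq, rfl, fun _ => ?_⟩
      rw [hq]
      exact ⟨h4, h5⟩
  root := by
    obtain ⟨h, hh1, hh⟩ := exists_top N hN
    refine ⟨mk0 h 0 (by omega), (node_iff f _).2 ⟨rfl, hh1⟩, ?_, ?_⟩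
    · rintro i p ⟨h1, h2, h3, h4, h5⟩
      have hp := mem0 p h1
      have h6 : p.1.1 = h + 1 := h3
      rw [h6, lv_succ] at hp
      omega
    · intro x hx
      have hx0 : x.1.2.2 = 0 := by
        rcases hx with hx | hx
        · exact ((leaf_iff f x).1 hx).1
        · exact ((node_iff f x).1 hx).1
      have hxl := mem0 x hx0
      by_cases h2 : 2 ≤ lv N x.1.1
      · exact Or.inr (parent x hx0 h2)
      · left
        have h3 : x.1.1 = h := lv_one_unique (by omega) hh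
        exact ext3 h3 (show x.1.2.1 = 0 by omega) hx0
  q_src x y h := by
    obtain ⟨h1, h2, h3, h4, h5⟩ := h
    refine ⟨⟨h1, by omega, ?_⟩, h2⟩
    rw [show x.1.1 - 1 = y.1.1 by omega]
    exact ⟨fun _ => ⟨h4, h5⟩, fun _ => rfl⟩
  q_fun x y y' h h' := by
    obtain ⟨h1, h2, h3, h4, h5⟩ := h
    obtain ⟨h1', h2', h3', h4', h5'⟩ := h'
    have h6 := (mem1 y h2).1
    have h6' := (mem1 y' h2').1
    exact ext3 (by omega) (by omega) (h2.trans h2'.symm)
  q_inj x x' y h h' := by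
    obtain ⟨h1, h2, h3, h4, h5⟩ := h
    obtain ⟨h1', h2', h3', h4', h5'⟩ := h'
    have hl : x.1.1 = x'.1.1 := by omega
    rw [← hl] at h4'
    exact ext3 hl (by omega) (h1.trans h1'.symm)
  q_ex x h := by
    obtain ⟨h1, h2, h3⟩ := h
    obtain ⟨h4, h5⟩ := h3.1 rfl
    obtain ⟨q, hq⟩ := Nat.exists_eq_succ_of_ne_zero (show x.1.1 ≠ 0 by omega)
    have hl := lv_succ N q
    have h6 : lv N x.1.1 = lv N q / 2 := by rw [hq]; exact hl
    rw [show x.1.1 - 1 = q by omega] at h5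
    refine ⟨⟨(q, 0, 1), Or.inr (Or.inl ⟨rfl, rfl, h5, by change 2 ≤ lv N q; omega⟩)⟩,
      h1, rfl, hq, h4, h5⟩
  q_ex' y h := by
    obtain ⟨h1, h2, h3⟩ := mem1 y h
    have hl := lv_succ N y.1.1
    refine ⟨mk0 (y.1.1 + 1) (lv N (y.1.1 + 1) - 1) (by omega), rfl, h, rfl, ?_, h2⟩
    change lv N (y.1.1 + 1) - 1 + 1 = lv N (y.1.1 + 1)
    omega
  s_par x y h := by
    obtain ⟨h1, h2, h3, h4⟩ := h
    have hy := mem0 y h2
    rw [← h3, h4] at hy
    have hl := lv_succ N x.1.1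
    rcases Nat.even_or_odd' x.1.2.1 with ⟨m, hm | hm⟩
    · left
      have hm2 : m < lv N (x.1.1 + 1) := by omega
      refine ⟨mk0 (x.1.1 + 1) m hm2, 0, 1, ⟨rfl, h1, rfl, ?_, ?_⟩, ⟨rfl, h2, ?_, ?_, ?_⟩, rfl⟩
      · exact hm
      · intro h
        exact absurd h (by decide)
      · change x.1.1 + 1 = y.1.1 + 1
        omega
      · change y.1.2.1 = 2 * m + 1
        omega
      · intro h
        exact absurd h (by decide)
    · by_cases hm1 : m + 1 < lv N (x.1.1 + 1)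
      · right
        refine ⟨mk0 (x.1.1 + 1) m (by omega), mk0 (x.1.1 + 1) (m + 1) hm1, 1, le_refl 1,
          ⟨rfl, h1, rfl, hm, ?_⟩, ⟨rfl, rfl, rfl, rfl⟩, ⟨rfl, h2, ?_, ?_, ?_⟩⟩
        · intro h
          exact absurd h (by decide)
        · change x.1.1 + 1 = y.1.1 + 1
          omega
        · change y.1.2.1 = 2 * (m + 1) + 0
          omega
        · intro h
          exact absurd h (by decide)
      · left
        have hm2 : m < lv N (x.1.1 + 1) := by omega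
        refine ⟨mk0 (x.1.1 + 1) m hm2, 1, 2, ⟨rfl, h1, rfl, hm, ?_⟩, ⟨rfl, h2, ?_, ?_, ?_⟩, rfl⟩
        · intro h
          exact absurd h (by decide)
        · change x.1.1 + 1 = y.1.1 + 1
          omega
        · change y.1.2.1 = 2 * m + 2
          omega
        · intro _
          rw [← h3]
          change m + 1 = lv N (x.1.1 + 1) ∧ lv N x.1.1 % 2 = 1
          omega
  s_fun x y y' h h' := by
    obtain ⟨h1, h2, h3, h4⟩ := h
    obtain ⟨h1', h2', h3', h4'⟩ := h'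
    exact ext3 (by omega) (by omega) (h2.trans h2'.symm)
  s_inj x x' y h h' := by
    obtain ⟨h1, h2, h3, h4⟩ := h
    obtain ⟨h1', h2', h3', h4'⟩ := h'
    exact ext3 (by omega) (by omega) (h1.trans h1'.symm)
  s_leaf x y h := by
    obtain ⟨h1, h2, h3, h4⟩ := h
    rw [leaf_iff, leaf_iff, h3]
    exact ⟨fun h => ⟨h2, h.2⟩, fun h => ⟨h1, h.2⟩⟩
  first := by
    have h4 : 4 ≤ lv N 0 := by
      rw [lv_zero]
      nlinarith
    refine ⟨mk0 0 0 (by omega), (leaf_iff f _).2 ⟨rfl, rfl⟩, ?_, ?_⟩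
    · rintro y ⟨h1, h2, h3, h5⟩
      change 0 = y.1.2.1 + 1 at h5
      omega
    · intro x hx
      obtain ⟨h1, h2⟩ := (leaf_iff f x).1 hx
      have h3 := mem0 x h1
      rcases Nat.eq_zero_or_pos x.1.2.1 with h0 | h0
      · exact Or.inl (ext3 h2 h0 h1)
      · right
        rw [h2] at h3
        refine ⟨mk0 0 (x.1.2.1 - 1) (by omega), rfl, h1, h2.symm, ?_⟩
        change x.1.2.1 = x.1.2.1 - 1 + 1
        omega
  u_leaf x y h := by
    obtain ⟨h1, h2, h3, h4, h5⟩ := h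
    exact ⟨(leaf_iff f x).2 ⟨h1, h3⟩, (leaf_iff f y).2 ⟨h2, h4⟩⟩
  u_irr x h := by
    have h5 := h.2.2.2.2
    omega
  u_fun x y y' h h' := by
    obtain ⟨h1, h2, h3, h4, h5⟩ := h
    obtain ⟨h1', h2', h3', h4', h5'⟩ := h'
    exact ext3 (by omega) (by omega) (h2.trans h2'.symm)
  u_inj x x' y h h' := by
    obtain ⟨h1, h2, h3, h4, h5⟩ := h
    obtain ⟨h1', h2', h3', h4', h5'⟩ := h'
    exact ext3 (by omega) (by omega) (h1.trans h1'.symm)
  u_back x y x' h h' := by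
    obtain ⟨h1, h2, h3, h4, h5⟩ := h
    obtain ⟨g1, g2, g3, g4⟩ := h'
    have hy := mem0 y h2
    rw [h4] at hy
    refine ⟨mk0 0 (x'.1.2.1 + N) (by omega), ⟨rfl, h2, h4.symm, ?_⟩, ⟨g1, rfl, by omega, rfl, rfl⟩⟩
    change y.1.2.1 = x'.1.2.1 + N + 1
    omega

end Pool.Agent.Helper20.FS
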