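import Pool.Agent.Helper20.FS.TreeModel

/-!
# Block FS-F7: the model satisfies the conditions of a tiled square

The leaf `(0, j, 0)` is the cell in column `j % N` and row `j / N`.  So `RRt x y` holds if and only if `y = x + 1` (second coordinates, of leaves) and
`x % N + 1 ≠ N`, and then `y % N = x % N + 1`, `y / N = x / N`; `UM x y` if and only if `y = x + N`, and then `y % N = x % N`, `y / N = x / N + 1`; `j < N ^ 2` if and
only if `j / N < N`.  A leaf without right neighbour is in column `N - 1`, one without left neighbour in column `0`, one without upper (lower)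
neighbour in row `N - 1` (`0`).  It may be useful to pass to pairs `(column, row)` of numbers `< N` first.
All fields follow from this and the hypotheses on `f` (which say that `f` is a tiling, see `Tiles`).
-/

set_option autoImplicit false

namespace Pool.Agent.Helper20.FS

open Pool.Agent.Helper29.Prefix

/-- `x` is the cell in column `a` and row `b` -/
private def IsC (N : ℕ) (x : XM N) (a b : ℕ) : Prop :=
  x.1.2.2 = 0 ∧ x.1.1 = 0 ∧ x.1.2.1 = a + N * b ∧ a < N ∧ b < N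

private lemma isC_ex {N a b : ℕ} (ha : a < N) (hb : b < N) : ∃ x : XM N, IsC N x a b := by
  refine ⟨⟨(0, a + N * b, 0), Or.inl ⟨rfl, ?_⟩⟩, rfl, rfl, rfl, ha, hb⟩
  rw [lv_zero]
  calc a + N * b < N + N * b := by lia
    _ = N * (b + 1) := by ring
    _ ≤ N * N := Nat.mul_le_mul_left _ hb
    _ = N ^ 2 := by ring

private lemma isC_mod {N a b : ℕ} (ha : a < N) : (a + N * b) % N = a := by
  rw [Nat.add_mul_mod_self_left, Nat.mod_eq_of_lt ha]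

private lemma isC_div {N a b : ℕ} (ha : a < N) : (a + N * b) / N = b := by
  rw [Nat.add_mul_div_left _ _ (by lia), Nat.div_eq_of_lt ha, zero_add]

private lemma isC_un {N a b a' b' : ℕ} {x : XM N} (h : IsC N x a b) (h' : IsC N x a' b') : a = a' ∧ b = b' := by
  obtain ⟨-, -, h1, h2, -⟩ := h
  obtain ⟨-, -, h1', h2', -⟩ := h'
  have e : a + N * b = a' + N * b' := by rw [← h1, ← h1']
  constructor
  · rw [← isC_mod (b := b) h2, e, isC_mod h2']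
  · rw [← isC_div (b := b) h2, e, isC_div h2']

private lemma isC_inj {N a b : ℕ} {x y : XM N} (h : IsC N x a b) (h' : IsC N y a b) : x = y := by
  obtain ⟨h1, h2, h3, -⟩ := h
  obtain ⟨h1', h2', h3', -⟩ := h'
  apply Subtype.ext
  exact Prod.ext (h2.trans h2'.symm) (Prod.ext (h3.trans h3'.symm) (h1.trans h1'.symm))

private lemma isC_of {N : ℕ} (hN : 2 ≤ N) {x : XM N} (h0 : x.1.2.2 = 0) (h1 : x.1.1 = 0) :
    IsC N x (x.1.2.1 % N) (x.1.2.1 / N) := by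
  refine ⟨h0, h1, (Nat.mod_add_div _ _).symm, Nat.mod_lt _ (by lia), ?_⟩
  have h2 : x.1.2.1 < N ^ 2 := by
    rcases x.2 with h | h | h
    · have := h.2
      rwa [h1, lv_zero] at this
    · rw [h0] at h
      exact absurd h.1 (by decide)
    · rw [h0] at h
      exact absurd h.1 (by decide)
  rw [Nat.div_lt_iff_lt_mul (by lia)]
  rwa [pow_two] at h2

private lemma leaf_iff {Γ : Type} {N : ℕ} (hN : 2 ≤ N) (f : ℕ → ℕ → Γ) (x : XM N) :
    Leaf (cM N f) x ↔ ∃ a b, IsC N x a b := by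
  constructor
  · rintro ⟨γ, d, l, h⟩
    exact ⟨_, _, isC_of hN h.1 h.2.1⟩
  · rintro ⟨a, b, h1, h2, h3, h4, h5⟩
    exact ⟨_, decide (x.1.2.1 / N = x.1.2.1 % N), decide (x.1.2.1 % N + 1 = N), h1, h2, rfl, by simp, by simp⟩

private lemma dg_iff {Γ : Type} {N : ℕ} (hN : 2 ≤ N) (f : ℕ → ℕ → Γ) (x : XM N) :
    Dg (cM N f) x ↔ ∃ a, IsC N x a a := by
  constructor
  · rintro ⟨γ, l, h⟩
    have h1 := isC_of hN h.1 h.2.1
    rw [h.2.2.2.1.1 rfl] at h1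
    exact ⟨_, h1⟩
  · rintro ⟨a, h1, h2, h3, h4, h5⟩
    refine ⟨_, decide (x.1.2.1 % N + 1 = N), h1, h2, rfl, ?_, by simp⟩
    rw [h3, isC_mod h4, isC_div h4]
    simp

private lemma tl_iff {Γ : Type} {N : ℕ} (hN : 2 ≤ N) (f : ℕ → ℕ → Γ) (x : XM N) (γ : Γ) :
    Tl (cM N f) x γ ↔ ∃ a b, IsC N x a b ∧ γ = f a b := by
  constructor
  · rintro ⟨d, l, h⟩
    exact ⟨_, _, isC_of hN h.1 h.2.1, h.2.2.1⟩
  · rintro ⟨a, b, ⟨h1, h2, h3, h4, h5⟩, rfl⟩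
    refine ⟨decide (x.1.2.1 / N = x.1.2.1 % N), decide (x.1.2.1 % N + 1 = N), h1, h2, ?_, by simp, by simp⟩
    rw [h3, isC_mod h4, isC_div h4]

private lemma um_iff {N : ℕ} (hN : 2 ≤ N) (x y : XM N) :
    UM N x y ↔ ∃ a b, IsC N x a b ∧ IsC N y a (b + 1) := by
  constructor
  · rintro ⟨h1, h2, h3, h4, h5⟩
    have hx := isC_of hN h1 h3
    have hy := isC_of hN h2 h4
    refine ⟨_, _, hx, ?_⟩
    have e1 : y.1.2.1 % N = x.1.2.1 % N := by rw [h5, Nat.add_mod_right]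
    have e2 : y.1.2.1 / N = x.1.2.1 / N + 1 := by rw [h5, Nat.add_div_right _ (by lia)]
    rwa [e1, e2] at hy
  · rintro ⟨a, b, ⟨h1, h2, h3, h4, h5⟩, ⟨h1', h2', h3', h4', h5'⟩⟩
    refine ⟨h1, h1', h2, h2', ?_⟩
    rw [h3, h3']
    ring

private lemma rr_iff {Γ : Type} {N : ℕ} (hN : 2 ≤ N) (f : ℕ → ℕ → Γ) (x y : XM N) :
    RRt (cM N f) (SM N) x y ↔ ∃ a b, IsC N x a b ∧ IsC N y (a + 1) b := by
  constructor
  · rintro ⟨⟨h1, h2, h3, h4⟩, γ, d, h⟩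
    have h5 : x.1.1 = 0 := h.2.1
    have hx := isC_of hN h1 h5
    have hy := isC_of hN h2 (h3.symm.trans h5)
    have h6 : x.1.2.1 % N + 1 ≠ N := fun e => by
      have := h.2.2.2.2.2 e
      exact absurd this (by decide)
    have h7 : x.1.2.1 % N < N := Nat.mod_lt _ (by lia)
    refine ⟨_, _, hx, ?_⟩
    have e0 : y.1.2.1 = (x.1.2.1 % N + 1) + N * (x.1.2.1 / N) := by
      rw [h4]
      have := Nat.mod_add_div x.1.2.1 N
      lia
    exact ⟨h2, h3.symm.trans h5, e0, by lia, hx.2.2.2.2⟩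
  · rintro ⟨a, b, ⟨h1, h2, h3, h4, h5⟩, ⟨h1', h2', h3', h4', h5'⟩⟩
    refine ⟨⟨h1, h1', h2.trans h2'.symm, by rw [h3, h3']; ring⟩, f (x.1.2.1 % N) (x.1.2.1 / N),
      decide (x.1.2.1 / N = x.1.2.1 % N), h1, h2, rfl, by simp, ?_⟩
    rw [h3, isC_mod h4]
    constructor
    · intro h; exact absurd h (by decide)
    · intro h; exact absurd h (by lia)

theorem gridLoc_model {Γ : Type} (W : Wang Γ) (N : ℕ) (hN : 2 ≤ N) (f : ℕ → ℕ → Γ)
    (tR : ∀ x y, x + 1 < N → y < N → W.R (f x y) (f (x + 1) y))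
    (tU : ∀ x y, x < N → y + 1 < N → W.U (f x y) (f x (y + 1)))
    (tl : ∀ y, y < N → W.l (f 0 y)) (tr : ∀ y, y < N → W.r (f (N - 1) y))
    (tb : ∀ x, x < N → W.b (f x 0)) (tt : ∀ x, x < N → W.t (f x (N - 1))) (tc : W.c (f 0 0)) :
    GridLoc W (Leaf (cM N f)) (RRt (cM N f) (SM N)) (UM N) (Dg (cM N f)) (Tl (cM N f)) := by
  constructor
  · -- c1
    intro x y x' h1 h2
    rw [rr_iff hN] at h1
    rw [um_iff hN] at h2
    obtain ⟨a, b, hx, hy⟩ := h1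
    obtain ⟨a', b', hx2, hx'⟩ := h2
    obtain ⟨rfl, rfl⟩ := isC_un hx hx2
    obtain ⟨y', hy'⟩ := isC_ex hy.2.2.2.1 hx'.2.2.2.2
    exact ⟨y', (rr_iff hN f _ _).2 ⟨_, _, hx', hy'⟩, (um_iff hN _ _).2 ⟨_, _, hy, hy'⟩⟩
  · -- c2
    intro x x' y' h1 h2
    rw [um_iff hN] at h1
    rw [rr_iff hN] at h2
    obtain ⟨a, b, hx, hx'⟩ := h1
    obtain ⟨a', b', hx2, hy'⟩ := h2
    obtain ⟨rfl, rfl⟩ := isC_un hx' hx2
    obtain ⟨y, hy⟩ := isC_ex hy'.2.2.2.1 hx.2.2.2.2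
    exact ⟨y, (rr_iff hN f _ _).2 ⟨_, _, hx, hy⟩, (um_iff hN _ _).2 ⟨_, _, hy, hy'⟩⟩
  · -- c3
    intro x y y' h1 h2
    rw [rr_iff hN] at h1
    rw [um_iff hN] at h2
    obtain ⟨a, b, hx, hy⟩ := h1
    obtain ⟨a', b', hy2, hy'⟩ := h2
    obtain ⟨rfl, rfl⟩ := isC_un hy hy2
    obtain ⟨x', hx'⟩ := isC_ex hx.2.2.2.1 hy'.2.2.2.2
    exact ⟨x', (um_iff hN _ _).2 ⟨_, _, hx, hx'⟩, (rr_iff hN f _ _).2 ⟨_, _, hx', hy'⟩⟩
  · -- c4
    intro x' y y' h1 h2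
    rw [rr_iff hN] at h1
    rw [um_iff hN] at h2
    obtain ⟨a, b, hx', hy'⟩ := h1
    obtain ⟨a', b', hy, hy2⟩ := h2
    obtain ⟨e1, e2⟩ := isC_un hy' hy2
    subst e2
    subst e1
    obtain ⟨x, hx⟩ := isC_ex hx'.2.2.2.1 hy.2.2.2.2
    exact ⟨x, (rr_iff hN f _ _).2 ⟨_, _, hx, hy⟩, (um_iff hN _ _).2 ⟨_, _, hx, hx'⟩⟩
  · -- corner
    obtain ⟨o, ho⟩ := isC_ex (N := N) (a := 0) (b := 0) (by lia) (by lia)
    obtain ⟨o', ho'⟩ := isC_ex (N := N) (a := 1) (b := 0) (by lia) (by lia)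
    refine ⟨o, (leaf_iff hN f _).2 ⟨_, _, ho⟩, (dg_iff hN f _).2 ⟨_, ho⟩, ?_, ?_, ?_, ?_, ?_⟩
    · intro x h
      rw [rr_iff hN] at h
      obtain ⟨a, b, -, h2⟩ := h
      have := (isC_un ho h2).1
      lia
    · intro x h
      rw [um_iff hN] at h
      obtain ⟨a, b, -, h2⟩ := h
      have := (isC_un ho h2).2
      lia
    · exact ⟨o', (rr_iff hN f _ _).2 ⟨_, _, ho, ho'⟩⟩
    · intro γ h
      obtain ⟨a, b, h1, rfl⟩ := (tl_iff hN f _ _).1 h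
      obtain ⟨rfl, rfl⟩ := isC_un ho h1
      exact tc
    · intro x h
      obtain ⟨a, b, hx⟩ := (leaf_iff hN f _).1 h
      obtain rfl | ⟨a, rfl⟩ : a = 0 ∨ ∃ a', a = a' + 1 := by
        cases a with
        | zero => exact Or.inl rfl
        | succ n => exact Or.inr ⟨n, rfl⟩
      · obtain rfl | ⟨b, rfl⟩ : b = 0 ∨ ∃ b', b = b' + 1 := by
          cases b with
          | zero => exact Or.inl rfl
          | succ n => exact Or.inr ⟨n, rfl⟩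
        · exact Or.inl (isC_inj hx ho)
        · obtain ⟨y, hy⟩ := isC_ex (N := N) (a := 0) (b := b) (by lia) (by have := hx.2.2.2.2; lia)
          exact Or.inr (Or.inr ⟨y, (um_iff hN _ _).2 ⟨_, _, hy, hx⟩⟩)
      · obtain ⟨y, hy⟩ := isC_ex (N := N) (a := a) (b := b) (by have := hx.2.2.2.1; lia) hx.2.2.2.2
        exact Or.inr (Or.inl ⟨y, (rr_iff hN f _ _).2 ⟨_, _, hy, hx⟩⟩)
  · -- diag
    intro x y y' h0 h1 h2
    obtain ⟨a, hx⟩ := (dg_iff hN f _).1 h0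
    obtain ⟨a', b', hx2, hy⟩ := (rr_iff hN f _ _).1 h1
    obtain ⟨rfl, rfl⟩ := isC_un hx hx2
    obtain ⟨a'', b'', hy2, hy'⟩ := (um_iff hN _ _).1 h2
    obtain ⟨rfl, rfl⟩ := isC_un hy hy2
    exact (dg_iff hN f _).2 ⟨_, hy'⟩
  · -- sq
    intro x _ h0
    obtain ⟨a, hx⟩ := (dg_iff hN f _).1 h0
    constructor
    · rintro ⟨y, hy⟩
      obtain ⟨a', b', hx2, hy⟩ := (rr_iff hN f _ _).1 hy
      obtain ⟨rfl, rfl⟩ := isC_un hx hx2
      obtain ⟨z, hz⟩ := isC_ex (N := N) (a := a) (b := a + 1) hx.2.2.2.1 hy.2.2.2.1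
      exact ⟨z, (um_iff hN _ _).2 ⟨_, _, hx, hz⟩⟩
    · rintro ⟨y, hy⟩
      obtain ⟨a', b', hx2, hy⟩ := (um_iff hN _ _).1 hy
      obtain ⟨rfl, rfl⟩ := isC_un hx hx2
      obtain ⟨z, hz⟩ := isC_ex (N := N) (a := a + 1) (b := a) hy.2.2.2.2 hx.2.2.2.1
      exact ⟨z, (rr_iff hN f _ _).2 ⟨_, _, hx, hz⟩⟩
  · -- hR
    intro x y γ δ h1 h2 h3
    obtain ⟨a, b, hx, hy⟩ := (rr_iff hN f _ _).1 h1
    obtain ⟨a', b', hx2, rfl⟩ := (tl_iff hN f _ _).1 h2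
    obtain ⟨rfl, rfl⟩ := isC_un hx hx2
    obtain ⟨a'', b'', hy2, rfl⟩ := (tl_iff hN f _ _).1 h3
    obtain ⟨rfl, rfl⟩ := isC_un hy hy2
    exact tR _ _ hy.2.2.2.1 hy.2.2.2.2
  · -- hU
    intro x y γ δ h1 h2 h3
    obtain ⟨a, b, hx, hy⟩ := (um_iff hN _ _).1 h1
    obtain ⟨a', b', hx2, rfl⟩ := (tl_iff hN f _ _).1 h2
    obtain ⟨rfl, rfl⟩ := isC_un hx hx2
    obtain ⟨a'', b'', hy2, rfl⟩ := (tl_iff hN f _ _).1 h3
    obtain ⟨rfl, rfl⟩ := isC_un hy hy2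
    exact tU _ _ hy.2.2.2.1 hy.2.2.2.2
  · -- hl
    intro x γ _ h2 h3
    obtain ⟨a, b, hx, rfl⟩ := (tl_iff hN f _ _).1 h2
    cases a with
    | zero => exact tl _ hx.2.2.2.2
    | succ a =>
      obtain ⟨y, hy⟩ := isC_ex (N := N) (a := a) (b := b) (by have := hx.2.2.2.1; lia) hx.2.2.2.2
      exact absurd ((rr_iff hN f _ _).2 ⟨_, _, hy, hx⟩) (h3 y)
  · -- hr
    intro x γ _ h2 h3
    obtain ⟨a, b, hx, rfl⟩ := (tl_iff hN f _ _).1 h2
    by_cases ha : a + 1 < N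
    · obtain ⟨y, hy⟩ := isC_ex (N := N) (a := a + 1) (b := b) ha hx.2.2.2.2
      exact absurd ((rr_iff hN f _ _).2 ⟨_, _, hx, hy⟩) (h3 y)
    · have : a = N - 1 := by have := hx.2.2.2.1; lia
      rw [this]
      exact tr _ hx.2.2.2.2
  · -- hb
    intro x γ _ h2 h3
    obtain ⟨a, b, hx, rfl⟩ := (tl_iff hN f _ _).1 h2
    cases b with
    | zero => exact tb _ hx.2.2.2.1
    | succ b =>
      obtain ⟨y, hy⟩ := isC_ex (N := N) (a := a) (b := b) hx.2.2.2.1 (by have := hx.2.2.2.2; lia)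
      exact absurd ((um_iff hN _ _).2 ⟨_, _, hy, hx⟩) (h3 y)
  · -- ht
    intro x γ _ h2 h3
    obtain ⟨a, b, hx, rfl⟩ := (tl_iff hN f _ _).1 h2
    by_cases hb : b + 1 < N
    · obtain ⟨y, hy⟩ := isC_ex (N := N) (a := a) (b := b + 1) hx.2.2.2.1 hb
      exact absurd ((um_iff hN _ _).2 ⟨_, _, hx, hy⟩) (h3 y)
    · have : b = N - 1 := by have := hx.2.2.2.2; lia
      rw [this]
      exact tt _ hx.2.2.2.1

end Pool.Agent.Helper20.FS
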