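import Pool.Agent.Helper20.FS.TreeModel

/-!
# Block FS-F6b: finiteness and the number of leaves of the model

`xm_finite`: if `lv N i ≥ 1` then `2 ^ i ≤ N ^ 2`, so `i < N ^ 2` (`Nat.lt_two_pow_self`); all coordinates of the elements are bounded (`x.1.1 ≤ N ^ 2`,
`x.1.2.1 ≤ N ^ 2`).  `xm_leaves`: `Leaf (cM N f) x` holds if and only if `x.1.2.2 = 0` and `x.1.1 = 0`; so the leaves are the `(0, j, 0)` with
`j < N ^ 2` (a bijection with `Fin (N ^ 2)`).
-/

set_option autoImplicit false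

namespace Pool.Agent.Helper20.FS

open Pool.Agent.Helper29.Prefix

theorem xm_finite (N : ℕ) : Finite (XM N) := by
  have hlv : ∀ i, 1 ≤ lv N i → i ≤ N ^ 2 := by
    intro i hi
    unfold lv at hi
    have h1 : 2 ^ i ≤ N ^ 2 := by
      by_contra hcon
      rw [Nat.div_eq_of_lt (not_le.1 hcon)] at hi
      omega
    exact (Nat.lt_two_pow_self (n := i)).le.trans h1
  have hle : ∀ i, lv N i ≤ N ^ 2 := fun i => Nat.div_le_self _ _
  have hsub : {x : ℕ × ℕ × Fin 3 | InX N x} ⊆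
      (Set.Iic (N ^ 2)) ×ˢ ((Set.Iic (N ^ 2)) ×ˢ (Set.univ : Set (Fin 3))) := by
    rintro ⟨i, j, k⟩ h
    rw [Set.mem_prod, Set.mem_prod]
    refine ⟨?_, ?_, Set.mem_univ _⟩
    · show i ≤ N ^ 2
      rcases h with ⟨-, h⟩ | ⟨-, -, -, h⟩ | ⟨-, -, h⟩
      · have h' : j < lv N i := h
        exact hlv i (by omega)
      · have h' : 2 ≤ lv N i := h
        exact hlv i (by omega)
      · have h' : i = 0 := h
        rw [h']
        exact Nat.zero_le _
    · show j ≤ N ^ 2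
      rcases h with ⟨-, h⟩ | ⟨-, h, -⟩ | ⟨-, h, -⟩
      · have h' : j < lv N i := h
        have := hle i
        omega
      · have h' : j = 0 := h
        rw [h']
        exact Nat.zero_le _
      · have h' : j = 0 := h
        rw [h']
        exact Nat.zero_le _
  have hfin : {x : ℕ × ℕ × Fin 3 | InX N x}.Finite :=
    ((Set.finite_Iic _).prod ((Set.finite_Iic _).prod Set.finite_univ)).subset hsub
  exact hfin.to_subtype

private theorem leaf_iff36 {Γ : Type} (N : ℕ) (f : ℕ → ℕ → Γ) (x : XM N) :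
    Leaf (cM N f) x ↔ x.1.2.2 = 0 ∧ x.1.1 = 0 := by
  classical
  constructor
  · rintro ⟨γ, d, l, h⟩
    exact ⟨h.1, h.2.1⟩
  · rintro ⟨h1, h2⟩
    exact ⟨_, decide (x.1.2.1 / N = x.1.2.1 % N), decide (x.1.2.1 % N + 1 = N), h1, h2, rfl,
      decide_eq_true_iff, decide_eq_true_iff⟩

private theorem leaf_lt36 {Γ : Type} (N : ℕ) (f : ℕ → ℕ → Γ) (x : XM N) (h : Leaf (cM N f) x) :
    x.1.2.1 < N ^ 2 := by
  obtain ⟨h1, h2⟩ := (leaf_iff36 N f x).1 h
  rcases x.2 with ⟨-, h3⟩ | ⟨h3, -⟩ | ⟨h3, -⟩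
  · rwa [h2, lv_zero] at h3
  · rw [h1] at h3
    exact absurd h3 (by decide)
  · rw [h1] at h3
    exact absurd h3 (by decide)

theorem xm_leaves {Γ : Type} (N : ℕ) (hN : 2 ≤ N) (f : ℕ → ℕ → Γ) :
    Nat.card {x : XM N // Leaf (cM N f) x} = N ^ 2 := by
  have hin : ∀ j : Fin (N ^ 2), InX N (0, j.1, 0) := fun j =>
    Or.inl ⟨rfl, by rw [lv_zero]; exact j.2⟩
  let e : {x : XM N // Leaf (cM N f) x} ≃ Fin (N ^ 2) :=
    { toFun := fun x => ⟨x.1.1.2.1, leaf_lt36 N f x.1 x.2⟩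
      invFun := fun j => ⟨⟨(0, j.1, 0), hin j⟩, (leaf_iff36 N f _).2 ⟨rfl, rfl⟩⟩
      left_inv := by
        rintro ⟨⟨⟨i, j, k⟩, hx⟩, hl⟩
        obtain ⟨h1, h2⟩ := (leaf_iff36 N f _).1 hl
        have h1' : k = 0 := h1
        have h2' : i = 0 := h2
        subst h1' h2'
        rfl
      right_inv := fun j => rfl }
  rw [Nat.card_congr e, Nat.card_fin]

end Pool.Agent.Helper20.FS
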