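import Pool.Agent.Helper20.FS.TreeDec
import Pool.Agent.Helper20.FS.TreeDef
import Pool.Agent.Helper20.FS.TreeModA
import Pool.Agent.Helper20.FS.TreeModB
import Pool.Agent.Helper20.FS.TreeModC

/-!
# Coding of square tilings by structures with six partial injections and colours
-/

set_option autoImplicit false

namespace Pool.Agent.Helper20.FS

open Pool.Agent.Helper29.Prefix Pool.Agent.Helper20.OP

/-- partial injections -/
def PInj {V : Type} (r : V → V → Prop) : Prop :=
  (∀ x y y', r x y → r x y' → y = y') ∧ ∀ x x' y, r x y → r x' y → x = x'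

/-- the six relations of a tree code -/
def sixRel {X : Type} (S U Q : X → X → Prop) (P : Fin 3 → X → X → Prop) (j : Fin 6) :
    X → X → Prop :=
  (![S, U, P 0, P 1, P 2, Q] : Fin 6 → X → X → Prop) j

theorem fcoding {Γ : Type} [Finite Γ] (W : Wang Γ) :
    ∃ (q : ℕ) (P : ∀ V : Type, Str (6 + q) V → Prop), Def0 (6 + q) P ∧
      (∀ (V : Type) (_ : Finite V) (R : Str (6 + q) V), P V R →
        ∃ N, 2 ≤ N ∧ Nat.card V = 2 * N ^ 2 ∧ Tiles W N) ∧
      (∀ N, 2 ≤ N → Tiles W N → ∃ (V : Type) (_ : Finite V) (R : Str (6 + q) V) (c : V → Fin q),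
        Nat.card V = 2 * N ^ 2 ∧ P V R ∧ (∀ j : Fin 6, PInj (R (Fin.castAdd q j))) ∧
        ∀ (i : Fin q) (x y : V), R (Fin.natAdd 6 i) x y ↔ (x = y ∧ c x = i)) := by
  classical
  let q := Nat.card (Col Γ)
  let e : Col Γ ≃ Fin q := Finite.equivFin (Col Γ)
  refine ⟨q, fun V R => TreeCode W (fun x κ => R (Fin.natAdd 6 (e κ)) x x) (R (Fin.castAdd q 0))
    (R (Fin.castAdd q 1)) (R (Fin.castAdd q 5)) ![R (Fin.castAdd q 2), R (Fin.castAdd q 3),
      R (Fin.castAdd q 4)], ?_, ?_, ?_⟩
  · have h1 := def_treeCode (b := 6 + q) W (c := fun V R x κ => R (Fin.natAdd 6 (e κ)) x x)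
      (S := fun V R => R (Fin.castAdd q 0)) (U := fun V R => R (Fin.castAdd q 1))
      (Q := fun V R => R (Fin.castAdd q 5))
      (P := fun i V R => (![R (Fin.castAdd q 2), R (Fin.castAdd q 3), R (Fin.castAdd q 4)] :
        Fin 3 → V → V → Prop) i)
      (fun κ => Def.rel _ 0 0) (Def.rel _ 0 1) (Def.rel _ 0 1) (Def.rel _ 0 1)
      (fun i => by
        fin_cases i
        · exact Def.rel (Fin.castAdd q 2) 0 1
        · exact Def.rel (Fin.castAdd q 3) 0 1
        · exact Def.rel (Fin.castAdd q 4) 0 1)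
    exact h1
  · intro V _ R h
    exact TreeCode.decode h
  · rintro N hN ⟨f, tR, tU, tl, tr, tb, tt, tc⟩
    have hb := treeBase_model N hN f
    have hg := gridLoc_model W N hN f tR tU tl tr tb tt tc
    have : Finite (XM N) := xm_finite N
    choose col hcol using hb.tot
    let R : Str (6 + q) (XM N) := fun r => Fin.addCases
      (fun j => sixRel (SM N) (UM N) (QM N) (PM N) j) (fun i x y => x = y ∧ e (col x) = i) r
    have hR1 : ∀ j : Fin 6, R (Fin.castAdd q j) = sixRel (SM N) (UM N) (QM N) (PM N) j := by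
      intro j
      simp only [R, Fin.addCases_left]
    have hR2 : ∀ i : Fin q, R (Fin.natAdd 6 i) = fun x y => x = y ∧ e (col x) = i := by
      intro i
      simp only [R, Fin.addCases_right]
    have hc : (fun (x : XM N) κ => R (Fin.natAdd 6 (e κ)) x x) = cM N f := by
      funext x κ
      rw [hR2]
      refine propext ⟨fun h => ?_, fun h => ?_⟩
      · have h2 : col x = κ := e.injective h.2
        rw [← h2]
        exact hcol x
      · exact ⟨rfl, congrArg e (hb.dis x _ _ (hcol x) h)⟩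
    have hP : (![R (Fin.castAdd q 2), R (Fin.castAdd q 3), R (Fin.castAdd q 4)] :
        Fin 3 → XM N → XM N → Prop) = PM N := by
      funext i
      fin_cases i
      · exact hR1 2
      · exact hR1 3
      · exact hR1 4
    refine ⟨XM N, this, R, fun x => e (col x), ?_, ?_, ?_, ?_⟩
    · rw [hb.card, xm_leaves N hN f]
    · show TreeCode W _ _ _ _ _
      rw [hc, hP, hR1, hR1, hR1]
      exact ⟨hb, hg⟩
    · intro j
      rw [hR1]
      fin_cases j
      · exact ⟨hb.s_fun, hb.s_inj⟩
      · exact ⟨hb.u_fun, hb.u_inj⟩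
      · exact ⟨fun x y y' => hb.p_fun 0 x y y', fun x x' y h h' => (hb.p_inj 0 x 0 x' y h h').2⟩
      · exact ⟨fun x y y' => hb.p_fun 1 x y y', fun x x' y h h' => (hb.p_inj 1 x 1 x' y h h').2⟩
      · exact ⟨fun x y y' => hb.p_fun 2 x y y', fun x x' y h h' => (hb.p_inj 2 x 2 x' y h h').2⟩
      · exact ⟨hb.q_fun, hb.q_inj⟩
    · intro i x y
      rw [hR2]

end Pool.Agent.Helper20.FS
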