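import Pool.Agent.Helper20.FS.Walk

/-!
# Block FS-K3: connections and unmatched legs in the model

`L_iff`: by `pos_iff`, `st_iff`: the element number `l - 1 ≥ 1` is a first element `el b' 0` if and only if `l = n b + n b'` for the matched leg `b'`
(for `l - 1 < n b` it is `el b (l - 1)`, not a first element by `inj`).
`D_iff`: by `walk_iff` `u`, `v` are the elements number `l - 2`, `l - 1`.  If `v = el b (l - 1)` with `l - 1 < n b`: it is no first element; all its
neighbours are equal to `u = el b (l - 2)` if and only if `l = n b` and `b` is unmatched (otherwise `el b l` or the last element of the matched leg is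
another neighbour).  If `v = el b' t` with `t = n b + n b' - l`: for `t = 0` it is a first element; for `t > 0` the neighbour `el b' (t - 1)` is not `u`
(`u` is `el b' (t + 1)` or `el b (n b - 1)`).
-/

set_option autoImplicit false

namespace Pool.Agent.Helper20.FS

variable {V T : Type} {s : SkRel V} {g : Prop} {n : T × Fin 3 → ℕ}
  {M : T × Fin 3 → T × Fin 3 → Prop} {el : T × Fin 3 → ℕ → V} {jn : T → V}

theorem LegModel.L_iff (h : LegModel s g n M el jn) (hM : Mat M) (hn : ∀ b, 2 ≤ n b)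
    {l : ℕ} (hl : 2 ≤ l) (b : T × Fin 3) (v : V) :
    s.L l (el b 0) v ↔ ∃ b', M b b' ∧ l = n b + n b' ∧ v = el b' 0 := by
  unfold SkRel.L
  rw [h.pos_iff hM hn, h.st_iff v]
  constructor
  · rintro ⟨-, ⟨b₂, h2⟩, h3⟩
    have hn2 := hn b₂
    rcases h3 with ⟨h4, h5⟩ | ⟨b', h4, h5, h6, h7⟩
    · exfalso
      have h8 := h.inj b (l - 1) b₂ 0 h4 (by omega) (h5.symm.trans h2)
      omega
    · have h8 := h.inj b' (n b + n b' - 1 - (l - 1)) b₂ 0 (by omega) (by omega) (h7.symm.trans h2)
      refine ⟨b', h4, by omega, ?_⟩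
      rw [h7, h8.2]
  · rintro ⟨b', h1, h2, h3⟩
    refine ⟨(h.st_iff _).2 ⟨b, rfl⟩, ⟨b', h3⟩, Or.inr ⟨b', h1, ?_, ?_, ?_⟩⟩
    · have := hn b'
      omega
    · omega
    · rw [h3]
      congr 1
      omega

theorem LegModel.D_iff (h : LegModel s g n M el jn) (hM : Mat M) (hn : ∀ b, 2 ≤ n b)
    {l : ℕ} (hl : 2 ≤ l) (x : V) :
    s.D l x ↔ ∃ b, x = el b 0 ∧ (∀ b', ¬ M b b') ∧ l = n b := by
  unfold SkRel.D
  have hl1 : l - 2 + 1 = l - 1 := by omega
  constructor
  · rintro ⟨hx, u, v, hw, hv, hA⟩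
    obtain ⟨b, rfl⟩ := (h.st_iff x).1 hx
    rw [h.walk_iff hM hn, hl1] at hw
    obtain ⟨hu, hv'⟩ := hw
    refine ⟨b, rfl, ?_⟩
    rcases hv' with ⟨h1, h2⟩ | ⟨b', h1, h2, h3, h4⟩
    · -- `v = el b (l - 1)`
      have hu' : u = el b (l - 2) := by
        rcases hu with ⟨_, h3⟩ | ⟨b', _, h3, _, _⟩
        · exact h3
        · omega
      have hln : l = n b := by
        by_contra hne
        have h3 : l < n b := by omega
        have h4 := hA (el b l) (by
          rw [h2, h.A_iff b (l - 1) _ h1]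
          exact ⟨b, l, h3, rfl, Or.inl ⟨rfl, Or.inl (by omega)⟩⟩)
        have h5 := h.inj b l b (l - 2) h3 (by omega) (h4.trans hu')
        omega
      refine ⟨fun b' hb' => ?_, hln⟩
      have hnb' := hn b'
      have h4 := hA (el b' (n b' - 1)) (by
        rw [h2, h.A_iff b (l - 1) _ h1]
        exact ⟨b', n b' - 1, by omega, rfl, Or.inr ⟨hb', by omega, by omega⟩⟩)
      have h5 := h.inj b' (n b' - 1) b (l - 2) (by omega) (by omega) (h4.trans hu')
      rw [h5.1] at hb'
      exact hM.irr b hb'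
    · exfalso
      obtain ⟨t, ht⟩ : ∃ t, t = n b + n b' - 1 - (l - 1) := ⟨_, rfl⟩
      rw [← ht] at h4
      rcases Nat.eq_zero_or_pos t with h0 | h0
      · rw [h0] at h4
        exact hv ((h.st_iff v).2 ⟨b', h4⟩)
      · have h5 := hA (el b' (t - 1)) (by
          rw [h4, h.A_iff b' t _ (by omega)]
          exact ⟨b', t - 1, by omega, rfl, Or.inl ⟨rfl, Or.inr (by omega)⟩⟩)
        rcases hu with ⟨h6, h7⟩ | ⟨b₂, h6, h7, h8, h9⟩
        · have h8 := h.inj b' (t - 1) b (l - 2) (by omega) h6 (h5.trans h7)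
          rw [h8.1] at h1
          exact hM.irr b h1
        · have h10 := hM.func b b' b₂ h1 h6
          subst h10
          have h11 := h.inj b' (t - 1) b' (n b + n b' - 1 - (l - 2)) (by omega) (by omega) (h5.trans h9)
          omega
  · rintro ⟨b, rfl, h1, h2⟩
    refine ⟨(h.st_iff _).2 ⟨b, rfl⟩, el b (l - 2), el b (l - 1), ?_, ?_, ?_⟩
    · rw [h.walk_iff hM hn, hl1]
      exact ⟨Or.inl ⟨by omega, rfl⟩, Or.inl ⟨by omega, rfl⟩⟩
    · intro h3
      obtain ⟨b', h4⟩ := (h.st_iff _).1 h3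
      have := hn b'
      have h5 := h.inj b (l - 1) b' 0 (by omega) (by omega) h4
      omega
    · intro w hw
      rw [h.A_iff b (l - 1) _ (by omega)] at hw
      obtain ⟨b', i', h3, h4, h5⟩ := hw
      rcases h5 with ⟨h6, h7⟩ | ⟨h6, -, -⟩
      · subst h6
        rw [h4]
        congr 1
        omega
      · exact absurd h6 (h1 b')

end Pool.Agent.Helper20.FS
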