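import Pool.Agent.Helper20.FS.LemA

/-!
# Block FS-T6: sweeping along a path

`E`: finitely many extra vertices, kept active all the time; `q 0, ..., q (n - 1)`: the vertices of a path (`Q` is the set of
these); `Y`: the other vertices, with a rank `h`: the neighbours in `Y` of `q i` have rank between `i + 1` and `i + 1 + M`.

Proof.  For `i ≤ n` put `Q i := image q (range i)`, `Y i := Y.filter (h · ≤ i)`, `W i := image q (Ico (i - M) i)`
(natural subtraction; at most `M` elements).  Claim: `Sw G K (D ∪ (E ∪ Q i ∪ Y i)) (A ∪ E ∪ W i)` for all `i ≤ n`.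

Sweeping one rank (used below): if `Sw G K D' A'` with `D' ⊇ D ∪ E ∪ Q i ∪ Y (i - 1)` disjoint from `Y.filter (h · = i)`, `D' ⊆ ...`, and
`A'.card + M ≤ K`, then `Sw G K (D' ∪ Y.filter (h · = i)) A'`: apply `sw_comp` with `C := Y.filter (h · = i)`; a component `X` of it
satisfies the closure property in `Y` too (adjacent elements of `Y` have the same rank), so `hroot` gives a root `r` with all paths from `r` in `X`
having at most `M` vertices, and `lemmaA` (with `d = M`) applies: the neighbours of `x ∈ X` are in `D ∪ E ∪ Q ∪ Y` by `hcl`; those in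
`Y` are in `X`; those of the form `q j` have `j < h x = i`, so are in `Q i`.

`i = 0`: `Sw.addSet` for `E`, then sweep the rank `0`.  Step from `i` to `i + 1 ≤ n`: add `q i` (active: at most
`A.card + E.card + M + 1` vertices), sweep the rank `i + 1` (this needs `A.card + E.card + (M + 1) + M ≤ K`), then shrink
(`Sw.shrink`) the active set to `A ∪ E ∪ W (i + 1)`: only the vertex `q (i - M)` is dropped, if `M ≤ i`.  Its neighbours are in
`D ∪ E ∪ Q ∪ Y`; a neighbour `q j` has `j ≤ i - M + M = i`; a neighbour `x ∈ Y` has `h x ≤ i - M + 1 + M = i + 1`.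
At the end (`i = n`): `Q n = Q` and `Y n = Y` (as `h x ≤ n`); shrink the active set to `A`: all neighbours of the elements of `E ∪ Q` are in
`D ∪ (E ∪ Q ∪ Y)` by `hcl`.
-/

set_option autoImplicit false

namespace Pool.Agent.Helper20.FS

variable {V : Type} [DecidableEq V] {G : V → V → Prop}

/-- sweeping the vertices of one rank -/
private theorem sw_rank (hG : ∀ x y, G x y → G y x) {K M n : ℕ} {D E Y : Finset V} {q : ℕ → V}
    {h : V → ℕ}
    (hcl : ∀ x, (x ∈ E ∨ x ∈ Y ∨ ∃ i, i < n ∧ x = q i) → ∀ y, G x y →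
      (y ∈ D ∨ y ∈ E ∨ y ∈ Y ∨ ∃ i, i < n ∧ y = q i))
    (hrk : ∀ x ∈ Y, ∀ y ∈ Y, G x y → h x = h y)
    (hYq : ∀ x ∈ Y, ∀ i, i < n → G x (q i) → i < h x ∧ h x ≤ i + 1 + M)
    (hroot : ∀ (X : Finset V) (r₀ : V), r₀ ∈ X → X ⊆ Y → (∀ x ∈ X, Reach G X r₀ x) →
      (∀ x ∈ X, ∀ y ∈ Y, G x y → y ∈ X) →
      ∃ r ∈ X, ∀ m f, IsPath G X m f → f 0 = r → m ≤ M)
    (i : ℕ) {D' A' : Finset V} (hD : D ⊆ D') (hE : E ⊆ D') (hQ : ∀ j, j < n → j < i → q j ∈ D')
    (hdis : Disjoint (Y.filter fun x => h x = i) D') (hK : A'.card + M ≤ K)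
    (h0 : Sw G K D' A') : Sw G K (D' ∪ Y.filter fun x => h x = i) A' := by
  refine sw_comp hG hdis ?_ h0
  intro D'' X r hD'' hr hX hXD hconn hclX hSw
  have hXY : X ⊆ Y := fun x hx => (Finset.mem_filter.1 (hX hx)).1
  have hXh : ∀ x ∈ X, h x = i := fun x hx => (Finset.mem_filter.1 (hX hx)).2
  have hclY : ∀ x ∈ X, ∀ y ∈ Y, G x y → y ∈ X := by
    intro x hx y hy hxy
    refine hclX x hx y (Finset.mem_filter.2 ⟨hy, ?_⟩) hxy
    rw [← hrk x (hXY hx) y hy hxy, hXh x hx]
  obtain ⟨r', hr', hpath⟩ := hroot X r hr hXY hconn hclY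
  refine lemmaA hG K M D'' A' X r' hr' hXD ?_ (Reach.root hG hconn hr') hpath hK hSw
  intro x hx y hxy
  rw [Finset.mem_union]
  rcases hcl x (Or.inr (Or.inl (hXY hx))) y hxy with h1 | h1 | h1 | ⟨j, hj, rfl⟩
  · exact Or.inl (hD'' (hD h1))
  · exact Or.inl (hD'' (hE h1))
  · exact Or.inr (hclY x hx y h1 hxy)
  · have h2 := (hYq x (hXY hx) j hj hxy).1
    rw [hXh x hx] at h2
    exact Or.inl (hD'' (hQ j hj h2))

theorem sw_layers (hG : ∀ x y, G x y → G y x) {K M n : ℕ} {D A E Y : Finset V} {q : ℕ → V}
    {h : V → ℕ}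
    (hq : ∀ i j, i < n → j < n → q i = q j → i = j)
    (hE : Disjoint E D) (hY : Disjoint Y D) (hEY : Disjoint E Y)
    (hqD : ∀ i, i < n → q i ∉ D ∧ q i ∉ E ∧ q i ∉ Y)
    (hcl : ∀ x, (x ∈ E ∨ x ∈ Y ∨ ∃ i, i < n ∧ x = q i) → ∀ y, G x y →
      (y ∈ D ∨ y ∈ E ∨ y ∈ Y ∨ ∃ i, i < n ∧ y = q i))
    (hrk : ∀ x ∈ Y, ∀ y ∈ Y, G x y → h x = h y)
    (hle : ∀ x ∈ Y, h x ≤ n)
    (hYq : ∀ x ∈ Y, ∀ i, i < n → G x (q i) → i < h x ∧ h x ≤ i + 1 + M)
    (hqq : ∀ i j, i < n → j < n → G (q i) (q j) → j ≤ i + M)
    (hroot : ∀ (X : Finset V) (r₀ : V), r₀ ∈ X → X ⊆ Y → (∀ x ∈ X, Reach G X r₀ x) →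
      (∀ x ∈ X, ∀ y ∈ Y, G x y → y ∈ X) →
      ∃ r ∈ X, ∀ m f, IsPath G X m f → f 0 = r → m ≤ M)
    (hK : A.card + E.card + (M + 1) + M ≤ K) (h0 : Sw G K D A) :
    Sw G K (D ∪ (E ∪ (Finset.range n).image q ∪ Y)) A := by
  have hW : ∀ i, ((Finset.Ico (i - M) i).image q).card ≤ M := by
    intro i
    refine Finset.card_image_le.trans ?_
    rw [Nat.card_Ico]
    omega
  have hAE : ∀ i, (A ∪ E ∪ (Finset.Ico (i - M) i).image q).card ≤ A.card + E.card + M := by
    intro i
    have h1 := Finset.card_union_le (A ∪ E) ((Finset.Ico (i - M) i).image q)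
    have h2 := Finset.card_union_le A E
    have h3 := hW i
    omega
  have hmain : ∀ i, i ≤ n →
      Sw G K (D ∪ (E ∪ (Finset.range i).image q ∪ Y.filter fun x => h x ≤ i))
        (A ∪ E ∪ (Finset.Ico (i - M) i).image q) := by
    intro i
    induction i with
    | zero =>
      intro _
      have h1 : Sw G K (D ∪ E) (A ∪ E) := h0.addSet hE (by omega)
      have h2 : Sw G K ((D ∪ E) ∪ Y.filter fun x => h x = 0) (A ∪ E) := by
        refine sw_rank hG hcl hrk hYq hroot 0 Finset.subset_union_left
          Finset.subset_union_right (fun j _ hj => absurd hj (by omega)) ?_ ?_ h1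
        · rw [Finset.disjoint_left]
          intro x hx hx'
          have hxY := (Finset.mem_filter.1 hx).1
          rcases Finset.mem_union.1 hx' with h3 | h3
          · exact Finset.disjoint_left.1 hY hxY h3
          · exact Finset.disjoint_left.1 hEY h3 hxY
        · have := Finset.card_union_le A E
          omega
      have e1 : D ∪ (E ∪ (Finset.range 0).image q ∪ Y.filter fun x => h x ≤ 0) =
          (D ∪ E) ∪ Y.filter fun x => h x = 0 := by
        ext x
        simp only [Finset.range_zero, Finset.image_empty, Finset.union_empty, Finset.mem_union,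
          Finset.mem_filter, Nat.le_zero]
        tauto
      have e2 : A ∪ E ∪ (Finset.Ico (0 - M) 0).image q = A ∪ E := by
        simp
      rw [e1, e2]
      exact h2
    | succ i ih =>
      intro hi
      have h1 := ih (by omega)
      have hqi := hqD i (by omega)
      have hnot : q i ∉ D ∪ (E ∪ (Finset.range i).image q ∪ Y.filter fun x => h x ≤ i) := by
        intro hmem
        rw [Finset.mem_union, Finset.mem_union, Finset.mem_union, Finset.mem_image,
          Finset.mem_filter] at hmem
        rcases hmem with h2 | (h2 | ⟨j, hj, hji⟩) | h2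
        · exact hqi.1 h2
        · exact hqi.2.1 h2
        · have hj' := Finset.mem_range.1 hj
          have := hq j i (by omega) (by omega) hji
          omega
        · exact hqi.2.2 h2.1
      have hc := hAE i
      have h2 := Sw.add _ _ (q i) hnot (by omega) h1
      have h3 : Sw G K ((insert (q i)
          (D ∪ (E ∪ (Finset.range i).image q ∪ Y.filter fun x => h x ≤ i))) ∪
            Y.filter fun x => h x = i + 1)
          (insert (q i) (A ∪ E ∪ (Finset.Ico (i - M) i).image q)) := by
        refine sw_rank hG hcl hrk hYq hroot (i + 1) ?_ ?_ ?_ ?_ ?_ h2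
        · intro x hx
          simp only [Finset.mem_insert, Finset.mem_union]
          exact Or.inr (Or.inl hx)
        · intro x hx
          simp only [Finset.mem_insert, Finset.mem_union]
          exact Or.inr (Or.inr (Or.inl (Or.inl hx)))
        · intro j hj hji
          rcases Nat.lt_succ_iff_lt_or_eq.1 hji with h4 | h4
          · simp only [Finset.mem_insert, Finset.mem_union]
            exact Or.inr (Or.inr (Or.inl (Or.inr
              (Finset.mem_image.2 ⟨j, Finset.mem_range.2 h4, rfl⟩))))
          · rw [h4]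
            exact Finset.mem_insert_self _ _
        · rw [Finset.disjoint_left]
          intro x hx hx'
          obtain ⟨hxY, hxh⟩ := Finset.mem_filter.1 hx
          rw [Finset.mem_insert, Finset.mem_union, Finset.mem_union, Finset.mem_union,
            Finset.mem_image, Finset.mem_filter] at hx'
          rcases hx' with h4 | h4 | (h4 | ⟨j, hj, hjx⟩) | h4
          · rw [h4] at hxY
            exact hqi.2.2 hxY
          · exact Finset.disjoint_left.1 hY hxY h4
          · exact Finset.disjoint_left.1 hEY h4 hxY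
          · have hj' := Finset.mem_range.1 hj
            rw [← hjx] at hxY
            exact (hqD j (by omega)).2.2 hxY
          · omega
        · have := Finset.card_insert_le (q i) (A ∪ E ∪ (Finset.Ico (i - M) i).image q)
          omega
      have e1 : D ∪ (E ∪ (Finset.range (i + 1)).image q ∪ Y.filter fun x => h x ≤ i + 1) =
          (insert (q i)
          (D ∪ (E ∪ (Finset.range i).image q ∪ Y.filter fun x => h x ≤ i))) ∪
            Y.filter fun x => h x = i + 1 := by
        ext x
        simp only [Finset.mem_union, Finset.mem_filter, Finset.mem_insert, Finset.range_add_one,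
          Finset.image_insert]
        constructor
        · rintro (h4 | (h4 | h4 | h4) | ⟨h4, h5⟩)
          · exact Or.inl (Or.inr (Or.inl h4))
          · exact Or.inl (Or.inr (Or.inr (Or.inl (Or.inl h4))))
          · exact Or.inl (Or.inl h4)
          · exact Or.inl (Or.inr (Or.inr (Or.inl (Or.inr h4))))
          · rcases Nat.lt_or_ge (h x) (i + 1) with h6 | h6
            · exact Or.inl (Or.inr (Or.inr (Or.inr ⟨h4, by omega⟩)))
            · exact Or.inr ⟨h4, by omega⟩
        · rintro ((h4 | h4 | (h4 | h4) | ⟨h4, h5⟩) | ⟨h4, h5⟩)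
          · exact Or.inr (Or.inl (Or.inr (Or.inl h4)))
          · exact Or.inl h4
          · exact Or.inr (Or.inl (Or.inl h4))
          · exact Or.inr (Or.inl (Or.inr (Or.inr h4)))
          · exact Or.inr (Or.inr ⟨h4, by omega⟩)
          · exact Or.inr (Or.inr ⟨h4, by omega⟩)
      rw [← e1] at h3
      refine h3.shrink ?_ ?_
      · intro x hx
        rw [Finset.mem_union] at hx
        rcases hx with h4 | h4
        · exact Finset.mem_insert_of_mem (Finset.mem_union_left _ h4)
        · obtain ⟨j, hj, rfl⟩ := Finset.mem_image.1 h4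
          rw [Finset.mem_Ico] at hj
          rcases Nat.lt_succ_iff_lt_or_eq.1 hj.2 with h5 | h5
          · exact Finset.mem_insert_of_mem (Finset.mem_union_right _
              (Finset.mem_image.2 ⟨j, Finset.mem_Ico.2 ⟨by omega, h5⟩, rfl⟩))
          · rw [h5]
            exact Finset.mem_insert_self _ _
      · intro x hx hx' w hxw
        have hex : ∃ j, j ≤ i ∧ j + M ≤ i ∧ x = q j := by
          rw [Finset.mem_insert, Finset.mem_union] at hx
          rcases hx with h4 | h4 | h4
          · refine ⟨i, le_rfl, ?_, h4⟩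
            by_contra hcon
            apply hx'
            rw [h4]
            exact Finset.mem_union_right _
              (Finset.mem_image.2 ⟨i, Finset.mem_Ico.2 ⟨by omega, by omega⟩, rfl⟩)
          · exact absurd (Finset.mem_union_left _ h4) hx'
          · obtain ⟨j, hj, rfl⟩ := Finset.mem_image.1 h4
            rw [Finset.mem_Ico] at hj
            refine ⟨j, by omega, ?_, rfl⟩
            by_contra hcon
            apply hx'
            exact Finset.mem_union_right _
              (Finset.mem_image.2 ⟨j, Finset.mem_Ico.2 ⟨by omega, by omega⟩, rfl⟩)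
        obtain ⟨j, hj1, hj2, rfl⟩ := hex
        rw [Finset.mem_union, Finset.mem_union, Finset.mem_union, Finset.mem_image,
          Finset.mem_filter]
        rcases hcl (q j) (Or.inr (Or.inr ⟨j, by omega, rfl⟩)) w hxw with h4 | h4 | h4 | ⟨k, hk, rfl⟩
        · exact Or.inl h4
        · exact Or.inr (Or.inl (Or.inl h4))
        · have h5 := (hYq w h4 j (by omega) (hG _ _ hxw)).2
          exact Or.inr (Or.inr ⟨h4, by omega⟩)
        · have h5 := hqq j k (by omega) hk hxw
          exact Or.inr (Or.inl (Or.inr ⟨k, Finset.mem_range.2 (by omega), rfl⟩))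
  have hfin := hmain n le_rfl
  have e3 : (Y.filter fun x => h x ≤ n) = Y := Finset.filter_true_of_mem hle
  rw [e3] at hfin
  refine hfin.shrink ?_ ?_
  · intro x hx
    exact Finset.mem_union_left _ (Finset.mem_union_left _ hx)
  · intro x hx hx' w hxw
    have hex : x ∈ E ∨ x ∈ Y ∨ ∃ i, i < n ∧ x = q i := by
      rw [Finset.mem_union, Finset.mem_union] at hx
      rcases hx with (h4 | h4) | h4
      · exact absurd h4 hx'
      · exact Or.inl h4
      · obtain ⟨j, hj, rfl⟩ := Finset.mem_image.1 h4
        rw [Finset.mem_Ico] at hj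
        exact Or.inr (Or.inr ⟨j, hj.2, rfl⟩)
    rw [Finset.mem_union, Finset.mem_union, Finset.mem_union, Finset.mem_image]
    rcases hcl x hex w hxw with h4 | h4 | h4 | ⟨k, hk, rfl⟩
    · exact Or.inl h4
    · exact Or.inr (Or.inl (Or.inl h4))
    · exact Or.inr (Or.inr h4)
    · exact Or.inr (Or.inl (Or.inr ⟨k, Finset.mem_range.2 hk, rfl⟩))

end Pool.Agent.Helper20.FS
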