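import Pool.Agent.Helper20.FS.SwComp

/-!
# Block FS-T5: sweeping a connected set without long paths

Proof.  Induction on `d` for all `D`, `A`, `C`, `r`.  The one-vertex path `r` shows `1 ≤ d`.  Case `d + 1`: add `r` (`Sw.add`; `r ∉ D`
as `C` and `D` are disjoint; `A ⊆ D` by `Sw.sub`, so `r ∉ A`).  Apply `sw_comp` with `C.erase r`, `D₀ := insert r D` and the active set
`insert r A`.  Let `X` be as there, with root `r₀`.  There is `r' ∈ X` with `G r r'`: otherwise no edge leads from `C \ X` to `X` (such
an edge from `y ≠ r` would give `y ∈ X` by the closure property and symmetry), so `r₀` is not reachable from `r` in `C` (the set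
`C \ X` is closed under the steps).  By `Reach.root` all of `X` is reachable from `r'` in `X`.  The neighbours of `x ∈ X` are in `D ∪ X`
for every `D ⊇ insert r D_old`: they are in `D_old ∪ C`; a neighbour in `C` is `r` or in `C.erase r`, so in `X`.  A path `f` with `n`
vertices in `X` from `r'` gives the path `r, f 0, ..., f (n - 1)` in `C`, so `n + 1 ≤ d + 1`.  So the induction hypothesis
applies: `(insert r A).card + d ≤ A.card + (d + 1) ≤ K`.  We get `Sw G K (insert r D ∪ C.erase r) (insert r A)`; the first set is `D ∪ C`.
Finally drop `r`: its neighbours are in `D ∪ C`; `(insert r A).erase r = A`.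
-/

set_option autoImplicit false

namespace Pool.Agent.Helper20.FS

variable {V : Type} [DecidableEq V] {G : V → V → Prop}

theorem lemmaA (hG : ∀ x y, G x y → G y x) (K d : ℕ) : ∀ (D A C : Finset V) (r : V), r ∈ C →
    Disjoint C D → (∀ x ∈ C, ∀ y, G x y → y ∈ D ∪ C) → (∀ x ∈ C, Reach G C r x) →
    (∀ n f, IsPath G C n f → f 0 = r → n ≤ d) → A.card + d ≤ K → Sw G K D A →
    Sw G K (D ∪ C) A := by
  induction d with
  | zero =>
    intro D A C r hr _ _ _ hpath _ _
    have := hpath 1 (fun _ => r) ⟨fun i _ => hr, fun i hi => by omega, fun i j hi hj _ => by omega⟩
      rfl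
    omega
  | succ d ih =>
    intro D A C r hr hCD hN hc hpath hK hSw
    have hrD : r ∉ D := Finset.disjoint_left.1 hCD hr
    have hrA : r ∉ A := fun h => hrD (hSw.sub h)
    have h1 : Sw G K (insert r D) (insert r A) := Sw.add D A r hrD (by omega) hSw
    have hdis : Disjoint (C.erase r) (insert r D) := by
      rw [Finset.disjoint_left]
      intro x hx hx'
      rcases Finset.mem_insert.1 hx' with h | h
      · exact (Finset.mem_erase.1 hx).1 h
      · exact Finset.disjoint_left.1 hCD (Finset.mem_erase.1 hx).2 h
    have h2 : Sw G K (insert r D ∪ C.erase r) (insert r A) := by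
      refine sw_comp hG hdis ?_ h1
      intro D' X r₀ hD' hr₀ hX hXD' hreach hcl hSw'
      -- a neighbour of the root
      obtain ⟨r', hr', hGr⟩ : ∃ r' ∈ X, G r r' := by
        by_contra hno
        push Not at hno
        have key : ∀ y, Reach G C r y → y ∉ X := by
          intro y hy
          induction hy with
          | refl =>
            intro h
            exact (Finset.mem_erase.1 (hX h)).1 rfl
          | @tail y z _ hz ihy =>
            intro h
            by_cases hyr : y = r
            · exact hno z h (hyr ▸ hz.1)
            · exact ihy (hcl z h y (Finset.mem_erase.2 ⟨hyr, hz.2.1⟩) (hG _ _ hz.1))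
        exact key r₀ (hc r₀ (Finset.mem_erase.1 (hX hr₀)).2) hr₀
      refine ih D' (insert r A) X r' hr' hXD' ?_ (Reach.root hG hreach hr') ?_ ?_ hSw'
      · intro x hx y hxy
        have hxC : x ∈ C := (Finset.mem_erase.1 (hX hx)).2
        rcases Finset.mem_union.1 (hN x hxC y hxy) with h | h
        · exact Finset.mem_union_left _ (hD' (Finset.mem_insert_of_mem h))
        · by_cases hyr : y = r
          · exact Finset.mem_union_left _ (hD' (hyr ▸ Finset.mem_insert_self r D))
          · exact Finset.mem_union_right _ (hcl x hx y (Finset.mem_erase.2 ⟨hyr, h⟩) hxy)
      · intro n f hf hf0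
        have hfX : ∀ i, i < n → f i ∈ C.erase r := fun i hi => hX (hf.1 i hi)
        have hle := hpath (n + 1) (fun i => Nat.casesOn i r f) ⟨?_, ?_, ?_⟩ rfl
        · omega
        · intro i hi
          cases i with
          | zero => exact hr
          | succ i => exact (Finset.mem_erase.1 (hfX i (by omega))).2
        · intro i hi
          cases i with
          | zero =>
            show G r (f 0)
            rw [hf0]
            exact hGr
          | succ i => exact hf.2.1 i (by omega)
        · intro i j hi hj he
          cases i with
          | zero =>
            cases j with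
            | zero => rfl
            | succ j =>
              have he' : r = f j := he
              exact absurd he'.symm (Finset.mem_erase.1 (hfX j (by omega))).1
          | succ i =>
            cases j with
            | zero =>
              have he' : f i = r := he
              exact absurd he' (Finset.mem_erase.1 (hfX i (by omega))).1
            | succ j =>
              have he' : f i = f j := he
              rw [hf.2.2 i j (by omega) (by omega) he']
      · have := Finset.card_insert_le r A
        omega
    have hset : insert r D ∪ C.erase r = D ∪ C := by
      ext x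
      simp only [Finset.mem_union, Finset.mem_insert, Finset.mem_erase]
      by_cases hx : x = r
      · subst hx
        simp [hr]
      · simp [hx]
    rw [hset] at h2
    have h3 := Sw.drop _ _ r (fun w hw => hN r hr w hw) h2
    rwa [Finset.erase_insert hrA] at h3

end Pool.Agent.Helper20.FS
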