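import Pool.Agent.Helper20.FS.OffLen
import Pool.Agent.Helper20.FS.Ear
import Pool.Agent.Helper20.FS.Layers

/-!
# Block FS-T9: sweeping a connected set without tripods

Proof.  Let `p` be a longest path in `C`, with `n ≥ 1` vertices (`exists_longest`).  If `n ≤ 2 * M`, use `lemmaA` with `d := 2 * M`.
Otherwise put `P := image p (range n)`, `E := image p ((range n).filter (fun i => i < M ∨ n ≤ i + M))` (`2 * M` elements at most),
`q i := p (M + i)`, `n' := n - 2 * M`, `Y := C \ P` and (classically)
`h x := ((range n').filter (fun i => ∃ y, Reach G Y x y ∧ G y (q i))).sup (fun i => i + 1)`, and apply `sw_layers` (with `n'`).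
* `hcl`: `E`, `Y` and the `q i` together are `C`; use `hN`.
* `hrk`: adjacent elements of `Y` reach the same vertices.
* `hYq`: if `G x (q i)`, `x ∈ Y` then `i + 1 ≤ h x`; and if `h x = j + 1` with `Reach G Y x y`, `G y (q j)` then `j ≤ i + M` by `ear_le` (with
  `M + i`, `M + j`; `M + j + M ≤ n` as `j < n'`).
* `hqq`: `chord_le`.
* `hroot`: let `X` be as there, with `r₀ ∈ X`.  Some `a ∈ X` is adjacent to a vertex `p i`, `i < n`: `p 0 ∈ C` is reachable from `r₀` in `C`
  (`Reach.root`, `hc`), `p 0 ∉ X`; take the first step of this which leaves `X`, from `a ∈ X` to `b ∈ C`, `b ∉ X`; by the closure property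
  `b ∉ Y`, so `b ∈ P`.  The root `a` has the required property by `off_len` (`X ⊆ Y = C \ P`).
* The union is `D ∪ C`.
-/

set_option autoImplicit false

namespace Pool.Agent.Helper20.FS

variable {V : Type} [DecidableEq V] {G : V → V → Prop}

theorem lemmaB (hG : ∀ x y, G x y → G y x) {M K : ℕ} {D A C : Finset V} {r₀ : V} (hM : 1 ≤ M)
    (hr : r₀ ∈ C) (hC : Disjoint C D) (hN : ∀ x ∈ C, ∀ y, G x y → y ∈ D ∪ C)
    (hc : ∀ x ∈ C, Reach G C r₀ x) (hT : ¬ Tri G C M) (hK : A.card + (4 * M + 1) ≤ K)
    (h0 : Sw G K D A) : Sw G K (D ∪ C) A := by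
  classical
  obtain ⟨n, p, hn1, hp, hmax⟩ := exists_longest G C ⟨r₀, hr⟩
  rcases le_or_gt n (2 * M) with hn | hn
  · exact lemmaA hG K (2 * M) D A C r₀ hr hC hN hc (fun m f hf _ => (hmax m f hf).trans hn)
      (by omega) h0
  obtain ⟨hpC, hpG, hpi⟩ := hp
  have hp : IsPath G C n p := ⟨hpC, hpG, hpi⟩
  set P : Finset V := (Finset.range n).image p with hP
  set E : Finset V := ((Finset.range n).filter (fun i => i < M ∨ n ≤ i + M)).image p with hE
  set Y : Finset V := C \ P with hY
  set n' : ℕ := n - 2 * M with hn'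
  have hPC : P ⊆ C := by
    intro x hx
    obtain ⟨i, hi, rfl⟩ := Finset.mem_image.1 hx
    exact hpC i (Finset.mem_range.1 hi)
  have hEP : E ⊆ P := Finset.image_subset_image (Finset.filter_subset _ _)
  have hYC : Y ⊆ C := Finset.sdiff_subset
  have hqP : ∀ i, i < n' → p (M + i) ∈ P := fun i hi =>
    Finset.mem_image.2 ⟨M + i, Finset.mem_range.2 (by omega), rfl⟩
  -- the decomposition of `C`
  have hdec : ∀ y ∈ C, y ∈ E ∨ y ∈ Y ∨ ∃ i, i < n' ∧ y = p (M + i) := by
    intro y hy
    by_cases hyP : y ∈ P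
    · obtain ⟨j, hj, rfl⟩ := Finset.mem_image.1 hyP
      rw [Finset.mem_range] at hj
      by_cases hjE : j < M ∨ n ≤ j + M
      · exact Or.inl (Finset.mem_image.2 ⟨j, Finset.mem_filter.2 ⟨Finset.mem_range.2 hj, hjE⟩, rfl⟩)
      · refine Or.inr (Or.inr ⟨j - M, by omega, ?_⟩)
        congr 1
        omega
    · exact Or.inr (Or.inl (Finset.mem_sdiff.2 ⟨hy, hyP⟩))
  have hdec' : ∀ x, (x ∈ E ∨ x ∈ Y ∨ ∃ i, i < n' ∧ x = p (M + i)) → x ∈ C := by
    rintro x (hx | hx | ⟨i, hi, rfl⟩)
    · exact hPC (hEP hx)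
    · exact hYC hx
    · exact hPC (hqP i hi)
  set h : V → ℕ := fun x => ((Finset.range n').filter
    (fun i => ∃ y, Reach G Y x y ∧ G y (p (M + i)))).sup (fun i => i + 1) with hh
  have hEcard : E.card ≤ 2 * M := by
    refine Finset.card_image_le.trans ?_
    have h1 : (Finset.range n).filter (fun i => i < M ∨ n ≤ i + M) ⊆
        Finset.range M ∪ Finset.Ico (n - M) n := by
      intro i hi
      rw [Finset.mem_filter, Finset.mem_range] at hi
      rw [Finset.mem_union, Finset.mem_range, Finset.mem_Ico]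
      omega
    refine (Finset.card_le_card h1).trans ((Finset.card_union_le _ _).trans ?_)
    rw [Finset.card_range, Nat.card_Ico]
    omega
  have key := sw_layers hG (K := K) (M := M) (n := n') (D := D) (A := A) (E := E) (Y := Y)
    (q := fun i => p (M + i)) (h := h) ?_ ?_ ?_ ?_ ?_ ?_ ?_ ?_ ?_ ?_ ?_ ?_ h0
  · have hu : E ∪ (Finset.range n').image (fun i => p (M + i)) ∪ Y = C := by
      ext x
      constructor
      · intro hx
        rw [Finset.mem_union, Finset.mem_union] at hx
        apply hdec'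
        rcases hx with (hx | hx) | hx
        · exact Or.inl hx
        · obtain ⟨i, hi, hx⟩ := Finset.mem_image.1 hx
          exact Or.inr (Or.inr ⟨i, Finset.mem_range.1 hi, hx.symm⟩)
        · exact Or.inr (Or.inl hx)
      · intro hx
        rw [Finset.mem_union, Finset.mem_union]
        rcases hdec x hx with hx | hx | ⟨i, hi, hx⟩
        · exact Or.inl (Or.inl hx)
        · exact Or.inr hx
        · exact Or.inl (Or.inr (Finset.mem_image.2 ⟨i, Finset.mem_range.2 hi, hx.symm⟩))
    rw [hu] at key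
    exact key
  · intro i j hi hj hij
    have := hpi (M + i) (M + j) (by omega) (by omega) hij
    omega
  · exact Finset.disjoint_of_subset_left (hEP.trans hPC) hC
  · exact Finset.disjoint_of_subset_left hYC hC
  · exact Finset.disjoint_of_subset_left hEP Finset.disjoint_sdiff
  · intro i hi
    refine ⟨?_, ?_, ?_⟩
    · exact Finset.disjoint_left.1 hC (hPC (hqP i hi))
    · intro hx
      obtain ⟨j, hj, hjp⟩ := Finset.mem_image.1 hx
      rw [Finset.mem_filter, Finset.mem_range] at hj
      have := hpi j (M + i) hj.1 (by omega) hjp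
      omega
    · intro hx
      exact (Finset.mem_sdiff.1 hx).2 (hqP i hi)
  · intro x hx y hxy
    have hy := hN x (hdec' x hx) y hxy
    rcases Finset.mem_union.1 hy with hy | hy
    · exact Or.inl hy
    · exact Or.inr (hdec y hy)
  · have hmono : ∀ x ∈ Y, ∀ y ∈ Y, G x y → h x ≤ h y := by
      intro x hx y hy hxy
      apply Finset.sup_mono
      intro i hi
      rw [Finset.mem_filter] at hi ⊢
      obtain ⟨hi, z, hz, hzi⟩ := hi
      exact ⟨hi, z, Relation.ReflTransGen.head ⟨hG x y hxy, hy, hx⟩ hz, hzi⟩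
    intro x hx y hy hxy
    exact le_antisymm (hmono x hx y hy hxy) (hmono y hy x hx (hG x y hxy))
  · intro x _
    apply Finset.sup_le
    intro i hi
    rw [Finset.mem_filter, Finset.mem_range] at hi
    omega
  · intro x hx i hi hxi
    constructor
    · have h1 : i + 1 ≤ h x := Finset.le_sup (f := fun i => i + 1)
        (Finset.mem_filter.2 ⟨Finset.mem_range.2 hi, x, Relation.ReflTransGen.refl, hxi⟩)
      omega
    · apply Finset.sup_le
      intro j hj
      rw [Finset.mem_filter, Finset.mem_range] at hj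
      obtain ⟨hj, y, hxy, hyj⟩ := hj
      have h1 := ear_le hG hp hT (i := M + i) (j := M + j) (by omega) (by omega) hx hxy
        (hG _ _ hxi) hyj
      omega
  · intro i j hi hj hij
    have h1 := chord_le hG hp hT (i := M + i) (j := M + j) (by omega) (by omega) hij
    omega
  · intro X r₁ hr₁ hXY hXc hXcl
    have h1 : Reach G C r₁ (p 0) := Reach.root hG hc (hYC (hXY hr₁)) (p 0) (hpC 0 (by omega))
    have h2 : p 0 ∉ X := fun h => (Finset.mem_sdiff.1 (hXY h)).2
      (Finset.mem_image.2 ⟨0, Finset.mem_range.2 (by omega), rfl⟩)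
    have h3 : ∀ z, Reach G C r₁ z → z ∉ X → ∃ a ∈ X, ∃ b ∈ C, b ∉ X ∧ G a b := by
      intro z hz
      induction hz with
      | refl => intro h; exact absurd hr₁ h
      | tail hz hzw ih =>
        rename_i z w
        intro hw
        by_cases hzX : z ∈ X
        · exact ⟨z, hzX, w, hzw.2.2, hw, hzw.1⟩
        · exact ih hzX
    obtain ⟨a, ha, b, hb, hbX, hab⟩ := h3 _ h1 h2
    have hbP : b ∈ P := by
      by_contra hbP
      exact hbX (hXcl a ha b (Finset.mem_sdiff.2 ⟨hb, hbP⟩) hab)
    obtain ⟨i, hi, rfl⟩ := Finset.mem_image.1 hbP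
    rw [Finset.mem_range] at hi
    refine ⟨a, ha, fun m f hf hfa => ?_⟩
    exact off_len hG hp hmax hT hi (hf.mono hXY) (by rw [hfa]; exact hG _ _ hab)
  · omega

end Pool.Agent.Helper20.FS
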