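import Pool.Agent.Helper20.FS.SkCode
import Pool.Agent.Helper20.FS.Defs

/-!
# The model with two equivalence relations
-/

set_option autoImplicit false

namespace Pool.Agent.Helper20.FS

open Pool.Agent.Helper20.OP

/-- the elements of the legs -/
abbrev VE {T : Type} (n : T × Fin 3 → ℕ) : Type := {x : (T × Fin 3) × ℕ // x.2 < n x.1}

/-- Two equivalence relations on the elements of the legs.  Relation `0`: the three first elements of a tripod; the elements number
`2 t - 1` and `2 t` of a leg; the last elements of matched legs.  Relation `1`: the elements number `2 t` and `2 t + 1` of a leg. -/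
def strE {T : Type} (n : T × Fin 3 → ℕ) (M : T × Fin 3 → T × Fin 3 → Prop) : Str 2 (VE n) :=
  fun r x y => if r = 0 then
    (x.1.2 = 0 ∧ y.1.2 = 0 ∧ x.1.1.1 = y.1.1.1) ∨
    (x.1.1 = y.1.1 ∧ (x.1.2 + 1) / 2 = (y.1.2 + 1) / 2) ∨
    (M x.1.1 y.1.1 ∧ x.1.2 + 1 = n x.1.1 ∧ y.1.2 + 1 = n y.1.1)
  else x.1.1 = y.1.1 ∧ x.1.2 / 2 = y.1.2 / 2

/-- first elements: the class in relation `0` has at least three elements -/
def stE {V : Type} (R : Str 2 V) (x : V) : Prop :=
  ∃ y z, x ≠ y ∧ x ≠ z ∧ y ≠ z ∧ R 0 x y ∧ R 0 x z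

/-- the skeleton of a pair of equivalence relations -/
def skE (V : Type) (R : Str 2 V) : SkRel V where
  A := fun x y => x ≠ y ∧ (R 1 x y ∨ (R 0 x y ∧ ¬ stE R x))
  st := stE R
  tr := fun x y => stE R x ∧ R 0 x y
  jt := fun _ _ => False

/-- pairs of equivalence relations all whose substructures with at most `k` elements embed into `zig 0` -/
def LocE (k : ℕ) (V : Type) (R : Str 2 V) : Prop :=
  (Equivalence (R 0) ∧ Equivalence (R 1)) ∧
    ∀ (s : ℕ) (u : Fin s → V), s ≤ k → Function.Injective u →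
      Contains Kind.equiv (fun (r : Fin 2) x y => R r (u x) (u y)) (zig 0)

end Pool.Agent.Helper20.FS
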