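import Pool.Agent.Helper20.FS.ModE

/-!
# Block FS-E1: the model is a pair of equivalence relations with the right skeleton

All `n b` are even and `≥ 2`.  `strE_equiv`: relation `1` is clear.  Relation `0`, transitivity: an element in the first case has number `0`; number
`0` is only equivalent to itself by the second case (`(0 + 1) / 2 = 0`) and is not the last element of its leg (`n b ≥ 2`); the last element
(number `n b - 1`, odd) is only equivalent to itself by the second case (`(n b - 1 + 1) / 2 = n b / 2`, and `n b` is no number of an element);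
two matchings: `symm` and `func` give the same leg.
`stE_iff`: the class of number `0` contains the three different first elements of the tripod; the class of an element with number `i ≥ 1` has at
most two elements (second case: numbers `2 t - 1`, `2 t`; last element: only the last element of the matched leg).
`legModel_E`: with `el b i := ⟨(b, i), _⟩` for `i < n b` (and an arbitrary value, for instance number `0`, otherwise), `jn` arbitrary (for instance
`jn t := el (t, 0) 0`): `A_iff`: related by relation `1` and different: numbers `2 t`, `2 t + 1`; related by relation `0`, different, and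
number `≥ 1`: numbers `2 t - 1`, `2 t` with `t ≥ 1`, or matched last elements: together this is `Adj`.
-/

set_option autoImplicit false

namespace Pool.Agent.Helper20.FS

open Pool.Agent.Helper20.OP

/-- the element number `i` of the leg `b` -/
def elE {T : Type} (n : T × Fin 3 → ℕ) (hn : ∀ b, 2 ≤ n b) (b : T × Fin 3) (i : ℕ) : VE n :=
  if h : i < n b then ⟨(b, i), h⟩ else ⟨(b, 0), Nat.lt_of_lt_of_le Nat.zero_lt_two (hn b)⟩

private theorem el56 {T : Type} {n : T × Fin 3 → ℕ} (hn : ∀ b, 2 ≤ n b) {b : T × Fin 3} {i : ℕ}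
    (h : i < n b) : elE n hn b i = ⟨(b, i), h⟩ := dif_pos h

private theorem eta56 {T : Type} {n : T × Fin 3 → ℕ} (hn : ∀ b, 2 ≤ n b) (v : VE n) :
    v = elE n hn v.1.1 v.1.2 := by
  rw [el56 hn v.2]

private theorem eq56 {T : Type} {n : T × Fin 3 → ℕ} {x y : VE n} (h1 : x.1.1 = y.1.1)
    (h2 : x.1.2 = y.1.2) : x = y := Subtype.ext (Prod.ext h1 h2)

private theorem s0_56 {T : Type} {n : T × Fin 3 → ℕ} {M : T × Fin 3 → T × Fin 3 → Prop}
    (x y : VE n) : strE n M 0 x y ↔ (x.1.2 = 0 ∧ y.1.2 = 0 ∧ x.1.1.1 = y.1.1.1) ∨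
    (x.1.1 = y.1.1 ∧ (x.1.2 + 1) / 2 = (y.1.2 + 1) / 2) ∨
    (M x.1.1 y.1.1 ∧ x.1.2 + 1 = n x.1.1 ∧ y.1.2 + 1 = n y.1.1) := by
  rw [strE, if_pos rfl]

private theorem s1_56 {T : Type} {n : T × Fin 3 → ℕ} {M : T × Fin 3 → T × Fin 3 → Prop}
    (x y : VE n) : strE n M 1 x y ↔ x.1.1 = y.1.1 ∧ x.1.2 / 2 = y.1.2 / 2 := by
  rw [strE, if_neg (by decide)]

/-- number `0` in the second case -/
private theorem zero56 {i : ℕ} (h : (0 + 1) / 2 = (i + 1) / 2) : i = 0 := by omega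

/-- the last element in the second case -/
private theorem last56 {i j m : ℕ} (hm : m % 2 = 0) (hi : i < m) (hj : j + 1 = m)
    (h : (i + 1) / 2 = (j + 1) / 2) : i + 1 = m := by omega

theorem strE_equiv {T : Type} (n : T × Fin 3 → ℕ) (M : T × Fin 3 → T × Fin 3 → Prop) (hM : Mat M)
    (hn : ∀ b, 2 ≤ n b) (he : ∀ b, n b % 2 = 0) :
    Equivalence (strE n M 0) ∧ Equivalence (strE n M 1) := by
  constructor
  · refine ⟨?_, ?_, ?_⟩
    · intro x
      rw [s0_56]
      exact Or.inr (Or.inl ⟨rfl, rfl⟩)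
    · intro x y h
      rw [s0_56] at h ⊢
      rcases h with h | h | h
      · exact Or.inl ⟨h.2.1, h.1, h.2.2.symm⟩
      · exact Or.inr (Or.inl ⟨h.1.symm, h.2.symm⟩)
      · exact Or.inr (Or.inr ⟨hM.symm _ _ h.1, h.2.2, h.2.1⟩)
    · intro x y z h h'
      rw [s0_56] at h h' ⊢
      have hny := hn y.1.1
      rcases h with ⟨h1, h2, h3⟩ | ⟨h1, h2⟩ | ⟨h1, h2, h3⟩
      · rcases h' with ⟨k1, k2, k3⟩ | ⟨k1, k2⟩ | ⟨k1, k2, k3⟩
        · exact Or.inl ⟨h1, k2, h3.trans k3⟩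
        · rw [h2] at k2
          refine Or.inl ⟨h1, zero56 k2, ?_⟩
          rw [h3, k1]
        · omega
      · rcases h' with ⟨k1, k2, k3⟩ | ⟨k1, k2⟩ | ⟨k1, k2, k3⟩
        · rw [k1] at h2
          refine Or.inl ⟨zero56 h2.symm, k2, ?_⟩
          rw [h1, k3]
        · exact Or.inr (Or.inl ⟨h1.trans k1, h2.trans k2⟩)
        · have hx := x.2
          have hex := he x.1.1
          refine Or.inr (Or.inr ⟨by rw [h1]; exact k1, ?_, k3⟩)
          rw [← h1] at k2
          exact last56 hex hx k2 h2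
      · rcases h' with ⟨k1, k2, k3⟩ | ⟨k1, k2⟩ | ⟨k1, k2, k3⟩
        · omega
        · have hz := z.2
          have hez := he z.1.1
          refine Or.inr (Or.inr ⟨by rw [← k1]; exact h1, h2, ?_⟩)
          rw [k1] at h3
          exact last56 hez hz h3 k2.symm
        · have h4 := hM.func _ _ _ (hM.symm _ _ h1) k1
          refine Or.inr (Or.inl ⟨h4, ?_⟩)
          rw [h2, k3, h4]
  · refine ⟨?_, ?_, ?_⟩
    · intro x
      rw [s1_56]
      exact ⟨rfl, rfl⟩
    · intro x y h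
      rw [s1_56] at h ⊢
      exact ⟨h.1.symm, h.2.symm⟩
    · intro x y z h h'
      rw [s1_56] at h h' ⊢
      exact ⟨h.1.trans h'.1, h.2.trans h'.2⟩

theorem stE_iff {T : Type} (n : T × Fin 3 → ℕ) (M : T × Fin 3 → T × Fin 3 → Prop) (hM : Mat M)
    (hn : ∀ b, 2 ≤ n b) (he : ∀ b, n b % 2 = 0) (x : VE n) :
    stE (strE n M) x ↔ x.1.2 = 0 := by
  constructor
  · rintro ⟨y, z, hxy, hxz, hyz, h, h'⟩
    by_contra h0
    rw [s0_56] at h h'
    have hx := x.2
    have hex := he x.1.1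
    rcases h with ⟨h1, h2, h3⟩ | ⟨h1, h2⟩ | ⟨h1, h2, h3⟩
    · exact h0 h1
    · have n1 : x.1.2 ≠ y.1.2 := fun e => hxy (eq56 h1 e)
      have hy := y.2
      rw [← h1] at hy
      rcases h' with ⟨k1, k2, k3⟩ | ⟨k1, k2⟩ | ⟨k1, k2, k3⟩
      · exact h0 k1
      · have n2 : x.1.2 ≠ z.1.2 := fun e => hxz (eq56 k1 e)
        have n3 : y.1.2 ≠ z.1.2 := fun e => hyz (eq56 (h1.symm.trans k1) e)
        omega
      · have := last56 hex hy k2 h2.symm
        omega
    · rcases h' with ⟨k1, k2, k3⟩ | ⟨k1, k2⟩ | ⟨k1, k2, k3⟩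
      · exact h0 k1
      · have n2 : x.1.2 ≠ z.1.2 := fun e => hxz (eq56 k1 e)
        have hz := z.2
        rw [← k1] at hz
        have := last56 hex hz h2 k2.symm
        omega
      · have h4 := hM.func _ _ _ h1 k1
        apply hyz
        apply eq56 h4
        rw [h4] at h3
        omega
  · intro h0
    have hd : ∀ σ : Fin 3, σ ≠ σ + 1 ∧ σ ≠ σ + 2 ∧ σ + 1 ≠ σ + 2 := by decide
    obtain ⟨d1, d2, d3⟩ := hd x.1.1.2
    have hp : ∀ b, 0 < n b := fun b => Nat.lt_of_lt_of_le Nat.zero_lt_two (hn b)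
    refine ⟨⟨((x.1.1.1, x.1.1.2 + 1), 0), hp _⟩, ⟨((x.1.1.1, x.1.1.2 + 2), 0), hp _⟩, ?_, ?_, ?_,
      ?_, ?_⟩
    · intro e
      exact d1 (congrArg (fun v : VE n => v.1.1.2) e)
    · intro e
      exact d2 (congrArg (fun v : VE n => v.1.1.2) e)
    · intro e
      exact d3 (congrArg (fun v : VE n => v.1.1.2) e)
    · rw [s0_56]
      exact Or.inl ⟨h0, rfl, rfl⟩
    · rw [s0_56]
      exact Or.inl ⟨h0, rfl, rfl⟩

private theorem adj56 {T : Type} {n : T × Fin 3 → ℕ} {M : T × Fin 3 → T × Fin 3 → Prop}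
    (hM : Mat M) (hn : ∀ b, 2 ≤ n b) (x y : VE n) :
    (x ≠ y ∧ (strE n M 1 x y ∨ (strE n M 0 x y ∧ ¬ x.1.2 = 0))) ↔
      Adj n M x.1.1 x.1.2 y.1.1 y.1.2 := by
  rw [s0_56, s1_56]
  unfold Adj
  constructor
  · rintro ⟨hne, h | ⟨h, h0⟩⟩
    · have n1 : x.1.2 ≠ y.1.2 := fun e => hne (eq56 h.1 e)
      exact Or.inl ⟨h.1, by omega⟩
    · rcases h with h | h | h
      · exact absurd h.1 h0
      · have n1 : x.1.2 ≠ y.1.2 := fun e => hne (eq56 h.1 e)
        exact Or.inl ⟨h.1, by omega⟩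
      · exact Or.inr h
  · rintro (⟨h1, h2⟩ | ⟨h1, h2, h3⟩)
    · refine ⟨?_, ?_⟩
      · rintro rfl
        omega
      · have h3 : x.1.2 / 2 = y.1.2 / 2 ∨ ((x.1.2 + 1) / 2 = (y.1.2 + 1) / 2 ∧ ¬ x.1.2 = 0) := by
          omega
        rcases h3 with h3 | h3
        · exact Or.inl ⟨h1, h3⟩
        · exact Or.inr ⟨Or.inr (Or.inl ⟨h1, h3.1⟩), h3.2⟩
    · refine ⟨?_, Or.inr ⟨Or.inr (Or.inr ⟨h1, h2, h3⟩), ?_⟩⟩
      · rintro rfl
        exact hM.irr _ h1
      · have := hn x.1.1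
        omega

theorem legModel_E {T : Type} (n : T × Fin 3 → ℕ) (M : T × Fin 3 → T × Fin 3 → Prop) (hM : Mat M)
    (hn : ∀ b, 2 ≤ n b) (he : ∀ b, n b % 2 = 0) :
    LegModel (skE (VE n) (strE n M)) False n M (elE n hn) (fun t => elE n hn (t, 0) 0) := by
  have hp : ∀ b, 0 < n b := fun b => Nat.lt_of_lt_of_le Nat.zero_lt_two (hn b)
  have inj : ∀ b i b' i', i < n b → i' < n b' → elE n hn b i = elE n hn b' i' → b = b' ∧ i = i' := by
    intro b i b' i' hi hi' h
    rw [el56 hn hi, el56 hn hi'] at h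
    exact ⟨congrArg (fun v : VE n => v.1.1) h, congrArg (fun v : VE n => v.1.2) h⟩
  have hA : ∀ x y : VE n, (skE (VE n) (strE n M)).A x y ↔ Adj n M x.1.1 x.1.2 y.1.1 y.1.2 := by
    intro x y
    rw [← adj56 hM hn x y]
    show (x ≠ y ∧ (strE n M 1 x y ∨ (strE n M 0 x y ∧ ¬ stE (strE n M) x))) ↔ _
    rw [stE_iff n M hM hn he x]
  refine ⟨inj, ?_, ?_, ?_, ?_, ?_, ?_, ?_⟩
  · intro b i v hi
    rw [hA, el56 hn hi]
    constructor
    · intro h
      exact ⟨v.1.1, v.1.2, v.2, eta56 hn v, h⟩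
    · rintro ⟨b', i', hi', rfl, h⟩
      rw [el56 hn hi']
      exact h
  · intro v
    show stE (strE n M) v ↔ _
    rw [stE_iff n M hM hn he v]
    constructor
    · intro h
      refine ⟨v.1.1, ?_⟩
      rw [← h]
      exact eta56 hn v
    · rintro ⟨b, rfl⟩
      rw [el56 hn (hp b)]
  · intro b v
    show (stE (strE n M) (elE n hn b 0) ∧ strE n M 0 (elE n hn b 0) v) ↔ _
    rw [stE_iff n M hM hn he, el56 hn (hp b), s0_56]
    have hnb := hn b
    constructor
    · rintro ⟨-, ⟨h1, h2, h3⟩ | ⟨h1, h2⟩ | ⟨h1, h2, h3⟩⟩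
      · refine ⟨v.1.1.2, ?_⟩
        rw [el56 hn (hp _)]
        exact eq56 (Prod.ext h3.symm rfl) h2
      · refine ⟨b.2, ?_⟩
        rw [el56 hn (hp _)]
        exact eq56 h1.symm (zero56 h2)
      · have h4 : 0 + 1 = n b := h2
        omega
    · rintro ⟨σ, rfl⟩
      rw [el56 hn (hp _)]
      exact ⟨rfl, Or.inl ⟨rfl, rfl, rfl⟩⟩
  · intro b v
    exact ⟨fun h => h.elim, fun h => h.1.elim⟩
  · exact fun h => h.elim
  · exact fun h => h.elim
  · intro v
    exact Or.inl ⟨v.1.1, v.1.2, v.2, eta56 hn v⟩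

end Pool.Agent.Helper20.FS
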