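import Pool.Agent.Helper20.FS.ModELeg
import Pool.Agent.Helper20.FS.Gap

/-!
# Block FS-E3: small substructures of the model embed into `zig 0`

Given `u : Fin s → VE n` injective, `s ≤ k < n b`: take the gaps `γ` (`exists_gap`) and the segments `sg` (`exists_seg`), and an injective code
`o : T ⊕ (T × Fin 3) → ℕ`.  Map the element `(b, i)` to `(o (inl b.1), b.2, i)` if `i < γ b`, and to `(o (inr b*), 0, p)` with `sg b i = (b*, p)` if
`γ b < i` (`i = γ b` does not occur).  Check the two relations (`strE` against `zig 0`) for two elements `(b, i)`, `(b', i')`: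
* both before the gaps: the same tripod copy if and only if `b.1 = b'.1`; the third case of `strE` is excluded by `i + 1 ≤ γ b ≤ k < n b`.
* one before, one after the gap: not related in `zig 0` (different copies), and not related in `strE` (for the same leg `i + 2 ≤ i'`; `i' ≥ 1`).
* both after the gaps (so `i, i' ≥ 1`, `p, p' ≥ 1`): if `b = b'` both numbers are transformed in the same way (`i ↦ i` or `i ↦ N - 1 - i`, `N = n b + n b'`
  even), which preserves `(i + 1) / 2 = (i' + 1) / 2` and `i / 2 = i' / 2`; if `b ≠ b'` and the segments are equal, the legs are matched, say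
  `p = i < n b`, `p' = n b + n b' - 1 - i' ≥ n b`: then `(p + 1) / 2 = (p' + 1) / 2` if and only if `p + 1 = n b` and `p' = n b` (as `n b` is even), that is
  the third case of `strE`, and `p / 2 = p' / 2` never holds; if the segments are different then `b ≠ b'` and not `M b b'`.
The same case distinction gives injectivity.
-/

set_option autoImplicit false

namespace Pool.Agent.Helper20.FS

open Pool.Agent.Helper20.OP

/-- the embedding -/
private def emb14 {T : Type} (γ : T × Fin 3 → ℕ) (o : T ⊕ (T × Fin 3) → ℕ) (sg : T × Fin 3 → ℕ → (T × Fin 3) × ℕ)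
    (b : T × Fin 3) (i : ℕ) : ℕ × Fin 3 × ℕ :=
  if i < γ b then (o (Sum.inl b.1), b.2, i) else (o (Sum.inr (sg b i).1), 0, (sg b i).2)

private theorem key14 {T : Type} (n : T × Fin 3 → ℕ) (M : T × Fin 3 → T × Fin 3 → Prop)
    (hM : Mat M) (hn : ∀ b, 2 ≤ n b) (he : ∀ b, n b % 2 = 0) {k : ℕ} (hk : ∀ b, k < n b)
    (γ : T × Fin 3 → ℕ) (hγ : ∀ b, γ b ≤ k) (o : T ⊕ (T × Fin 3) → ℕ) (ho : Function.Injective o)
    (sg : T × Fin 3 → ℕ → (T × Fin 3) × ℕ)
    (h1 : ∀ b i, 1 ≤ i → i < n b → 1 ≤ (sg b i).2)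
    (h2 : ∀ b, (∀ i, i < n b → sg b i = (b, i)) ∨
        ∃ b', M b b' ∧ (∀ i, i < n b → sg b i = (b', n b + n b' - 1 - i)) ∧
          ∀ i, i < n b' → sg b' i = (b', i))
    (h3 : ∀ b b' i i', b ≠ b' → i < n b → i' < n b' → (sg b i).1 = (sg b' i').1 →
        M b b' ∧ ((sg b i = (b, i) ∧ sg b' i' = (b, n b + n b' - 1 - i')) ∨
          (sg b' i' = (b', i') ∧ sg b i = (b', n b + n b' - 1 - i))))
    (h4 : ∀ b b' i i', M b b' → i < n b → i' < n b' → (sg b i).1 = (sg b' i').1)
    (b b' : T × Fin 3) (i i' : ℕ) (hi : i < n b) (hi' : i' < n b') (hg : i ≠ γ b) (hg' : i' ≠ γ b') :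
    (emb14 γ o sg b i = emb14 γ o sg b' i' → b = b' ∧ i = i') ∧
    (((i = 0 ∧ i' = 0 ∧ b.1 = b'.1) ∨ (b = b' ∧ (i + 1) / 2 = (i' + 1) / 2) ∨
        (M b b' ∧ i + 1 = n b ∧ i' + 1 = n b')) ↔
      ((emb14 γ o sg b i).1 = (emb14 γ o sg b' i').1 ∧
        (((emb14 γ o sg b i).2.2 = 0 ∧ (emb14 γ o sg b' i').2.2 = 0) ∨
          ((emb14 γ o sg b i).2.1 = (emb14 γ o sg b' i').2.1 ∧
            ((emb14 γ o sg b i).2.2 + 1) / 2 = ((emb14 γ o sg b' i').2.2 + 1) / 2)))) ∧
    ((b = b' ∧ i / 2 = i' / 2) ↔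
      ((emb14 γ o sg b i).1 = (emb14 γ o sg b' i').1 ∧
        (emb14 γ o sg b i).2.1 = (emb14 γ o sg b' i').2.1 ∧
          (emb14 γ o sg b i).2.2 / 2 = (emb14 γ o sg b' i').2.2 / 2)) := by
  have hγb := hγ b
  have hγb' := hγ b'
  have hkb := hk b
  have hkb' := hk b'
  by_cases c : i < γ b
  · by_cases c' : i' < γ b'
    · -- both before the gaps
      have e1 : emb14 γ o sg b i = (o (Sum.inl b.1), b.2, i) := if_pos c
      have e2 : emb14 γ o sg b' i' = (o (Sum.inl b'.1), b'.2, i') := if_pos c'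
      rw [e1, e2]
      have h5 : o (Sum.inl b.1) = o (Sum.inl b'.1) ↔ b.1 = b'.1 :=
        ⟨fun h => Sum.inl_injective (ho h), fun h => by rw [h]⟩
      refine ⟨fun h => ?_, ?_, ?_⟩
      · rw [Prod.mk.injEq, Prod.mk.injEq, h5] at h
        exact ⟨Prod.ext h.1 h.2.1, h.2.2⟩
      · change _ ↔ (o (Sum.inl b.1) = o (Sum.inl b'.1) ∧ ((i = 0 ∧ i' = 0) ∨ (b.2 = b'.2 ∧ (i + 1) / 2 = (i' + 1) / 2)))
        rw [h5]
        constructor
        · rintro (⟨h6, h7, h8⟩ | ⟨h6, h7⟩ | ⟨-, h6, -⟩)
          · exact ⟨h8, Or.inl ⟨h6, h7⟩⟩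
          · exact ⟨by rw [h6], Or.inr ⟨by rw [h6], h7⟩⟩
          · omega
        · rintro ⟨h6, ⟨h7, h8⟩ | ⟨h7, h8⟩⟩
          · exact Or.inl ⟨h7, h8, h6⟩
          · exact Or.inr (Or.inl ⟨Prod.ext h6 h7, h8⟩)
      · change _ ↔ (o (Sum.inl b.1) = o (Sum.inl b'.1) ∧ b.2 = b'.2 ∧ i / 2 = i' / 2)
        rw [h5]
        constructor
        · rintro ⟨h6, h7⟩
          exact ⟨by rw [h6], by rw [h6], h7⟩
        · rintro ⟨h6, h7, h8⟩
          exact ⟨Prod.ext h6 h7, h8⟩
    · -- before and after
      have e1 : emb14 γ o sg b i = (o (Sum.inl b.1), b.2, i) := if_pos c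
      have e2 : emb14 γ o sg b' i' = (o (Sum.inr (sg b' i').1), 0, (sg b' i').2) := if_neg c'
      have h5 : (emb14 γ o sg b i).1 ≠ (emb14 γ o sg b' i').1 := by
        rw [e1, e2]
        intro h
        exact Sum.inl_ne_inr (ho h)
      refine ⟨fun h => absurd (congrArg Prod.fst h) h5, ⟨fun h => ?_, fun h => absurd h.1 h5⟩,
        ⟨fun h => ?_, fun h => absurd h.1 h5⟩⟩
      · exfalso
        rcases h with ⟨h6, h7, h8⟩ | ⟨h6, h7⟩ | ⟨-, h6, -⟩
        · omega
        · subst h6
          omega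
        · omega
      · exfalso
        obtain ⟨h6, h7⟩ := h
        subst h6
        omega
  · by_cases c' : i' < γ b'
    · -- after and before
      have e1 : emb14 γ o sg b i = (o (Sum.inr (sg b i).1), 0, (sg b i).2) := if_neg c
      have e2 : emb14 γ o sg b' i' = (o (Sum.inl b'.1), b'.2, i') := if_pos c'
      have h5 : (emb14 γ o sg b i).1 ≠ (emb14 γ o sg b' i').1 := by
        rw [e1, e2]
        intro h
        exact Sum.inr_ne_inl (ho h)
      refine ⟨fun h => absurd (congrArg Prod.fst h) h5, ⟨fun h => ?_, fun h => absurd h.1 h5⟩,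
        ⟨fun h => ?_, fun h => absurd h.1 h5⟩⟩
      · exfalso
        rcases h with ⟨h6, h7, h8⟩ | ⟨h6, h7⟩ | ⟨-, -, h6⟩
        · omega
        · subst h6
          omega
        · omega
      · exfalso
        obtain ⟨h6, h7⟩ := h
        subst h6
        omega
    · -- both after the gaps
      have e1 : emb14 γ o sg b i = (o (Sum.inr (sg b i).1), 0, (sg b i).2) := if_neg c
      have e2 : emb14 γ o sg b' i' = (o (Sum.inr (sg b' i').1), 0, (sg b' i').2) := if_neg c'
      have hi1 : 1 ≤ i := by omega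
      have hi1' : 1 ≤ i' := by omega
      have hp := h1 b i hi1 hi
      have hp' := h1 b' i' hi1' hi'
      have h5 : o (Sum.inr (sg b i).1) = o (Sum.inr (sg b' i').1) ↔ (sg b i).1 = (sg b' i').1 :=
        ⟨fun h => Sum.inr_injective (ho h), fun h => by rw [h]⟩
      have key : ((sg b i).1 = (sg b' i').1 → (sg b i).2 = (sg b' i').2 → b = b' ∧ i = i') ∧
          (((b = b' ∧ (i + 1) / 2 = (i' + 1) / 2) ∨ (M b b' ∧ i + 1 = n b ∧ i' + 1 = n b')) ↔
            ((sg b i).1 = (sg b' i').1 ∧ ((sg b i).2 + 1) / 2 = ((sg b' i').2 + 1) / 2)) ∧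
          ((b = b' ∧ i / 2 = i' / 2) ↔ ((sg b i).1 = (sg b' i').1 ∧ (sg b i).2 / 2 = (sg b' i').2 / 2)) := by
        by_cases hb : b = b'
        · subst hb
          rcases h2 b with h6 | ⟨b2, hm, h6, -⟩
          · rw [h6 i hi, h6 i' hi']
            refine ⟨fun _ h => ⟨rfl, h⟩, ⟨?_, ?_⟩, Iff.rfl⟩
            · rintro (h | ⟨h, -, -⟩)
              · exact h
              · exact absurd h (hM.irr b)
            · exact fun h => Or.inl h
          · rw [h6 i hi, h6 i' hi']
            have hev := he b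
            have hev2 := he b2
            have hn2 := hn b2
            refine ⟨fun _ h => ⟨rfl, ?_⟩, ⟨?_, ?_⟩, ⟨?_, ?_⟩⟩
            · dsimp only at h
              omega
            · rintro (⟨-, h⟩ | ⟨h, -, -⟩)
              · refine ⟨rfl, ?_⟩
                dsimp only
                omega
              · exact absurd h (hM.irr b)
            · rintro ⟨-, h⟩
              refine Or.inl ⟨rfl, ?_⟩
              dsimp only at h
              omega
            · rintro ⟨-, h⟩
              refine ⟨rfl, ?_⟩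
              dsimp only
              omega
            · rintro ⟨-, h⟩
              refine ⟨rfl, ?_⟩
              dsimp only at h
              omega
        · by_cases hs : (sg b i).1 = (sg b' i').1
          · obtain ⟨hm, h7⟩ := h3 b b' i i' hb hi hi' hs
            have hev := he b
            have hev' := he b'
            rcases h7 with ⟨h7, h8⟩ | ⟨h7, h8⟩
            · rw [h7, h8]
              refine ⟨fun _ h => ?_, ⟨?_, ?_⟩, ⟨?_, ?_⟩⟩
              · dsimp only at h
                omega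
              · rintro (⟨h, -⟩ | ⟨-, h9, h10⟩)
                · exact absurd h hb
                · refine ⟨rfl, ?_⟩
                  dsimp only
                  omega
              · rintro ⟨-, h⟩
                refine Or.inr ⟨hm, ?_⟩
                dsimp only at h
                omega
              · rintro ⟨h, -⟩
                exact absurd h hb
              · rintro ⟨-, h⟩
                dsimp only at h
                omega
            · rw [h7, h8]
              refine ⟨fun _ h => ?_, ⟨?_, ?_⟩, ⟨?_, ?_⟩⟩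
              · dsimp only at h
                omega
              · rintro (⟨h, -⟩ | ⟨-, h9, h10⟩)
                · exact absurd h hb
                · refine ⟨rfl, ?_⟩
                  dsimp only
                  omega
              · rintro ⟨-, h⟩
                refine Or.inr ⟨hm, ?_⟩
                dsimp only at h
                omega
              · rintro ⟨h, -⟩
                exact absurd h hb
              · rintro ⟨-, h⟩
                dsimp only at h
                omega
          · refine ⟨fun h => absurd h hs, ⟨?_, fun h => absurd h.1 hs⟩, ⟨fun h => absurd h.1 hb, fun h => absurd h.1 hs⟩⟩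
            rintro (⟨h, -⟩ | ⟨h, -, -⟩)
            · exact absurd h hb
            · exact absurd (h4 b b' i i' h hi hi') hs
      rw [e1, e2]
      refine ⟨fun h => ?_, ?_, ?_⟩
      · rw [Prod.mk.injEq, Prod.mk.injEq, h5] at h
        exact key.1 h.1 h.2.2
      · change _ ↔ (o (Sum.inr (sg b i).1) = o (Sum.inr (sg b' i').1) ∧ (((sg b i).2 = 0 ∧ (sg b' i').2 = 0) ∨
          ((0 : Fin 3) = 0 ∧ ((sg b i).2 + 1) / 2 = ((sg b' i').2 + 1) / 2)))
        rw [h5]
        constructor
        · rintro (⟨h6, -, -⟩ | h6)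
          · omega
          · have h7 := key.2.1.1 h6
            exact ⟨h7.1, Or.inr ⟨rfl, h7.2⟩⟩
        · rintro ⟨h6, ⟨h7, -⟩ | ⟨-, h7⟩⟩
          · omega
          · exact Or.inr (key.2.1.2 ⟨h6, h7⟩)
      · change _ ↔ (o (Sum.inr (sg b i).1) = o (Sum.inr (sg b' i').1) ∧ (0 : Fin 3) = 0 ∧
          (sg b i).2 / 2 = (sg b' i').2 / 2)
        rw [h5]
        constructor
        · intro h
          have h7 := key.2.2.1 h
          exact ⟨h7.1, rfl, h7.2⟩
        · rintro ⟨h6, -, h7⟩
          exact key.2.2.2 ⟨h6, h7⟩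

theorem loc_E {T : Type} [Finite T] (n : T × Fin 3 → ℕ) (M : T × Fin 3 → T × Fin 3 → Prop)
    (hM : Mat M) (hn : ∀ b, 2 ≤ n b) (he : ∀ b, n b % 2 = 0) {k : ℕ} (hk : ∀ b, k < n b) :
    LocE k (VE n) (strE n M) := by
  refine ⟨strE_equiv n M hM hn he, ?_⟩
  intro s u hs hu
  have hel : ∀ b i b' i', i < n b → i' < n b' → elE n hn b i = elE n hn b' i' → b = b' ∧ i = i' := by
    intro b i b' i' hi hi' h
    unfold elE at h
    rw [dif_pos hi, dif_pos hi'] at h
    have h1 := congrArg Subtype.val h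
    exact ⟨congrArg Prod.fst h1, congrArg Prod.snd h1⟩
  obtain ⟨γ, hγ⟩ := exists_gap n hk hs u (elE n hn) hel
  obtain ⟨sg, h1, h2, h3, h4⟩ := exists_seg n M hM hn he
  obtain ⟨o, ho⟩ := exists_injective_nat (T ⊕ (T × Fin 3))
  have hne : ∀ a, (u a).1.2 ≠ γ (u a).1.1 := by
    intro a h
    refine (hγ (u a).1.1).2 a ?_
    unfold elE
    rw [dif_pos (lt_of_le_of_lt (hγ _).1 (hk _))]
    exact Subtype.ext (Prod.ext rfl h)
  have key := fun x y : Fin s => key14 n M hM hn he hk γ (fun b => (hγ b).1) o ho sg h1 h2 h3 h4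
    (u x).1.1 (u y).1.1 (u x).1.2 (u y).1.2 (u x).2 (u y).2 (hne x) (hne y)
  refine ⟨fun a => emb14 γ o sg (u a).1.1 (u a).1.2, fun x y hxy => ?_, fun r x y => ?_⟩
  · have h5 := (key x y).1 hxy
    exact hu (Subtype.ext (Prod.ext h5.1 h5.2))
  · match r with
    | 0 =>
      change (if (0 : Fin 2) = 0 then _ else _) ↔ (_ ∧ if (0 : Fin 2) = 0 then _ else _)
      rw [if_pos rfl, if_pos rfl]
      exact (key x y).2.1
    | 1 =>
      change (if (1 : Fin 2) = 0 then _ else _) ↔ (_ ∧ if (1 : Fin 2) = 0 then _ else _)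
      rw [if_neg (by decide), if_neg (by decide)]
      exact (key x y).2.2

end Pool.Agent.Helper20.FS
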