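import Pool.Agent.Helper20.FS.ModE

/-!
# The graph model
-/

set_option autoImplicit false

namespace Pool.Agent.Helper20.FS

open Pool.Agent.Helper20.OP

/-- The graph: the centres `inl t` of the tripods are adjacent to the first elements of their three legs; the elements of the
legs are adjacent as given by `Adj`. -/
def strG {T : Type} (n : T × Fin 3 → ℕ) (M : T × Fin 3 → T × Fin 3 → Prop) :
    Str 1 (T ⊕ VE n) := fun _ x y => match x, y with
  | Sum.inl _, Sum.inl _ => False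
  | Sum.inl t, Sum.inr y => y.1.2 = 0 ∧ y.1.1.1 = t
  | Sum.inr x, Sum.inl t => x.1.2 = 0 ∧ x.1.1.1 = t
  | Sum.inr x, Sum.inr y => Adj n M x.1.1 x.1.2 y.1.1 y.1.2

/-- centres: at least three neighbours -/
def jG {V : Type} (R : Str 1 V) (x : V) : Prop :=
  ∃ y z w, y ≠ z ∧ y ≠ w ∧ z ≠ w ∧ R 0 x y ∧ R 0 x z ∧ R 0 x w

/-- the skeleton of a graph -/
def skG (V : Type) (R : Str 1 V) : SkRel V where
  A := fun x y => R 0 x y ∧ ¬ jG R x ∧ ¬ jG R y
  st := fun x => ∃ j, jG R j ∧ R 0 j x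
  tr := fun x y => ∃ j, jG R j ∧ R 0 j x ∧ R 0 j y
  jt := fun v x => jG R v ∧ R 0 v x

/-- graphs all whose subgraphs with at most `k` vertices are subgraphs of `claws` -/
def LocG (k : ℕ) (V : Type) (R : Str 1 V) : Prop :=
  ((∀ x, ¬ R 0 x x) ∧ ∀ x y, R 0 x y → R 0 y x) ∧
    ∀ (s : ℕ) (u : Fin s → V), s ≤ k → Function.Injective u →
      Contains Kind.graph (fun (r : Fin 1) x y => R r (u x) (u y)) claws

end Pool.Agent.Helper20.FS
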