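import Pool.Agent.Helper20.FS.ModG
import Pool.Agent.Helper20.FS.ModELeg

/-!
# Block FS-G1: the graph model has the right skeleton

All `n b` are `≥ 2`.  `strG_graph`: irreflexive (`Adj` is irreflexive: `i + 1 ≠ i`, and `irr`), symmetric (`symm`).
`jG_iff`: the vertex `inl t` has the three neighbours `inr (t, σ, 0)`.  The vertex `inr (b, i)` has at most two neighbours: for `i = 0`: `inl b.1` and
`inr (b, 1)` (`0 + 1 ≠ n b`); for `i ≥ 1`: `inr (b, i - 1)` and either `inr (b, i + 1)` (`i + 1 < n b`) or the last element of the matched leg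
(`i + 1 = n b`; unique by `func`).
`legModel_G`: `el b i := inr ⟨(b, i), _⟩` for `i < n b`, `jn t := inl t`.
-/

set_option autoImplicit false

namespace Pool.Agent.Helper20.FS

open Pool.Agent.Helper20.OP

theorem strG_graph {T : Type} (n : T × Fin 3 → ℕ) (M : T × Fin 3 → T × Fin 3 → Prop) (hM : Mat M) :
    (∀ x, ¬ strG n M 0 x x) ∧ ∀ x y, strG n M 0 x y → strG n M 0 y x := by
  refine ⟨?_, ?_⟩
  · rintro (t | x) h
    · exact h
    · rcases (show Adj n M x.1.1 x.1.2 x.1.1 x.1.2 from h) with ⟨_, h | h⟩ | ⟨h, _, _⟩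
      · omega
      · omega
      · exact hM.irr _ h
  · rintro (t | x) (t' | y) h
    · exact h
    · exact h
    · exact h
    · change Adj n M x.1.1 x.1.2 y.1.1 y.1.2 at h
      change Adj n M y.1.1 y.1.2 x.1.1 x.1.2
      rcases h with ⟨h1, h2⟩ | ⟨h1, h2, h3⟩
      · exact Or.inl ⟨h1.symm, h2.symm⟩
      · exact Or.inr ⟨hM.symm _ _ h1, h3, h2⟩

private theorem nb_inr24 {T : Type} (n : T × Fin 3 → ℕ) (M : T × Fin 3 → T × Fin 3 → Prop)
    (x : VE n) (v : T ⊕ VE n) (h : strG n M 0 (Sum.inr x) v) :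
    ((v = Sum.inl x.1.1.1 ∧ x.1.2 = 0) ∨
      ∃ y : VE n, v = Sum.inr y ∧ y.1.1 = x.1.1 ∧ y.1.2 + 1 = x.1.2) ∨
    ((∃ y : VE n, v = Sum.inr y ∧ y.1.1 = x.1.1 ∧ y.1.2 = x.1.2 + 1) ∨
      ∃ y : VE n, v = Sum.inr y ∧ M x.1.1 y.1.1 ∧ x.1.2 + 1 = n x.1.1 ∧ y.1.2 + 1 = n y.1.1) := by
  rcases v with t | y
  · obtain ⟨h1, h2⟩ := (show x.1.2 = 0 ∧ x.1.1.1 = t from h)
    exact Or.inl (Or.inl ⟨by rw [h2], h1⟩)
  · rcases (show Adj n M x.1.1 x.1.2 y.1.1 y.1.2 from h) with ⟨h1, h2 | h2⟩ | ⟨h1, h2, h3⟩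
    · exact Or.inr (Or.inl ⟨y, rfl, h1.symm, h2.symm⟩)
    · exact Or.inl (Or.inr ⟨y, rfl, h1.symm, h2⟩)
    · exact Or.inr (Or.inr ⟨y, rfl, h1, h2, h3⟩)

private theorem ve_ext24 {T : Type} {n : T × Fin 3 → ℕ} {x y : VE n} (h1 : x.1.1 = y.1.1)
    (h2 : x.1.2 = y.1.2) : x = y := Subtype.ext (Prod.ext h1 h2)

private theorem left24 {T : Type} (n : T × Fin 3 → ℕ)
    (x : VE n) (v w : T ⊕ VE n)
    (hv : (v = Sum.inl x.1.1.1 ∧ x.1.2 = 0) ∨
      ∃ y : VE n, v = Sum.inr y ∧ y.1.1 = x.1.1 ∧ y.1.2 + 1 = x.1.2)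
    (hw : (w = Sum.inl x.1.1.1 ∧ x.1.2 = 0) ∨
      ∃ y : VE n, w = Sum.inr y ∧ y.1.1 = x.1.1 ∧ y.1.2 + 1 = x.1.2) : v = w := by
  rcases hv with ⟨h1, h2⟩ | ⟨y, h1, h2, h3⟩ <;> rcases hw with ⟨k1, k2⟩ | ⟨z, k1, k2, k3⟩
  · rw [h1, k1]
  · omega
  · omega
  · rw [h1, k1, ve_ext24 (h2.trans k2.symm) (by omega)]

private theorem right24 {T : Type} (n : T × Fin 3 → ℕ) (M : T × Fin 3 → T × Fin 3 → Prop)
    (hM : Mat M) (x : VE n) (v w : T ⊕ VE n)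
    (hv : (∃ y : VE n, v = Sum.inr y ∧ y.1.1 = x.1.1 ∧ y.1.2 = x.1.2 + 1) ∨
      ∃ y : VE n, v = Sum.inr y ∧ M x.1.1 y.1.1 ∧ x.1.2 + 1 = n x.1.1 ∧ y.1.2 + 1 = n y.1.1)
    (hw : (∃ y : VE n, w = Sum.inr y ∧ y.1.1 = x.1.1 ∧ y.1.2 = x.1.2 + 1) ∨
      ∃ y : VE n, w = Sum.inr y ∧ M x.1.1 y.1.1 ∧ x.1.2 + 1 = n x.1.1 ∧ y.1.2 + 1 = n y.1.1) :
    v = w := by
  rcases hv with ⟨y, h1, h2, h3⟩ | ⟨y, h1, h2, h3, h4⟩ <;>
    rcases hw with ⟨z, k1, k2, k3⟩ | ⟨z, k1, k2, k3, k4⟩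
  · rw [h1, k1, ve_ext24 (h2.trans k2.symm) (by omega)]
  · have := y.2
    rw [h2] at this
    omega
  · have := z.2
    rw [k2] at this
    omega
  · have h5 := hM.func _ _ _ h2 k2
    rw [h5] at h4
    rw [h1, k1, ve_ext24 h5 (by omega)]

theorem jG_iff {T : Type} (n : T × Fin 3 → ℕ) (M : T × Fin 3 → T × Fin 3 → Prop) (hM : Mat M)
    (hn : ∀ b, 2 ≤ n b) (x : T ⊕ VE n) : jG (strG n M) x ↔ ∃ t, x = Sum.inl t := by
  constructor
  · intro h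
    rcases x with t | x
    · exact ⟨t, rfl⟩
    · exfalso
      obtain ⟨y, z, w, h1, h2, h3, hy, hz, hw⟩ := h
      rcases nb_inr24 n M x y hy with a | a <;> rcases nb_inr24 n M x z hz with b | b
      · exact h1 (left24 n x y z a b)
      · rcases nb_inr24 n M x w hw with c | c
        · exact h2 (left24 n x y w a c)
        · exact h3 (right24 n M hM x z w b c)
      · rcases nb_inr24 n M x w hw with c | c
        · exact h3 (left24 n x z w b c)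
        · exact h2 (right24 n M hM x y w a c)
      · exact h1 (right24 n M hM x y z a b)
  · rintro ⟨t, rfl⟩
    have h0 : ∀ σ : Fin 3, 0 < n (t, σ) := fun σ => by have := hn (t, σ); omega
    refine ⟨Sum.inr ⟨((t, 0), 0), h0 0⟩, Sum.inr ⟨((t, 1), 0), h0 1⟩, Sum.inr ⟨((t, 2), 0), h0 2⟩,
      ?_, ?_, ?_, ⟨rfl, rfl⟩, ⟨rfl, rfl⟩, ⟨rfl, rfl⟩⟩
    all_goals
      intro h
      have h1 := Sum.inr.inj h
      simp at h1

theorem legModel_G {T : Type} (n : T × Fin 3 → ℕ) (M : T × Fin 3 → T × Fin 3 → Prop) (hM : Mat M)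
    (hn : ∀ b, 2 ≤ n b) :
    LegModel (skG (T ⊕ VE n) (strG n M)) True n M (fun b i => Sum.inr (elE n hn b i))
      (fun t => Sum.inl t) := by
  have hel : ∀ b i (h : i < n b), elE n hn b i = ⟨(b, i), h⟩ := fun b i h => by
    unfold elE
    rw [dif_pos h]
  have h0 : ∀ b, 0 < n b := fun b => by have := hn b; omega
  have hnj : ∀ x : VE n, ¬ jG (strG n M) (Sum.inr x) := by
    intro x h
    obtain ⟨t, ht⟩ := (jG_iff n M hM hn _).1 h
    cases ht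
  have hj : ∀ t : T, jG (strG n M) (Sum.inl t : T ⊕ VE n) := fun t =>
    (jG_iff n M hM hn _).2 ⟨t, rfl⟩
  refine ⟨?_, ?_, ?_, ?_, ?_, ?_, ?_, ?_⟩
  · intro b i b' i' h h' he
    have he' := Sum.inr.inj he
    rw [hel b i h, hel b' i' h'] at he'
    have h1 := congrArg Subtype.val he'
    exact ⟨congrArg Prod.fst h1, congrArg Prod.snd h1⟩
  · intro b i v h
    constructor
    · rintro ⟨h1, h2, h3⟩
      rcases v with t | y
      · exact absurd (hj t) h3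
      · rw [hel b i h] at h1
        exact ⟨y.1.1, y.1.2, y.2, by rw [hel _ _ y.2], h1⟩
    · rintro ⟨b', i', h1, rfl, h2⟩
      refine ⟨?_, hnj _, hnj _⟩
      rw [hel b i h, hel b' i' h1]
      exact h2
  · intro v
    constructor
    · rintro ⟨j, h1, h2⟩
      obtain ⟨t, rfl⟩ := (jG_iff n M hM hn _).1 h1
      rcases v with t' | y
      · exact absurd h2 (fun h => h)
      · obtain ⟨h3, h4⟩ := (show y.1.2 = 0 ∧ y.1.1.1 = t from h2)
        refine ⟨y.1.1, ?_⟩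
        rw [hel _ _ (h0 _)]
        exact congrArg Sum.inr (ve_ext24 rfl h3)
    · rintro ⟨b, rfl⟩
      refine ⟨Sum.inl b.1, hj _, ?_⟩
      rw [hel _ _ (h0 _)]
      exact ⟨rfl, rfl⟩
  · intro b v
    constructor
    · rintro ⟨j, h1, h2, h3⟩
      obtain ⟨t, rfl⟩ := (jG_iff n M hM hn _).1 h1
      rw [hel _ _ (h0 _)] at h2
      obtain ⟨_, h5⟩ := (show (0 : ℕ) = 0 ∧ b.1 = t from h2)
      rcases v with t' | y
      · exact absurd h3 (fun h => h)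
      · obtain ⟨h6, h7⟩ := (show y.1.2 = 0 ∧ y.1.1.1 = t from h3)
        refine ⟨y.1.1.2, ?_⟩
        rw [hel _ _ (h0 _)]
        exact congrArg Sum.inr (ve_ext24 (Prod.ext (h7.trans h5.symm) rfl) h6)
    · rintro ⟨σ, rfl⟩
      refine ⟨Sum.inl b.1, hj _, ?_, ?_⟩
      · rw [hel _ _ (h0 _)]
        exact ⟨rfl, rfl⟩
      · rw [hel _ _ (h0 _)]
        exact ⟨rfl, rfl⟩
  · intro b v
    constructor
    · rintro ⟨h1, h2⟩
      obtain ⟨t, rfl⟩ := (jG_iff n M hM hn _).1 h1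
      rw [hel _ _ (h0 _)] at h2
      obtain ⟨_, h5⟩ := (show (0 : ℕ) = 0 ∧ b.1 = t from h2)
      exact ⟨trivial, by rw [h5]⟩
    · rintro ⟨_, rfl⟩
      refine ⟨hj _, ?_⟩
      rw [hel _ _ (h0 _)]
      exact ⟨rfl, rfl⟩
  · intro _ t t' h
    exact Sum.inl.inj h
  · intro _ t b i _ h
    cases h
  · rintro (t | y)
    · exact Or.inr ⟨trivial, t, rfl⟩
    · exact Or.inl ⟨y.1.1, y.1.2, y.2, by rw [hel _ _ y.2]⟩

end Pool.Agent.Helper20.FS
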