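import Pool.Agent.Helper20.FS.TriTail

/-!
# Block FS-T8b: paths leaving a longest path

If `M ≤ i`, `i + M < n` and `M ≤ m` then `tri_of_tail` (the tail `t` is off the path) contradicts `hT`, so `m < M`.  If `i < M`: the
path `t (m - 1), ..., t 0, p i, ..., p (n - 1)` has `m + (n - i)` vertices (`IsPath.rev`, `IsPath.final`, `IsPath.join`), so `m ≤ i`.
If `n ≤ i + M`: the path `p 0, ..., p i, t 0, ..., t (m - 1)` has `i + 1 + m ≤ n` vertices.  (`m = 0` is trivial.)
-/

set_option autoImplicit false

namespace Pool.Agent.Helper20.FS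

variable {V : Type} [DecidableEq V] {G : V → V → Prop}

theorem off_len (hG : ∀ x y, G x y → G y x) {C : Finset V} {n M i m : ℕ} {p t : ℕ → V}
    (hp : IsPath G C n p) (hmax : ∀ m f, IsPath G C m f → m ≤ n) (hT : ¬ Tri G C M) (hi : i < n)
    (ht : IsPath G (C \ (Finset.range n).image p) m t) (hit : G (p i) (t 0)) : m ≤ M := by
  by_contra hcon
  have hsub : C \ (Finset.range n).image p ⊆ C := Finset.sdiff_subset
  have htC : IsPath G C m t := ht.mono hsub
  have hd : ∀ a b, a < m → b < n → t a ≠ p b := by
    intro a b ha hb h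
    have h1 := ht.1 a ha
    rw [Finset.mem_sdiff] at h1
    exact h1.2 (Finset.mem_image.mpr ⟨b, Finset.mem_range.mpr hb, h.symm⟩)
  by_cases h1 : i < M
  · have h2 := (htC.rev hG).join (hp.final (i := i)) (fun a b ha hb => by
      exact hd _ _ (by omega) (by omega)) (fun hm _ => by
      have e : m - 1 - (m - 1) = 0 := by omega
      change G (t (m - 1 - (m - 1))) (p (i + 0))
      rw [e]
      exact hG _ _ hit)
    have h3 := hmax _ _ h2
    omega
  · by_cases h2 : n ≤ i + M
    · have h3 := (hp.init (m := i + 1) (by omega)).join htC (fun a b ha hb h => by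
        exact hd _ _ hb (by omega) h.symm) (fun _ _ => by
        rw [Nat.add_sub_cancel]
        exact hit)
      have h4 := hmax _ _ h3
      omega
    · exact hT (tri_of_tail hG hp (by omega) (by omega) (htC.init (m := M) (by omega))
        (fun _ => hit) (fun a b ha _ hb => hd _ _ (by omega) (by omega)))

end Pool.Agent.Helper20.FS
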