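import Pool.Agent.Helper20.FS.Sw

/-!
# Block FS-T7: paths

`exists_longest`: the number of vertices of a path in `C` is at most `C.card` (injectivity); a one-vertex path exists.
The other statements are clear (case distinctions and `omega`).
-/

set_option autoImplicit false

namespace Pool.Agent.Helper20.FS

variable {V : Type} [DecidableEq V] {G : V → V → Prop}

private lemma path_card {C : Finset V} {n : ℕ} {p : ℕ → V} (h : IsPath G C n p) : n ≤ C.card := by
  have h1 : (Finset.range n).card ≤ C.card := by
    apply Finset.card_le_card_of_injOn p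
    · intro i hi
      exact h.1 i (Finset.mem_range.1 hi)
    · intro i hi j hj hij
      exact h.2.2 i j (Finset.mem_range.1 hi) (Finset.mem_range.1 hj) hij
  rwa [Finset.card_range] at h1

theorem exists_longest (G : V → V → Prop) (C : Finset V) (hC : C.Nonempty) :
    ∃ n p, 1 ≤ n ∧ IsPath G C n p ∧ ∀ m f, IsPath G C m f → m ≤ n := by
  classical
  obtain ⟨c, hc⟩ := hC
  have h1 : IsPath G C 1 (fun _ => c) :=
    ⟨fun _ _ => hc, fun i hi => by omega, fun i j hi hj _ => by omega⟩
  set Q : ℕ → Prop := fun n => ∃ p, IsPath G C n p with hQ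
  have hQ1 : Q 1 := ⟨_, h1⟩
  have hbd : ∀ n, Q n → n ≤ C.card := fun n ⟨p, hp⟩ => path_card hp
  have hs : Q (Nat.findGreatest Q C.card) := Nat.findGreatest_spec (hbd 1 hQ1) hQ1
  obtain ⟨p, hp⟩ := hs
  exact ⟨_, p, Nat.le_findGreatest (hbd 1 hQ1) hQ1, hp, fun m f hf =>
    Nat.le_findGreatest (hbd m ⟨f, hf⟩) ⟨f, hf⟩⟩

/-- an initial part of a path -/
theorem IsPath.init {C : Finset V} {n m : ℕ} {p : ℕ → V} (h : IsPath G C n p) (hm : m ≤ n) :
    IsPath G C m p :=
  ⟨fun i hi => h.1 i (by omega), fun i hi => h.2.1 i (by omega),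
    fun i j hi hj => h.2.2 i j (by omega) (by omega)⟩

/-- a final part of a path -/
theorem IsPath.final {C : Finset V} {n i : ℕ} {p : ℕ → V} (h : IsPath G C n p) :
    IsPath G C (n - i) (fun a => p (i + a)) := by
  refine ⟨fun a ha => h.1 _ (by omega), fun a ha => ?_, fun a b ha hb hab => ?_⟩
  · exact h.2.1 (i + a) (by omega)
  · have := h.2.2 _ _ (by omega) (by omega) hab
    omega

theorem IsPath.mono {C C' : Finset V} {n : ℕ} {p : ℕ → V} (h : IsPath G C n p) (hC : C ⊆ C') :
    IsPath G C' n p :=
  ⟨fun i hi => hC (h.1 i hi), h.2.1, h.2.2⟩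

/-- joining two disjoint paths -/
theorem IsPath.join {C : Finset V} {n m : ℕ} {p t : ℕ → V} (h : IsPath G C n p)
    (h' : IsPath G C m t) (hd : ∀ i j, i < n → j < m → p i ≠ t j)
    (hj : 1 ≤ n → 1 ≤ m → G (p (n - 1)) (t 0)) :
    IsPath G C (n + m) (fun a => if a < n then p a else t (a - n)) := by
  refine ⟨fun a ha => ?_, fun a ha => ?_, fun a b ha hb hab => ?_⟩
  · by_cases h1 : a < n
    · simp only [if_pos h1]
      exact h.1 a h1
    · simp only [if_neg h1]
      exact h'.1 _ (by omega)
  · by_cases h1 : a + 1 < n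
    · simp only [if_pos h1, if_pos (show a < n by omega)]
      exact h.2.1 a h1
    · by_cases h2 : a < n
      · simp only [if_neg h1, if_pos h2]
        have e1 : a = n - 1 := by omega
        have e2 : a + 1 - n = 0 := by omega
        rw [e2, e1]
        exact hj (by omega) (by omega)
      · simp only [if_neg h1, if_neg h2]
        have e2 : a + 1 - n = (a - n) + 1 := by omega
        rw [e2]
        exact h'.2.1 _ (by omega)
  · by_cases h1 : a < n
    · by_cases h2 : b < n
      · simp only [if_pos h1, if_pos h2] at hab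
        exact h.2.2 a b h1 h2 hab
      · simp only [if_pos h1, if_neg h2] at hab
        exact absurd hab (hd _ _ h1 (by omega))
    · by_cases h2 : b < n
      · simp only [if_neg h1, if_pos h2] at hab
        exact absurd hab.symm (hd _ _ h2 (by omega))
      · simp only [if_neg h1, if_neg h2] at hab
        have := h'.2.2 _ _ (by omega) (by omega) hab
        omega

/-- a path read backwards -/
theorem IsPath.rev (hG : ∀ x y, G x y → G y x) {C : Finset V} {n : ℕ} {p : ℕ → V}
    (h : IsPath G C n p) : IsPath G C n (fun a => p (n - 1 - a)) := by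
  refine ⟨fun a ha => h.1 _ (by omega), fun a ha => ?_, fun a b ha hb hab => ?_⟩
  · have h1 := h.2.1 (n - 1 - (a + 1)) (by omega)
    have e1 : n - 1 - (a + 1) + 1 = n - 1 - a := by omega
    rw [e1] at h1
    exact hG _ _ h1
  · have := h.2.2 _ _ (by omega) (by omega) hab
    omega

end Pool.Agent.Helper20.FS
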