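import Pool.Agent.Helper20.FS.Skel
import Pool.Agent.Helper20.FS.FCod

/-!
# Block FS-K4a: the matching and the lengths

`mat_skM`: case distinctions; for the middle legs the number of the tripod determines `j` and whether it is even or odd; `func` uses both parts of
`PInj`.  `skN_even`, `skN_le`: unfold `skN`, `len`, `le`, `re`, `dm`.  `skN_sum`: for each colour `κ < q` the sum of the 36 numbers
`len k q κ i σ` is `72 k + 1290 + 4 q` (expand the sums over `Fin 12` and `Fin 3`, `omega`; note `2 * q - κ`).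
-/

set_option autoImplicit false

namespace Pool.Agent.Helper20.FS

theorem mat_skM {Z : Type} {f : Fin 6 → Z → Z → Prop} (hf : ∀ j, PInj (f j)) :
    Mat (skM f) := by
  constructor
  · rintro ⟨⟨z, i⟩, s⟩ ⟨⟨z', i'⟩, s'⟩ (⟨h1, h2, h3, h4⟩ | ⟨h1, h2, h3, h4⟩ | ⟨h1, h2, j, h3 | h3⟩)
    · exact Or.inr (Or.inl ⟨h1.symm, h3, h2, h4⟩)
    · exact Or.inl ⟨h1.symm, h3, h2, h4⟩
    · exact Or.inr (Or.inr ⟨h2, h1, j, Or.inr ⟨h3.2.1, h3.1, h3.2.2⟩⟩)
    · exact Or.inr (Or.inr ⟨h2, h1, j, Or.inl ⟨h3.2.1, h3.1, h3.2.2⟩⟩)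
  · have key : ∀ {z z' z'' : Z} {i i' i'' : Fin 12} {j j' : Fin 6},
        ((i.1 = 2 * j.1 ∧ i'.1 = 2 * j.1 + 1 ∧ f j z z') ∨
          (i.1 = 2 * j.1 + 1 ∧ i'.1 = 2 * j.1 ∧ f j z' z)) →
        ((i.1 = 2 * j'.1 ∧ i''.1 = 2 * j'.1 + 1 ∧ f j' z z'') ∨
          (i.1 = 2 * j'.1 + 1 ∧ i''.1 = 2 * j'.1 ∧ f j' z'' z)) → z' = z'' ∧ i' = i'' := by
      intro z z' z'' i i' i'' j j' h h'
      have hj : j = j' := by
        apply Fin.ext
        rcases h with h | h <;> rcases h' with h' | h' <;> omega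
      subst hj
      have hi : i' = i'' := by
        apply Fin.ext
        rcases h with h | h <;> rcases h' with h' | h' <;> omega
      refine ⟨?_, hi⟩
      rcases h with h | h <;> rcases h' with h' | h'
      · exact (hf j).1 _ _ _ h.2.2 h'.2.2
      · exfalso
        omega
      · exfalso
        omega
      · exact (hf j).2 _ _ _ h.2.2 h'.2.2
    have key2 : ∀ {i' i'' : Fin 12} {n : ℕ}, i'.1 = n → i''.1 = n → i' = i'' :=
      fun h h' => Fin.ext (h.trans h'.symm)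
    rintro ⟨⟨z, i⟩, s⟩ ⟨⟨z', i'⟩, s'⟩ ⟨⟨z'', i''⟩, s''⟩
      (⟨h1, h2, h3, h4⟩ | ⟨h1, h2, h3, h4⟩ | ⟨h1, h2, j, h3⟩)
      (⟨k1, k2, k3, k4⟩ | ⟨k1, k2, k3, k4⟩ | ⟨k1, k2, j', k3⟩) <;> simp only at *
    · rw [← h1, ← k1, h3, k3, key2 h4 k4]
    · rw [h2] at k2
      exact absurd k2 (by decide)
    · rw [h2] at k1
      exact absurd k1 (by decide)
    · rw [h2] at k2
      exact absurd k2 (by decide)
    · have h5 : i' = i'' := Fin.ext (by omega)
      rw [← h1, ← k1, h3, k3, h5]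
    · rw [h2] at k1
      exact absurd k1 (by decide)
    · rw [h1] at k2
      exact absurd k2 (by decide)
    · rw [h1] at k2
      exact absurd k2 (by decide)
    · obtain ⟨h5, h6⟩ := key h3 k3
      rw [h5, h6, h2, k2]
  · rintro ⟨⟨z, i⟩, s⟩ (⟨h1, h2, h3, h4⟩ | ⟨h1, h2, h3, h4⟩ | ⟨h1, h2, j, h3 | h3⟩) <;>
      simp only at * <;> omega

theorem skN_even {Z : Type} (k q : ℕ) (c : Z → Fin q) (b : (Z × Fin 12) × Fin 3) :
    skN k q c b % 2 = 0 := by
  unfold skN len le re dm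
  split_ifs <;> omega

theorem skN_le {Z : Type} (k q : ℕ) (c : Z → Fin q) (b : (Z × Fin 12) × Fin 3) :
    2 * k ≤ skN k q c b := by
  unfold skN len le re dm
  split_ifs <;> omega

theorem len_sum (k q κ : ℕ) (hκ : κ < q) :
    ∑ i : Fin 12, ∑ σ : Fin 3, len k q κ i σ = mk0 k q := by
  rw [Fin.sum_univ_eq_sum_range (fun i => ∑ σ : Fin 3, len k q κ i σ) 12]
  simp only [Finset.sum_range_succ, Finset.sum_range_zero, Fin.sum_univ_three]
  simp [len, dm, le, re, mk0]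
  omega

end Pool.Agent.Helper20.FS
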