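import Pool.Agent.Helper20.FS.LD
import Pool.Agent.Helper20.FS.SkMat

/-!
# Block FS-K4b: reading the skeleton in the model

In the model with legs `(Z × Fin 12) × Fin 3`, lengths `skN k q c` and matching `skM f`, with `k ≥ 1` (so all lengths are `≥ 2`).  Facts on
the lengths: the number of elements of the connection `(z, i, 2)`-`(z, i + 1, 0)` is `cl k i`, of `(z, 2 j, 1)`-`(z', 2 j + 1, 1)` it is
`mu k j`; `cl k i ≤ 2 (2 k + 10)`, `mu k j ≥ 2 (2 k + 60)`, all these numbers are different.  The unmatched legs are `(z, 0, 0)` of length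
`le k (c z)`, `(z, 11, 2)` of length `re k q (c z)`, and some middle legs `(z, i, 1)` of length `dm k i`; all the numbers `dm k i` (`i < 12`),
`le k κ`, `re k q κ` (`κ < q`) are different (`dm < 2 (k + 46)`, `le < 2 (k + 100 + q) < re`).
`cell_iff`, `col_iff`: `D_iff`.  `lf_iff`: induction on `i`: from `w = el ((z, i), 0) 0` the elements `v` with `s.tr w v` are the
`el ((z, i), σ) 0`, and `s.L (cl k i) v y` only holds for `σ = 2`, `y = el ((z, i + 1), 0) 0` (`L_iff`).  `role_iff`: `s.mid k i y` with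
`y = el ((z, i), σ) 0` only for `σ = 1`, and it holds for `σ = 1` (matched or not: the middle leg `(z, i, 1)` with `i = 2 j` is matched with a leg
`(z', 2 j + 1, 1)`, total length `mu k j`); `s.rgt k q i y` only for `σ = 2`.
-/

set_option autoImplicit false

namespace Pool.Agent.Helper20.FS

variable {V Z : Type} {s : SkRel V} {g : Prop} {k q : ℕ} {c : Z → Fin q}
  {f : Fin 6 → Z → Z → Prop} {el : (Z × Fin 12) × Fin 3 → ℕ → V} {jn : Z × Fin 12 → V}

private theorem skN_zero {k q : ℕ} {c : Z → Fin q} {z : Z} {i : Fin 12} :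
    skN k q c ((z, i), 0) = if i.1 = 0 then le k (c z).1 else 2 * k := by
  simp [skN, len]

private theorem skN_zero0 {k q : ℕ} {c : Z → Fin q} {z : Z} :
    skN k q c ((z, 0), 0) = le k (c z).1 := by
  rw [skN_zero]
  rfl

private theorem skN_one {k q : ℕ} {c : Z → Fin q} {z : Z} {i : Fin 12} :
    skN k q c ((z, i), 1) = dm k i.1 := by
  simp [skN, len]

private theorem skN_two {k q : ℕ} {c : Z → Fin q} {z : Z} {i : Fin 12} :
    skN k q c ((z, i), 2) = if i.1 = 11 then re k q (c z).1 else 2 * (k + i.1) := by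
  simp [skN, len]

private theorem fin3_cases (σ : Fin 3) : σ = 0 ∨ σ = 1 ∨ σ = 2 := by
  revert σ
  decide

private theorem dm_bd (k : ℕ) {i : ℕ} (hi : i < 12) : 2 * (k + 20) ≤ dm k i ∧ dm k i ≤ 2 * (k + 45) := by
  unfold dm
  split_ifs <;> omega

private theorem skN_ge (k q : ℕ) (hk : 1 ≤ k) (c : Z → Fin q) (b : (Z × Fin 12) × Fin 3) :
    2 ≤ skN k q c b := by
  have := skN_le k q c b
  omega

/-- the value of the sum of the lengths of matched legs -/
private theorem skM_sum {k q : ℕ} {c : Z → Fin q} {f : Fin 6 → Z → Z → Prop} {z : Z} {i : Fin 12}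
    {σ : Fin 3} {b' : (Z × Fin 12) × Fin 3} (hM : skM f ((z, i), σ) b') :
    (σ = 2 ∧ i.1 ≠ 11 ∧ (∃ h : i.1 + 1 < 12, b' = ((z, ⟨i.1 + 1, h⟩), 0)) ∧
      skN k q c ((z, i), σ) + skN k q c b' = cl k i.1) ∨
    (σ = 0 ∧ i.1 ≠ 0 ∧ skN k q c ((z, i), σ) + skN k q c b' = cl k (i.1 - 1)) ∨
    (σ = 1 ∧ skN k q c ((z, i), σ) + skN k q c b' = mu k (i.1 / 2)) := by
  obtain ⟨⟨z', i'⟩, σ'⟩ := b'
  have hi := i.2
  have hi' := i'.2
  rcases hM with ⟨h1, h2, h3, h4⟩ | ⟨h1, h2, h3, h4⟩ | ⟨h2, h3, j, hj⟩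
  · simp only at h1 h2 h3 h4
    subst h1 h2 h3
    left
    refine ⟨rfl, by omega, ⟨by omega, ?_⟩, ?_⟩
    · refine Prod.ext (Prod.ext rfl (Fin.ext h4)) rfl
    · rw [skN_two, skN_zero, if_neg (by omega), if_neg (by omega)]
      unfold cl
      omega
  · simp only at h1 h2 h3 h4
    subst h1 h2 h3
    right; left
    refine ⟨rfl, by omega, ?_⟩
    rw [skN_two, skN_zero, if_neg (by omega), if_neg (by omega)]
    unfold cl
    omega
  · simp only at h2 h3 hj
    subst h2 h3
    right; right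
    refine ⟨rfl, ?_⟩
    rw [skN_one, skN_one]
    have hj6 := j.2
    rcases hj with ⟨h4, h5, -⟩ | ⟨h4, h5, -⟩
    · rw [h4, h5]
      unfold dm mu
      rw [if_pos (by omega), if_neg (by omega)]
      omega
    · rw [h4, h5]
      unfold dm mu
      rw [if_neg (by omega), if_pos (by omega)]
      omega

private theorem el_inj (h : LegModel s g (skN k q c) (skM f) el jn) (hk : 1 ≤ k)
    {b b' : (Z × Fin 12) × Fin 3} (e : el b 0 = el b' 0) : b = b' := by
  have h1 := skN_ge k q hk c b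
  have h2 := skN_ge k q hk c b'
  exact (h.inj b 0 b' 0 (by omega) (by omega) e).1

private theorem D_el (h : LegModel s g (skN k q c) (skM f) el jn) (hf : ∀ j, PInj (f j))
    (hk : 1 ≤ k) {l : ℕ} (hl : 2 ≤ l) (b : (Z × Fin 12) × Fin 3) :
    s.D l (el b 0) ↔ (∀ b', ¬ skM f b b') ∧ l = skN k q c b := by
  rw [h.D_iff (mat_skM hf) (skN_ge k q hk c) hl]
  constructor
  · rintro ⟨b1, e, h1, h2⟩
    have := el_inj h hk e
    subst this
    exact ⟨h1, h2⟩
  · rintro ⟨h1, h2⟩
    exact ⟨b, rfl, h1, h2⟩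

theorem cell_iff (h : LegModel s g (skN k q c) (skM f) el jn) (hf : ∀ j, PInj (f j)) (hk : 1 ≤ k)
    (x : V) : s.cell k q x ↔ ∃ z, x = el ((z, 0), 0) 0 := by
  constructor
  · rintro ⟨κ, hκ, hD⟩
    rw [h.D_iff (mat_skM hf) (skN_ge k q hk c) (by unfold le; omega)] at hD
    obtain ⟨⟨⟨z, i⟩, σ⟩, rfl, -, hl⟩ := hD
    have hi := i.2
    have hc := (c z).2
    rcases fin3_cases σ with rfl | rfl | rfl
    · rw [skN_zero] at hl
      by_cases h0 : i.1 = 0
      · have : i = 0 := Fin.ext h0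
        rw [this]
        exact ⟨z, rfl⟩
      · rw [if_neg h0] at hl
        unfold le at hl
        omega
    · rw [skN_one] at hl
      have := dm_bd k hi
      unfold le at hl
      omega
    · rw [skN_two] at hl
      unfold le re at hl
      split_ifs at hl <;> omega
  · rintro ⟨z, rfl⟩
    refine ⟨(c z).1, (c z).2, ?_⟩
    rw [D_el h hf hk (by unfold le; omega)]
    refine ⟨fun b' hM => ?_, ?_⟩
    · rcases skM_sum (k := k) (c := c) hM with ⟨h1, -⟩ | ⟨-, h1, -⟩ | ⟨h1, -⟩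
      · exact absurd h1 (by decide)
      · exact h1 rfl
      · exact absurd h1 (by decide)
    · rw [skN_zero0]

theorem col_iff (h : LegModel s g (skN k q c) (skM f) el jn) (hf : ∀ j, PInj (f j)) (hk : 1 ≤ k)
    (z : Z) (κ : ℕ) (hκ : κ < q) : s.D (le k κ) (el ((z, 0), 0) 0) ↔ (c z).1 = κ := by
  rw [D_el h hf hk (by unfold le; omega), skN_zero0]
  constructor
  · rintro ⟨-, h1⟩
    unfold le at h1
    omega
  · intro h1
    refine ⟨fun b' hM => ?_, by rw [h1]⟩
    rcases skM_sum (k := k) (c := c) hM with ⟨h1, -⟩ | ⟨-, h1, -⟩ | ⟨h1, -⟩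
    · exact absurd h1 (by decide)
    · exact h1 rfl
    · exact absurd h1 (by decide)

private theorem lf_aux (h : LegModel s g (skN k q c) (skM f) el jn) (hf : ∀ j, PInj (f j))
    (hk : 1 ≤ k) (z : Z) (i : ℕ) : ∀ (hi : i < 12) (y : V),
    s.lf k q i (el ((z, 0), 0) 0) y ↔ y = el ((z, ⟨i, hi⟩), 0) 0 := by
  induction i with
  | zero =>
    intro hi y
    constructor
    · rintro ⟨-, rfl⟩
      rfl
    · rintro rfl
      exact ⟨(cell_iff h hf hk _).2 ⟨z, rfl⟩, rfl⟩
  | succ i ih =>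
    intro hi y
    have hi' : i < 12 := by omega
    constructor
    · rintro ⟨w, v, h1, h2, h3⟩
      rw [ih hi'] at h1
      subst h1
      rw [h.tr_iff] at h2
      obtain ⟨σ, rfl⟩ := h2
      rw [h.L_iff (mat_skM hf) (skN_ge k q hk c) (by unfold cl; omega)] at h3
      obtain ⟨b', hM, hl, rfl⟩ := h3
      rcases skM_sum (k := k) (c := c) hM with ⟨-, -, ⟨h4, rfl⟩, -⟩ | ⟨-, h1, h2⟩ | ⟨-, h2⟩
      · rfl
      · rw [h2] at hl
        simp only at h1 hl
        unfold cl at hl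
        omega
      · rw [h2] at hl
        simp only at hl
        unfold cl mu at hl
        omega
    · rintro rfl
      refine ⟨el ((z, ⟨i, hi'⟩), 0) 0, el ((z, ⟨i, hi'⟩), 2) 0, (ih hi' _).2 rfl, ?_, ?_⟩
      · rw [h.tr_iff]
        exact ⟨2, rfl⟩
      · rw [h.L_iff (mat_skM hf) (skN_ge k q hk c) (by unfold cl; omega)]
        refine ⟨((z, ⟨i + 1, hi⟩), 0), Or.inl ⟨rfl, rfl, rfl, rfl⟩, ?_, rfl⟩
        rw [skN_two, skN_zero, if_neg (by simp only; omega), if_neg (by simp only; omega)]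
        unfold cl
        simp only
        omega

theorem lf_iff (h : LegModel s g (skN k q c) (skM f) el jn) (hf : ∀ j, PInj (f j)) (hk : 1 ≤ k)
    (z : Z) (i : Fin 12) (y : V) :
    s.lf k q i.1 (el ((z, 0), 0) 0) y ↔ y = el ((z, i), 0) 0 :=
  lf_aux h hf hk z i.1 i.2 y

private theorem mid_iff (h : LegModel s g (skN k q c) (skM f) el jn) (hf : ∀ j, PInj (f j))
    (hk : 1 ≤ k) (z : Z) (i : Fin 12) (σ : Fin 3) :
    s.mid k i.1 (el ((z, i), σ) 0) ↔ σ = 1 := by
  have hi := i.2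
  have hc := (c z).2
  have hb := dm_bd k hi
  constructor
  · rintro (⟨y', hL⟩ | hD)
    · rw [h.L_iff (mat_skM hf) (skN_ge k q hk c) (by unfold mu; omega)] at hL
      obtain ⟨b', hM, hl, rfl⟩ := hL
      rcases skM_sum (k := k) (c := c) hM with ⟨-, h4, -, h2⟩ | ⟨-, h1, h2⟩ | ⟨h1, -⟩
      · rw [h2] at hl
        unfold cl mu at hl
        omega
      · rw [h2] at hl
        unfold cl mu at hl
        omega
      · exact h1
    · rw [D_el h hf hk (by omega)] at hD
      obtain ⟨-, hl⟩ := hD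
      rcases fin3_cases σ with rfl | rfl | rfl
      · rw [skN_zero] at hl
        unfold le at hl
        split_ifs at hl <;> omega
      · rfl
      · rw [skN_two] at hl
        unfold re at hl
        split_ifs at hl <;> omega
  · rintro rfl
    by_cases hM : ∃ b', skM f ((z, i), 1) b'
    · obtain ⟨b', hM⟩ := hM
      left
      refine ⟨el b' 0, ?_⟩
      rw [h.L_iff (mat_skM hf) (skN_ge k q hk c) (by unfold mu; omega)]
      rcases skM_sum (k := k) (c := c) hM with ⟨h1, -⟩ | ⟨h1, -⟩ | ⟨-, h2⟩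
      · exact absurd h1 (by decide)
      · exact absurd h1 (by decide)
      · exact ⟨b', hM, h2.symm, rfl⟩
    · right
      rw [D_el h hf hk (by omega)]
      exact ⟨fun b' hM' => hM ⟨b', hM'⟩, skN_one.symm⟩

private theorem rgt_iff (h : LegModel s g (skN k q c) (skM f) el jn) (hf : ∀ j, PInj (f j))
    (hk : 1 ≤ k) (z : Z) (i : Fin 12) (σ : Fin 3) :
    s.rgt k q i.1 (el ((z, i), σ) 0) ↔ σ = 2 := by
  have hi := i.2
  have hc := (c z).2
  have hb := dm_bd k hi
  constructor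
  · rintro (⟨hi11, y', hL⟩ | ⟨hi11, κ, hκ, hD⟩)
    · rw [h.L_iff (mat_skM hf) (skN_ge k q hk c) (by unfold cl; omega)] at hL
      obtain ⟨b', hM, hl, rfl⟩ := hL
      rcases skM_sum (k := k) (c := c) hM with ⟨h1, -⟩ | ⟨-, h1, h2⟩ | ⟨-, h2⟩
      · exact h1
      · rw [h2] at hl
        unfold cl at hl
        omega
      · rw [h2] at hl
        unfold cl mu at hl
        omega
    · rw [D_el h hf hk (by unfold re; omega)] at hD
      obtain ⟨-, hl⟩ := hD
      rcases fin3_cases σ with rfl | rfl | rfl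
      · rw [skN_zero, if_neg (by omega)] at hl
        unfold re at hl
        omega
      · rw [skN_one] at hl
        unfold re at hl
        omega
      · rfl
  · rintro rfl
    by_cases hi11 : i.1 = 11
    · right
      refine ⟨hi11, (c z).1, hc, ?_⟩
      rw [D_el h hf hk (by unfold re; omega)]
      refine ⟨fun b' hM => ?_, ?_⟩
      · rcases skM_sum (k := k) (c := c) hM with ⟨-, h1, -⟩ | ⟨h1, -⟩ | ⟨h1, -⟩
        · exact h1 hi11
        · exact absurd h1 (by decide)
        · exact absurd h1 (by decide)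
      · rw [skN_two, if_pos hi11]
    · left
      refine ⟨hi11, el ((z, ⟨i.1 + 1, by omega⟩), 0) 0, ?_⟩
      rw [h.L_iff (mat_skM hf) (skN_ge k q hk c) (by unfold cl; omega)]
      refine ⟨((z, ⟨i.1 + 1, by omega⟩), 0), Or.inl ⟨rfl, rfl, rfl, rfl⟩, ?_, rfl⟩
      rw [skN_two, skN_zero, if_neg hi11, if_neg (by simp only; omega)]
      unfold cl
      omega

theorem role_iff (h : LegModel s g (skN k q c) (skM f) el jn) (hf : ∀ j, PInj (f j)) (hk : 1 ≤ k)
    (z : Z) (i : Fin 12) (σ : Fin 3) (y : V) :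
    s.role k q i.1 σ (el ((z, 0), 0) 0) y ↔ y = el ((z, i), σ) 0 := by
  constructor
  · rintro (⟨rfl, h1⟩ | ⟨rfl, w, h1, h2, h3⟩ | ⟨rfl, w, h1, h2, h3⟩)
    · exact (lf_iff h hf hk z i y).1 h1
    · rw [lf_iff h hf hk] at h1
      subst h1
      rw [h.tr_iff] at h2
      obtain ⟨σ, rfl⟩ := h2
      rw [(mid_iff h hf hk z i σ).1 h3]
    · rw [lf_iff h hf hk] at h1
      subst h1
      rw [h.tr_iff] at h2
      obtain ⟨σ, rfl⟩ := h2
      rw [(rgt_iff h hf hk z i σ).1 h3]
  · rintro rfl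
    rcases fin3_cases σ with rfl | rfl | rfl
    · exact Or.inl ⟨rfl, (lf_iff h hf hk z i _).2 rfl⟩
    · refine Or.inr (Or.inl ⟨rfl, _, (lf_iff h hf hk z i _).2 rfl, ?_, ?_⟩)
      · rw [h.tr_iff]
        exact ⟨1, rfl⟩
      · exact (mid_iff h hf hk z i 1).2 rfl
    · refine Or.inr (Or.inr ⟨rfl, _, (lf_iff h hf hk z i _).2 rfl, ?_, ?_⟩)
      · rw [h.tr_iff]
        exact ⟨2, rfl⟩
      · exact (rgt_iff h hf hk z i 2).2 rfl

end Pool.Agent.Helper20.FS
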