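import Pool.Agent.Helper20.FS.SkDef
import Pool.Agent.Helper20.FS.Relat

/-!
# Skeleton codes

`relOf s k q`: the `6 + q` relations on the cells read off from a skeleton.  `SkCode`: the structure on the cells satisfies `P`, each
element belongs to exactly one cell, each cell owns exactly `m` elements.
-/

set_option autoImplicit false

namespace Pool.Agent.Helper20.FS

open Pool.Agent.Helper20.OP

/-- the relations on the cells -/
def relOf {V : Type} (s : SkRel V) (k q : ℕ) (r : Fin (6 + q)) : V → V → Prop :=
  Fin.addCases (motive := fun _ => V → V → Prop) (fun j : Fin 6 => s.F k q j.1)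
    (fun (i : Fin q) x y => x = y ∧ s.D (le k i.1) x) r

/-- skeleton codes -/
def SkCode {b : ℕ} (sk : ∀ V : Type, Str b V → SkRel V) (k q m : ℕ)
    (P : ∀ V : Type, Str (6 + q) V → Prop) (V : Type) (R : Str b V) : Prop :=
  P {x // (sk V R).cell k q x} (fun r x y => relOf (sk V R) k q r x.1 y.1) ∧
    (∀ v, ∃ x, (sk V R).own k q v x ∧ ∀ x', (sk V R).own k q v x' → x' = x) ∧
    ∀ x, (sk V R).cell k q x → Exactly m (fun v => (sk V R).own k q v x)

end Pool.Agent.Helper20.FS
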