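import Pool.Agent.Helper20.FS.SkCode

/-!
# Block FS-K7a: skeleton codes are definable

`def_relat` with `Z := cell` and `ρ := relOf` (case distinction by `Fin.addCases` on `r`: `hsk.F`, and `Def.and (Def.eq _ _)` with `hsk.D`), and the
closure lemmas of `Def` with `hsk.own`, `hsk.cell`, `Def.exactly`.
-/

set_option autoImplicit false

namespace Pool.Agent.Helper20.FS

open Pool.Agent.Helper20.OP

theorem def_skCode {b : ℕ} {sk : ∀ V : Type, Str b V → SkRel V} (hsk : DefSk sk) (k q m : ℕ)
    {P : ∀ V : Type, Str (6 + q) V → Prop} (hP : Def0 (6 + q) P) :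
    Def0 b (SkCode sk k q m P) := by
  have hρ : ∀ r : Fin (6 + q), Def2 b (fun V R => relOf (sk V R) k q r) := by
    intro r
    refine Fin.addCases (fun j => ?_) (fun i => ?_) r
    · have h1 : (fun V (R : Str b V) => relOf (sk V R) k q (Fin.castAdd q j)) =
          fun V R => (sk V R).F k q j.1 := by
        funext V R
        unfold relOf
        rw [Fin.addCases_left]
      rw [h1]
      exact hsk.F k q j.1
    · have h1 : (fun V (R : Str b V) => relOf (sk V R) k q (Fin.natAdd 6 i)) =
          fun V R => fun x y => x = y ∧ (sk V R).D (le k i.1) x := by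
        funext V R
        unfold relOf
        rw [Fin.addCases_right]
      rw [h1]
      exact Def.and (Def.eq 0 1) ((hsk.D (le k i.1)).app 0)
  have h2 : Def b 0 (fun V R _ => ∀ v, ∃ x, (sk V R).own k q v x ∧
      ∀ x', (sk V R).own k q v x' → x' = x) :=
    Def.all (Def.ex (Def.and ((hsk.own k q).app 0 1)
      (Def.all (Def.imp ((hsk.own k q).app 0 2) (Def.eq 2 1)))))
  have h3 : Def b 0 (fun V R _ => ∀ x, (sk V R).cell k q x →
      Exactly m (fun v => (sk V R).own k q v x)) :=
    Def.all (Def.imp ((hsk.cell k q).app 0) (Def.exactly m ((hsk.own k q).app 1 0)))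
  exact Def.and (def_relat hP (hsk.cell k q) hρ) (Def.and h2 h3)

end Pool.Agent.Helper20.FS
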