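import Pool.Agent.Helper20.FS.Skel
import Pool.Agent.Helper20.OP.Def

/-!
# Block FS-K1: the relations read off from a skeleton are definable

`DefSk`: the four relations are definable.  Mechanical, by the closure lemmas of `Def` (`Def.and`, `Def.or`, `Def.not`, `Def.ex`, `Def.all`, `Def.imp`,
`Def.eq`, `Def.const`, `Def1.app`, `Def2.app`, `Def3.app`); bounded quantifiers over numbers like `∃ κ, κ < q ∧ ...`, `∃ i, i < 12 ∧ ...`,
`∃ p, p < len k q κ i σ ∧ ...` are quantifiers over `Fin _` (`Def.ex_fin`), also `∃ σ : Fin 3`.  `walk` and `pos` and `lf` by induction on the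
number.
-/

set_option autoImplicit false

namespace Pool.Agent.Helper20.FS

open Pool.Agent.Helper20.OP

/-- the relations of the skeleton are definable -/
structure DefSk {b : ℕ} (sk : ∀ V : Type, Str b V → SkRel V) : Prop where
  A : Def2 b (fun V R => (sk V R).A)
  st : Def1 b (fun V R => (sk V R).st)
  tr : Def2 b (fun V R => (sk V R).tr)
  jt : Def2 b (fun V R => (sk V R).jt)

variable {b : ℕ} {sk : ∀ V : Type, Str b V → SkRel V}

/-- bounded quantifiers over numbers -/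
private lemma exlt38 {r n : ℕ} {P : ℕ → ∀ (V : Type), Str b V → (Fin r → V) → Prop}
    (h : ∀ c, Def b r (P c)) : Def b r (fun V R v => ∃ c, c < n ∧ P c V R v) :=
  (Def.ex_fin (γ := Fin n) (P := fun c => P c.1) fun c => h c.1).congr fun V R v => by
    constructor
    · rintro ⟨c, hc, h⟩
      exact ⟨⟨c, hc⟩, h⟩
    · rintro ⟨c, h⟩
      exact ⟨c.1, c.2, h⟩

theorem DefSk.walk (h : DefSk sk) (p : ℕ) : Def3 b (fun V R => (sk V R).walk p) := by
  induction p with
  | zero =>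
    exact ((Def.eq (1 : Fin 3) 0).and (h.A.app (0 : Fin 3) 2)).congr fun V R v => Iff.rfl
  | succ p ih =>
    exact (Def.ex (P := fun V R v w => (sk V R).walk p (v 0) w (v 1) ∧ (sk V R).A (v 1) (v 2) ∧
      v 2 ≠ w) (((ih.app (0 : Fin 4) 3 1).and ((h.A.app (1 : Fin 4) 2).and
        (Def.eq (2 : Fin 4) 3).not)).congr fun V R v => Iff.rfl)).congr fun V R v => Iff.rfl

theorem DefSk.pos (h : DefSk sk) (p : ℕ) : Def2 b (fun V R => (sk V R).pos p) := by
  cases p with
  | zero => exact (Def.eq (1 : Fin 2) 0).congr fun V R v => Iff.rfl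
  | succ p =>
    exact (Def.ex (P := fun V R v u => (sk V R).walk p (v 0) u (v 1))
      (((h.walk p).app (0 : Fin 3) 2 1).congr fun V R v => Iff.rfl)).congr fun V R v => Iff.rfl

theorem DefSk.L (h : DefSk sk) (l : ℕ) : Def2 b (fun V R => (sk V R).L l) := ((h.st.app (0 : Fin 2)).and ((h.st.app (1 : Fin 2)).and (h.pos (l - 1)))).congr fun V R v =>
    Iff.rfl

theorem DefSk.D (h : DefSk sk) (l : ℕ) : Def1 b (fun V R => (sk V R).D l) := by
  refine (h.st.and (Def.ex (P := fun V R v u => ∃ w, (sk V R).walk (l - 2) (v 0) u w ∧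
    ¬ (sk V R).st w ∧ ∀ z, (sk V R).A w z → z = u) (Def.ex (P := fun V R v w =>
      (sk V R).walk (l - 2) (v 0) (v 1) w ∧ ¬ (sk V R).st w ∧ ∀ z, (sk V R).A w z → z = v 1)
      ?_))).congr fun V R v => Iff.rfl
  refine (((h.walk (l - 2)).app (0 : Fin 3) 1 2).and ((h.st.app (2 : Fin 3)).not.and
    (Def.all (P := fun V R v z => (sk V R).A (v 2) z → z = v 1) ?_))).congr fun V R v => Iff.rfl
  exact ((h.A.app (2 : Fin 4) 3).imp (Def.eq (3 : Fin 4) 1)).congr fun V R v => Iff.rfl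

theorem DefSk.cell (h : DefSk sk) (k q : ℕ) : Def1 b (fun V R => (sk V R).cell k q) := (exlt38 (P := fun κ V R v => (sk V R).D (le k κ) (v 0)) fun κ => h.D (le k κ)).congr
    fun V R v => Iff.rfl

private theorem DefSk.lf38 (h : DefSk sk) (k q : ℕ) :
    ∀ i, Def2 b (fun V R => (sk V R).lf k q i)
  | 0 => (((h.cell k q).app (0 : Fin 2)).and (Def.eq (1 : Fin 2) 0)).congr fun V R v => Iff.rfl
  | i + 1 => by
    refine (Def.ex (P := fun V R v w => ∃ u, (sk V R).lf k q i (v 0) w ∧ (sk V R).tr w u ∧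
      (sk V R).L (cl k i) u (v 1)) (Def.ex (P := fun V R v u => (sk V R).lf k q i (v 0) (v 2) ∧
      (sk V R).tr (v 2) u ∧ (sk V R).L (cl k i) u (v 1)) ?_)).congr fun V R v => Iff.rfl
    exact (((h.lf38 k q i).app (0 : Fin 4) 2).and ((h.tr.app (2 : Fin 4) 3).and
      ((h.L (cl k i)).app (3 : Fin 4) 1))).congr fun V R v => Iff.rfl

private theorem DefSk.mid38 (h : DefSk sk) (k i : ℕ) : Def1 b (fun V R => (sk V R).mid k i) :=
  ((Def.ex (P := fun V R v y' => (sk V R).L (mu k (i / 2)) (v 0) y')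
    (((h.L (mu k (i / 2))).app (0 : Fin 2) 1).congr fun V R v => Iff.rfl)).or
    (h.D (dm k i))).congr fun V R v => Iff.rfl

private theorem DefSk.rgt38 (h : DefSk sk) (k q i : ℕ) : Def1 b (fun V R => (sk V R).rgt k q i) :=
  (((Def.const (i ≠ 11)).and (Def.ex (P := fun V R v y' => (sk V R).L (cl k i) (v 0) y')
    (((h.L (cl k i)).app (0 : Fin 2) 1).congr fun V R v => Iff.rfl))).or
    ((Def.const (i = 11)).and (exlt38 (n := q) (P := fun κ V R v => (sk V R).D (re k q κ) (v 0))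
    fun κ => h.D (re k q κ)))).congr fun V R v => Iff.rfl

theorem DefSk.role (h : DefSk sk) (k q i : ℕ) (σ : Fin 3) :
    Def2 b (fun V R => (sk V R).role k q i σ) := by
  have hlf := h.lf38 k q i
  have hmid := h.mid38 k i
  have hrgt := h.rgt38 k q i
  refine (((Def.const (σ = 0)).and hlf).or (((Def.const (σ = 1)).and (Def.ex (P := fun V R v w =>
    (sk V R).lf k q i (v 0) w ∧ (sk V R).tr w (v 1) ∧ (sk V R).mid k i (v 1)) ?_)).or
    ((Def.const (σ = 2)).and (Def.ex (P := fun V R v w =>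
    (sk V R).lf k q i (v 0) w ∧ (sk V R).tr w (v 1) ∧ (sk V R).rgt k q i (v 1)) ?_)))).congr
    fun V R v => Iff.rfl
  · exact ((hlf.app (0 : Fin 3) 2).and ((h.tr.app (2 : Fin 3) 1).and (hmid.app (1 : Fin 3)))).congr
      fun V R v => Iff.rfl
  · exact ((hlf.app (0 : Fin 3) 2).and ((h.tr.app (2 : Fin 3) 1).and (hrgt.app (1 : Fin 3)))).congr
      fun V R v => Iff.rfl

theorem DefSk.F (h : DefSk sk) (k q j : ℕ) : Def2 b (fun V R => (sk V R).F k q j) := by
  refine (Def.ex (P := fun V R v y => ∃ y', (sk V R).role k q (2 * j) 1 (v 0) y ∧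
    (sk V R).L (mu k j) y y' ∧ (sk V R).role k q (2 * j + 1) 1 (v 1) y')
    (Def.ex (P := fun V R v y' => (sk V R).role k q (2 * j) 1 (v 0) (v 2) ∧
    (sk V R).L (mu k j) (v 2) y' ∧ (sk V R).role k q (2 * j + 1) 1 (v 1) y') ?_)).congr
    fun V R v => Iff.rfl
  exact (((h.role k q (2 * j) 1).app (0 : Fin 4) 2).and (((h.L (mu k j)).app (2 : Fin 4) 3).and
    ((h.role k q (2 * j + 1) 1).app (1 : Fin 4) 3))).congr fun V R v => Iff.rfl

theorem DefSk.own (h : DefSk sk) (k q : ℕ) : Def2 b (fun V R => (sk V R).own k q) := by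
  refine (exlt38 (n := q) (P := fun κ V R v => (sk V R).D (le k κ) (v 1) ∧ ∃ i, i < 12 ∧
    ∃ (σ : Fin 3) (y : V), (sk V R).role k q i σ (v 1) y ∧
    ((∃ p, p < len k q κ i σ ∧ (sk V R).pos p y (v 0)) ∨ (sk V R).jt (v 0) y)) fun κ =>
    ((h.D (le k κ)).app (1 : Fin 2)).and ((exlt38 (n := 12) (P := fun i V R v =>
    ∃ (σ : Fin 3) (y : V), (sk V R).role k q i σ (v 1) y ∧
    ((∃ p, p < len k q κ i σ ∧ (sk V R).pos p y (v 0)) ∨ (sk V R).jt (v 0) y)) fun i =>
    Def.ex_fin (γ := Fin 3) (P := fun σ V R v => ∃ y : V, (sk V R).role k q i σ (v 1) y ∧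
    ((∃ p, p < len k q κ i σ ∧ (sk V R).pos p y (v 0)) ∨ (sk V R).jt (v 0) y)) fun σ =>
    Def.ex (P := fun V R v y => (sk V R).role k q i σ (v 1) y ∧
    ((∃ p, p < len k q κ i σ ∧ (sk V R).pos p y (v 0)) ∨ (sk V R).jt (v 0) y)) ?_))).congr
    fun V R v => Iff.rfl
  refine (((h.role k q i σ).app (1 : Fin 3) 2).and (Def.or (exlt38 (n := len k q κ i σ)
    (P := fun p V R v => (sk V R).pos p (v 2) (v 0)) fun p => (h.pos p).app (2 : Fin 3) 0)
    (h.jt.app (0 : Fin 3) 2))).congr fun V R v => Iff.rfl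

end Pool.Agent.Helper20.FS
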