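import Pool.Agent.Helper20.OP.Grid

/-!
# Skeletons of tripods

`SkRel V`: relations read off from a structure with universe `V`: `A` (adjacency along the legs), `st` (first elements of the legs), `tr`
(first elements of legs of the same tripod), `jt v x` (`v` is the central vertex of the tripod of the first element `x`; only
for graphs).  A tripod has three legs `(t, 0)`, `(t, 1)`, `(t, 2)`; the leg `b` consists of the elements `el b 0, ..., el b (n b - 1)`; some
legs are matched by `M`, then their last elements are adjacent.  From these relations we read the cells (chains of 12 tripods, which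
are recognised by the lengths of the legs), six partial injections and colours.
-/

set_option autoImplicit false

namespace Pool.Agent.Helper20.FS

/-- the relations -/
structure SkRel (V : Type) where
  /-- adjacency along the legs -/
  A : V → V → Prop
  /-- the first elements of the legs -/
  st : V → Prop
  /-- the first elements of the legs of one tripod -/
  tr : V → V → Prop
  /-- `jt v x`: `v` is the centre of the tripod of `x` -/
  jt : V → V → Prop

variable {V : Type}

/-- a walk without turning back from `x`, whose last two elements (number `p` and `p + 1`) are `u` and `v` -/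
def SkRel.walk (s : SkRel V) : ℕ → V → V → V → Prop
  | 0, x, u, v => u = x ∧ s.A x v
  | p + 1, x, u, v => ∃ w, s.walk p x w u ∧ s.A u v ∧ v ≠ w

/-- the element number `p` of a walk from `x` -/
def SkRel.pos (s : SkRel V) : ℕ → V → V → Prop
  | 0, x, v => v = x
  | p + 1, x, v => ∃ u, s.walk p x u v

/-- `x` and `y` are the two ends of a connection with `l` elements -/
def SkRel.L (s : SkRel V) (l : ℕ) (x y : V) : Prop := s.st x ∧ s.st y ∧ s.pos (l - 1) x y

/-- `x` is the first element of an unmatched leg with `l` elements -/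
def SkRel.D (s : SkRel V) (l : ℕ) (x : V) : Prop :=
  s.st x ∧ ∃ u v, s.walk (l - 2) x u v ∧ ¬ s.st v ∧ ∀ w, s.A v w → w = u

/-- the length of the connection between the tripods `i` and `i + 1` of a cell -/
def cl (k i : ℕ) : ℕ := 2 * (2 * k + i)

/-- the length of the connections for the injection `j` -/
def mu (k j : ℕ) : ℕ := 2 * (2 * k + 60 + 2 * j)

/-- the length of the middle leg of tripod `i` -/
def dm (k i : ℕ) : ℕ := if i % 2 = 0 then 2 * (k + 20 + i / 2) else 2 * (k + 40 + i / 2)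

/-- the length of the left leg of tripod `0` of a cell of colour `κ` -/
def le (k κ : ℕ) : ℕ := 2 * (k + 100 + κ)

/-- the length of the right leg of tripod `11` of a cell of colour `κ` -/
def re (k q κ : ℕ) : ℕ := 2 * (k + 100 + (2 * q - κ))

/-- the length of the leg `(i, σ)` of a cell of colour `κ` -/
def len (k q κ i : ℕ) (σ : Fin 3) : ℕ :=
  if σ = 0 then (if i = 0 then le k κ else 2 * k)
  else if σ = 1 then dm k i
  else if i = 11 then re k q κ else 2 * (k + i)

/-- `x` represents a cell: it is the first element of the left leg of its tripod `0` -/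
def SkRel.cell (s : SkRel V) (k q : ℕ) (x : V) : Prop := ∃ κ, κ < q ∧ s.D (le k κ) x

/-- `y` is the first element of the left leg of the tripod `i` of the cell `x` -/
def SkRel.lf (s : SkRel V) (k q : ℕ) : ℕ → V → V → Prop
  | 0, x, y => s.cell k q x ∧ y = x
  | i + 1, x, y => ∃ w v, s.lf k q i x w ∧ s.tr w v ∧ s.L (cl k i) v y

/-- `y` is the first element of a middle leg of a tripod `i` -/
def SkRel.mid (s : SkRel V) (k i : ℕ) (y : V) : Prop :=
  (∃ y', s.L (mu k (i / 2)) y y') ∨ s.D (dm k i) y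

/-- `y` is the first element of a right leg of a tripod `i` -/
def SkRel.rgt (s : SkRel V) (k q i : ℕ) (y : V) : Prop :=
  (i ≠ 11 ∧ ∃ y', s.L (cl k i) y y') ∨ (i = 11 ∧ ∃ κ, κ < q ∧ s.D (re k q κ) y)

/-- `y` is the first element of the leg `(i, σ)` of the cell `x` -/
def SkRel.role (s : SkRel V) (k q i : ℕ) (σ : Fin 3) (x y : V) : Prop :=
  (σ = 0 ∧ s.lf k q i x y) ∨ (σ = 1 ∧ ∃ w, s.lf k q i x w ∧ s.tr w y ∧ s.mid k i y) ∨
    (σ = 2 ∧ ∃ w, s.lf k q i x w ∧ s.tr w y ∧ s.rgt k q i y)

/-- the injection `j` between the cells -/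
def SkRel.F (s : SkRel V) (k q j : ℕ) (x x' : V) : Prop :=
  ∃ y y', s.role k q (2 * j) 1 x y ∧ s.L (mu k j) y y' ∧ s.role k q (2 * j + 1) 1 x' y'

/-- `v` belongs to the cell `x` -/
def SkRel.own (s : SkRel V) (k q : ℕ) (v x : V) : Prop :=
  ∃ κ, κ < q ∧ s.D (le k κ) x ∧ ∃ i, i < 12 ∧ ∃ (σ : Fin 3) (y : V), s.role k q i σ x y ∧
    ((∃ p, p < len k q κ i σ ∧ s.pos p y v) ∨ s.jt v y)

/-- adjacency of the elements of legs -/
def Adj {B : Type} (n : B → ℕ) (M : B → B → Prop) (b : B) (i : ℕ) (b' : B) (i' : ℕ) : Prop :=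
  (b = b' ∧ (i + 1 = i' ∨ i' + 1 = i)) ∨ (M b b' ∧ i + 1 = n b ∧ i' + 1 = n b')

/-- a matching -/
structure Mat {B : Type} (M : B → B → Prop) : Prop where
  symm : ∀ b b', M b b' → M b' b
  func : ∀ b b' b'', M b b' → M b b'' → b' = b''
  irr : ∀ b, ¬ M b b

/-- the relations `s` are those of a system of tripods `T` with legs `T × Fin 3` of lengths `n`, matched by `M`; there are central
vertices `jn t` if and only if `g` -/
structure LegModel {V T : Type} (s : SkRel V) (g : Prop) (n : T × Fin 3 → ℕ)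
    (M : T × Fin 3 → T × Fin 3 → Prop) (el : T × Fin 3 → ℕ → V) (jn : T → V) : Prop where
  inj : ∀ b i b' i', i < n b → i' < n b' → el b i = el b' i' → b = b' ∧ i = i'
  A_iff : ∀ b i v, i < n b → (s.A (el b i) v ↔ ∃ b' i', i' < n b' ∧ v = el b' i' ∧ Adj n M b i b' i')
  st_iff : ∀ v, s.st v ↔ ∃ b, v = el b 0
  tr_iff : ∀ b v, s.tr (el b 0) v ↔ ∃ σ, v = el (b.1, σ) 0
  jt_iff : ∀ b v, s.jt v (el b 0) ↔ (g ∧ v = jn b.1)
  jn_inj : g → ∀ t t', jn t = jn t' → t = t'
  jn_el : g → ∀ t b i, i < n b → jn t ≠ el b i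
  cover : ∀ v, (∃ b i, i < n b ∧ v = el b i) ∨ (g ∧ ∃ t, v = jn t)

/-- the element number `p` of the connection of the leg `b` -/
def At {V B : Type} (n : B → ℕ) (M : B → B → Prop) (el : B → ℕ → V) (b : B) (p : ℕ) (v : V) : Prop :=
  (p < n b ∧ v = el b p) ∨
    ∃ b', M b b' ∧ n b ≤ p ∧ p < n b + n b' ∧ v = el b' (n b + n b' - 1 - p)

/-- the lengths of the legs of the system of tripods of a structure with colours `c` -/
def skN {Z : Type} (k q : ℕ) (c : Z → Fin q) (b : (Z × Fin 12) × Fin 3) : ℕ :=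
  len k q (c b.1.1) b.1.2 b.2

/-- the matching of the legs for the partial injections `f j` -/
def skM {Z : Type} (f : Fin 6 → Z → Z → Prop) (b b' : (Z × Fin 12) × Fin 3) : Prop :=
  (b.1.1 = b'.1.1 ∧ b.2 = 2 ∧ b'.2 = 0 ∧ b'.1.2.1 = b.1.2.1 + 1) ∨
  (b.1.1 = b'.1.1 ∧ b.2 = 0 ∧ b'.2 = 2 ∧ b.1.2.1 = b'.1.2.1 + 1) ∨
  (b.2 = 1 ∧ b'.2 = 1 ∧ ∃ j : Fin 6,
    (b.1.2.1 = 2 * j.1 ∧ b'.1.2.1 = 2 * j.1 + 1 ∧ f j b.1.1 b'.1.1) ∨
    (b.1.2.1 = 2 * j.1 + 1 ∧ b'.1.2.1 = 2 * j.1 ∧ f j b'.1.1 b.1.1))

/-- the number of the elements of the legs of a cell -/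
def mk0 (k q : ℕ) : ℕ := 72 * k + 1290 + 4 * q

end Pool.Agent.Helper20.FS
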