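import Mathlib

/-!
# Sweeps of a graph, paths, tripods: definitions

`Sw G K D A`: the vertices in `D` can be processed one after the other, keeping at most `K` of them active; `A` is
the set of the active vertices; a vertex may be dropped from the active ones only if all its neighbours are in `D`.
(The existence of `Sw G K univ A` says that `G` has path-width `< K`.)
`Tri G C M`: inside `C` there are three paths with `M` edges starting at the same vertex and otherwise disjoint.
-/

set_option autoImplicit false

namespace Pool.Agent.Helper20.FS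

variable {V : Type} [DecidableEq V]

/-- sweeps -/
inductive Sw (G : V → V → Prop) (K : ℕ) : Finset V → Finset V → Prop
  | nil : Sw G K ∅ ∅
  | add (D A : Finset V) (v : V) : v ∉ D → A.card + 1 ≤ K → Sw G K D A →
      Sw G K (insert v D) (insert v A)
  | drop (D A : Finset V) (v : V) : (∀ w, G v w → w ∈ D) → Sw G K D A → Sw G K D (A.erase v)

/-- `y` can be reached from `x` inside `C` -/
def Reach (G : V → V → Prop) (C : Finset V) : V → V → Prop :=
  Relation.ReflTransGen (fun a b => G a b ∧ a ∈ C ∧ b ∈ C)

/-- the `n` vertices `f 0, ..., f (n - 1)` form a path inside `C` -/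
def IsPath (G : V → V → Prop) (C : Finset V) (n : ℕ) (f : ℕ → V) : Prop :=
  (∀ i, i < n → f i ∈ C) ∧ (∀ i, i + 1 < n → G (f i) (f (i + 1))) ∧
    ∀ i j, i < n → j < n → f i = f j → i = j

/-- `f 0`, `f 1`, `f 2` are three paths with `M` edges from `c`, disjoint except for `c` -/
def IsTri (G : V → V → Prop) (M : ℕ) (c : V) (f : Fin 3 → ℕ → V) : Prop :=
  (∀ s, f s 0 = c) ∧ (∀ s i, i < M → G (f s i) (f s (i + 1))) ∧
    ∀ s i t j, i ≤ M → j ≤ M → f s i = f t j → i = j ∧ (s = t ∨ i = 0)

/-- there is a tripod with legs of length `M` inside `C` -/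
def Tri (G : V → V → Prop) (C : Finset V) (M : ℕ) : Prop :=
  ∃ c f, IsTri G M c f ∧ ∀ s i, i ≤ M → f s i ∈ C

/-- there are `m` pairwise disjoint tripods with legs of length `M` -/
def DTri (G : V → V → Prop) (M m : ℕ) : Prop :=
  ∃ (c : Fin m → V) (f : Fin m → Fin 3 → ℕ → V), (∀ a, IsTri G M (c a) (f a)) ∧
    ∀ a b s t i j, a ≠ b → i ≤ M → j ≤ M → f a s i ≠ f b t j

end Pool.Agent.Helper20.FS
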