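import Pool.Agent.Helper20.FS.Sw

/-!
# Block FS-T3: basic facts on sweeps

`Sw.sub`, `Sw.front`, `Sw.card_le`, `Sw.mono`: inductions on `Sw` (`Sw.front` in the case `add`: `x ∈ insert v D`, `x ∉ insert v A`, so `x ≠ v`,
`x ∈ D`, `x ∉ A`; in the case `drop`: `x ∉ A.erase v`: either `x ∉ A` or `x = v`).
`Sw.shrink`: induction on the number of the elements of `A' \ A` (or `Finset.induction` on the set of the dropped elements), by
`Sw.drop`.  `Sw.addSet`: `Finset.induction` on `F`: add the elements one by one.
-/

set_option autoImplicit false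

namespace Pool.Agent.Helper20.FS

variable {V : Type} [DecidableEq V] {G : V → V → Prop} {K : ℕ} {D A : Finset V}

theorem Sw.sub (h : Sw G K D A) : A ⊆ D := by
  induction h with
  | nil => exact Finset.Subset.refl _
  | add D A v _ _ _ ih => exact Finset.insert_subset_insert v ih
  | drop D A v _ _ ih => exact (Finset.erase_subset v A).trans ih

theorem Sw.front (h : Sw G K D A) {x : V} (hx : x ∈ D) (hx' : x ∉ A) {w : V} (hw : G x w) :
    w ∈ D := by
  induction h with
  | nil => exact absurd hx (Finset.notMem_empty x)
  | add D A v _ _ _ ih =>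
    rcases Finset.mem_insert.1 hx with rfl | hxD
    · exact absurd (Finset.mem_insert_self _ _) hx'
    · exact Finset.mem_insert_of_mem (ih hxD fun h => hx' (Finset.mem_insert_of_mem h))
  | drop D A v hv _ ih =>
    by_cases hxv : x = v
    · subst hxv
      exact hv w hw
    · exact ih hx fun h => hx' (Finset.mem_erase.2 ⟨hxv, h⟩)

theorem Sw.card_le (h : Sw G K D A) : A.card ≤ K := by
  induction h with
  | nil => exact Nat.zero_le _
  | add D A v _ hK _ _ => exact (Finset.card_insert_le v A).trans hK
  | drop D A v _ _ ih => exact (Finset.card_le_card (Finset.erase_subset v A)).trans ih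

theorem Sw.mono {K' : ℕ} (h : Sw G K D A) (hK : K ≤ K') : Sw G K' D A := by
  induction h with
  | nil => exact Sw.nil
  | add D A v hv hc _ ih => exact Sw.add D A v hv (hc.trans hK) ih
  | drop D A v hv _ ih => exact Sw.drop D A v hv ih

/-- drop several vertices -/
theorem Sw.shrink {A' : Finset V} (h : Sw G K D A') (hA : A ⊆ A')
    (hd : ∀ x ∈ A', x ∉ A → ∀ w, G x w → w ∈ D) : Sw G K D A := by
  have key : ∀ F : Finset V, (∀ x ∈ F, ∀ w, G x w → w ∈ D) → Sw G K D (A' \ F) := by
    intro F
    induction F using Finset.induction_on with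
    | empty =>
      intro _
      rw [Finset.sdiff_empty]
      exact h
    | insert a F _ ih =>
      intro hF
      have h1 := ih fun x hx => hF x (Finset.mem_insert_of_mem hx)
      have h2 := Sw.drop D (A' \ F) a (hF a (Finset.mem_insert_self a F)) h1
      rwa [← Finset.sdiff_insert] at h2
  have h1 := key (A' \ A) fun x hx => hd x (Finset.mem_sdiff.1 hx).1 (Finset.mem_sdiff.1 hx).2
  rwa [Finset.sdiff_sdiff_eq_self hA] at h1

/-- add several vertices -/
theorem Sw.addSet {F : Finset V} (h : Sw G K D A) (hF : Disjoint F D) (hK : A.card + F.card ≤ K) :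
    Sw G K (D ∪ F) (A ∪ F) := by
  induction F using Finset.induction_on with
  | empty =>
    rw [Finset.union_empty, Finset.union_empty]
    exact h
  | insert a F ha ih =>
    rw [Finset.disjoint_insert_left] at hF
    rw [Finset.card_insert_of_notMem ha] at hK
    have h1 := ih hF.2 (by omega)
    have h2 : a ∉ D ∪ F := by
      rw [Finset.mem_union]
      rintro (h3 | h3)
      · exact hF.1 h3
      · exact ha h3
    have h3 : (A ∪ F).card + 1 ≤ K := by
      have := Finset.card_union_le A F
      omega
    rw [Finset.union_insert, Finset.union_insert]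
    exact Sw.add _ _ a h2 h3 h1

end Pool.Agent.Helper20.FS
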