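import Pool.Agent.Helper20.FS.SwBasic

/-!
# Block FS-T4: sweeping the components one after the other

`Reach.symm`: for symmetric `G`, `Reach G C` is symmetric (induction, `Relation.ReflTransGen.head`/`symmetric`).
`Reach.root`: change of the root.

Proof of `sw_comp`.  Strong induction on `C.card`, for all `C`, `D₀`.  If `C = ∅`, nothing is to do.  Otherwise take `r ∈ C` and let
`X := C.filter (Reach G C r)` (classical decidability).  For `x ∈ X` also `Reach G X r x` (induction on the reachability: all vertices on
the way are in `X`), and `x ∈ X`, `y ∈ C`, `G x y` imply `y ∈ X`.  So `Sw G K (D₀ ∪ X) A` by `h` with `D := D₀`.  Apply the induction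
hypothesis to `C \ X` and `D₀ ∪ X` (if `X' ⊆ C \ X` is closed in `C \ X` under neighbours then it is closed in `C`: a neighbour
`y ∈ X` of `x ∈ X'` would give `x ∈ X` by the symmetry of `G`).  `D₀ ∪ X ∪ (C \ X) = D₀ ∪ C`.
-/

set_option autoImplicit false

namespace Pool.Agent.Helper20.FS

variable {V : Type} [DecidableEq V] {G : V → V → Prop}

theorem Reach.symm' (hG : ∀ x y, G x y → G y x) {C : Finset V} {x y : V} (h : Reach G C x y) :
    Reach G C y x := by
  induction h with
  | refl => exact Relation.ReflTransGen.refl
  | tail _ hbc ih => exact Relation.ReflTransGen.head ⟨hG _ _ hbc.1, hbc.2.2, hbc.2.1⟩ ih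

theorem Reach.root (hG : ∀ x y, G x y → G y x) {C : Finset V} {r r' : V}
    (h : ∀ x ∈ C, Reach G C r x) (hr : r' ∈ C) : ∀ x ∈ C, Reach G C r' x := by
  intro x hx
  exact Relation.ReflTransGen.trans (Reach.symm' hG (h r' hr)) (h x hx)

theorem sw_comp (hG : ∀ x y, G x y → G y x) {K : ℕ} {A C D₀ : Finset V} (hC : Disjoint C D₀)
    (h : ∀ (D X : Finset V) (r : V), D₀ ⊆ D → r ∈ X → X ⊆ C → Disjoint X D →
      (∀ x ∈ X, Reach G X r x) → (∀ x ∈ X, ∀ y ∈ C, G x y → y ∈ X) → Sw G K D A →
      Sw G K (D ∪ X) A) (h0 : Sw G K D₀ A) : Sw G K (D₀ ∪ C) A := by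
  classical
  induction hn : C.card using Nat.strong_induction_on generalizing C D₀ with
  | _ n ih =>
    subst hn
    rcases C.eq_empty_or_nonempty with rfl | ⟨r, hr⟩
    · simpa using h0
    · set X : Finset V := C.filter (Reach G C r) with hX
      have hrX : r ∈ X := by
        rw [hX, Finset.mem_filter]
        exact ⟨hr, Relation.ReflTransGen.refl⟩
      have hXC : X ⊆ C := Finset.filter_subset _ _
      have hclosed : ∀ x ∈ X, ∀ y ∈ C, G x y → y ∈ X := by
        intro x hx y hy hxy
        rw [hX, Finset.mem_filter] at hx ⊢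
        exact ⟨hy, Relation.ReflTransGen.tail hx.2 ⟨hxy, hx.1, hy⟩⟩
      have hreach : ∀ x, Reach G C r x → Reach G X r x := by
        intro x hx
        induction hx with
        | refl => exact Relation.ReflTransGen.refl
        | tail hab hbc ihx =>
          rename_i b c
          have hb : b ∈ X := by
            rw [hX, Finset.mem_filter]
            exact ⟨hbc.2.1, hab⟩
          have hc : c ∈ X := hclosed b hb c hbc.2.2 hbc.1
          exact Relation.ReflTransGen.tail ihx ⟨hbc.1, hb, hc⟩
      have hXr : ∀ x ∈ X, Reach G X r x := by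
        intro x hx
        apply hreach
        rw [hX, Finset.mem_filter] at hx
        exact hx.2
      have hXD : Disjoint X D₀ := Finset.disjoint_of_subset_left hXC hC
      have h1 : Sw G K (D₀ ∪ X) A := h D₀ X r (Finset.Subset.refl _) hrX hXC hXD hXr hclosed h0
      have hcard : (C \ X).card < C.card := by
        apply Finset.card_lt_card
        refine ⟨Finset.sdiff_subset, fun hsub => ?_⟩
        have := hsub hr
        rw [Finset.mem_sdiff] at this
        exact this.2 hrX
      have hdis : Disjoint (C \ X) (D₀ ∪ X) := by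
        rw [Finset.disjoint_union_right]
        exact ⟨Finset.disjoint_of_subset_left Finset.sdiff_subset hC, Finset.sdiff_disjoint⟩
      have h2 := ih (C \ X).card hcard (C := C \ X) (D₀ := D₀ ∪ X) hdis
        (by
          intro D Y s hD hs hYC hYD hYr hYcl hSw
          refine h D Y s (Finset.Subset.trans Finset.subset_union_left hD) hs
            (Finset.Subset.trans hYC Finset.sdiff_subset) hYD hYr ?_ hSw
          intro x hx y hy hxy
          by_cases hyX : y ∈ X
          · exfalso
            have hxC : x ∈ C := (Finset.mem_sdiff.mp (hYC hx)).1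
            have hxX : x ∈ X := hclosed y hyX x hxC (hG x y hxy)
            exact (Finset.mem_sdiff.mp (hYC hx)).2 hxX
          · exact hYcl x hx y (Finset.mem_sdiff.mpr ⟨hy, hyX⟩) hxy)
        h1 rfl
      have heq : D₀ ∪ X ∪ (C \ X) = D₀ ∪ C := by
        rw [Finset.union_assoc, Finset.union_sdiff_of_subset hXC]
      rw [heq] at h2
      exact h2

end Pool.Agent.Helper20.FS
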