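import Pool.Agent.Helper20.OP.Grid

/-!
# Tree codes

Structures of bounded degree which code square tilings.  The elements: leaves (the cells of an `N × N` square, row by row), the
inner nodes of a binary tree over the leaves (the last node of a level may have three children), a dummy element
for every node with three children, and one more element.  The relations (all are partial injections): `S` (the next
element of the same level), `U` (the cell above), `P i` (the `i`-th child), `Q` (the dummy).  The point: the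
relation `S` has no cycles, since a cycle would give a shorter cycle on the next level.
-/

set_option autoImplicit false

namespace Pool.Agent.Helper20.FS

open Pool.Agent.Helper29.Prefix

/-- the colours of the elements -/
inductive Col (Γ : Type)
  /-- a leaf with its tile, a mark for the diagonal, a mark for the last column -/
  | leaf (γ : Γ) (d l : Bool)
  /-- an inner node, with two or with three children -/
  | node (three : Bool)
  /-- a dummy -/
  | dum
  /-- the extra element -/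
  | top

/-- the element is a leaf -/
def Leaf {X Γ : Type} (c : X → Col Γ → Prop) (x : X) : Prop := ∃ γ d l, c x (Col.leaf γ d l)

/-- the element is an inner node -/
def Node {X Γ : Type} (c : X → Col Γ → Prop) (x : X) : Prop := ∃ t, c x (Col.node t)

/-- the general conditions on tree codes -/
structure TreeBase {X Γ : Type} (c : X → Col Γ → Prop) (S U Q : X → X → Prop)
    (P : Fin 3 → X → X → Prop) : Prop where
  tot : ∀ x, ∃ κ, c x κ
  dis : ∀ x κ κ', c x κ → c x κ' → κ = κ'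
  top : ∃ x, c x Col.top ∧ ∀ y, c y Col.top → y = x
  p_src : ∀ i p x, P i p x → ∃ t, c p (Col.node t) ∧ (i = 2 → t = true)
  p_tgt : ∀ i p x, P i p x → Leaf c x ∨ Node c x
  p_fun : ∀ i p x x', P i p x → P i p x' → x = x'
  p_inj : ∀ i p i' p' x, P i p x → P i' p' x → i = i' ∧ p = p'
  p_ex : ∀ p t, c p (Col.node t) → (∃ x, P 0 p x) ∧ (∃ x, P 1 p x) ∧ (t = true → ∃ x, P 2 p x)
  root : ∃ ρ, Node c ρ ∧ (∀ i p, ¬ P i p ρ) ∧ ∀ x, Leaf c x ∨ Node c x → x = ρ ∨ ∃ i p, P i p x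
  q_src : ∀ x y, Q x y → c x (Col.node true) ∧ c y Col.dum
  q_fun : ∀ x y y', Q x y → Q x y' → y = y'
  q_inj : ∀ x x' y, Q x y → Q x' y → x = x'
  q_ex : ∀ x, c x (Col.node true) → ∃ y, Q x y
  q_ex' : ∀ y, c y Col.dum → ∃ x, Q x y
  s_par : ∀ x y, S x y → (∃ p i j, P i p x ∧ P j p y ∧ i.1 + 1 = j.1) ∨
    ∃ p p' i, 1 ≤ i.1 ∧ P i p x ∧ S p p' ∧ P 0 p' y
  s_fun : ∀ x y y', S x y → S x y' → y = y'
  s_inj : ∀ x x' y, S x y → S x' y → x = x'
  s_leaf : ∀ x y, S x y → (Leaf c x ↔ Leaf c y)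
  first : ∃ o, Leaf c o ∧ (∀ y, ¬ S y o) ∧ ∀ x, Leaf c x → x = o ∨ ∃ y, S y x
  u_leaf : ∀ x y, U x y → Leaf c x ∧ Leaf c y
  u_irr : ∀ x, ¬ U x x
  u_fun : ∀ x y y', U x y → U x y' → y = y'
  u_inj : ∀ x x' y, U x y → U x' y → x = x'
  u_back : ∀ x y x', U x y → S x' x → ∃ y', S y' y ∧ U x' y'

/-- the right neighbour -/
def RRt {X Γ : Type} (c : X → Col Γ → Prop) (S : X → X → Prop) (x y : X) : Prop :=
  S x y ∧ ∃ γ d, c x (Col.leaf γ d false)

/-- the mark of the diagonal -/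
def Dg {X Γ : Type} (c : X → Col Γ → Prop) (x : X) : Prop := ∃ γ l, c x (Col.leaf γ true l)

/-- the tile -/
def Tl {X Γ : Type} (c : X → Col Γ → Prop) (x : X) (γ : Γ) : Prop := ∃ d l, c x (Col.leaf γ d l)

/-- the local conditions of a square with a tiling -/
structure GridLoc {V Γ : Type} (W : Wang Γ) (Z : V → Prop) (RR UU : V → V → Prop) (D : V → Prop)
    (t : V → Γ → Prop) : Prop where
  c1 : ∀ x y x', RR x y → UU x x' → ∃ y', RR x' y' ∧ UU y y'
  c2 : ∀ x x' y', UU x x' → RR x' y' → ∃ y, RR x y ∧ UU y y'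
  c3 : ∀ x y y', RR x y → UU y y' → ∃ x', UU x x' ∧ RR x' y'
  c4 : ∀ x' y y', RR x' y' → UU y y' → ∃ x, RR x y ∧ UU x x'
  corner : ∃ o, Z o ∧ D o ∧ (∀ x, ¬ RR x o) ∧ (∀ x, ¬ UU x o) ∧ (∃ y, RR o y) ∧
    (∀ γ, t o γ → W.c γ) ∧ ∀ x, Z x → x = o ∨ (∃ y, RR y x) ∨ ∃ y, UU y x
  diag : ∀ x y y', D x → RR x y → UU y y' → D y'
  sq : ∀ x, Z x → D x → ((∃ y, RR x y) ↔ ∃ y, UU x y)
  hR : ∀ x y γ δ, RR x y → t x γ → t y δ → W.R γ δ
  hU : ∀ x y γ δ, UU x y → t x γ → t y δ → W.U γ δ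
  hl : ∀ x γ, Z x → t x γ → (∀ y, ¬ RR y x) → W.l γ
  hr : ∀ x γ, Z x → t x γ → (∀ y, ¬ RR x y) → W.r γ
  hb : ∀ x γ, Z x → t x γ → (∀ y, ¬ UU y x) → W.b γ
  ht : ∀ x γ, Z x → t x γ → (∀ y, ¬ UU x y) → W.t γ

/-- tree codes -/
def TreeCode {X Γ : Type} (W : Wang Γ) (c : X → Col Γ → Prop) (S U Q : X → X → Prop)
    (P : Fin 3 → X → X → Prop) : Prop :=
  TreeBase c S U Q P ∧ GridLoc W (Leaf c) (RRt c S) U (Dg c) (Tl c)

/-- walks with `n` steps -/
def Stp {X : Type} (S : X → X → Prop) : ℕ → X → X → Prop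
  | 0, x, y => x = y
  | n + 1, x, y => ∃ z, Stp S n x z ∧ S z y

end Pool.Agent.Helper20.FS
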