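import Pool.Agent.Helper20.FS.Tree

/-!
# Block FS-F1: the successor relation of a tree code has no cycles

`stp_par`: induction on `n`.  `n = 0`: `p' = p`, `j = i`, `m = 0`.  Step from `y` to `z` with `S y z`, for the `j`, `p'`, `m` of `y`:
by `s_par` either `P i' q y`, `P j' q z`, `i' + 1 = j'`, so `q = p'`, `i' = j` by `p_inj`; take `j'`, `p'`, `m`; or `P i' q y` with `1 ≤ i'`,
`S q q'`, `P 0 q' z`, so `q = p'`, `i' = j ≥ 1`; take `0`, `q'`, `m + 1` (`omega`).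

`stp_irrefl`: strong induction on `n`.  If `1 ≤ n` and `Stp S n x x` then the first step (a lemma: `Stp S (n + 1) x y` gives `z` with
`S x z`) and `s_par` give `P i p x`; `stp_par` and `p_inj` give `m` with `Stp S m p p` and (`m = 0 ∧ n + i = i`) or
(`1 ≤ m ∧ 2 * m + i ≤ n + i`), so `1 ≤ m < n`.

`transGen_irrefl`: `TransGen S x y` gives `n ≥ 1` with `Stp S n x y`.
-/

set_option autoImplicit false

namespace Pool.Agent.Helper20.FS

open Pool.Agent.Helper29.Prefix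

variable {X Γ : Type} {c : X → Col Γ → Prop} {S U Q : X → X → Prop} {P : Fin 3 → X → X → Prop}

theorem TreeBase.stp_par (h : TreeBase c S U Q P) : ∀ (n : ℕ) (x y p : X) (i : Fin 3),
    Stp S n x y → P i p x → ∃ (j : Fin 3) (p' : X) (m : ℕ), P j p' y ∧ Stp S m p p' ∧
      ((m = 0 ∧ n + i.1 = j.1) ∨ (1 ≤ m ∧ 2 * m + j.1 ≤ n + i.1)) := by
  intro n
  induction n with
  | zero =>
    intro x y p i hs hp
    have hxy : x = y := hs
    subst hxy
    exact ⟨i, p, 0, hp, rfl, Or.inl ⟨rfl, by omega⟩⟩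
  | succ n ih =>
    rintro x y p i ⟨z, hs, hz⟩ hp
    obtain ⟨j, p', m, hj, hm, hh⟩ := ih x z p i hs hp
    rcases h.s_par z y hz with ⟨q, i', j', h1, h2, h3⟩ | ⟨q, q', i', h0, h1, h2, h3⟩
    · obtain ⟨rfl, rfl⟩ := h.p_inj _ _ _ _ _ h1 hj
      exact ⟨j', q, m, h2, hm, by omega⟩
    · obtain ⟨rfl, rfl⟩ := h.p_inj _ _ _ _ _ h1 hj
      refine ⟨0, q', m + 1, h3, ⟨q, hm, h2⟩, Or.inr ⟨by omega, ?_⟩⟩
      have h4 : ((0 : Fin 3) : ℕ) = 0 := rfl
      rw [h4]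
      omega

theorem TreeBase.stp_irrefl (h : TreeBase c S U Q P) : ∀ (n : ℕ), 1 ≤ n → ∀ x, ¬ Stp S n x x := by
  intro n
  induction n using Nat.strong_induction_on with
  | _ n ih =>
    intro hn x hx
    obtain ⟨n', rfl⟩ : ∃ n', n = n' + 1 := ⟨n - 1, by omega⟩
    obtain ⟨i, p, hp⟩ : ∃ i p, P i p x := by
      obtain ⟨z, _, hz⟩ := hx
      rcases h.s_par z x hz with ⟨q, i', j', h1, h2, h3⟩ | ⟨q, q', i', h0, h1, h2, h3⟩
      · exact ⟨_, _, h2⟩
      · exact ⟨_, _, h3⟩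
    obtain ⟨j, p', m, hj, hm, hh⟩ := h.stp_par _ x x p i hx hp
    obtain ⟨rfl, rfl⟩ := h.p_inj _ _ _ _ _ hj hp
    exact ih m (by omega) (by omega) _ hm

theorem TreeBase.irrefl (h : TreeBase c S U Q P) (x : X) : ¬ Relation.TransGen S x x := by
  intro hx
  have h1 : ∀ y, Relation.TransGen S x y → ∃ n, 1 ≤ n ∧ Stp S n x y := by
    intro y hy
    induction hy with
    | single h => exact ⟨1, le_rfl, x, rfl, h⟩
    | tail _ h ih =>
      obtain ⟨n, _, h2⟩ := ih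
      exact ⟨n + 1, by omega, _, h2, h⟩
  obtain ⟨n, hn, h2⟩ := h1 x hx
  exact h.stp_irrefl n hn x h2

end Pool.Agent.Helper20.FS
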