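import Pool.Agent.Helper20.FS.Tree

/-!
# Block FS-F3: the number of elements of a tree code

Let `L`, `I₂`, `I₃` be the numbers of leaves, of nodes with colour `node false`, `node true`.  By `tot`, `dis` the elements are the leaves, the nodes,
the dummies and the one element of colour `top`.  The dummies are in bijection with the nodes of colour `node true` by `Q`.  The pairs `(i, p)` such
that `P i p x` for some `x` are: all `i` for `c p (node true)`, and `i = 0, 1` for `c p (node false)`; they are in bijection with the leaves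
and nodes different from the root `ρ` (`p_fun`, `p_inj`, `root`, `p_tgt`).  So `3 I₃ + 2 I₂ = L + I₂ + I₃ - 1`, `L = I₂ + 2 I₃ + 1` and the number of
all elements is `L + I₂ + I₃ + I₃ + 1 = 2 L`.
(Use `Nat.card` of subtypes and equivalences/bijections, or `Finset.card` with classical decidability.)
-/

set_option autoImplicit false

namespace Pool.Agent.Helper20.FS

open Pool.Agent.Helper29.Prefix

variable {X Γ : Type} {c : X → Col Γ → Prop} {S U Q : X → X → Prop} {P : Fin 3 → X → X → Prop}

private theorem card_of_bij {α β : Type} (f : α → β) (hf : Function.Bijective f) :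
    Nat.card α = Nat.card β := Nat.card_congr (Equiv.ofBijective f hf)

theorem TreeBase.card [Finite X] (h : TreeBase c S U Q P) :
    Nat.card X = 2 * Nat.card {x // Leaf c x} := by
  classical
  -- the children
  have hex : ∀ (p : X) (t : Bool) (i : Fin 3), c p (Col.node t) → (i = 2 → t = true) →
      ∃ x, P i p x := by
    intro p t i hp ht
    obtain ⟨h0, h1, h2⟩ := h.p_ex p t hp
    fin_cases i
    · exact h0
    · exact h1
    · exact h2 (ht rfl)
  let ch : Fin 3 → X → X := fun i p => if e : ∃ x, P i p x then e.choose else p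
  have hch : ∀ (p : X) (t : Bool) (i : Fin 3), c p (Col.node t) → (i = 2 → t = true) →
      P i p (ch i p) := by
    intro p t i hp ht
    have e := hex p t i hp ht
    show P i p (if e : ∃ x, P i p x then e.choose else p)
    rw [dif_pos e]
    exact e.choose_spec
  obtain ⟨ρ, hρ, hρ', hρ''⟩ := h.root
  have hleafnode : ∀ x t, Leaf c x → c x (Col.node t) → False := by
    rintro x t ⟨γ, d, l, hx⟩ hx'
    exact absurd (h.dis x _ _ hx hx') (by simp)
  -- leaves and nodes, first count
  have e1 : Nat.card {x // Leaf c x} + (Nat.card {x // c x (Col.node false)} +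
      Nat.card {x // c x (Col.node true)}) = Nat.card {x // Leaf c x ∨ Node c x} := by
    rw [← Nat.card_sum, ← Nat.card_sum]
    refine card_of_bij (fun s => match s with
      | Sum.inl x => ⟨x.1, Or.inl x.2⟩
      | Sum.inr (Sum.inl x) => ⟨x.1, Or.inr ⟨false, x.2⟩⟩
      | Sum.inr (Sum.inr x) => ⟨x.1, Or.inr ⟨true, x.2⟩⟩) ⟨?_, ?_⟩
    · rintro (⟨x, hx⟩ | ⟨x, hx⟩ | ⟨x, hx⟩) (⟨y, hy⟩ | ⟨y, hy⟩ | ⟨y, hy⟩) hxy
      all_goals
        have hv : x = y := congrArg Subtype.val hxy
        subst hv
      · rfl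
      · exact (hleafnode x _ hx hy).elim
      · exact (hleafnode x _ hx hy).elim
      · exact (hleafnode x _ hy hx).elim
      · rfl
      · exact absurd (h.dis x _ _ hx hy) (by simp)
      · exact (hleafnode x _ hy hx).elim
      · exact absurd (h.dis x _ _ hx hy) (by simp)
      · rfl
    · rintro ⟨x, hx | ⟨t, hx⟩⟩
      · exact ⟨Sum.inl ⟨x, hx⟩, rfl⟩
      · cases t
        · exact ⟨Sum.inr (Sum.inl ⟨x, hx⟩), rfl⟩
        · exact ⟨Sum.inr (Sum.inr ⟨x, hx⟩), rfl⟩
  -- leaves and nodes, second count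
  have e2 : Nat.card (Option (({x // c x (Col.node false)} × Fin 2) ⊕
      ({x // c x (Col.node true)} × Fin 3))) = Nat.card {x // Leaf c x ∨ Node c x} := by
    refine card_of_bij (fun s => match s with
      | none => ⟨ρ, Or.inr hρ⟩
      | some (Sum.inl x) => ⟨ch (Fin.castSucc x.2) x.1.1, h.p_tgt _ _ _
          (hch x.1.1 false (Fin.castSucc x.2) x.1.2 (fun e => by
            have := congrArg Fin.val e
            have hlt := x.2.2
            simp at this
            omega))⟩
      | some (Sum.inr x) => ⟨ch x.2 x.1.1, h.p_tgt _ _ _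
          (hch x.1.1 true x.2 x.1.2 (fun _ => rfl))⟩) ⟨?_, ?_⟩
    · have k1 : ∀ (x : {x // c x (Col.node false)} × Fin 2),
          P (Fin.castSucc x.2) x.1.1 (ch (Fin.castSucc x.2) x.1.1) := fun x =>
        hch x.1.1 false (Fin.castSucc x.2) x.1.2 (fun e => by
            have := congrArg Fin.val e
            have hlt := x.2.2
            simp at this
            omega)
      have k2 : ∀ (x : {x // c x (Col.node true)} × Fin 3), P x.2 x.1.1 (ch x.2 x.1.1) :=
        fun x => hch x.1.1 true x.2 x.1.2 (fun _ => rfl)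
      rintro (_ | x | x) (_ | y | y) hxy
      · rfl
      · have hv : ρ = ch (Fin.castSucc y.2) y.1.1 := congrArg Subtype.val hxy
        exact (hρ' _ _ (hv ▸ k1 y)).elim
      · have hv : ρ = ch y.2 y.1.1 := congrArg Subtype.val hxy
        exact (hρ' _ _ (hv ▸ k2 y)).elim
      · have hv : ch (Fin.castSucc x.2) x.1.1 = ρ := congrArg Subtype.val hxy
        exact (hρ' _ _ (hv ▸ k1 x)).elim
      · have hv : ch (Fin.castSucc x.2) x.1.1 = ch (Fin.castSucc y.2) y.1.1 :=
          congrArg Subtype.val hxy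
        have hx := k1 x
        rw [hv] at hx
        obtain ⟨h1, h2⟩ := h.p_inj _ _ _ _ _ hx (k1 y)
        have h3 : x.2 = y.2 := Fin.castSucc_injective _ h1
        have h4 : x.1 = y.1 := Subtype.ext h2
        rw [Prod.ext h4 h3]
      · have hv : ch (Fin.castSucc x.2) x.1.1 = ch y.2 y.1.1 := congrArg Subtype.val hxy
        have hx := k1 x
        rw [hv] at hx
        obtain ⟨h1, h2⟩ := h.p_inj _ _ _ _ _ hx (k2 y)
        have h3 := x.1.2
        rw [h2] at h3
        exact absurd (h.dis _ _ _ h3 y.1.2) (by simp)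
      · have hv : ch x.2 x.1.1 = ρ := congrArg Subtype.val hxy
        exact (hρ' _ _ (hv ▸ k2 x)).elim
      · have hv : ch x.2 x.1.1 = ch (Fin.castSucc y.2) y.1.1 := congrArg Subtype.val hxy
        have hx := k2 x
        rw [hv] at hx
        obtain ⟨h1, h2⟩ := h.p_inj _ _ _ _ _ hx (k1 y)
        have h3 := x.1.2
        rw [h2] at h3
        exact absurd (h.dis _ _ _ h3 y.1.2) (by simp)
      · have hv : ch x.2 x.1.1 = ch y.2 y.1.1 := congrArg Subtype.val hxy
        have hx := k2 x
        rw [hv] at hx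
        obtain ⟨h1, h2⟩ := h.p_inj _ _ _ _ _ hx (k2 y)
        have h4 : x.1 = y.1 := Subtype.ext h2
        rw [Prod.ext h4 h1]
    · rintro ⟨x, hx⟩
      rcases hρ'' x hx with rfl | ⟨i, p, hp⟩
      · exact ⟨none, rfl⟩
      · obtain ⟨t, ht, ht'⟩ := h.p_src i p x hp
        cases t
        · have hi : i ≠ 2 := fun e => by simpa using ht' e
          have hi2 : i.1 < 2 := by
            have := i.2
            have h2 : i.1 ≠ 2 := fun e => hi (Fin.ext e)
            omega
          refine ⟨some (Sum.inl (⟨p, ht⟩, ⟨i.1, hi2⟩)), Subtype.ext ?_⟩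
          show ch (Fin.castSucc ⟨i.1, hi2⟩) p = x
          have hii : (Fin.castSucc ⟨i.1, hi2⟩ : Fin 3) = i := Fin.ext rfl
          rw [hii]
          exact h.p_fun i p _ _ (hch p false i ht (fun e => (hi e).elim)) hp
        · refine ⟨some (Sum.inr (⟨p, ht⟩, i)), Subtype.ext ?_⟩
          exact h.p_fun i p _ _ (hch p true i ht (fun _ => rfl)) hp
  rw [Finite.card_option, Nat.card_sum, Nat.card_prod, Nat.card_prod, Nat.card_fin,
    Nat.card_fin] at e2
  -- the dummies
  have e3 : Nat.card {x // c x (Col.node true)} = Nat.card {x // c x Col.dum} := by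
    refine card_of_bij (fun x => ⟨(h.q_ex x.1 x.2).choose,
      (h.q_src _ _ (h.q_ex x.1 x.2).choose_spec).2⟩) ⟨?_, ?_⟩
    · intro x y hxy
      have hv : (h.q_ex x.1 x.2).choose = (h.q_ex y.1 y.2).choose := congrArg Subtype.val hxy
      have hx := (h.q_ex x.1 x.2).choose_spec
      rw [hv] at hx
      exact Subtype.ext (h.q_inj _ _ _ hx (h.q_ex y.1 y.2).choose_spec)
    · rintro ⟨y, hy⟩
      obtain ⟨x, hx⟩ := h.q_ex' y hy
      refine ⟨⟨x, (h.q_src _ _ hx).1⟩, Subtype.ext ?_⟩
      exact h.q_fun _ _ _ (h.q_ex x (h.q_src _ _ hx).1).choose_spec hx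
  -- the extra element
  have e4 : Nat.card {x // c x Col.top} = 1 := by
    obtain ⟨x, hx, hx'⟩ := h.top
    rw [Nat.card_eq_one_iff_unique]
    exact ⟨⟨fun a b => Subtype.ext ((hx' _ a.2).trans (hx' _ b.2).symm)⟩, ⟨⟨x, hx⟩⟩⟩
  -- all elements
  have e5 : Nat.card {x // Leaf c x ∨ Node c x} + (Nat.card {x // c x Col.dum} +
      Nat.card {x // c x Col.top}) = Nat.card X := by
    rw [← Nat.card_sum, ← Nat.card_sum]
    have hn1 : ∀ x, (Leaf c x ∨ Node c x) → c x Col.dum → False := by
      rintro x (⟨γ, d, l, hx⟩ | ⟨t, hx⟩) hx'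
      · exact absurd (h.dis x _ _ hx hx') (by simp)
      · exact absurd (h.dis x _ _ hx hx') (by simp)
    have hn2 : ∀ x, (Leaf c x ∨ Node c x) → c x Col.top → False := by
      rintro x (⟨γ, d, l, hx⟩ | ⟨t, hx⟩) hx'
      · exact absurd (h.dis x _ _ hx hx') (by simp)
      · exact absurd (h.dis x _ _ hx hx') (by simp)
    refine card_of_bij (fun s => match s with
      | Sum.inl x => x.1
      | Sum.inr (Sum.inl x) => x.1
      | Sum.inr (Sum.inr x) => x.1) ⟨?_, ?_⟩
    · rintro (⟨x, hx⟩ | ⟨x, hx⟩ | ⟨x, hx⟩) (⟨y, hy⟩ | ⟨y, hy⟩ | ⟨y, hy⟩) hxy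
      all_goals
        have hv : x = y := hxy
        subst hv
      · rfl
      · exact (hn1 x hx hy).elim
      · exact (hn2 x hx hy).elim
      · exact (hn1 x hy hx).elim
      · rfl
      · exact absurd (h.dis x _ _ hx hy) (by simp)
      · exact (hn2 x hy hx).elim
      · exact absurd (h.dis x _ _ hx hy) (by simp)
      · rfl
    · intro x
      obtain ⟨κ, hκ⟩ := h.tot x
      cases κ with
      | leaf γ d l => exact ⟨Sum.inl ⟨x, Or.inl ⟨γ, d, l, hκ⟩⟩, rfl⟩
      | node t => exact ⟨Sum.inl ⟨x, Or.inr ⟨t, hκ⟩⟩, rfl⟩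
      | dum => exact ⟨Sum.inr (Sum.inl ⟨x, hκ⟩), rfl⟩
      | top => exact ⟨Sum.inr (Sum.inr ⟨x, hκ⟩), rfl⟩
  omega

end Pool.Agent.Helper20.FS
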