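import Pool.Agent.Helper20.FS.TreeUp
import Pool.Agent.Helper20.FS.TreeCard
import Pool.Agent.Helper20.OP.GridDec

/-!
# Block FS-F4: decoding tree codes

Apply `GridCode.decode` to the type `V := {x // Leaf c x}` with `m := 1`, `e := 0`, `Z := fun _ => True`,
`lt x y := TransGen S x.1 y.1`, `RR x y := RRt c S x.1 y.1`, `UU x y := U x.1 y.1`, `D x := Dg c x.1`, `t x γ := Tl c x.1 γ`,
`Own v x := v = x`, `Ex := fun _ => False`.  The fields follow from `TreeBase.irrefl`, `TreeBase.up_trans`, `s_fun`, ..., and `GridLoc` (the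
elements found there are leaves: by `RRt` and `s_leaf`, or `u_leaf`).  So `Nat.card V = 1 * N ^ 2 + 0`; use `TreeBase.card`.
-/

set_option autoImplicit false

namespace Pool.Agent.Helper20.FS

open Pool.Agent.Helper29.Prefix Pool.Agent.Helper20.OP

theorem TreeCode.decode {X Γ : Type} [Finite X] {W : Wang Γ} {c : X → Col Γ → Prop}
    {S U Q : X → X → Prop} {P : Fin 3 → X → X → Prop} (h : TreeCode W c S U Q P) :
    ∃ N, 2 ≤ N ∧ Nat.card X = 2 * N ^ 2 ∧ Tiles W N := by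
  classical
  obtain ⟨hb, hl⟩ := h
  have rl : ∀ x y, RRt c S x y → Leaf c x ∧ Leaf c y := by
    rintro x y ⟨h1, γ, d, h2⟩
    have h3 : Leaf c x := ⟨γ, d, false, h2⟩
    exact ⟨h3, (hb.s_leaf x y h1).1 h3⟩
  have key : GridCode (V := {x // Leaf c x}) W 1 0 (fun _ => True)
      (fun x y => Relation.TransGen S x.1 y.1) (fun x y => RRt c S x.1 y.1)
      (fun x y => U x.1 y.1) (fun x => Dg c x.1) (fun x γ => Tl c x.1 γ) (fun v x => v = x)
      (fun _ => False) := by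
    refine { irr := fun x => hb.irrefl x.1
             trans := fun x y z h1 h2 => h1.trans h2
             rr := fun x y h1 => ⟨trivial, trivial, Relation.TransGen.single h1.1⟩
             uu := fun x y h1 => ⟨trivial, trivial, hb.up_trans h1⟩
             rfun := fun x y y' h1 h2 => Subtype.ext (hb.s_fun _ _ _ h1.1 h2.1)
             rinj := fun x x' y h1 h2 => Subtype.ext (hb.s_inj _ _ _ h1.1 h2.1)
             ufun := fun x y y' h1 h2 => Subtype.ext (hb.u_fun _ _ _ h1 h2)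
             uinj := fun x x' y h1 h2 => Subtype.ext (hb.u_inj _ _ _ h1 h2)
             c1 := ?_
             c2 := ?_
             c3 := ?_
             c4 := ?_
             corner := ?_
             diag := fun x y y' h1 h2 h3 => hl.diag _ _ _ h1 h2 h3
             sq := ?_
             tot := ?_
             hR := fun x y γ δ h1 h2 h3 => hl.hR _ _ _ _ h1 h2 h3
             hU := fun x y γ δ h1 h2 h3 => hl.hU _ _ _ _ h1 h2 h3
             hl := ?_
             hr := ?_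
             hb := ?_
             ht := ?_
             own := fun v => Or.inr ⟨v, rfl⟩
             own_z := fun v x _ => ⟨trivial, not_false⟩
             own_un := fun v x x' h1 h2 => h1.symm.trans h2
             cnt := ?_
             ext := ?_ }
    · intro x y x' h1 h2
      obtain ⟨y', h3, h4⟩ := hl.c1 _ _ _ h1 h2
      exact ⟨⟨y', (hb.u_leaf _ _ h4).2⟩, h3, h4⟩
    · intro x x' y' h1 h2
      obtain ⟨y, h3, h4⟩ := hl.c2 _ _ _ h1 h2
      exact ⟨⟨y, (hb.u_leaf _ _ h4).1⟩, h3, h4⟩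
    · intro x y y' h1 h2
      obtain ⟨x', h3, h4⟩ := hl.c3 _ _ _ h1 h2
      exact ⟨⟨x', (hb.u_leaf _ _ h3).2⟩, h3, h4⟩
    · intro x' y y' h1 h2
      obtain ⟨x, h3, h4⟩ := hl.c4 _ _ _ h1 h2
      exact ⟨⟨x, (hb.u_leaf _ _ h4).1⟩, h3, h4⟩
    · obtain ⟨o, h1, h2, h3, h4, ⟨y, h5⟩, h6, h7⟩ := hl.corner
      refine ⟨⟨o, h1⟩, trivial, h2, fun x => h3 x.1, fun x => h4 x.1,
        ⟨⟨y, (rl _ _ h5).2⟩, h5⟩, h6, fun x _ => ?_⟩
      rcases h7 x.1 x.2 with h8 | ⟨z, h8⟩ | ⟨z, h8⟩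
      · exact Or.inl (Subtype.ext h8)
      · exact Or.inr (Or.inl ⟨⟨z, (rl _ _ h8).1⟩, h8⟩)
      · exact Or.inr (Or.inr ⟨⟨z, (hb.u_leaf _ _ h8).1⟩, h8⟩)
    · intro x _ h1
      have h2 := hl.sq x.1 x.2 h1
      constructor
      · rintro ⟨y, h3⟩
        obtain ⟨z, h4⟩ := h2.1 ⟨y.1, h3⟩
        exact ⟨⟨z, (hb.u_leaf _ _ h4).2⟩, h4⟩
      · rintro ⟨y, h3⟩
        obtain ⟨z, h4⟩ := h2.2 ⟨y.1, h3⟩
        exact ⟨⟨z, (rl _ _ h4).2⟩, h4⟩
    · rintro ⟨x, γ, d, l, h1⟩ _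
      exact ⟨γ, d, l, h1⟩
    · intro x γ _ h1 h2
      exact hl.hl _ _ x.2 h1 fun y h3 => h2 ⟨y, (rl _ _ h3).1⟩ h3
    · intro x γ _ h1 h2
      exact hl.hr _ _ x.2 h1 fun y h3 => h2 ⟨y, (rl _ _ h3).2⟩ h3
    · intro x γ _ h1 h2
      exact hl.hb _ _ x.2 h1 fun y h3 => h2 ⟨y, (hb.u_leaf _ _ h3).1⟩ h3
    · intro x γ _ h1 h2
      exact hl.ht _ _ x.2 h1 fun y h3 => h2 ⟨y, (hb.u_leaf _ _ h3).2⟩ h3
    · intro x _
      rw [exactly_iff]
      exact Nat.card_unique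
    · rw [exactly_iff]
      exact Nat.card_eq_zero.mpr (Or.inl ⟨fun x => x.2⟩)
  obtain ⟨N, h1, h2, h3⟩ := key.decode
  refine ⟨N, h1, ?_, h3⟩
  rw [hb.card, h2]
  ring

end Pool.Agent.Helper20.FS
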