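import Pool.Agent.Helper20.FS.Tree

/-!
# The model of the tree codes

The elements are triples `(i, j, k)`: `(i, j, 0)` is the `j`-th node of level `i` (`j < N ^ 2 / 2 ^ i`; level `0`: the leaves), `(i, 0, 1)` is
the dummy of the last node of level `i + 1` (if level `i` has an odd number of elements, at least two),
`(0, 0, 2)` the extra element.
-/

set_option autoImplicit false

namespace Pool.Agent.Helper20.FS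

open Pool.Agent.Helper29.Prefix

/-- the number of elements of level `i` -/
def lv (N i : ℕ) : ℕ := N ^ 2 / 2 ^ i

lemma lv_succ (N i : ℕ) : lv N (i + 1) = lv N i / 2 := by
  unfold lv
  rw [pow_succ 2 i, Nat.div_div_eq_div_mul]

lemma lv_zero (N : ℕ) : lv N 0 = N ^ 2 := by
  simp [lv]

/-- the elements -/
def InX (N : ℕ) (x : ℕ × ℕ × Fin 3) : Prop :=
  (x.2.2 = 0 ∧ x.2.1 < lv N x.1) ∨ (x.2.2 = 1 ∧ x.2.1 = 0 ∧ lv N x.1 % 2 = 1 ∧ 2 ≤ lv N x.1) ∨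
    (x.2.2 = 2 ∧ x.2.1 = 0 ∧ x.1 = 0)

/-- the universe -/
abbrev XM (N : ℕ) : Type := {x : ℕ × ℕ × Fin 3 // InX N x}

/-- the colours -/
def cM {Γ : Type} (N : ℕ) (f : ℕ → ℕ → Γ) (x : XM N) : Col Γ → Prop
  | Col.leaf γ d l => x.1.2.2 = 0 ∧ x.1.1 = 0 ∧ γ = f (x.1.2.1 % N) (x.1.2.1 / N) ∧
      (d = true ↔ x.1.2.1 / N = x.1.2.1 % N) ∧ (l = true ↔ x.1.2.1 % N + 1 = N)
  | Col.node t => x.1.2.2 = 0 ∧ 1 ≤ x.1.1 ∧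
      (t = true ↔ (x.1.2.1 + 1 = lv N x.1.1 ∧ lv N (x.1.1 - 1) % 2 = 1))
  | Col.dum => x.1.2.2 = 1
  | Col.top => x.1.2.2 = 2

/-- the successor -/
def SM (N : ℕ) (x y : XM N) : Prop :=
  x.1.2.2 = 0 ∧ y.1.2.2 = 0 ∧ x.1.1 = y.1.1 ∧ y.1.2.1 = x.1.2.1 + 1

/-- the cell above -/
def UM (N : ℕ) (x y : XM N) : Prop :=
  x.1.2.2 = 0 ∧ y.1.2.2 = 0 ∧ x.1.1 = 0 ∧ y.1.1 = 0 ∧ y.1.2.1 = x.1.2.1 + N

/-- the children -/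
def PM (N : ℕ) (i : Fin 3) (p x : XM N) : Prop :=
  p.1.2.2 = 0 ∧ x.1.2.2 = 0 ∧ p.1.1 = x.1.1 + 1 ∧ x.1.2.1 = 2 * p.1.2.1 + i.1 ∧
    (i = 2 → p.1.2.1 + 1 = lv N p.1.1 ∧ lv N x.1.1 % 2 = 1)

/-- the dummies -/
def QM (N : ℕ) (x y : XM N) : Prop :=
  x.1.2.2 = 0 ∧ y.1.2.2 = 1 ∧ x.1.1 = y.1.1 + 1 ∧ x.1.2.1 + 1 = lv N x.1.1 ∧
    lv N y.1.1 % 2 = 1

end Pool.Agent.Helper20.FS
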