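import Pool.Agent.Helper20.FS.TreeAcyc

/-!
# Block FS-F2: upper neighbours come later

On the finite set `X` the relation `S` is well-founded (`TreeBase.irrefl`; for instance `Finite.wellFounded_of_trans_of_irrefl` for
`TransGen S`).  `from_first`: for the first leaf `o` (field `first`) and every leaf `x ≠ o`: `TransGen S o x`; well-founded induction: there is
`y` with `S y x`, `y` is a leaf by `s_leaf`, and `y = o` or `TransGen S o y`.
`up_trans`: well-founded induction on `x`.  `x` is a leaf by `u_leaf`.  If `x` is the first leaf: `y ≠ x` by `u_irr`, so `from_first`.  Otherwise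
`S x' x` for some `x'`, and by `u_back` `S y' y` and `U x' y'`, so `TransGen S x' y'` by induction; its first step is `S x' x` by `s_fun`, so
`ReflTransGen S x y'`, and `S y' y` gives `TransGen S x y`.
-/

set_option autoImplicit false

namespace Pool.Agent.Helper20.FS

open Pool.Agent.Helper29.Prefix

variable {X Γ : Type} {c : X → Col Γ → Prop} {S U Q : X → X → Prop} {P : Fin 3 → X → X → Prop}

private theorem TreeBase.wf [Finite X] (h : TreeBase c S U Q P) : WellFounded (Relation.TransGen S) := by
  have : IsTrans X (Relation.TransGen S) := ⟨fun _ _ _ => Relation.TransGen.trans⟩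
  have : Std.Irrefl (Relation.TransGen S) := ⟨h.irrefl⟩
  exact Finite.wellFounded_of_trans_of_irrefl _

theorem TreeBase.from_first [Finite X] (h : TreeBase c S U Q P) {o : X} (ho : Leaf c o)
    (ho' : ∀ x, Leaf c x → x = o ∨ ∃ y, S y x) : ∀ x, Leaf c x → x ≠ o →
    Relation.TransGen S o x := by
  intro x
  refine h.wf.induction (C := fun x => Leaf c x → x ≠ o → Relation.TransGen S o x) x ?_
  intro x ih hx hne
  obtain h1 | ⟨y, hy⟩ := ho' x hx
  · exact absurd h1 hne
  · by_cases hyo : y = o
    · rw [← hyo]
      exact Relation.TransGen.single hy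
    · exact (ih y (Relation.TransGen.single hy) ((h.s_leaf y x hy).2 hx) hyo).tail hy

theorem TreeBase.up_trans [Finite X] (h : TreeBase c S U Q P) {x y : X} (hxy : U x y) :
    Relation.TransGen S x y := by
  obtain ⟨o, ho, hno, ho'⟩ := h.first
  revert y
  refine h.wf.induction (C := fun x => ∀ {y : X}, U x y → Relation.TransGen S x y) x ?_
  intro x ih y hxy
  obtain ⟨hlx, hly⟩ := h.u_leaf x y hxy
  obtain h1 | ⟨x', hx'⟩ := ho' x hlx
  · subst h1
    refine h.from_first ho ho' y hly ?_
    intro hyx
    rw [hyx] at hxy
    exact h.u_irr _ hxy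
  · obtain ⟨y', hy', hu⟩ := h.u_back x y x' hxy hx'
    have h2 := ih x' (Relation.TransGen.single hx') hu
    obtain ⟨z, hz, hzy⟩ := Relation.TransGen.head'_iff.mp h2
    have h3 : z = x := h.s_fun x' z x hz hx'
    subst h3
    exact Relation.TransGen.tail' hzy hy'

end Pool.Agent.Helper20.FS
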