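import Pool.Agent.Helper20.FS.Paths

/-!
# Block FS-T8: a tripod from a path and a tail

The centre `p i`, the legs `fun a => p (i - a)`, `fun a => p (i + a)` and `fun a => if a = 0 then p i else t (a - 1)`, for `a ≤ M`
(combine them to a function on `Fin 3`, for instance `![_, _, _]`).
-/

set_option autoImplicit false

namespace Pool.Agent.Helper20.FS

variable {V : Type} [DecidableEq V] {G : V → V → Prop}

theorem tri_of_tail (hG : ∀ x y, G x y → G y x) {C : Finset V} {n M i : ℕ} {p t : ℕ → V}
    (hp : IsPath G C n p) (hi : M ≤ i) (hi' : i + M < n) (ht : IsPath G C M t)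
    (hit : 1 ≤ M → G (p i) (t 0))
    (hd : ∀ a b, a < M → i ≤ b + M → b ≤ i + M → t a ≠ p b) : Tri G C M := by
  obtain ⟨hp1, hp2, hp3⟩ := hp
  obtain ⟨ht1, ht2, ht3⟩ := ht
  have hL : ∀ a, a ≤ M → ∃ b, b < n ∧ i ≤ b + M ∧ b ≤ i + M ∧ b + a = i ∧ p (i - a) = p b :=
    fun a ha => ⟨i - a, by omega, by omega, by omega, by omega, rfl⟩
  have hR : ∀ a, a ≤ M → ∃ b, b < n ∧ i ≤ b + M ∧ b ≤ i + M ∧ b = i + a ∧ p (i + a) = p b :=
    fun a ha => ⟨i + a, by omega, by omega, by omega, by omega, rfl⟩
  have hT : ∀ a, a ≤ M → (a = 0 ∧ (if a = 0 then p i else t (a - 1)) = p i) ∨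
      ∃ b, b < M ∧ a = b + 1 ∧ (if a = 0 then p i else t (a - 1)) = t b := by
    intro a ha
    by_cases h : a = 0
    · exact Or.inl ⟨h, if_pos h⟩
    · exact Or.inr ⟨a - 1, by omega, by omega, if_neg h⟩
  refine ⟨p i, ![fun a => p (i - a), fun a => p (i + a),
    fun a => if a = 0 then p i else t (a - 1)], ⟨?_, ?_, ?_⟩, ?_⟩
  · intro s
    fin_cases s
    · rfl
    · rfl
    · change (if (0 : ℕ) = 0 then p i else t (0 - 1)) = p i
      exact if_pos rfl
  · intro s a ha
    fin_cases s
    · change G (p (i - a)) (p (i - (a + 1)))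
      have h1 := hp2 (i - (a + 1)) (by omega)
      have e1 : i - (a + 1) + 1 = i - a := by omega
      rw [e1] at h1
      exact hG _ _ h1
    · exact hp2 (i + a) (by omega)
    · change G (if a = 0 then p i else t (a - 1)) (if a + 1 = 0 then p i else t (a + 1 - 1))
      rw [if_neg (Nat.succ_ne_zero a), Nat.add_sub_cancel]
      by_cases h : a = 0
      · rw [if_pos h, h]
        exact hit (by omega)
      · rw [if_neg h]
        have h1 := ht2 (a - 1) (by omega)
        have e1 : a - 1 + 1 = a := by omega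
        rw [e1] at h1
        exact h1
  · intro s a s' b ha hb h
    obtain ⟨a1, x1, x2, x3, x4, x5⟩ := hL a ha
    obtain ⟨b1, y1, y2, y3, y4, y5⟩ := hL b hb
    obtain ⟨a2, z1, z2, z3, z4, z5⟩ := hR a ha
    obtain ⟨b2, w1, w2, w3, w4, w5⟩ := hR b hb
    have hii : ∀ c, c < n → p c = p i → c = i := fun c hc h => hp3 _ _ hc (by omega) h
    fin_cases s <;> fin_cases s'
    · change p (i - a) = p (i - b) at h
      rw [x5, y5] at h
      have := hp3 _ _ x1 y1 h
      exact ⟨by omega, Or.inl rfl⟩
    · change p (i - a) = p (i + b) at h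
      rw [x5, w5] at h
      have := hp3 _ _ x1 w1 h
      exact ⟨by omega, Or.inr (by omega)⟩
    · change p (i - a) = (if b = 0 then p i else t (b - 1)) at h
      rcases hT b hb with ⟨h1, h2⟩ | ⟨b', h1, h2, h3⟩
      · rw [h2, x5] at h
        have := hii _ x1 h
        exact ⟨by omega, Or.inr (by omega)⟩
      · rw [h3, x5] at h
        exact absurd h.symm (hd _ _ h1 x2 x3)
    · change p (i + a) = p (i - b) at h
      rw [z5, y5] at h
      have := hp3 _ _ z1 y1 h
      exact ⟨by omega, Or.inr (by omega)⟩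
    · change p (i + a) = p (i + b) at h
      rw [z5, w5] at h
      have := hp3 _ _ z1 w1 h
      exact ⟨by omega, Or.inl rfl⟩
    · change p (i + a) = (if b = 0 then p i else t (b - 1)) at h
      rcases hT b hb with ⟨h1, h2⟩ | ⟨b', h1, h2, h3⟩
      · rw [h2, z5] at h
        have := hii _ z1 h
        exact ⟨by omega, Or.inr (by omega)⟩
      · rw [h3, z5] at h
        exact absurd h.symm (hd _ _ h1 z2 z3)
    · change (if a = 0 then p i else t (a - 1)) = p (i - b) at h
      rcases hT a ha with ⟨h1, h2⟩ | ⟨b', h1, h2, h3⟩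
      · rw [h2, y5] at h
        have := hii _ y1 h.symm
        exact ⟨by omega, Or.inr h1⟩
      · rw [h3, y5] at h
        exact absurd h (hd _ _ h1 y2 y3)
    · change (if a = 0 then p i else t (a - 1)) = p (i + b) at h
      rcases hT a ha with ⟨h1, h2⟩ | ⟨b', h1, h2, h3⟩
      · rw [h2, w5] at h
        have := hii _ w1 h.symm
        exact ⟨by omega, Or.inr h1⟩
      · rw [h3, w5] at h
        exact absurd h (hd _ _ h1 w2 w3)
    · refine ⟨?_, Or.inl rfl⟩
      change (if a = 0 then p i else t (a - 1)) = (if b = 0 then p i else t (b - 1)) at h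
      rcases hT a ha with ⟨h1, h2⟩ | ⟨a', h1, h2, h3⟩ <;>
        rcases hT b hb with ⟨h4, h5⟩ | ⟨b', h4, h5, h6⟩
      · omega
      · rw [h2, h6] at h
        exact absurd h.symm (hd _ _ h4 (by omega) (by omega))
      · rw [h3, h5] at h
        exact absurd h (hd _ _ h1 (by omega) (by omega))
      · rw [h3, h6] at h
        have := ht3 _ _ h1 h4 h
        omega
  · intro s a ha
    fin_cases s
    · exact hp1 _ (by omega)
    · exact hp1 _ (by omega)
    · change (if a = 0 then p i else t (a - 1)) ∈ C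
      rcases hT a ha with ⟨h1, h2⟩ | ⟨a', h1, h2, h3⟩
      · rw [h2]
        exact hp1 _ (by omega)
      · rw [h3]
        exact ht1 _ h1

end Pool.Agent.Helper20.FS
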