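import Pool.Agent.Helper20.FS.Skel

/-!
# Block FS-K2: walks in the model

`walk_iff`: induction on `p` for all `u`, `v`.  `p = 0`: `u = el b 0`; `s.A (el b 0) v` means by `A_iff` `v = el b 1` (`n b ≥ 2`; the case of a matched
last element is excluded as `0 + 1 ≠ n b`).  Step: `∃ w, At b p w ∧ At b (p + 1) u ∧ s.A u v ∧ v ≠ w` is equivalent to
`At b (p + 1) u ∧ At b (p + 2) v`.  Let `u` be the element number `p + 1`: either `u = el b (p + 1)`, `p + 1 < n b`, `w = el b p`: the neighbours of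
`u` are `w`, and `el b (p + 2)` if `p + 2 < n b`, and the last element of the matched leg `b'` if `p + 2 = n b`; or
`u = el b' (n b + n b' - 1 - (p + 1))` with `n b ≤ p + 1`: the neighbours are `w` (which is `el b (n b - 1)` if `p + 1 = n b`) and the next element if
the index is not `0`.  All elements are different by `inj`, the matched leg is unique by `func` and different from `b` by `irr`.
`pos_iff`: `p = 0`: `At b 0 v` says `v = el b 0` (as `0 < n b`).  `p + 1`: if `At b (p + 1) v` then `At b p u` for some `u`.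
-/

set_option autoImplicit false

namespace Pool.Agent.Helper20.FS

variable {V T : Type} {s : SkRel V} {g : Prop} {n : T × Fin 3 → ℕ}
  {M : T × Fin 3 → T × Fin 3 → Prop} {el : T × Fin 3 → ℕ → V} {jn : T → V}

private lemma at_lt_h12 {b : T × Fin 3} {p : ℕ} {v : V} (hp : p < n b) :
    At n M el b p v ↔ v = el b p := by
  constructor
  · rintro (⟨_, h⟩ | ⟨b', _, h, _⟩)
    · exact h
    · omega
  · intro h
    exact Or.inl ⟨hp, h⟩

private lemma at_ge_h12 (hM : Mat M) {b b' : T × Fin 3} {p : ℕ} {v : V} (hb : M b b')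
    (hp : n b ≤ p) (hp' : p < n b + n b') :
    At n M el b p v ↔ v = el b' (n b + n b' - 1 - p) := by
  constructor
  · rintro (⟨h, _⟩ | ⟨b'', hb'', _, _, h⟩)
    · omega
    · rw [hM.func b b' b'' hb hb'']
      exact h
  · intro h
    exact Or.inr ⟨b', hb, hp, hp', h⟩

private lemma at_ge_h12' (hM : Mat M) {b b' : T × Fin 3} {p : ℕ} {v : V} (hb : M b b')
    (hp : n b ≤ p) :
    At n M el b p v ↔ (p < n b + n b' ∧ v = el b' (n b + n b' - 1 - p)) := by
  constructor
  · rintro (⟨h, _⟩ | ⟨b'', hb'', _, h3, h⟩)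
    · omega
    · rw [hM.func b b' b'' hb hb'']
      exact ⟨h3, h⟩
  · rintro ⟨hp', h⟩
    exact Or.inr ⟨b', hb, hp, hp', h⟩

private lemma at_pred_h12 {b : T × Fin 3} {p : ℕ} {v : V} (h : At n M el b (p + 1) v) :
    ∃ u, At n M el b p u := by
  rcases h with ⟨h, _⟩ | ⟨b', hb, h1, h2, _⟩
  · exact ⟨_, Or.inl ⟨by omega, rfl⟩⟩
  · by_cases hp : p < n b
    · exact ⟨_, Or.inl ⟨hp, rfl⟩⟩
    · exact ⟨_, Or.inr ⟨b', hb, by omega, by omega, rfl⟩⟩

private lemma step_h12 (h : LegModel s g n M el jn) (hM : Mat M) {b : T × Fin 3} {p : ℕ}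
    {w u v : V} (hw : At n M el b p w) (hu : At n M el b (p + 1) u) :
    (s.A u v ∧ v ≠ w) ↔ At n M el b (p + 2) v := by
  rcases hu with ⟨h1, rfl⟩ | ⟨b', hb, h1, h2, rfl⟩
  · rw [at_lt_h12 (by omega : p < n b)] at hw
    subst hw
    rw [h.A_iff b (p + 1) v h1]
    constructor
    · rintro ⟨⟨b', i', hi', rfl, ha⟩, hne⟩
      rcases ha with ⟨rfl, h3 | h3⟩ | ⟨hbb, h3, h4⟩
      · subst h3
        exact Or.inl ⟨hi', rfl⟩
      · exfalso
        apply hne
        have : i' = p := by omega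
        rw [this]
      · refine Or.inr ⟨b', hbb, by omega, by omega, ?_⟩
        congr 1
        omega
    · rintro (⟨h3, rfl⟩ | ⟨b', hbb, h3, h4, rfl⟩)
      · refine ⟨⟨b, p + 2, h3, rfl, Or.inl ⟨rfl, Or.inl rfl⟩⟩, fun he => ?_⟩
        have := (h.inj _ _ _ _ h3 (by omega) he).2
        omega
      · refine ⟨⟨b', _, by omega, rfl, Or.inr ⟨hbb, by omega, by omega⟩⟩, fun he => ?_⟩
        have h5 := (h.inj _ _ _ _ (by omega) (by omega) he).1
        subst h5
        exact hM.irr _ hbb
  · rw [h.A_iff b' _ v (by omega)]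
    by_cases hp : p < n b
    · rw [at_lt_h12 hp] at hw
      subst hw
      constructor
      · rintro ⟨⟨b'', i', hi', rfl, ha⟩, hne⟩
        rcases ha with ⟨rfl, h3 | h3⟩ | ⟨hbb, h3, h4⟩
        · omega
        · refine Or.inr ⟨b', hb, by omega, by omega, ?_⟩
          congr 1
          omega
        · exfalso
          apply hne
          have h5 : b'' = b := hM.func b' b'' b hbb (hM.symm b b' hb)
          subst h5
          congr 1
          omega
      · rw [at_ge_h12' hM hb (by omega)]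
        rintro ⟨h3, rfl⟩
        refine ⟨⟨b', _, by omega, rfl, Or.inl ⟨rfl, Or.inr (by omega)⟩⟩, fun he => ?_⟩
        have h5 := (h.inj _ _ _ _ (by omega) (by omega) he).1
        subst h5
        exact hM.irr _ hb
    · rw [at_ge_h12 hM hb (by omega) (by omega)] at hw
      subst hw
      constructor
      · rintro ⟨⟨b'', i', hi', rfl, ha⟩, hne⟩
        rcases ha with ⟨rfl, h3 | h3⟩ | ⟨hbb, h3, h4⟩
        · exfalso
          apply hne
          congr 1
          omega
        · refine Or.inr ⟨b', hb, by omega, by omega, ?_⟩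
          congr 1
          omega
        · omega
      · rw [at_ge_h12' hM hb (by omega)]
        rintro ⟨h3, rfl⟩
        refine ⟨⟨b', _, by omega, rfl, Or.inl ⟨rfl, Or.inr (by omega)⟩⟩, fun he => ?_⟩
        have h5 := (h.inj _ _ _ _ (by omega) (by omega) he).2
        omega

theorem LegModel.walk_iff (h : LegModel s g n M el jn) (hM : Mat M) (hn : ∀ b, 2 ≤ n b)
    (b : T × Fin 3) (p : ℕ) (u v : V) :
    s.walk p (el b 0) u v ↔ (At n M el b p u ∧ At n M el b (p + 1) v) := by
  have hb2 := hn b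
  induction p generalizing u v with
  | zero =>
    change (u = el b 0 ∧ s.A (el b 0) v) ↔ _
    rw [at_lt_h12 (by omega : 0 < n b), at_lt_h12 (by omega : 0 + 1 < n b)]
    refine and_congr_right fun _ => ?_
    rw [h.A_iff b 0 v (by omega)]
    constructor
    · rintro ⟨b', i', hi', rfl, ha⟩
      rcases ha with ⟨rfl, h3 | h3⟩ | ⟨hbb, h3, h4⟩
      · rw [h3]
      · omega
      · omega
    · rintro rfl
      exact ⟨b, 0 + 1, by omega, rfl, Or.inl ⟨rfl, Or.inl rfl⟩⟩
  | succ p ih =>
    change (∃ w, s.walk p (el b 0) w u ∧ s.A u v ∧ v ≠ w) ↔ _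
    constructor
    · rintro ⟨w, hw, hA⟩
      have hw' := (ih w u).1 hw
      exact ⟨hw'.2, (step_h12 h hM hw'.1 hw'.2).1 hA⟩
    · rintro ⟨hu, hv⟩
      obtain ⟨w, hw⟩ := at_pred_h12 hu
      exact ⟨w, (ih w u).2 ⟨hw, hu⟩, (step_h12 h hM hw hu).2 hv⟩

theorem LegModel.pos_iff (h : LegModel s g n M el jn) (hM : Mat M) (hn : ∀ b, 2 ≤ n b)
    (b : T × Fin 3) (p : ℕ) (v : V) : s.pos p (el b 0) v ↔ At n M el b p v := by
  have hb2 := hn b
  cases p with
  | zero =>
    change v = el b 0 ↔ _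
    rw [at_lt_h12 (by omega : 0 < n b)]
  | succ p =>
    change (∃ u, s.walk p (el b 0) u v) ↔ _
    constructor
    · rintro ⟨u, hu⟩
      exact ((h.walk_iff hM hn b p u v).1 hu).2
    · intro hv
      obtain ⟨u, hu⟩ := at_pred_h12 hv
      exact ⟨u, (h.walk_iff hM hn b p u v).2 ⟨hu, hv⟩⟩

end Pool.Agent.Helper20.FS
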